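import Pool.Agent.Lib.MP_cb4a0f_co.Pb.Stmts
import Pool.Agent.Lib.MP_cb4a0f_co.Pl.Nx6
import Pool.Agent.Lib.MP_cb4a0f_co.Main

/-!
# MP_cb4a0f_co: rotating the list at a vertex so that the nodes of an arc carving are segments
-/

open Classical

namespace RotWqo.Pb

open RotWqo.Bag RotWqo.Hk RotWqo.Pl

namespace Lin5

/-- A list in which the elements with the property `S` are consecutive splits. -/
theorem split_of_conv {α : Type*} (S : α → Prop) : ∀ (l : List α), l.Nodup →
    (∀ a b c, List.Sublist [a, b, c] l → S a → S c → S b) →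
      ∃ l₁ l₂ l₃, l = l₁ ++ l₂ ++ l₃ ∧ ∀ h ∈ l, S h ↔ h ∈ l₂ := by
  intro l
  induction l with
  | nil => exact fun _ _ => ⟨[], [], [], rfl, by simp⟩
  | cons a l ih =>
    intro hn hc
    obtain ⟨hal, hn'⟩ := List.nodup_cons.1 hn
    obtain ⟨l₁, l₂, l₃, hl, hS⟩ := ih hn' (fun x y z hs => hc x y z (hs.cons a))
    by_cases ha : S a
    · by_cases h2 : l₂ = []
      · subst h2
        refine ⟨[], [a], l, by simp, fun h hh => ?_⟩
        rcases List.mem_cons.1 hh with rfl | hh
        · simp [ha]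
        · rw [hS h hh]
          simp only [List.not_mem_nil, List.mem_singleton, false_iff]
          intro h3
          exact hal (h3 ▸ hh)
      · obtain ⟨c, hc2⟩ := List.exists_mem_of_ne_nil _ h2
        have h1 : l₁ = [] := by
          by_contra h1
          obtain ⟨b, hb⟩ := List.exists_mem_of_ne_nil _ h1
          have hbl : b ∈ l := by rw [hl]; simp [hb]
          have hcl : c ∈ l := by rw [hl]; simp [hc2]
          have hb2 : b ∉ l₂ := by
            intro hb2
            rw [hl, List.append_assoc] at hn'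
            exact (List.nodup_append.1 hn').2.2 b hb b (by simp [hb2]) rfl
          have hsub : List.Sublist [a, b, c] (a :: l) := by
            refine List.Sublist.cons_cons a ?_
            rw [hl]
            have : List.Sublist ([b] ++ [c]) (l₁ ++ l₂) :=
              List.Sublist.append (List.singleton_sublist.2 hb) (List.singleton_sublist.2 hc2)
            exact this.trans (List.sublist_append_left _ _)
          exact hb2 ((hS b hbl).1 (hc a b c hsub ha ((hS c hcl).2 hc2)))
        subst h1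
        refine ⟨[], a :: l₂, l₃, by simp [hl], fun h hh => ?_⟩
        rcases List.mem_cons.1 hh with rfl | hh
        · simp [ha]
        · rw [hS h hh, List.mem_cons]
          constructor
          · exact Or.inr
          · rintro (h3 | h3)
            · exact absurd (h3 ▸ hh) hal
            · exact h3
    · refine ⟨a :: l₁, l₂, l₃, by simp [hl], fun h hh => ?_⟩
      rcases List.mem_cons.1 hh with rfl | hh
      · simp only [ha, false_iff]
        intro h3
        exact hal (by rw [hl]; simp [h3])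
      · exact hS h hh

/-- The successor of a position. -/
theorem nx_pos {V H : Type*} (G : RotGraph V H) (v : V) (l : List H) (hl : l ~r G.rot v)
    (i : ℕ) (hi : i < l.length) (h2 : 2 ≤ l.length) :
    nx G l[i] = l[(i + 1) % l.length]'(Nat.mod_lt _ (by omega)) := by
  have hb : G.base l[i] = v := ((G.mem_rot _ _).1 (hl.mem_iff.1 (List.getElem_mem hi))).2
  obtain ⟨x, y, t, ht⟩ : ∃ x y t, l.rotate i = x :: y :: t := by
    have hlen : (l.rotate i).length = l.length := List.length_rotate _ _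
    match hm : l.rotate i with
    | [] => rw [hm] at hlen; simp at hlen; omega
    | [_] => rw [hm] at hlen; simp at hlen; omega
    | x :: y :: t => exact ⟨x, y, t, rfl⟩
  have hx : l[i] = x := by
    have h3 := List.getElem_rotate l i 0 (by rw [List.length_rotate]; omega)
    simp only [ht, List.getElem_cons_zero, zero_add, Nat.mod_eq_of_lt hi] at h3
    exact h3.symm
  have hy : l[(i + 1) % l.length]'(Nat.mod_lt _ (by omega)) = y := by
    have h3 := List.getElem_rotate l i 1 (by rw [List.length_rotate]; omega)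
    simp only [ht, List.getElem_cons_succ, List.getElem_cons_zero] at h3
    rw [h3]
    congr 2
    omega
  have hr : G.rot (G.base l[i]) ~r l[i] :: y :: t := by
    rw [hb, hx, ← ht]
    exact hl.symm.trans ⟨i, rfl⟩
  rw [nx_of_rot hr, hy]

/-- Exits between two positions. -/
theorem exit_pos (P : ℕ → Prop) (i : ℕ) : ∀ d, P i → ¬ P (i + d) →
    ∃ p, i ≤ p ∧ p < i + d ∧ P p ∧ ¬ P (p + 1) := by
  intro d
  induction d with
  | zero => exact fun h1 h2 => absurd h1 h2
  | succ d ih =>
    intro h1 h2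
    by_cases h3 : P (i + d)
    · exact ⟨i + d, by omega, by omega, h3, h2⟩
    · obtain ⟨p, h4, h5, h6⟩ := ih h1 h3
      exact ⟨p, h4, by omega, h6⟩

/-- A set with at most one exit at `v` which misses the first or the last half-edge is a
segment. -/
theorem seg_of_exit {V H : Type*} (G : RotGraph V H) (v : V) (l : List H) (hl : l ~r G.rot v)
    (S : Finset H) (hS : ∀ a ∈ S, ∀ b ∈ S, nx G a ∉ S → nx G b ∉ S → G.base a = G.base b → a = b)
    (hfl : (∀ a ∈ l.head?, a ∉ S) ∨ (∀ a ∈ l.getLast?, a ∉ S)) :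
    ∃ l₁ l₂ l₃, l = l₁ ++ l₂ ++ l₃ ∧ ∀ h ∈ l, h ∈ S ↔ h ∈ l₂ := by
  have hn : l.Nodup := hl.nodup_iff.2 (G.nodup v)
  have hbase : ∀ h ∈ l, G.base h = v := fun h hh => ((G.mem_rot _ _).1 (hl.mem_iff.1 hh)).2
  refine split_of_conv (fun h => h ∈ S) l hn ?_
  intro a b c hsub ha hc
  by_contra hb
  obtain ⟨f, hf⟩ := List.sublist_iff_exists_orderEmbedding_getElem?_eq.1 hsub
  have h0 := hf 0
  have h1 := hf 1
  have h2 := hf 2
  simp only [List.getElem?_cons_zero, List.getElem?_cons_succ] at h0 h1 h2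
  have h01 : f 0 < f 1 := f.strictMono (by norm_num)
  have h12 : f 1 < f 2 := f.strictMono (by norm_num)
  obtain ⟨h0l, h0e⟩ := List.getElem?_eq_some_iff.1 h0.symm
  obtain ⟨h1l, h1e⟩ := List.getElem?_eq_some_iff.1 h1.symm
  obtain ⟨h2l, h2e⟩ := List.getElem?_eq_some_iff.1 h2.symm
  have hpos : 0 < l.length := by omega
  set P : ℕ → Prop := fun i => l[i % l.length]'(Nat.mod_lt _ hpos) ∈ S with hP
  have P0 : P (f 0) := by
    simp only [hP, Nat.mod_eq_of_lt h0l, h0e]
    exact ha
  have P1 : ¬ P (f 1) := by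
    simp only [hP, Nat.mod_eq_of_lt h1l, h1e]
    exact hb
  have P2 : P (f 2) := by
    simp only [hP, Nat.mod_eq_of_lt h2l, h2e]
    exact hc
  have step : ∀ p, p < l.length → P p → ¬ P (p + 1) → ∃ x, ∃ hx : p < l.length, l[p] = x ∧
      x ∈ S ∧ nx G x ∉ S := by
    intro p hp h3 h4
    refine ⟨l[p], hp, rfl, ?_, ?_⟩
    · simpa only [hP, Nat.mod_eq_of_lt hp] using h3
    · rw [nx_pos G v l hl p hp (by omega)]
      exact h4
  obtain ⟨p, hp1, hp2, hp3, hp4⟩ := exit_pos P (f 0) (f 1 - f 0) P0 (by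
    rw [show f 0 + (f 1 - f 0) = f 1 by omega]; exact P1)
  obtain ⟨q, hq1, hq2, hq3, hq4⟩ : ∃ q, f 2 ≤ q ∧ q < l.length ∧ P q ∧ ¬ P (q + 1) := by
    rcases hfl with h3 | h3
    · have h4 : ¬ P (f 2 + (l.length - f 2)) := by
        rw [show f 2 + (l.length - f 2) = l.length by omega]
        simp only [hP, Nat.mod_self]
        apply h3
        rw [List.head?_eq_getElem?, Option.mem_def, List.getElem?_eq_getElem hpos]
      obtain ⟨q, h5, h6, h7⟩ := exit_pos P (f 2) _ P2 h4
      exact ⟨q, h5, by omega, h7⟩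
    · have h4 : ¬ P (f 2 + (l.length - 1 - f 2)) := by
        rw [show f 2 + (l.length - 1 - f 2) = l.length - 1 by omega]
        simp only [hP, Nat.mod_eq_of_lt (show l.length - 1 < l.length by omega)]
        apply h3
        rw [List.getLast?_eq_getElem?, Option.mem_def, List.getElem?_eq_getElem]
      obtain ⟨q, h5, h6, h7⟩ := exit_pos P (f 2) _ P2 h4
      exact ⟨q, h5, by omega, h7⟩
  obtain ⟨x, hx, hx1, hx2, hx3⟩ := step p (by omega) hp3 hp4
  obtain ⟨y, hy, hy1, hy2, hy3⟩ := step q hq2 hq3 hq4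
  have hxl : x ∈ l := hx1 ▸ List.getElem_mem hx
  have hyl : y ∈ l := hy1 ▸ List.getElem_mem hy
  have hxy : x = y := hS x hx2 y hy2 hx3 hy3 (by rw [hbase x hxl, hbase y hyl])
  have hpq : p = q := (hn.getElem_inj_iff (hi := hx) (hj := hy)).1 (by rw [hx1, hy1, hxy])
  omega

/-- The smallest node which contains a nonempty set. -/
theorem min_node {α : Type*} (D : Finset α) (_ : D.Nonempty) : ∀ (t : Tree α), D ⊆ t.set →
    ∃ s, IsSub s t ∧ D ⊆ s.set ∧ ((∃ x, s = .leaf x) ∨ ∃ l r, s = .node l r ∧ ¬ D ⊆ l.set ∧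
      ¬ D ⊆ r.set) := by
  intro t
  induction t with
  | leaf x => exact fun h => ⟨_, IsSub.refl, h, Or.inl ⟨x, rfl⟩⟩
  | node l r ihl ihr =>
    intro h
    by_cases h1 : D ⊆ l.set
    · obtain ⟨s, h2, h3⟩ := ihl h1
      exact ⟨s, IsSub.left _ _ h2, h3⟩
    · by_cases h4 : D ⊆ r.set
      · obtain ⟨s, h2, h3⟩ := ihr h4
        exact ⟨s, IsSub.right _ _ h2, h3⟩
      · exact ⟨_, IsSub.refl, h, Or.inr ⟨l, r, rfl, h1, h4⟩⟩

end Lin5

open Lin5 in
theorem III1_5 : StLin := by
  intro k V H G A t v hA ht hv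
  obtain ⟨hnd, hset, hnode⟩ := ht
  by_cases hD : G.rot v = []
  · refine ⟨[], by rw [hD], fun s _ => ⟨[], [], [], rfl, by simp⟩⟩
  set D : Finset H := (G.rot v).toFinset with hDdef
  have hDne : D.Nonempty := by
    obtain ⟨x, hx⟩ := List.exists_mem_of_ne_nil _ hD
    exact ⟨x, by simpa [hDdef] using hx⟩
  have hDmem : ∀ h, h ∈ D ↔ h ∈ G.darts ∧ G.base h = v := by
    intro h
    rw [hDdef, List.mem_toFinset, G.mem_rot]
  have hDt : D ⊆ t.set := by
    intro h hh
    rw [hset]
    obtain ⟨h1, h2⟩ := (hDmem h).1 hh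
    exact Finset.mem_filter.2 ⟨h1, h2 ▸ hv⟩
  obtain ⟨s0, hs0, hDs0, hcase⟩ := min_node D hDne t hDt
  have hwhole : ∀ (l : List H), l ~r G.rot v → ∀ s : Tree H, D ⊆ s.set →
      ∃ l₁ l₂ l₃, l = l₁ ++ l₂ ++ l₃ ∧ ∀ h ∈ l, h ∈ s.set ↔ h ∈ l₂ := by
    intro l hl s hs
    refine ⟨[], l, [], by simp, fun h hh => ?_⟩
    simp only [hh, iff_true]
    apply hs
    rw [hDdef, List.mem_toFinset]
    exact hl.mem_iff.1 hh
  have hnone : ∀ (l : List H), l ~r G.rot v → ∀ s : Tree H, Disjoint D s.set →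
      ∃ l₁ l₂ l₃, l = l₁ ++ l₂ ++ l₃ ∧ ∀ h ∈ l, h ∈ s.set ↔ h ∈ l₂ := by
    intro l hl s hs
    refine ⟨l, [], [], by simp, fun h hh => ?_⟩
    simp only [List.not_mem_nil, iff_false]
    intro h1
    refine Finset.disjoint_left.1 hs ?_ h1
    rw [hDdef, List.mem_toFinset]
    exact hl.mem_iff.1 hh
  rcases hcase with ⟨x, rfl⟩ | ⟨s1, s2, rfl, hn1, hn2⟩
  · -- one half-edge only
    have hDx : D ⊆ {x} := by rwa [TL.set_leaf] at hDs0
    have hDx' : D = {x} := Finset.Nonempty.subset_singleton_iff hDne |>.1 hDx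
    refine ⟨G.rot v, List.IsRotated.refl _, fun s hs => ?_⟩
    by_cases hxs : x ∈ s.set
    · exact hwhole _ (List.IsRotated.refl _) s (by rw [hDx']; simpa using hxs)
    · exact hnone _ (List.IsRotated.refl _) s (by rw [hDx']; simpa using hxs)
  · have hs1 : IsSub s1 t := TL.sub_trans (IsSub.left _ _ IsSub.refl) hs0
    have hs2 : IsSub s2 t := TL.sub_trans (IsSub.right _ _ IsSub.refl) hs0
    have hdis : Disjoint s1.set s2.set :=
      (TL.nodup_node.1 (IsSub.leaves_nodup hs0 hnd)).2.2
    rw [TL.set_node] at hDs0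
    set R : List H := G.rot v with hR
    have hRD : ∀ h, h ∈ R ↔ h ∈ D := fun h => by rw [hDdef, List.mem_toFinset]
    obtain ⟨x1, hx1, hx1'⟩ := Finset.not_subset.1 hn2
    obtain ⟨x2, hx2, hx2'⟩ := Finset.not_subset.1 hn1
    have hx1s : x1 ∈ s1.set := (Finset.mem_union.1 (hDs0 hx1)).resolve_right hx1'
    obtain ⟨i, hi, hie⟩ := List.mem_iff_getElem.1 ((hRD x1).2 hx1)
    obtain ⟨j, hj, hje⟩ := List.mem_iff_getElem.1 ((hRD x2).2 hx2)
    have hpos : 0 < R.length := by omega
    set P : ℕ → Prop := fun i => R[i % R.length]'(Nat.mod_lt _ hpos) ∈ s1.set with hP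
    have Pi : P i := by
      simp only [hP, Nat.mod_eq_of_lt hi, hie]
      exact hx1s
    have Pj : ¬ P (i + (j + R.length - i)) := by
      rw [show i + (j + R.length - i) = j + R.length by omega]
      simp only [hP, Nat.add_mod_right, Nat.mod_eq_of_lt hj, hje]
      exact hx2'
    obtain ⟨p, -, -, hp1, hp2⟩ := exit_pos P i _ Pi Pj
    have hl : R.rotate (p + 1) ~r R := (show R ~r R.rotate (p + 1) from ⟨p + 1, rfl⟩).symm
    set l : List H := R.rotate (p + 1) with hldef
    have hlen : l.length = R.length := List.length_rotate _ _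
    have hfirst : ∀ a ∈ l.head?, a = R[(p + 1) % R.length]'(Nat.mod_lt _ hpos) := by
      intro a ha
      rw [List.head?_eq_getElem?, Option.mem_def] at ha
      obtain ⟨h1, h2⟩ := List.getElem?_eq_some_iff.1 ha
      rw [← h2]
      have h3 := List.getElem_rotate R (p + 1) 0 (by rw [← hldef]; exact h1)
      rw [show R[(p + 1) % R.length]'(Nat.mod_lt _ hpos) =
        R[(0 + (p + 1)) % R.length]'(Nat.mod_lt _ hpos) by simp only [zero_add]]
      exact h3
    have hlast : ∀ a ∈ l.getLast?, a = R[p % R.length]'(Nat.mod_lt _ hpos) := by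
      intro a ha
      rw [List.getLast?_eq_getElem?, Option.mem_def] at ha
      obtain ⟨h1, h2⟩ := List.getElem?_eq_some_iff.1 ha
      rw [← h2]
      have h3 := List.getElem_rotate R (p + 1) (l.length - 1) (by rw [← hldef]; exact h1)
      have h4 : (l.length - 1 + (p + 1)) % R.length = p % R.length := by
        rw [hlen, show R.length - 1 + (p + 1) = p + R.length by omega, Nat.add_mod_right]
      simp only [h4] at h3
      exact h3
    have hfD : R[(p + 1) % R.length]'(Nat.mod_lt _ hpos) ∈ D := (hRD _).1 (List.getElem_mem _)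
    have hf2 : R[(p + 1) % R.length]'(Nat.mod_lt _ hpos) ∈ s2.set :=
      (Finset.mem_union.1 (hDs0 hfD)).resolve_left hp2
    refine ⟨l, hl, fun s hs => ?_⟩
    have hex := (hnode s hs).1
    rcases TL.laminar hnd hs hs1 with h1 | h1 | h1
    · refine seg_of_exit G v l hl s.set hex (Or.inr fun a ha h2 => ?_)
      rw [hlast a ha] at h2
      exact Finset.disjoint_left.1 h1 h2 hp1
    · refine seg_of_exit G v l hl s.set hex (Or.inl fun a ha h2 => ?_)
      rw [hfirst a ha] at h2
      exact hp2 (h1 h2)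
    · rcases TL.laminar hnd hs hs2 with h3 | h3 | h3
      · refine seg_of_exit G v l hl s.set hex (Or.inl fun a ha h2 => ?_)
        rw [hfirst a ha] at h2
        exact Finset.disjoint_left.1 h3 h2 hf2
      · exact absurd (h3 (h1 hp1)) (Finset.disjoint_left.1 hdis hp1)
      · exact hwhole l hl s (hDs0.trans (Finset.union_subset h1 h3))

end RotWqo.Pb
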