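import Pool.Agent.Lib.MP_cb4a0f_co.Pb.III1_5

/-!
# MP_cb4a0f_co: torsos of graphs with arc carvings have bounded arc width
-/

open Classical

namespace RotWqo.Pb

open RotWqo.Bag RotWqo.Hk RotWqo.Pl

namespace Tor5

variable {V H : Type*}

/-! ### Trees -/

/-- Renaming and deletion of leaves. -/
theorem fmap_tree {α β : Type*} (f : α → Option β) : ∀ t : Tree α,
    t.leaves.filterMap f = [] ∨ ∃ t' : Tree β, t'.leaves = t.leaves.filterMap f ∧
      ∀ s', IsSub s' t' → ∃ s, IsSub s t ∧ s'.leaves = s.leaves.filterMap f := by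
  intro t
  induction t with
  | leaf x =>
    cases hx : f x with
    | none => exact Or.inl (by simp [Tree.leaves, hx])
    | some y =>
      refine Or.inr ⟨.leaf y, by simp [Tree.leaves, hx], fun s' hs' => ?_⟩
      cases hs'
      exact ⟨_, IsSub.refl, by simp [Tree.leaves, hx]⟩
  | node l r ihl ihr =>
    rcases ihl with hl | ⟨l', hl, hl'⟩
    · rcases ihr with hr | ⟨r', hr, hr'⟩
      · exact Or.inl (by simp [Tree.leaves, hl, hr])
      · refine Or.inr ⟨r', by simp [Tree.leaves, hl, hr], fun s' hs' => ?_⟩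
        obtain ⟨s, h1, h2⟩ := hr' s' hs'
        exact ⟨s, IsSub.right _ _ h1, h2⟩
    · rcases ihr with hr | ⟨r', hr, hr'⟩
      · refine Or.inr ⟨l', by simp [Tree.leaves, hl, hr], fun s' hs' => ?_⟩
        obtain ⟨s, h1, h2⟩ := hl' s' hs'
        exact ⟨s, IsSub.left _ _ h1, h2⟩
      · refine Or.inr ⟨.node l' r', by simp [Tree.leaves, hl, hr], fun s' hs' => ?_⟩
        cases hs' with
        | refl => exact ⟨_, IsSub.refl, by simp [Tree.leaves, hl, hr]⟩
        | left _ _ h =>
          obtain ⟨s, h1, h2⟩ := hl' s' h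
          exact ⟨s, IsSub.left _ _ h1, h2⟩
        | right _ _ h =>
          obtain ⟨s, h1, h2⟩ := hr' s' h
          exact ⟨s, IsSub.right _ _ h1, h2⟩

theorem nodup_filterMap {α β : Type*} (f : α → Option β)
    (hf : ∀ a a' b, f a = some b → f a' = some b → a = a') (l : List α) (hl : l.Nodup) :
    (l.filterMap f).Nodup := by
  refine List.Nodup.filterMap ?_ hl
  intro a a' b hb hb'
  exact hf a a' b hb hb'

/-! ### Classes -/

theorem cls_of_mem {C : Finset (Finset V)} (hC : ∀ X ∈ C, ∀ Y ∈ C, X ≠ Y → Disjoint X Y) {v : V}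
    {Y : Finset V} (hY : Y ∈ C) (hv : v ∈ Y) : Tc.cls C v = .inr Y := by
  unfold Tc.cls
  have hex : ∃ X ∈ C, v ∈ X := ⟨Y, hY, hv⟩
  rw [dif_pos hex]
  congr 1
  by_contra hne
  exact Finset.disjoint_left.1 (hC _ hex.choose_spec.1 _ hY hne) hex.choose_spec.2 hv

theorem cls_of_not {C : Finset (Finset V)} {v : V} (h : ∀ Y ∈ C, v ∉ Y) :
    Tc.cls C v = .inl v := by
  unfold Tc.cls
  rw [dif_neg]
  rintro ⟨X, h1, h2⟩
  exact h X h1 h2

/-! ### The hypotheses -/

/-- The vertices of the piece `(G, A)` are those of `B` and those in the disjoint sets of `C`; the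
sets of `C` other than `O` are connected and contained in `A`. -/
structure Hyp (M : ℕ) (G : RotGraph V H) (A : Finset V) (C : Finset (Finset V))
    (B O : Finset V) : Prop where
  sub : A ⊆ G.verts
  cutA : cut G A = 0
  BA : B ⊆ A
  dj : ∀ X ∈ C, ∀ Y ∈ C, X ≠ Y → Disjoint X Y
  cov : ∀ v ∈ G.verts, v ∈ B ∨ ∃ Y ∈ C, v ∈ Y
  BC : ∀ v ∈ B, ∀ Y ∈ C, v ∉ Y
  out : ∀ v ∈ G.verts, v ∉ A → O ∈ C ∧ v ∈ O
  chi : ∀ Y ∈ C, Y ≠ O → Y ⊆ A ∧ Tc.Conn G Y ∧ 0 < cut G Y
  cuts : ∀ Y ∈ C, cut G Y ≤ M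

/-- The set `Y` has half-edges at `A` both in `s` and not in `s`. -/
def Spl (G : RotGraph V H) (A : Finset V) (s : Finset H) (Y : Finset V) : Prop :=
  (∃ h ∈ dts G A, G.base h ∈ Y ∧ h ∈ s) ∧ ∃ h ∈ dts G A, G.base h ∈ Y ∧ h ∉ s

/-- A set closed under the successor contains all half-edges at a vertex or none. -/
theorem closed_nx (G : RotGraph V H) (s : Finset H) (h g : H) (hh : h ∈ G.darts)
    (hg : g ∈ G.darts) (hb : G.base g = G.base h) (hs : h ∈ s)
    (hc : ∀ x ∈ s, G.base x = G.base h → nx G x ∈ s) : g ∈ s := by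
  set l := G.rot (G.base h) with hl
  obtain ⟨i, hi, hie⟩ := List.mem_iff_getElem.1 ((G.mem_rot (G.base h) h).2 ⟨hh, rfl⟩)
  obtain ⟨j, hj, hje⟩ := List.mem_iff_getElem.1 ((G.mem_rot (G.base h) g).2 ⟨hg, hb⟩)
  have hpos : 0 < l.length := by rw [hl]; omega
  rcases Nat.lt_or_ge l.length 2 with h2 | h2
  · have h3 : i = j := by
      rw [hl] at h2
      omega
    subst h3
    rw [← hje, hie]
    exact hs
  · by_contra hgs
    have P0 : l[i % l.length]'(Nat.mod_lt _ hpos) ∈ s := by
      simp only [Nat.mod_eq_of_lt (show i < l.length from hi)]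
      rw [show l[i] = h from hie]
      exact hs
    have P1 : ¬ l[(i + (j + l.length - i)) % l.length]'(Nat.mod_lt _ hpos) ∈ s := by
      have e : (i + (j + l.length - i)) % l.length = j := by
        rw [show i + (j + l.length - i) = j + l.length by
          have : i < l.length := hi
          omega, Nat.add_mod_right, Nat.mod_eq_of_lt (show j < l.length from hj)]
      simp only [e]
      rw [show l[j] = g from hje]
      exact hgs
    obtain ⟨p, -, -, hp1, hp2⟩ := Lin5.exit_pos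
      (fun i => l[i % l.length]'(Nat.mod_lt _ hpos) ∈ s) i _ P0 P1
    apply hp2
    have h3 := hc _ hp1 (((G.mem_rot _ _).1 (List.getElem_mem _)).2)
    rw [Lin5.nx_pos G (G.base h) l (List.IsRotated.refl _) (p % l.length)
      (Nat.mod_lt _ hpos) h2] at h3
    simp only [Nat.mod_add_mod] at h3
    exact h3

/-- A connected split set has an exit. -/
theorem exit_of_spl {G : RotGraph V H} {A Y : Finset V} {s : Finset H} (hs : s ⊆ G.darts)
    (hY : Tc.Conn G Y) (hsp : Spl G A s Y) :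
    ∃ h ∈ s, G.base h ∈ Y ∧ (nx G h ∉ s ∨ G.opp h ∉ s) := by
  by_contra hcon
  push Not at hcon
  obtain ⟨⟨h1, h1A, h1Y, h1s⟩, h2, h2A, h2Y, h2s⟩ := hsp
  have pure : ∀ h ∈ s, G.base h ∈ Y → ∀ g ∈ G.darts, G.base g = G.base h → g ∈ s := by
    intro h hh hY g hg hb
    exact closed_nx G s h g (hs hh) hg hb hh
      (fun x hx hxb => (hcon x hx (by rw [hxb]; exact hY)).1)
  set Z : Finset V := Y.filter (fun v => ∃ h ∈ s, G.base h = v) with hZ
  have h3 := hY Z (Finset.filter_subset _ _) ⟨G.base h1, Finset.mem_filter.2 ⟨h1Y, h1, h1s, rfl⟩⟩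
    (by
      intro he
      have h4 : G.base h2 ∈ Z := by rw [he]; exact h2Y
      obtain ⟨-, g, hg, hgb⟩ := Finset.mem_filter.1 h4
      exact h2s (pure g hg (by rw [hgb]; exact h2Y) h2 (Finset.mem_filter.1 h2A).1 hgb.symm))
  apply h3
  intro h hh hb hb'
  obtain ⟨h4, g, hg, hgb⟩ := Finset.mem_filter.1 hb
  have h5 : h ∈ s := pure g hg (by rw [hgb]; exact h4) h hh hgb.symm
  have h6 := (hcon h h5 h4).2
  obtain ⟨h7, h8⟩ := Finset.mem_sdiff.1 hb'
  exact h8 (Finset.mem_filter.2 ⟨h7, _, h6, rfl⟩)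

/-- The number of split sets. -/
theorem card_spl {k M : ℕ} {G : RotGraph V H} {A : Finset V} {C : Finset (Finset V)}
    {B O : Finset V} (hy : Hyp M G A C B O) {s : Finset H} (hs : s ⊆ G.darts)
    (h1 : (s.filter (fun h => nx G h ∉ s)).card ≤ k)
    (h2 : (s.filter (fun h => G.opp h ∉ s)).card ≤ k) :
    (C.filter (fun Y => Spl G A s Y)).card ≤ 2 * k + 1 := by
  set D := C.filter (fun Y => Spl G A s Y ∧ Y ≠ O) with hD
  have hsub : C.filter (fun Y => Spl G A s Y) ⊆ insert O D := by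
    intro Y hY
    obtain ⟨h3, h4⟩ := Finset.mem_filter.1 hY
    by_cases h5 : Y = O
    · rw [h5]
      exact Finset.mem_insert_self _ _
    · exact Finset.mem_insert_of_mem (Finset.mem_filter.2 ⟨h3, h4, h5⟩)
  have hDc : D.card ≤ 2 * k := by
    have hex : ∀ Y ∈ D, ∃ h, h ∈ s ∧ G.base h ∈ Y ∧ (nx G h ∉ s ∨ G.opp h ∉ s) := by
      intro Y hY
      obtain ⟨h3, h4, h5⟩ := Finset.mem_filter.1 hY
      obtain ⟨h, h6, h7⟩ := exit_of_spl hs (hy.chi Y h3 h5).2.1 h4
      exact ⟨h, h6, h7⟩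
    rcases D.eq_empty_or_nonempty with hD0 | ⟨Y0, hY0⟩
    · rw [hD0]
      simp
    obtain ⟨h0, -⟩ := hex Y0 hY0
    have : Nonempty H := ⟨h0⟩
    choose! g hg using hex
    have h3 : D.card ≤ (s.filter (fun h => nx G h ∉ s) ∪ s.filter (fun h => G.opp h ∉ s)).card := by
      refine Finset.card_le_card_of_injOn g ?_ ?_
      · intro Y hY
        obtain ⟨h4, h5, h6⟩ := hg Y hY
        rw [Finset.mem_coe, Finset.mem_union, Finset.mem_filter, Finset.mem_filter]
        tauto
      · intro Y hY Z hZ he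
        by_contra hne
        have h4 := (hg Y hY).2.1
        have h5 := (hg Z hZ).2.1
        rw [← he] at h5
        exact Finset.disjoint_left.1 (hy.dj Y (Finset.mem_filter.1 hY).1 Z
          (Finset.mem_filter.1 hZ).1 hne) h4 h5
    have h4 := Finset.card_union_le (s.filter (fun h => nx G h ∉ s))
      (s.filter (fun h => G.opp h ∉ s))
    omega
  have h3 := Finset.card_le_card hsub
  have h4 := Finset.card_insert_le O D
  omega

/-- The boundary half-edges of the split sets. -/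
noncomputable def Bh (G : RotGraph V H) (A : Finset V) (C : Finset (Finset V)) (s : Finset H) :
    Finset H := (C.filter (fun Y => Spl G A s Y)).biUnion (bd G)

theorem card_Bh {k M : ℕ} {G : RotGraph V H} {A : Finset V} {C : Finset (Finset V)}
    {B O : Finset V} (hy : Hyp M G A C B O) {s : Finset H} (hs : s ⊆ G.darts)
    (h1 : (s.filter (fun h => nx G h ∉ s)).card ≤ k)
    (h2 : (s.filter (fun h => G.opp h ∉ s)).card ≤ k) :
    (Bh G A C s).card ≤ (2 * k + 1) * M := by
  have h3 : (Bh G A C s).card ≤ (C.filter (fun Y => Spl G A s Y)).card * M :=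
    Finset.card_biUnion_le_card_mul _ _ _ fun Y hY => hy.cuts Y (Finset.mem_filter.1 hY).1
  exact h3.trans (Nat.mul_le_mul_right _ (card_spl hy hs h1 h2))

/-! ### The torso -/

/-- The contracted graph with other first half-edges. -/
noncomputable def rotK (G : RotGraph V H) (C : Finset (Finset V)) (o : Finset V → List H)
    (L : V → List H) (hL : ∀ v, L v ~r G.rot v) :
    RotGraph (V ⊕ Finset V) (H ⊕ (Finset V × Bool)) where
  verts := (ctrO G C o).verts
  darts := (ctrO G C o).darts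
  base := (ctrO G C o).base
  opp := (ctrO G C o).opp
  rot := fun x => match x with
    | .inl v => if Tc.cls C v = .inl v then (L v).map .inl else []
    | .inr X => (ctrO G C o).rot (.inr X)
  base_mem := (ctrO G C o).base_mem
  opp_mem := (ctrO G C o).opp_mem
  opp_opp := (ctrO G C o).opp_opp
  opp_ne := (ctrO G C o).opp_ne
  nodup := by
    rintro (v | X)
    · simp only
      split_ifs
      · exact ((hL v).nodup_iff.2 (G.nodup v)).map Sum.inl_injective
      · exact List.nodup_nil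
    · exact (ctrO G C o).nodup (.inr X)
  mem_rot := by
    rintro (v | X) h
    · rw [← (ctrO G C o).mem_rot (.inl v) h]
      change h ∈ (if Tc.cls C v = .inl v then (L v).map Sum.inl else []) ↔
        h ∈ (if Tc.cls C v = .inl v then (G.rot v).map Sum.inl else [])
      split_ifs
      · rw [List.mem_map, List.mem_map]
        simp only [(hL v).mem_iff]
      · exact Iff.rfl
    · exact (ctrO G C o).mem_rot (.inr X) h

theorem rotEq_rotK (G : RotGraph V H) (C : Finset (Finset V)) (o : Finset V → List H)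
    (L : V → List H) (hL : ∀ v, L v ~r G.rot v) : RotEq (ctrO G C o) (rotK G C o L hL) := by
  refine ⟨rfl, rfl, rfl, rfl, ?_⟩
  rintro (v | X)
  · change (if Tc.cls C v = .inl v then (L v).map Sum.inl else []) ~r
      (if Tc.cls C v = .inl v then (G.rot v).map Sum.inl else [])
    split_ifs
    · exact (hL v).map _
    · exact List.IsRotated.refl _
  · exact List.IsRotated.refl _

section core

variable {k M : ℕ} {G : RotGraph V H} {A : Finset V} {C : Finset (Finset V)} {B O : Finset V}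
  {o : Finset V → List H} {L : V → List H} {hL : ∀ v, L v ~r G.rot v}

/-- The hubs. -/
noncomputable def hub (B : Finset V) (i : Fin B.card) : V ⊕ Finset V :=
  .inl (B.equivFin.symm i).1

theorem isHub_iff (x : V ⊕ Finset V) : Arc.IsHub (hub B) x ↔ ∃ v ∈ B, x = .inl v := by
  constructor
  · rintro ⟨i, rfl⟩
    exact ⟨_, (B.equivFin.symm i).2, rfl⟩
  · rintro ⟨v, hv, rfl⟩
    refine ⟨B.equivFin ⟨v, hv⟩, ?_⟩
    simp [hub]

theorem hub_inj : Function.Injective (hub B) := by
  intro i j hij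
  simp only [hub, Sum.inl.injEq] at hij
  exact B.equivFin.symm.injective (Subtype.ext hij)

/-- Kept half-edges. -/
theorem mem_K_inl (h : H) : (Sum.inl h : H ⊕ (Finset V × Bool)) ∈ (rotK G C o L hL).darts ↔
    h ∈ G.darts ∧ ∀ X, Tc.cls C (G.base h) = .inr X → Tc.cls C (G.base (G.opp h)) ≠ .inr X := by
  change Sum.inl h ∈ Tc.ctrD G C ↔ _
  simp only [Tc.ctrD, Finset.mem_union, Finset.mem_image, Finset.mem_filter]
  constructor
  · rintro (⟨a, h1, h2⟩ | ⟨a, h1, h2⟩)
    · cases h2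
      exact h1
    · cases h2
  · intro h1
    exact Or.inl ⟨h, h1, rfl⟩

theorem kept_A (hy : Hyp M G A C B O) {h : H}
    (hh : (Sum.inl h : H ⊕ (Finset V × Bool)) ∈ (rotK G C o L hL).darts) : h ∈ dts G A := by
  obtain ⟨h1, h2⟩ := (mem_K_inl h).1 hh
  refine Finset.mem_filter.2 ⟨h1, ?_⟩
  by_contra h3
  have h4 : G.base (G.opp h) ∉ A := by
    intro h4
    have h5 : G.opp h ∈ bd G A :=
      Finset.mem_filter.2 ⟨G.opp_mem h h1, h4, by rw [G.opp_opp h h1]; exact h3⟩
    have h6 : bd G A = ∅ := Finset.card_eq_zero.1 hy.cutA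
    rw [h6] at h5
    exact absurd h5 (Finset.notMem_empty _)
  obtain ⟨h5, h6⟩ := hy.out _ (G.base_mem h h1) h3
  obtain ⟨-, h7⟩ := hy.out _ (G.base_mem _ (G.opp_mem h h1)) h4
  exact h2 O (cls_of_mem hy.dj h5 h6) (cls_of_mem hy.dj h5 h7)

theorem kept_bd (hy : Hyp M G A C B O) {h : H} {Y : Finset V} (hY : Y ∈ C) (hb : G.base h ∈ Y)
    (hh : (Sum.inl h : H ⊕ (Finset V × Bool)) ∈ (rotK G C o L hL).darts) : h ∈ bd G Y := by
  obtain ⟨h1, h2⟩ := (mem_K_inl h).1 hh
  refine Finset.mem_filter.2 ⟨h1, hb, fun h3 => ?_⟩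
  exact h2 Y (cls_of_mem hy.dj hY hb) (cls_of_mem hy.dj hY h3)

theorem cls_B (hy : Hyp M G A C B O) {v : V} (hv : v ∈ B) : Tc.cls C v = .inl v :=
  cls_of_not (hy.BC v hv)

/-- The sets of units that belong to the sets of half-edges: `e` is the half-edge that represents
the set. -/
def Rep (G : RotGraph V H) (C : Finset (Finset V)) (B : Finset V)
    (e : Finset V → Option H) (s : Finset H)
    (S : Finset ((V ⊕ Finset V) ⊕ (H ⊕ (Finset V × Bool)))) : Prop :=
  (∀ h ∈ G.darts, G.base h ∈ B → (Sum.inr (Sum.inl h) ∈ S ↔ h ∈ s)) ∧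
    ∀ Y ∈ C, ∀ g, e Y = some g → (Sum.inl (Sum.inr Y) ∈ S ↔ g ∈ s)

theorem ecut_le (hy : Hyp M G A C B O) {e : Finset V → Option H}
    (he : ∀ Y ∈ C, (∀ h, e Y = some h → h ∈ dts G A ∧ G.base h ∈ Y) ∧
      (e Y = none → ∀ h ∈ dts G A, G.base h ∉ Y))
    {s : Finset H} (hs : s ⊆ dts G A)
    (h1 : (s.filter (fun h => nx G h ∉ s)).card ≤ k)
    (h2 : (s.filter (fun h => G.opp h ∉ s)).card ≤ k)
    {S : Finset ((V ⊕ Finset V) ⊕ (H ⊕ (Finset V × Bool)))} (hS : Rep G C B e s S) :
    Arc.ecut (rotK G C o L hL) (hub B) S ≤ k + 2 * ((2 * k + 1) * M) := by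
  have hs' : s ⊆ G.darts := hs.trans (Finset.filter_subset _ _)
  have key : ∀ h, (Sum.inl h : H ⊕ (Finset V × Bool)) ∈ (rotK G C o L hL).darts →
      h ∉ Bh G A C s → (Arc.inn (rotK G C o L hL) (hub B) S (.inl h) ↔ h ∈ s) := by
    intro h hh hB
    have hA := kept_A hy hh
    obtain ⟨hd, hbA⟩ := Finset.mem_filter.1 hA
    rcases hy.cov _ (hy.sub hbA) with h3 | ⟨Y, hY, h3⟩
    · have h4 : Arc.IsHub (hub B) ((rotK G C o L hL).base (.inl h)) := by
        rw [isHub_iff]
        exact ⟨_, h3, cls_B hy h3⟩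
      rw [Arc.inn_hub h4]
      exact hS.1 h hd h3
    · have h5 : (rotK G C o L hL).base (.inl h) = .inr Y := cls_of_mem hy.dj hY h3
      have h4 : ¬ Arc.IsHub (hub B) ((rotK G C o L hL).base (.inl h)) := by
        rw [isHub_iff, h5]
        rintro ⟨v, -, h6⟩
        cases h6
      rw [Arc.inn_nonhub h4, h5]
      have hns : ¬ Spl G A s Y := by
        intro h6
        exact hB (Finset.mem_biUnion.2 ⟨Y, Finset.mem_filter.2 ⟨hY, h6⟩, kept_bd hy hY h3 hh⟩)
      cases hge : e Y with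
      | none => exact absurd h3 ((he Y hY).2 hge h hA)
      | some g =>
        rw [hS.2 Y hY g hge]
        obtain ⟨h7, h8⟩ := (he Y hY).1 g hge
        constructor
        · intro hg
          by_contra h6
          exact hns ⟨⟨g, h7, h8, hg⟩, h, hA, h3, h6⟩
        · intro h6
          by_contra hg
          exact hns ⟨⟨h, hA, h3, h6⟩, g, h7, h8, hg⟩
  have hsub : Arc.bdx (rotK G C o L hL) (hub B) S ⊆
      ((s.filter (fun h => G.opp h ∉ s)) ∪ (Bh G A C s ∪ (Bh G A C s).image G.opp)).image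
        Sum.inl := by
    intro d hd
    obtain ⟨hd1, hd2, hd3⟩ := Arc.mem_bdx.1 hd
    rcases d with h | p
    · refine Finset.mem_image.2 ⟨h, ?_, rfl⟩
      by_cases hB : h ∈ Bh G A C s
      · exact Finset.mem_union_right _ (Finset.mem_union_left _ hB)
      · by_cases hB' : G.opp h ∈ Bh G A C s
        · refine Finset.mem_union_right _ (Finset.mem_union_right _ (Finset.mem_image.2
            ⟨_, hB', ?_⟩))
          exact G.opp_opp h ((mem_K_inl h).1 hd1).1
        · refine Finset.mem_union_left _ (Finset.mem_filter.2 ⟨(key h hd1 hB).1 hd2, ?_⟩)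
          intro h3
          have h4 : (Sum.inl (G.opp h) : H ⊕ (Finset V × Bool)) ∈ (rotK G C o L hL).darts :=
            (rotK G C o L hL).opp_mem _ hd1
          exact hd3 ((key (G.opp h) h4 hB').2 h3)
    · exfalso
      apply hd3
      have h4 : ∀ q, ¬ Arc.IsHub (hub B) ((rotK G C o L hL).base (.inr q)) := by
        intro q
        rw [isHub_iff]
        rintro ⟨v, -, h6⟩
        cases h6
      have h5 : (rotK G C o L hL).opp (.inr p) = .inr (p.1, !p.2) := rfl
      rw [Arc.inn_nonhub (h4 p)] at hd2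
      rw [h5, Arc.inn_nonhub (h4 _)]
      exact hd2
  have hB := card_Bh hy hs' h1 h2
  have h3 : Arc.ecut (rotK G C o L hL) (hub B) S ≤
      ((s.filter (fun h => G.opp h ∉ s)) ∪ (Bh G A C s ∪ (Bh G A C s).image G.opp)).card :=
    (Finset.card_le_card hsub).trans Finset.card_image_le
  have h4 := Finset.card_union_le (s.filter (fun h => G.opp h ∉ s))
    (Bh G A C s ∪ (Bh G A C s).image G.opp)
  have h5 := Finset.card_union_le (Bh G A C s) ((Bh G A C s).image G.opp)
  have h6 : ((Bh G A C s).image G.opp).card ≤ (Bh G A C s).card := Finset.card_image_le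
  omega

/-- The nodes are segments at the hubs. -/
theorem seg_ok (hy : Hyp M G A C B O) {e : Finset V → Option H} {s : Finset H}
    {S : Finset ((V ⊕ Finset V) ⊕ (H ⊕ (Finset V × Bool)))} (hS : Rep G C B e s S)
    (hseg : ∀ v ∈ B, ∃ l₁ l₂ l₃, L v = l₁ ++ l₂ ++ l₃ ∧ ∀ h ∈ L v, h ∈ s ↔ h ∈ l₂)
    (i : Fin B.card) : Arc.Seg (rotK G C o L hL) S (hub B i) := by
  have hv : (B.equivFin.symm i).1 ∈ B := (B.equivFin.symm i).2
  obtain ⟨l₁, l₂, l₃, h1, h2⟩ := hseg _ hv
  have hr : (rotK G C o L hL).rot (hub B i) = (L (B.equivFin.symm i).1).map .inl := by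
    change (if Tc.cls C (B.equivFin.symm i).1 = .inl (B.equivFin.symm i).1 then _ else _) = _
    rw [if_pos (cls_B hy hv)]
  refine ⟨l₁.map .inl, l₂.map .inl, l₃.map .inl, ?_, ?_⟩
  · rw [hr, h1, List.map_append, List.map_append]
  · intro d hd
    rw [hr, List.mem_map] at hd
    obtain ⟨h, hh, rfl⟩ := hd
    obtain ⟨h3, h4⟩ := (G.mem_rot _ _).1 ((hL _).mem_iff.1 hh)
    rw [hS.1 h h3 (by rw [h4]; exact hv), h2 h hh, List.mem_map]
    constructor
    · exact fun h5 => ⟨h, h5, rfl⟩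
    · rintro ⟨g, h5, h6⟩
      cases h6
      exact h5

/-- The unit that represents a half-edge. -/
noncomputable def fu (G : RotGraph V H) (C : Finset (Finset V)) (B : Finset V)
    (e : Finset V → Option H) (h : H) : Option ((V ⊕ Finset V) ⊕ (H ⊕ (Finset V × Bool))) :=
  if G.base h ∈ B then some (.inr (.inl h)) else
    if hh : ∃ Y ∈ C, e Y = some h then some (.inl (.inr hh.choose)) else none

theorem fu_inr {e : Finset V → Option H} {h g : H} :
    fu G C B e h = some (.inr (.inl g)) ↔ G.base h ∈ B ∧ g = h := by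
  unfold fu
  split_ifs with h1 h2
  · simp only [Option.some.injEq, Sum.inr.injEq, Sum.inl.injEq, h1, true_and]
    exact eq_comm
  · simp [h1]
  · simp [h1]

theorem fu_no {e : Finset V → Option H} {h : H} {p : Finset V × Bool} :
    fu G C B e h ≠ some (.inr (.inr p)) := by
  unfold fu
  split_ifs <;> simp

theorem fu_no' {e : Finset V → Option H} {h : H} {v : V} :
    fu G C B e h ≠ some (.inl (.inl v)) := by
  unfold fu
  split_ifs <;> simp

theorem fu_inl (hy : Hyp M G A C B O) {e : Finset V → Option H}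
    (he : ∀ Y ∈ C, (∀ h, e Y = some h → h ∈ dts G A ∧ G.base h ∈ Y) ∧
      (e Y = none → ∀ h ∈ dts G A, G.base h ∉ Y)) {h : H} {Y : Finset V} :
    fu G C B e h = some (.inl (.inr Y)) ↔ Y ∈ C ∧ e Y = some h := by
  unfold fu
  split_ifs with h1 h2
  · simp only [Option.some.injEq, reduceCtorEq, false_iff, not_and]
    intro hY h3
    exact hy.BC _ h1 Y hY ((he Y hY).1 h h3).2
  · simp only [Option.some.injEq, Sum.inl.injEq, Sum.inr.injEq]
    constructor
    · rintro rfl
      exact h2.choose_spec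
    · rintro ⟨hY, h3⟩
      by_contra hne
      exact Finset.disjoint_left.1 (hy.dj _ h2.choose_spec.1 _ hY hne)
        ((he _ h2.choose_spec.1).1 h h2.choose_spec.2).2 ((he Y hY).1 h h3).2
  · simp only [reduceCtorEq, false_iff, not_and]
    intro hY h3
    exact h2 ⟨Y, hY, h3⟩

/-- The units. -/
theorem units_iff (hy : Hyp M G A C B O) {e : Finset V → Option H}
    (he : ∀ Y ∈ C, (∀ h, e Y = some h → h ∈ dts G A ∧ G.base h ∈ Y) ∧
      (e Y = none → ∀ h ∈ dts G A, G.base h ∉ Y))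
    (x : (V ⊕ Finset V) ⊕ (H ⊕ (Finset V × Bool))) :
    x ∈ Arc.units (rotK G C o L hL) (hub B) ↔ (∃ h ∈ dts G A, fu G C B e h = some x) ∨
      (x = .inl (.inr O) ∧ O ∈ C ∧ e O = none) := by
  rcases x with (v | Y) | (h | p)
  · rw [Arc.inl_mem_units, isHub_iff]
    constructor
    · rintro ⟨h1, h2⟩
      exfalso
      have h3 : (Sum.inl v : V ⊕ Finset V) ∈ G.verts.image (Tc.cls C) ∪ C.image .inr := h1
      simp only [Finset.mem_union, Finset.mem_image, reduceCtorEq, and_false, exists_false,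
        or_false] at h3
      obtain ⟨w, h4, h5⟩ := h3
      have h6 := Tc.cls_inl h5
      subst h6
      rcases hy.cov w h4 with h7 | ⟨Y, h7, h8⟩
      · exact h2 ⟨w, h7, rfl⟩
      · rw [cls_of_mem hy.dj h7 h8] at h5
        cases h5
    · rintro (⟨h, -, h2⟩ | ⟨h1, -⟩)
      · exact absurd h2 fu_no'
      · cases h1
  · rw [Arc.inl_mem_units, isHub_iff]
    have h1 : (Sum.inr Y : V ⊕ Finset V) ∈ (rotK G C o L hL).verts ↔ Y ∈ C := by
      change (Sum.inr Y : V ⊕ Finset V) ∈ G.verts.image (Tc.cls C) ∪ C.image .inr ↔ _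
      simp only [Finset.mem_union, Finset.mem_image, Sum.inr.injEq, exists_eq_right]
      constructor
      · rintro (⟨w, -, h2⟩ | h2)
        · exact (Tc.cls_inr h2).1
        · exact h2
      · exact Or.inr
    rw [h1]
    constructor
    · rintro ⟨hY, -⟩
      cases hge : e Y with
      | some g =>
        exact Or.inl ⟨g, ((he Y hY).1 g hge).1, (fu_inl hy he).2 ⟨hY, hge⟩⟩
      | none =>
        right
        have h2 : Y = O := by
          by_contra hne
          obtain ⟨h3, -, h5⟩ := hy.chi Y hY hne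
          obtain ⟨h, hh⟩ := Finset.card_pos.1 h5
          obtain ⟨h6, h7, -⟩ := Finset.mem_filter.1 hh
          exact (he Y hY).2 hge h (Finset.mem_filter.2 ⟨h6, h3 h7⟩) h7
        subst h2
        exact ⟨rfl, hY, hge⟩
    · rintro (⟨h, -, h2⟩ | ⟨h2, h3, -⟩)
      · exact ⟨((fu_inl hy he).1 h2).1, by rintro ⟨v, -, h4⟩; cases h4⟩
      · cases h2
        exact ⟨h3, by rintro ⟨v, -, h4⟩; cases h4⟩
  · rw [Arc.inr_mem_units, isHub_iff, mem_K_inl]
    constructor
    · rintro ⟨⟨h1, -⟩, v, hv, h3⟩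
      have h4 : G.base h = v := Tc.cls_inl h3
      have h5 : G.base h ∈ B := by rw [h4]; exact hv
      exact Or.inl ⟨h, Finset.mem_filter.2 ⟨h1, hy.BA h5⟩, fu_inr.2 ⟨h5, rfl⟩⟩
    · rintro (⟨g, h1, h2⟩ | ⟨h2, -⟩)
      · obtain ⟨h3, rfl⟩ := fu_inr.1 h2
        have h4 := cls_B hy h3
        refine ⟨⟨(Finset.mem_filter.1 h1).1, fun X h5 => ?_⟩, _, h3, h4⟩
        rw [h4] at h5
        cases h5
      · cases h2
  · rw [Arc.inr_mem_units, isHub_iff]
    constructor
    · rintro ⟨-, v, -, h3⟩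
      cases h3
    · rintro (⟨h, -, h2⟩ | ⟨h2, -⟩)
      · exact absurd h2 fu_no
      · cases h2

/-- The degrees of the vertices which are not hubs. -/
theorem deg_le (hy : Hyp M G A C B O) (x : V ⊕ Finset V) (hx : ¬ Arc.IsHub (hub B) x) :
    ((rotK G C o L hL).rot x).length ≤ M + 2 := by
  rw [isHub_iff] at hx
  rcases x with v | Y
  · change (if Tc.cls C v = .inl v then (L v).map Sum.inl else []).length ≤ M + 2
    split_ifs with h1
    · have h2 : L v = [] := by
        rw [List.eq_nil_iff_forall_not_mem]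
        intro h hh
        obtain ⟨h3, h4⟩ := (G.mem_rot _ _).1 ((hL _).mem_iff.1 hh)
        have h5 := G.base_mem h h3
        rw [h4] at h5
        rcases hy.cov v h5 with h6 | ⟨Y, h6, h7⟩
        · exact hx ⟨v, h6, rfl⟩
        · rw [cls_of_mem hy.dj h6 h7] at h1
          cases h1
      rw [h2]
      simp
    · simp
  · change (if Y ∈ C then (lgo G C o Y).map Sum.inl ++ [.inr (Y, false), .inr (Y, true)]
      else []).length ≤ M + 2
    split_ifs with h1
    · rw [List.length_append, List.length_map]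
      have h2 : (lgo G C o Y).length ≤ M := by
        rw [← List.toFinset_card_of_nodup (lgo_nodup G C o Y)]
        refine (Finset.card_le_card ?_).trans (hy.cuts Y h1)
        intro h hh
        rw [List.mem_toFinset, mem_lgo] at hh
        unfold Tc.lgs at hh
        rw [Finset.mem_toList, Finset.mem_filter] at hh
        obtain ⟨h3, h4, h5⟩ := hh
        refine Finset.mem_filter.2 ⟨h3, (Tc.cls_inr h4).2, fun h6 => ?_⟩
        exact h5 (cls_of_mem hy.dj h1 h6)
      simp only [List.length_cons, List.length_nil]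
      omega
    · simp

/-- The core of the argument. -/
theorem core_thm (hy : Hyp M G A C B O) (ht : dts G A = ∅ ∨ ∃ t : Tree H, t.leaves.Nodup ∧
      t.set = dts G A ∧ ∀ s, IsSub s t → (s.set.filter (fun h => nx G h ∉ s.set)).card ≤ k ∧
        (s.set.filter (fun h => G.opp h ∉ s.set)).card ≤ k ∧
        ∀ v ∈ B, ∃ l₁ l₂ l₃, L v = l₁ ++ l₂ ++ l₃ ∧ ∀ h ∈ L v, h ∈ s.set ↔ h ∈ l₂) {K : ℕ}
    (hK : k + 2 * ((2 * k + 1) * M) ≤ K) :
    Arc.units (rotK G C o L hL) (hub B) = ∅ ∨
      ∃ t, Arc.IsArcCarving K (rotK G C o L hL) (hub B) t := by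
  set e : Finset V → Option H := fun Y =>
    if hh : ∃ h ∈ dts G A, G.base h ∈ Y then some hh.choose else none with hedef
  have he : ∀ Y ∈ C, (∀ h, e Y = some h → h ∈ dts G A ∧ G.base h ∈ Y) ∧
      (e Y = none → ∀ h ∈ dts G A, G.base h ∉ Y) := by
    intro Y _
    simp only [hedef]
    split_ifs with h1
    · refine ⟨fun h h2 => ?_, fun h2 => by cases h2⟩
      cases h2
      exact h1.choose_spec
    · exact ⟨fun h h2 => absurd h2 (by simp), fun _ h hh h3 => h1 ⟨h, hh, h3⟩⟩
  have hU := units_iff (o := o) (L := L) (hL := hL) hy he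
  have good : ∀ (s : Finset H) (S : Finset ((V ⊕ Finset V) ⊕ (H ⊕ (Finset V × Bool)))),
      s ⊆ dts G A → (s.filter (fun h => nx G h ∉ s)).card ≤ k →
      (s.filter (fun h => G.opp h ∉ s)).card ≤ k →
      (∀ v ∈ B, ∃ l₁ l₂ l₃, L v = l₁ ++ l₂ ++ l₃ ∧ ∀ h ∈ L v, h ∈ s ↔ h ∈ l₂) →
      Rep G C B e s S → (∀ i, Arc.Seg (rotK G C o L hL) S (hub B i)) ∧
        Arc.ecut (rotK G C o L hL) (hub B) S ≤ K := fun s S h1 h2 h3 h4 h5 =>
    ⟨fun i => seg_ok hy h5 h4 i, (ecut_le hy he h1 h2 h3 h5).trans hK⟩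
  -- the isolated atom
  have good0 : O ∈ C → e O = none →
      (∀ i, Arc.Seg (rotK G C o L hL) {.inl (.inr O)} (hub B i)) ∧
        Arc.ecut (rotK G C o L hL) (hub B) {.inl (.inr O)} ≤ K := by
    intro hO hO'
    refine good ∅ _ (Finset.empty_subset _) (by simp) (by simp)
      (fun v _ => ⟨L v, [], [], by simp, by simp⟩) ⟨fun h _ _ => by simp, fun Y hY g hg => ?_⟩
    simp only [Finset.mem_singleton, Sum.inl.injEq, Sum.inr.injEq, Finset.notMem_empty,
      iff_false]
    rintro rfl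
    rw [hO'] at hg
    cases hg
  -- everything
  have goodA : (∀ i, Arc.Seg (rotK G C o L hL) (Arc.units (rotK G C o L hL) (hub B)) (hub B i)) ∧
        Arc.ecut (rotK G C o L hL) (hub B) (Arc.units (rotK G C o L hL) (hub B)) ≤ K := by
    refine good (dts G A) _ subset_rfl ?_ ?_ ?_ ⟨?_, ?_⟩
    · rw [Finset.filter_eq_empty_iff.2]
      · simp
      · intro h hh
        obtain ⟨h1, h2⟩ := Finset.mem_filter.1 hh
        rw [not_not]
        refine Finset.mem_filter.2 ⟨(nx_mem h1).1, ?_⟩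
        rw [(nx_mem h1).2]
        exact h2
    · rw [Finset.filter_eq_empty_iff.2]
      · simp
      · intro h hh
        obtain ⟨h1, h2⟩ := Finset.mem_filter.1 hh
        rw [not_not]
        refine Finset.mem_filter.2 ⟨G.opp_mem h h1, ?_⟩
        by_contra h3
        have h5 : h ∈ bd G A := Finset.mem_filter.2 ⟨h1, h2, h3⟩
        have h6 : bd G A = ∅ := Finset.card_eq_zero.1 hy.cutA
        rw [h6] at h5
        exact absurd h5 (Finset.notMem_empty _)
    · intro v hv
      refine ⟨[], L v, [], by simp, fun h hh => ?_⟩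
      obtain ⟨h3, h4⟩ := (G.mem_rot _ _).1 ((hL _).mem_iff.1 hh)
      simp only [hh, iff_true]
      exact Finset.mem_filter.2 ⟨h3, by rw [h4]; exact hy.BA hv⟩
    · intro h hh hb
      rw [hU]
      have h1 : h ∈ dts G A := Finset.mem_filter.2 ⟨hh, hy.BA hb⟩
      simp only [h1, iff_true]
      exact Or.inl ⟨h, h1, fu_inr.2 ⟨hb, rfl⟩⟩
    · intro Y hY g hg
      rw [hU]
      have h1 := ((he Y hY).1 g hg).1
      simp only [h1, iff_true]
      exact Or.inl ⟨g, h1, (fu_inl hy he).2 ⟨hY, hg⟩⟩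
  have leafCase : (∀ h ∈ dts G A, fu G C B e h = none) →
      Arc.units (rotK G C o L hL) (hub B) = ∅ ∨
        ∃ t, Arc.IsArcCarving K (rotK G C o L hL) (hub B) t := by
    intro hnone
    by_cases hiso : O ∈ C ∧ e O = none
    · right
      refine ⟨.leaf (.inl (.inr O)), by simp [Tree.leaves], ?_, ?_⟩
      · rw [TL.set_leaf]
        ext x
        rw [hU, Finset.mem_singleton]
        constructor
        · exact fun h1 => Or.inr ⟨h1, hiso⟩
        · rintro (⟨h, h1, h2⟩ | ⟨h1, -⟩)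
          · rw [hnone h h1] at h2
            cases h2
          · exact h1
      · intro s hs
        cases hs
        rw [TL.set_leaf]
        exact good0 hiso.1 hiso.2
    · left
      rw [Finset.eq_empty_iff_forall_notMem]
      intro x hx
      rcases (hU x).1 hx with ⟨h, h1, h2⟩ | ⟨-, h1⟩
      · rw [hnone h h1] at h2
        cases h2
      · exact hiso h1
  rcases ht with h0 | ⟨t, htn, hts, htc⟩
  · refine leafCase fun h hh => ?_
    rw [h0] at hh
    exact absurd hh (Finset.notMem_empty _)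
  rcases fmap_tree (fu G C B e) t with hnil | ⟨t', ht', hsub⟩
  · refine leafCase fun h hh => ?_
    rw [← hts, TL.mem_set] at hh
    by_contra h1
    obtain ⟨y, hy1⟩ := Option.ne_none_iff_exists'.1 h1
    have h2 : y ∈ t.leaves.filterMap (fu G C B e) := List.mem_filterMap.2 ⟨h, hh, hy1⟩
    rw [hnil] at h2
    exact absurd h2 List.not_mem_nil
  have hinj : ∀ a a' b, fu G C B e a = some b → fu G C B e a' = some b → a = a' := by
    intro a a' b h1 h2
    rcases b with (v | Y) | (h | p)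
    · exact absurd h1 fu_no'
    · have h3 := ((fu_inl hy he).1 h1).2
      have h4 := ((fu_inl hy he).1 h2).2
      rw [h3] at h4
      exact Option.some.inj h4
    · rw [← (fu_inr.1 h1).2, ← (fu_inr.1 h2).2]
    · exact absurd h1 fu_no
  have hmem : ∀ (s' : Tree ((V ⊕ Finset V) ⊕ (H ⊕ (Finset V × Bool)))) (s : Tree H),
      s'.leaves = s.leaves.filterMap (fu G C B e) → ∀ x, x ∈ s'.set ↔
        ∃ h ∈ s.set, fu G C B e h = some x := by
    intro s' s hs x
    rw [TL.mem_set, hs, List.mem_filterMap]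
    simp only [TL.mem_set]
  have hnode : ∀ s', IsSub s' t' → (∀ i, Arc.Seg (rotK G C o L hL) s'.set (hub B i)) ∧
        Arc.ecut (rotK G C o L hL) (hub B) s'.set ≤ K := by
    intro s' hs'
    obtain ⟨s, hs, hse⟩ := hsub s' hs'
    obtain ⟨h1, h2, h3⟩ := htc s hs
    refine good s.set _ (by rw [← hts]; exact hs.set_subset) h1 h2 h3 ⟨?_, ?_⟩
    · intro h hh hb
      rw [hmem s' s hse]
      constructor
      · rintro ⟨g, h4, h5⟩
        rw [(fu_inr.1 h5).2]
        exact h4
      · exact fun h4 => ⟨h, h4, fu_inr.2 ⟨hb, rfl⟩⟩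
    · intro Y hY g hg
      rw [hmem s' s hse]
      constructor
      · rintro ⟨h, h4, h5⟩
        have h6 := ((fu_inl hy he).1 h5).2
        rw [hg] at h6
        cases h6
        exact h4
      · exact fun h4 => ⟨g, h4, (fu_inl hy he).2 ⟨hY, hg⟩⟩
  have hnd' : t'.leaves.Nodup := by
    rw [ht']
    exact nodup_filterMap _ hinj _ htn
  right
  by_cases hiso : O ∈ C ∧ e O = none
  · have hset : (Tree.node (.leaf (.inl (.inr O))) t').set =
        Arc.units (rotK G C o L hL) (hub B) := by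
      ext x
      rw [hU, TL.mem_set]
      change x ∈ [Sum.inl (Sum.inr O)] ++ t'.leaves ↔ _
      rw [List.mem_append, List.mem_singleton, ← TL.mem_set, hmem t' t ht', hts]
      constructor
      · rintro (h1 | h1)
        · exact Or.inr ⟨h1, hiso⟩
        · exact Or.inl h1
      · rintro (h1 | ⟨h1, -⟩)
        · exact Or.inr h1
        · exact Or.inl h1
    refine ⟨.node (.leaf (.inl (.inr O))) t', ?_, hset, ?_⟩
    · rw [TL.nodup_node]
      refine ⟨by simp [Tree.leaves], hnd', ?_⟩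
      rw [TL.set_leaf, Finset.disjoint_singleton_left, hmem t' t ht']
      rintro ⟨h, -, h2⟩
      have h3 := ((fu_inl hy he).1 h2).2
      rw [hiso.2] at h3
      cases h3
    · intro s' hs'
      cases hs' with
      | refl => rw [hset]; exact goodA
      | left _ _ h =>
        cases h
        rw [TL.set_leaf]
        exact good0 hiso.1 hiso.2
      | right _ _ h => exact hnode s' h
  · refine ⟨t', hnd', ?_, hnode⟩
    ext x
    rw [hU, hmem t' t ht', hts]
    constructor
    · exact Or.inl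
    · rintro (h1 | ⟨-, h1⟩)
      · exact h1
      · exact absurd h1 hiso

end core

end Tor5

open Tor5 in
theorem III2_5 (hLin : StLin) (hC : StGHC) : StTorso := by
  intro k m M
  refine ⟨m + (M + 2) + (k + 2 * ((2 * k + 1) * M)), ?_⟩
  intro V H G A T X o hA hcA hconn hT ht hX hm
  have hXA : X ⊆ A := hT.sub X hX
  have hchd : ∀ Y ∈ Tc.chd T X, Y ∈ T ∧ Y ⊂ X ∧ Y ≠ A := by
    intro Y hY
    obtain ⟨h1, h2, -⟩ := Finset.mem_filter.1 hY
    refine ⟨h1, h2, fun h3 => ?_⟩
    exact h2.2 (h3 ▸ hXA)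
  have hfam : ∀ Y ∈ fam G T X, Y ∈ Tc.chd T X ∨ (Y = G.verts \ X ∧ X ≠ G.verts) := by
    intro Y hY
    unfold fam at hY
    rw [Finset.mem_union] at hY
    rcases hY with h1 | h1
    · exact Or.inl h1
    · split_ifs at h1 with h2
      · exact absurd h1 (Finset.notMem_empty _)
      · exact Or.inr ⟨Finset.mem_singleton.1 h1, h2⟩
  have hO : X ≠ G.verts → G.verts \ X ∈ fam G T X := by
    intro h1
    unfold fam
    rw [if_neg h1]
    simp
  have hcutO : cut G (G.verts \ X) ≤ M := by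
    have h1 : cut G (G.verts \ X) ≤ cut G X := by
      unfold cut
      refine Finset.card_le_card_of_injOn G.opp ?_ ?_
      · intro h hh
        obtain ⟨h1, h2, h3⟩ := Finset.mem_filter.1 hh
        have h4 := G.base_mem _ (G.opp_mem h h1)
        refine Finset.mem_coe.2 (Finset.mem_filter.2 ⟨G.opp_mem h h1, ?_, ?_⟩)
        · by_contra h5
          exact h3 (Finset.mem_sdiff.2 ⟨h4, h5⟩)
        · rw [G.opp_opp h h1]
          exact (Finset.mem_sdiff.1 h2).2
      · intro h hh g hg he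
        have h1 := (Finset.mem_filter.1 hh).1
        have h2 := (Finset.mem_filter.1 hg).1
        rw [← G.opp_opp h h1, he, G.opp_opp g h2]
    by_cases h2 : X = A
    · rw [h2] at h1 ⊢
      omega
    · have h3 := (hT.min X hX h2).1
      omega
  have hy : Hyp M G A (fam G T X) (Tc.bag T X) (G.verts \ X) := by
    refine ⟨hA, hcA, (Finset.filter_subset _ _).trans hXA, ?_, ?_, ?_, ?_, ?_, ?_⟩
    · have key : ∀ Y ∈ Tc.chd T X, ∀ Z ∈ Tc.chd T X, Y ≠ Z → Disjoint Y Z := by
        intro Y hY Z hZ hne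
        obtain ⟨h1, h2, h3⟩ := Finset.mem_filter.1 hY
        obtain ⟨h4, h5, h6⟩ := Finset.mem_filter.1 hZ
        rcases hT.lam Y h1 Z h4 with h7 | h7 | h7
        · exact absurd h5 (h3 Z h4 (lt_of_le_of_ne h7 hne))
        · exact absurd h2 (h6 Y h1 (lt_of_le_of_ne h7 hne.symm))
        · exact h7
      have key2 : ∀ Y ∈ Tc.chd T X, Disjoint Y (G.verts \ X) := by
        intro Y hY
        rw [Finset.disjoint_left]
        intro v h1 h2
        exact (Finset.mem_sdiff.1 h2).2 ((hchd Y hY).2.1.1 h1)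
      intro Y hY Z hZ hne
      rcases hfam Y hY with h1 | ⟨rfl, -⟩ <;> rcases hfam Z hZ with h2 | ⟨rfl, -⟩
      · exact key Y h1 Z h2 hne
      · exact key2 Y h1
      · exact (key2 Z h2).symm
      · exact absurd rfl hne
    · intro v hv
      by_cases hvX : v ∈ X
      · by_cases hb : v ∈ Tc.bag T X
        · exact Or.inl hb
        · right
          have h1 : ∃ Y ∈ T, Y ⊂ X ∧ v ∈ Y := by
            by_contra h1
            push Not at h1
            exact hb (Finset.mem_filter.2 ⟨hvX, fun Y h2 h3 => h1 Y h2 h3⟩)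
          obtain ⟨Y0, hY0, hY1, hY2⟩ := h1
          obtain ⟨Y, hY, hmax⟩ := Finset.exists_max_image
            (T.filter (fun Y => Y ⊂ X ∧ v ∈ Y)) Finset.card
            ⟨Y0, Finset.mem_filter.2 ⟨hY0, hY1, hY2⟩⟩
          obtain ⟨h2, h3, h4⟩ := Finset.mem_filter.1 hY
          refine ⟨Y, ?_, h4⟩
          unfold fam
          refine Finset.mem_union_left _ (Finset.mem_filter.2 ⟨h2, h3, fun Z hZ h5 h6 => ?_⟩)
          have h7 := hmax Z (Finset.mem_filter.2 ⟨hZ, h6, h5.1 h4⟩)
          have h8 := Finset.card_lt_card h5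
          omega
      · right
        refine ⟨G.verts \ X, hO ?_, Finset.mem_sdiff.2 ⟨hv, hvX⟩⟩
        rintro rfl
        exact hvX hv
    · intro v hv Y hY
      obtain ⟨h1, h2⟩ := Finset.mem_filter.1 hv
      rcases hfam Y hY with h3 | ⟨rfl, -⟩
      · exact h2 Y (hchd Y h3).1 (hchd Y h3).2.1
      · exact fun h4 => (Finset.mem_sdiff.1 h4).2 h1
    · intro v hv hvA
      have hvX : v ∉ X := fun h1 => hvA (hXA h1)
      refine ⟨hO ?_, Finset.mem_sdiff.2 ⟨hv, hvX⟩⟩
      rintro rfl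
      exact hvX hv
    · intro Y hY hne
      rcases hfam Y hY with h1 | ⟨h1, -⟩
      · obtain ⟨h2, h3, h4⟩ := hchd Y h1
        obtain ⟨h5, h6⟩ := hC V H G A M T hA hcA hconn hT Y h2
        exact ⟨hT.sub Y h2, h5, h6 h4⟩
      · exact absurd h1 hne
    · intro Y hY
      rcases hfam Y hY with h1 | ⟨rfl, -⟩
      · obtain ⟨h2, h3, h4⟩ := hchd Y h1
        exact (hT.min Y h2 h4).1.le
      · exact hcutO
  have hBA : Tc.bag T X ⊆ A := hy.BA
  obtain ⟨L, hL, ht'⟩ : ∃ (L : V → List H) (_ : ∀ v, L v ~r G.rot v),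
      dts G A = ∅ ∨ ∃ t : Tree H, t.leaves.Nodup ∧
      t.set = dts G A ∧ ∀ s, IsSub s t → (s.set.filter (fun h => nx G h ∉ s.set)).card ≤ k ∧
        (s.set.filter (fun h => G.opp h ∉ s.set)).card ≤ k ∧
        ∀ v ∈ Tc.bag T X, ∃ l₁ l₂ l₃, L v = l₁ ++ l₂ ++ l₃ ∧ ∀ h ∈ L v, h ∈ s.set ↔ h ∈ l₂ := by
    rcases ht with h0 | ⟨t, ht⟩
    · exact ⟨G.rot, fun v => List.IsRotated.refl _, Or.inl h0⟩
    · have hex : ∀ v, ∃ l : List H, l ~r G.rot v ∧ (v ∈ A → ∀ s, IsSub s t →
          ∃ l₁ l₂ l₃, l = l₁ ++ l₂ ++ l₃ ∧ ∀ h ∈ l, h ∈ s.set ↔ h ∈ l₂) := by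
        intro v
        by_cases hv : v ∈ A
        · obtain ⟨l, h1, h2⟩ := hLin k V H G A t v hA ht hv
          exact ⟨l, h1, fun _ => h2⟩
        · exact ⟨G.rot v, List.IsRotated.refl _, fun h => absurd h hv⟩
      choose L hL1 hL2 using hex
      refine ⟨L, hL1, Or.inr ⟨t, ht.1, ht.2.1, fun s hs => ?_⟩⟩
      exact ⟨(ht.2.2 s hs).2.1, (ht.2.2 s hs).2.2, fun v hv => hL2 v (hBA hv) s hs⟩
  refine ⟨rotK G (fam G T X) o L hL, rotEq_rotK _ _ _ _ _, (Tc.bag T X).card,
    hub (Tc.bag T X), by omega, hub_inj, ?_, ?_, ?_⟩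
  · intro i
    have hv : ((Tc.bag T X).equivFin.symm i).1 ∈ Tc.bag T X := ((Tc.bag T X).equivFin.symm i).2
    have h9 : (Sum.inl ((Tc.bag T X).equivFin.symm i).1 : V ⊕ Finset V) ∈
        G.verts.image (Tc.cls (fam G T X)) ∪ (fam G T X).image .inr := by
      simp only [Finset.mem_union, Finset.mem_image]
      exact Or.inl ⟨_, hA (hBA hv), cls_B hy hv⟩
    exact h9
  · intro x hx
    exact (deg_le hy x hx).trans (by omega)
  · exact core_thm hy ht' (by omega)

end RotWqo.Pb
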