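import Pool.Agent.Lib.MP_cb4a0f_co.Pb.Stmts

/-!
# MP_cb4a0f_co: Gomory-Hu families of minimum cuts

Existence: we minimise `C * cut G X + |X| * |A - X|` over the sets `X` in `A` that separate a given
pair and avoid a fixed vertex. The second summand makes the function strictly submodular, so that
all these minimum cuts are laminar.
-/

open Classical

namespace RotWqo.Pb

open RotWqo.Bag RotWqo.Hk RotWqo.Pl

theorem cut_compl67 {V H : Type*} (G : RotGraph V H) (A X : Finset V) (h0 : cut G A = 0)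
    (hX : X ⊆ A) : cut G (A \ X) = cut G X := by
  have hb : ∀ h ∈ G.darts, G.base h ∈ A → G.base (G.opp h) ∈ A := by
    intro h hh hA
    by_contra hc
    have : h ∈ bd G A := by
      simp only [bd, Finset.mem_filter]
      exact ⟨hh, hA, hc⟩
    rw [cut, Finset.card_eq_zero] at h0
    rw [h0] at this
    simp at this
  have h : 2 * cut G (A \ X) = 2 * cut G X := by
    rw [two_cut, two_cut]
    refine Finset.sum_congr rfl fun h hh => ?_
    have h1 := hb h hh
    have h2 := hb _ (G.opp_mem h hh)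
    rw [G.opp_opp h hh] at h2
    have h5 := @hX (G.base h)
    have h6 := @hX (G.base (G.opp h))
    by_cases h3 : G.base h ∈ X <;> by_cases h4 : G.base (G.opp h) ∈ X <;>
      by_cases h7 : G.base h ∈ A <;> by_cases h8 : G.base (G.opp h) ∈ A <;>
      simp_all
  omega

/-- The function that is minimised. -/
noncomputable def dd67 {V H : Type*} (G : RotGraph V H) (A X : Finset V) : ℕ :=
  (A.card * A.card + 1) * cut G X + X.card * (A.card - X.card)

/-- `X` separates `a` and `b`. -/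
def Sp67 {V : Type*} (X : Finset V) (a b : V) : Prop := ¬ (a ∈ X ↔ b ∈ X)

theorem dd67_le {V H : Type*} (G : RotGraph V H) (A X Z : Finset V) (hZ : Z ⊆ A)
    (h : dd67 G A X ≤ dd67 G A Z) : cut G X ≤ cut G Z := by
  by_contra hc
  have hc' : cut G Z + 1 ≤ cut G X := by omega
  have h1 : Z.card * (A.card - Z.card) ≤ A.card * A.card :=
    Nat.mul_le_mul (Finset.card_le_card hZ) (Nat.sub_le _ _)
  have h2 : (A.card * A.card + 1) * (cut G Z + 1) ≤
      (A.card * A.card + 1) * cut G X := Nat.mul_le_mul_left _ hc'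
  rw [Nat.mul_add, Nat.mul_one] at h2
  simp only [dd67] at h
  omega

theorem cross67 {V H : Type*} (G : RotGraph V H) (A : Finset V) (r : V) (hr : r ∈ A)
    (X Y : Finset V) (hX : X ⊆ A) (hY : Y ⊆ A) (hrX : r ∉ X) (hrY : r ∉ Y) (h1 : ¬ X ⊆ Y)
    (h2 : ¬ Y ⊆ X) (h3 : ¬ Disjoint X Y) :
    dd67 G A (X ∩ Y) + dd67 G A (X ∪ Y) < dd67 G A X + dd67 G A Y ∧
    dd67 G A (X \ Y) + dd67 G A (Y \ X) < dd67 G A X + dd67 G A Y := by
  have p1 : 0 < (X ∩ Y).card := by
    rw [Finset.card_pos, Finset.nonempty_iff_ne_empty, Ne, ← Finset.disjoint_iff_inter_eq_empty]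
    exact h3
  have q1 : 0 < (X \ Y).card := by
    rw [Finset.card_pos]
    exact Finset.sdiff_nonempty.2 h1
  have r1 : 0 < (Y \ X).card := by
    rw [Finset.card_pos]
    exact Finset.sdiff_nonempty.2 h2
  have s1 : 0 < (A \ (X ∪ Y)).card := by
    rw [Finset.card_pos]
    exact ⟨r, by simp [hr, hrX, hrY]⟩
  have e1 : X.card = (X ∩ Y).card + (X \ Y).card := (Finset.card_inter_add_card_sdiff X Y).symm
  have e2 : Y.card = (X ∩ Y).card + (Y \ X).card := by
    rw [Finset.inter_comm]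
    exact (Finset.card_inter_add_card_sdiff Y X).symm
  have e3 : (X ∪ Y).card = (X ∩ Y).card + (X \ Y).card + (Y \ X).card := by
    have := Finset.card_union_add_card_inter X Y
    omega
  have e4 : A.card = (X ∩ Y).card + (X \ Y).card + (Y \ X).card +
      (A \ (X ∪ Y)).card := by
    have h := Finset.card_sdiff_add_card_eq_card (Finset.union_subset hX hY)
    omega
  have c1 := cut_submod G X Y
  have c2 := cut_posimod G X Y
  have d1 := Nat.mul_le_mul_left (A.card * A.card + 1) c1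
  have d2 := Nat.mul_le_mul_left (A.card * A.card + 1) c2
  rw [Nat.mul_add, Nat.mul_add] at d1 d2
  have f1 : (X ∩ Y).card * (A.card - (X ∩ Y).card) +
      (X ∪ Y).card * (A.card - (X ∪ Y).card) <
      X.card * (A.card - X.card) + Y.card * (A.card - Y.card) := by
    rw [e1, e2, e3, e4]
    generalize (X ∩ Y).card = p at *
    generalize (X \ Y).card = q at *
    generalize (Y \ X).card = r' at *
    generalize (A \ (X ∪ Y)).card = s at *
    have g1 : p + q + r' + s - p = q + r' + s := by omega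
    have g2 : p + q + r' + s - (p + q + r') = s := by omega
    have g3 : p + q + r' + s - (p + q) = r' + s := by omega
    have g4 : p + q + r' + s - (p + r') = q + s := by omega
    rw [g1, g2, g3, g4]
    have : 0 < q * r' := Nat.mul_pos q1 r1
    nlinarith
  have f2 : (X \ Y).card * (A.card - (X \ Y).card) +
      (Y \ X).card * (A.card - (Y \ X).card) <
      X.card * (A.card - X.card) + Y.card * (A.card - Y.card) := by
    rw [e1, e2, e4]
    generalize (X ∩ Y).card = p at *
    generalize (X \ Y).card = q at *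
    generalize (Y \ X).card = r' at *
    generalize (A \ (X ∪ Y)).card = s at *
    have g1 : p + q + r' + s - q = p + r' + s := by omega
    have g2 : p + q + r' + s - r' = p + q + s := by omega
    have g3 : p + q + r' + s - (p + q) = r' + s := by omega
    have g4 : p + q + r' + s - (p + r') = q + s := by omega
    rw [g1, g2, g3, g4]
    have : 0 < p * s := Nat.mul_pos p1 s1
    nlinarith
  simp only [dd67]
  constructor <;> omega

/-- Minimum cuts among the sets without `r`. -/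
def Mn67 {V H : Type*} (G : RotGraph V H) (A : Finset V) (r : V) (X : Finset V) : Prop :=
  ∃ a ∈ A, ∃ b ∈ A, Sp67 X a b ∧ ∀ Z ⊆ A, r ∉ Z → Sp67 Z a b → dd67 G A X ≤ dd67 G A Z

theorem lam67 {V H : Type*} (G : RotGraph V H) (A : Finset V) (r : V) (hr : r ∈ A)
    (X Y : Finset V) (hX : X ⊆ A) (hY : Y ⊆ A) (hrX : r ∉ X) (hrY : r ∉ Y) (mX : Mn67 G A r X)
    (mY : Mn67 G A r Y) : X ⊆ Y ∨ Y ⊆ X ∨ Disjoint X Y := by
  by_contra hcon
  push Not at hcon
  obtain ⟨h1, h2, h3⟩ := hcon
  obtain ⟨c1, c2⟩ := cross67 G A r hr X Y hX hY hrX hrY h1 h2 h3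
  obtain ⟨a, -, b, -, s1, m1⟩ := mX
  obtain ⟨u, -, v, -, s2, m2⟩ := mY
  have sI : X ∩ Y ⊆ A := fun x hx => hX (Finset.mem_inter.1 hx).1
  have sU : X ∪ Y ⊆ A := Finset.union_subset hX hY
  have sD : X \ Y ⊆ A := fun x hx => hX (Finset.mem_sdiff.1 hx).1
  have sE : Y \ X ⊆ A := fun x hx => hY (Finset.mem_sdiff.1 hx).1
  have rI : r ∉ X ∩ Y := by simp [hrX]
  have rU : r ∉ X ∪ Y := by simp [hrX, hrY]
  have rD : r ∉ X \ Y := by simp [hrX]
  have rE : r ∉ Y \ X := by simp [hrY]
  have a1 := m1 _ sI rI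
  have a2 := m1 _ sU rU
  have a3 := m1 _ sD rD
  have a4 := m1 _ sE rE
  have a5 := m1 Y hY hrY
  have b1 := m2 _ sI rI
  have b2 := m2 _ sU rU
  have b3 := m2 _ sD rD
  have b4 := m2 _ sE rE
  have b5 := m2 X hX hrX
  clear m1 m2 sI sU sD sE rI rU rD rE h1 h2 h3
  simp only [Sp67, Finset.mem_inter, Finset.mem_union, Finset.mem_sdiff] at *
  by_cases k1 : a ∈ X <;> by_cases k2 : a ∈ Y <;> by_cases k3 : b ∈ X <;>
    simp only [k1, k2, k3, not_true, not_false_iff, true_and, false_and, and_true, and_false,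
      true_or, false_or, or_true, or_false, iff_true, iff_false, true_iff, false_iff,
      not_not, iff_self, false_imp_iff, true_imp_iff] at s1 a1 a2 a3 a4 a5 <;>
    by_cases k4 : b ∈ Y <;> by_cases k5 : u ∈ X <;> by_cases k6 : u ∈ Y <;>
    by_cases k7 : v ∈ X <;> by_cases k8 : v ∈ Y <;>
    simp [k4, k5, k6, k7, k8] at s2 a1 a2 a3 a4 a5 b1 b2 b3 b4 b5 <;> omega

/-- A set which minimises the function is a minimum cut. -/
theorem min67 {V H : Type*} (G : RotGraph V H) (A : Finset V) (h0 : cut G A = 0) (r : V)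
    (X : Finset V) (a b : V) (ha : a ∈ A) (hb : b ∈ A)
    (h : ∀ Z ⊆ A, r ∉ Z → Sp67 Z a b → dd67 G A X ≤ dd67 G A Z) :
    ∀ Z ⊆ A, Sp67 Z a b → cut G X ≤ cut G Z := by
  intro Z hZ hs
  by_cases hrZ : r ∈ Z
  · rw [← cut_compl67 G A Z h0 hZ]
    refine dd67_le G A X _ Finset.sdiff_subset (h _ Finset.sdiff_subset (by simp [hrZ]) ?_)
    simp only [Sp67, Finset.mem_sdiff, ha, hb, true_and] at hs ⊢
    tauto
  · exact dd67_le G A X _ hZ (h _ hZ hrZ hs)

/-- (I1) Existence of Gomory-Hu families. -/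
theorem I1_67 : StGHT := by
  intro V H G A M hA hne h0
  obtain ⟨r, hr⟩ := hne
  have key : ∀ X ∈ insert A (A.powerset.filter (fun X => r ∉ X ∧ X.Nonempty ∧ cut G X < M ∧
      Mn67 G A r X)), X = A ∨ (X ⊆ A ∧ r ∉ X ∧ X.Nonempty ∧ cut G X < M ∧ Mn67 G A r X) := by
    intro X hX
    simpa only [Finset.mem_insert, Finset.mem_filter, Finset.mem_powerset] using hX
  refine ⟨insert A (A.powerset.filter (fun X => r ∉ X ∧ X.Nonempty ∧ cut G X < M ∧
      Mn67 G A r X)), Finset.mem_insert_self _ _, ?_, ?_, ?_, ?_, ?_⟩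
  · intro X hX
    rcases key X hX with rfl | h
    · exact subset_rfl
    · exact h.1
  · intro X hX
    rcases key X hX with rfl | h
    · exact ⟨r, hr⟩
    · exact h.2.2.1
  · intro X hX Y hY
    rcases key X hX with rfl | h
    · rcases key Y hY with rfl | h'
      · exact Or.inl subset_rfl
      · exact Or.inr (Or.inl h'.1)
    · rcases key Y hY with rfl | h'
      · exact Or.inl h.1
      · exact lam67 G A r hr X Y h.1 h'.1 h.2.1 h'.2.1 h.2.2.2.2 h'.2.2.2.2
  · intro X hX hXA
    rcases key X hX with h | h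
    · exact absurd h hXA
    · obtain ⟨hX1, hX2, hX3, hX4, a, ha, b, hb, hs, hm⟩ := h
      refine ⟨hX4, ?_⟩
      have hm' := min67 G A h0 r X a b ha hb hm
      by_cases haX : a ∈ X
      · have hbX : b ∉ X := fun h => hs (by simp [haX, h])
        exact ⟨a, haX, b, hb, hbX, fun Z hZ h1 h2 => hm' Z hZ (by simp [Sp67, h1, h2])⟩
      · have hbX : b ∈ X := by
          by_contra h
          exact hs (by simp [haX, h])
        exact ⟨b, hbX, a, ha, haX, fun Z hZ h1 h2 => hm' Z hZ (by simp [Sp67, h1, h2])⟩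
  · rintro u hu v hv ⟨Z, hZ, huZ, hvZ, hcZ⟩
    obtain ⟨Z', hZ', hrZ', hsZ'⟩ : ∃ Z' ⊆ A, r ∉ Z' ∧ Sp67 Z' u v := by
      by_cases hrZ : r ∈ Z
      · refine ⟨A \ Z, Finset.sdiff_subset, by simp [hrZ], ?_⟩
        simp [Sp67, huZ, hvZ, hv]
      · exact ⟨Z, hZ, hrZ, by simp [Sp67, huZ, hvZ]⟩
    obtain ⟨X, hX, hmin⟩ := Finset.exists_min_image
      (A.powerset.filter (fun X => r ∉ X ∧ Sp67 X u v)) (dd67 G A)
      ⟨Z', by simp only [Finset.mem_filter, Finset.mem_powerset]; exact ⟨hZ', hrZ', hsZ'⟩⟩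
    simp only [Finset.mem_filter, Finset.mem_powerset] at hX hmin
    have hm : ∀ Z ⊆ A, r ∉ Z → Sp67 Z u v → dd67 G A X ≤ dd67 G A Z :=
      fun Z h1 h2 h3 => hmin Z ⟨h1, h2, h3⟩
    have hm' := min67 G A h0 r X u v hu hv hm
    refine ⟨X, ?_, ?_, ?_⟩
    · rw [Finset.mem_insert]
      right
      simp only [Finset.mem_filter, Finset.mem_powerset]
      refine ⟨hX.1, hX.2.1, ?_, ?_, u, hu, v, hv, hX.2.2, hm⟩
      · rw [Finset.nonempty_iff_ne_empty]
        intro he
        rw [he] at hX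
        exact hX.2.2 (by simp)
      · exact lt_of_le_of_lt (hm' Z hZ (by simp [Sp67, huZ, hvZ])) hcZ
    · have h := hX.2.2
      simp only [Sp67] at h
      by_cases h1 : u ∈ X <;> by_cases h2 : v ∈ X <;> simp_all
    · exact fun Z hZ h1 h2 => hm' Z hZ (by simp [Sp67, h1, h2])

/-- (I2) Linking. -/
theorem I2_67 : StGHL := by
  intro V H G A M T hA h0 hT X hX Y hY hYX hc hW U hYU hUX
  by_contra hcon
  have hlt : cut G U < cut G Y := by omega
  have hYA : Y ≠ A := by
    rintro rfl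
    omega
  have hXA : X ≠ A := by
    rintro rfl
    omega
  obtain ⟨hYM, aY, haY, bY, hbY, hbY', mY⟩ := hT.min Y hY hYA
  obtain ⟨hXM, aX, haX, bX, hbX, hbX', mX⟩ := hT.min X hX hXA
  have hXs := hT.sub X hX
  have hUA : U ⊆ A := hUX.trans hXs
  have h1 : bY ∈ U := by
    by_contra h
    have := mY U hUA (hYU haY) h
    omega
  have h2 : aX ∉ U := by
    intro h
    have := mX U hUA h (fun h' => hbX' (hUX h'))
    omega
  obtain ⟨W, hWT, hs, hm⟩ := hT.sep bY hbY aX (hXs haX) ⟨U, hUA, h1, h2, by omega⟩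
  have h3 := hm U hUA h1 h2
  have hWA := hT.sub W hWT
  have hWX : W ⊆ X := by
    rcases hT.lam W hWT X hX with h | h | h
    · exact h
    · exfalso
      rcases hs with ⟨-, h4⟩ | ⟨-, h4⟩
      · exact h4 (h haX)
      · exact h4 (h (hUX h1))
    · exfalso
      rw [Finset.disjoint_left] at h
      rcases hs with ⟨h4, -⟩ | ⟨h4, -⟩
      · exact h h4 (hUX h1)
      · exact h h4 haX
  have hdis : Disjoint W Y := by
    rcases hT.lam W hWT Y hY with h | h | h
    · exfalso
      rcases hs with ⟨h4, -⟩ | ⟨h4, -⟩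
      · exact hbY' (h h4)
      · exact h2 (hYU (h h4))
    · exfalso
      have := hW W hWT h hWX
      omega
    · exact h
  rcases hs with ⟨h4, -⟩ | ⟨h4, -⟩
  · have h5 := mY (A \ W) Finset.sdiff_subset
      (Finset.mem_sdiff.2 ⟨hXs (hYX haY), fun h => (Finset.disjoint_left.1 hdis) h haY⟩)
      (by simp [h4])
    rw [cut_compl67 G A W h0 hWA] at h5
    omega
  · have h5 := mX W hWA h4 (fun h => hbX' (hWX h))
    omega

/-- The cut of a set without edges between two parts. -/
theorem cut_add67 {V H : Type*} (G : RotGraph V H) (X Y : Finset V) (hY : Y ⊆ X)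
    (h : Tc.Nadj G Y (X \ Y)) : cut G X = cut G Y + cut G (X \ Y) := by
  have h2 : 2 * cut G X = 2 * cut G Y + 2 * cut G (X \ Y) := by
    simp only [two_cut, ← Finset.sum_add_distrib]
    refine Finset.sum_congr rfl fun g hg => ?_
    have h1 := h g hg
    have h2 := h _ (G.opp_mem g hg)
    rw [G.opp_opp g hg] at h2
    have h5 := @hY (G.base g)
    have h6 := @hY (G.base (G.opp g))
    by_cases h3 : G.base g ∈ X <;> by_cases h4 : G.base (G.opp g) ∈ X <;>
      by_cases h7 : G.base g ∈ Y <;> by_cases h8 : G.base (G.opp g) ∈ Y <;>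
      simp_all
  omega

theorem pos67 {V H : Type*} (G : RotGraph V H) (A X : Finset V) (hc : Tc.Conn G A)
    (hX : X ⊆ A) (hne : X.Nonempty) (hXA : X ≠ A) : 0 < cut G X := by
  have h := hc X hX hne hXA
  simp only [Tc.Nadj, not_forall, not_not] at h
  obtain ⟨g, hg, h1, h2⟩ := h
  rw [cut, Finset.card_pos]
  refine ⟨g, ?_⟩
  simp only [bd, Finset.mem_filter]
  exact ⟨hg, h1, (Finset.mem_sdiff.1 h2).2⟩

/-- (I3) Connectivity. -/
theorem I3_67 : StGHC := by
  intro V H G A M T hA h0 hc hT X hX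
  have hXs := hT.sub X hX
  refine ⟨?_, fun hXA => pos67 G A X hc hXs (hT.ne X hX) hXA⟩
  by_cases hXA : X = A
  · rw [hXA]
    exact hc
  intro Y hYX hne hYne hN
  obtain ⟨hXM, a, ha, b, hb, hb', m⟩ := hT.min X hX hXA
  have hsum := cut_add67 G X Y hYX hN
  have hne' : (X \ Y).Nonempty := by
    rw [Finset.sdiff_nonempty]
    exact fun h => hYne (Finset.Subset.antisymm hYX h)
  have hYA : Y ≠ A := by
    rintro rfl
    exact hXA (Finset.Subset.antisymm hXs hYX)
  have hYA' : X \ Y ≠ A := by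
    intro h
    exact hXA (Finset.Subset.antisymm hXs (h ▸ Finset.sdiff_subset))
  have p1 := pos67 G A Y hc (hYX.trans hXs) hne hYA
  have p2 := pos67 G A (X \ Y) hc (Finset.sdiff_subset.trans hXs) hne' hYA'
  by_cases haY : a ∈ Y
  · have := m Y (hYX.trans hXs) haY (fun h => hb' (hYX h))
    omega
  · have := m (X \ Y) (Finset.sdiff_subset.trans hXs) (Finset.mem_sdiff.2 ⟨ha, haY⟩)
      (fun h => hb' (Finset.mem_sdiff.1 h).1)
    omega

end RotWqo.Pb
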