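import Pool.Agent.Lib.MP_cb4a0f_co.Pb.AllOf6
import Pool.Agent.Lib.MP_cb4a0f_co.Pb.III1_5
import Pool.Agent.Lib.MP_cb4a0f_co.Pb.III2_5
import Pool.Agent.Lib.MP_cb4a0f_co.Pb.I_67

/-!
# MP_cb4a0f_co: planar rotated graphs of bounded branch-width, the theorems
-/

open Classical

namespace RotWqo.Pb

open RotWqo.Pl

theorem connW : StConnW := conn_all (III2_5 III1_5 I3_67)

theorem wqo_free_arc {V₀ H₀ : Type} (P : RotGraph V₀ H₀) (hP : Planar P) (k : ℕ) (Q : Type)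
    (q : Q → Q → Prop) [IsPreorder Q q] (hq : WellQuasiOrdered q) (V H : ℕ → Type)
    [∀ i, Nonempty (V i)] [∀ i, Nonempty (H i)] (G : ∀ i, RotGraph (V i) (H i))
    (lab : ∀ i, V i → Q) (hG : ∀ i, (G i).darts = ∅ ∨ ∃ t, IsACar k (G i) (G i).verts t)
    (hf : ∀ i, ¬ Imm (fun _ _ => True) P (G i)) :
    ∃ i j, i < j ∧ Imm (fun v w => q (lab i v) (lab j w)) (G i) (G j) :=
  free_arc_wqo path_all euler_all host_all I_16 connW comps_all V7_23 P hP k Q q hq V H G lab hG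
    hf

theorem wqo_planar_br (k : ℕ) (V H : ℕ → Type) [∀ i, Nonempty (V i)] [∀ i, Nonempty (H i)]
    (G : ∀ i, RotGraph (V i) (H i)) (hP : ∀ i, CPlanar (G i))
    (hG : ∀ i, (G i).darts = ∅ ∨ ∃ t, IsBr k (G i) (G i).verts t) :
    ∃ i j, i < j ∧ Imm (fun _ _ => True) (G i) (G j) :=
  planar_br_wqo path_all euler_all host_all I_16 connW comps_all V7_23 arcP_all I97.iv3_97 k V H
    G hP hG

end RotWqo.Pb
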