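import Pool.Agent.Lib.MP_cb4a0f_co.Pb.Stmts
import Pool.Agent.Lib.MP_cb4a0f_co.Pl.Final6

/-!
# MP_cb4a0f_co: planar rotated graphs of bounded branch-width, the theorems from the modules
-/

open Classical

namespace RotWqo.Pb

open RotWqo.Bag RotWqo.Hk RotWqo.Pl

/-- The connected components of `G` are planar: they satisfy Euler's formula. -/
def CPlanar {V H : Type} (G : RotGraph V H) : Prop :=
  ∀ A ⊆ G.verts, A.Nonempty → cut G A = 0 → Tc.Conn G A → PlanarC (ind G A)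

theorem mem_of_cut {V H : Type*} {G : RotGraph V H} {A : Finset V} (h0 : cut G A = 0) {h : H}
    (hh : h ∈ G.darts) (hA : G.base h ∈ A) : G.base (G.opp h) ∈ A := by
  by_contra h1
  have h2 : h ∈ bd G A := mem_bd.2 ⟨hh, hA, h1⟩
  rw [Finset.card_eq_zero.1 h0] at h2
  simp at h2

theorem cut_ind {V H : Type*} {G : RotGraph V H} {A Z : Finset V} (h0 : cut G A = 0)
    (hZ : Z ⊆ A) : cut (ind G A) Z = cut G Z := by
  unfold cut
  congr 1
  ext h
  rw [mem_bd, mem_bd]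
  change h ∈ G.darts.filter _ ∧ G.base h ∈ Z ∧ G.base (G.opp h) ∉ Z ↔ _
  rw [Finset.mem_filter]
  constructor
  · rintro ⟨⟨h1, -⟩, h2, h3⟩
    exact ⟨h1, h2, h3⟩
  · rintro ⟨h1, h2, h3⟩
    exact ⟨⟨h1, hZ h2, mem_of_cut h0 h1 (hZ h2)⟩, h2, h3⟩

theorem lnk_ind {V H : Type*} {G : RotGraph V H} {A S : Finset V} {M : ℕ} (h0 : cut G A = 0)
    (hS : Lnk M G S) : Lnk M (ind G A) S := by
  intro Z hZ hu hv
  have h1 : Z ⊆ A := fun v hv => (Finset.mem_filter.1 (hZ hv)).2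
  rw [cut_ind h0 h1]
  exact hS Z (fun v hv => (Finset.mem_filter.1 (hZ hv)).1) hu hv

/-- (b') -/
theorem free_arc_wqo (hA : StPath) (hE : StEuler) (hB : StHost) (hI : StImmLE)
    (hC : StConnW) (hCo : StCompsW) (hRs : StRestr) {V₀ H₀ : Type}
    (P : RotGraph V₀ H₀) (hP : Planar P) (k : ℕ) (Q : Type)
    (q : Q → Q → Prop) [IsPreorder Q q] (hq : WellQuasiOrdered q) (V H : ℕ → Type)
    [∀ i, Nonempty (V i)] [∀ i, Nonempty (H i)] (G : ∀ i, RotGraph (V i) (H i))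
    (lab : ∀ i, V i → Q) (hG : ∀ i, (G i).darts = ∅ ∨ ∃ t, IsACar k (G i) (G i).verts t)
    (hf : ∀ i, ¬ Imm (fun _ _ => True) P (G i)) :
    ∃ i j, i < j ∧ Imm (fun v w => q (lab i v) (lab j w)) (G i) (G j) := by
  obtain ⟨m, M, h1⟩ := planar_universal hA hE hB hI P hP
  obtain ⟨i, j, hij, β, hβ⟩ := hCo Q q hq V H G lab (by
    rw [Set.partiallyWellOrderedOn_iff_exists_lt]
    intro a ha
    exact hC k m M Q q hq (fun n => V (a n).1) (fun n => H (a n).1) (fun n => G (a n).1)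
      (fun n => lab (a n).1) (fun n => (a n).2) (fun n => (ha n).1) (fun n => (ha n).2.1)
      (fun n => (ha n).2.2.1) (fun n => (ha n).2.2.2)
      (fun n S hS hm hL => hf _ (h1 _ _ (G (a n).1) S (hS.trans (ha n).1) hm hL))
      (fun n => by
        rcases hG (a n).1 with h2 | ⟨t, h2⟩
        · left
          unfold dts
          rw [h2, Finset.filter_empty]
        · exact (hRs k _ _ (G (a n).1) (a n).2 t (ha n).1 (ha n).2.2.1).2 h2))
  exact ⟨i, j, hij, imm_of_PE _ _ _ β hβ⟩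

/-- (c') -/
theorem planar_br_wqo (hA : StPath) (hE : StEuler) (hB : StHost) (hI : StImmLE)
    (hC : StConnW) (hCo : StCompsW) (hRs : StRestr) (hAP : StArcP) (hIP : StIndPE) (k : ℕ)
    (V H : ℕ → Type) [∀ i, Nonempty (V i)] [∀ i, Nonempty (H i)]
    (G : ∀ i, RotGraph (V i) (H i)) (hP : ∀ i, CPlanar (G i))
    (hG : ∀ i, (G i).darts = ∅ ∨ ∃ t, IsBr k (G i) (G i).verts t) :
    ∃ i j, i < j ∧ Imm (fun _ _ => True) (G i) (G j) := by
  obtain ⟨W, hW⟩ := hAP k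
  have : IsPreorder Unit (fun _ _ : Unit => True) :=
    { refl := fun _ => trivial
      trans := fun _ _ _ _ _ => trivial }
  have hu : WellQuasiOrdered (fun _ _ : Unit => True) := fun _ => ⟨0, 1, Nat.zero_lt_one, trivial⟩
  obtain ⟨i, j, hij, β, hβ⟩ := hCo Unit (fun _ _ => True) hu V H G (fun _ _ => ()) (by
    rw [Set.partiallyWellOrderedOn_iff_exists_lt]
    intro a ha
    have h0 : PlanarC (ind (G (a 0).1) (a 0).2) :=
      hP _ _ (ha 0).1 (ha 0).2.1 (ha 0).2.2.1 (ha 0).2.2.2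
    have hpl : Planar (ind (G (a 0).1) (a 0).2) :=
      ⟨_, _, _, h0, LE.imm ⟨id, PE.refl _ (fun _ => trivial) _ _⟩⟩
    obtain ⟨m, M, h1⟩ := planar_universal hA hE hB hI _ hpl
    by_cases h2 : ∃ n, ∃ S ⊆ (a (n + 1)).2, m ≤ S.card ∧ Lnk M (G (a (n + 1)).1) S
    · obtain ⟨n, S, h3, h4, h5⟩ := h2
      have h6 : S ⊆ (ind (G (a (n + 1)).1) (a (n + 1)).2).verts := fun v hv =>
        Finset.mem_filter.2 ⟨(ha (n + 1)).1 (h3 hv), h3 hv⟩
      have h7 := h1 _ _ (ind (G (a (n + 1)).1) (a (n + 1)).2) S h6 h4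
        (lnk_ind (ha (n + 1)).2.2.1 h5)
      obtain ⟨β, h8⟩ := hI _ _ _ _ _ _ _ h7
      exact ⟨0, n + 1, by omega, β, hIP _ _ _ _ _ _ _ _ _ _ (ha 0).1 (ha (n + 1)).1
        (ha 0).2.2.1 (ha (n + 1)).2.2.1 h8⟩
    · push Not at h2
      obtain ⟨i, j, hij, h3⟩ := hC W m M Unit (fun _ _ => True) hu (fun n => V (a (n + 1)).1)
        (fun n => H (a (n + 1)).1) (fun n => G (a (n + 1)).1) (fun _ _ => ())
        (fun n => (a (n + 1)).2) (fun n => (ha _).1) (fun n => (ha _).2.1)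
        (fun n => (ha _).2.2.1) (fun n => (ha _).2.2.2) (fun n S hS hm => h2 n S hS hm)
        (fun n => by
          have h4 : dts (G (a (n + 1)).1) (a (n + 1)).2 = ∅ ∨
              ∃ t', IsBr k (G (a (n + 1)).1) (a (n + 1)).2 t' := by
            rcases hG (a (n + 1)).1 with h2 | ⟨t, h2⟩
            · left
              unfold dts
              rw [h2, Finset.filter_empty]
            · exact (hRs k _ _ (G (a (n + 1)).1) (a (n + 1)).2 t (ha _).1 (ha _).2.2.1).1 h2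
          rcases h4 with h4 | ⟨t, h4⟩
          · exact Or.inl h4
          · exact Or.inr (hW _ _ _ _ t (ha _).1 (ha _).2.2.1
              (hP _ _ (ha _).1 (ha _).2.1 (ha _).2.2.1 (ha _).2.2.2) h4))
      exact ⟨i + 1, j + 1, by omega, h3⟩)
  exact ⟨i, j, hij, imm_of_PE _ _ _ β hβ⟩

end RotWqo.Pb
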