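import Pool.Agent.Lib.MP_cb4a0f_co.Pb.Stmts
import Pool.Agent.Lib.MP_cb4a0f_co.Parts

/-!
# MP_cb4a0f_co: Gomory-Hu families of minimum cuts exist

We minimise `C * cut G X + |X| * |A - X|` over the subsets `X` of `A` that separate a given pair
and avoid a fixed vertex. The second summand makes the function strictly submodular, so that all
these minimum cuts are laminar.
-/

open Classical

namespace RotWqo.Pb

section I1

variable {V H : Type*}

theorem cut_compl49 (G : RotGraph V H) {A : Finset V} (hA : cut G A = 0) {X : Finset V}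
    (hX : X ⊆ A) : cut G (A \ X) = cut G X := by
  have hb : ∀ h ∈ G.darts, G.base h ∈ A → G.base (G.opp h) ∈ A := by
    intro h hh h1
    by_contra h2
    have h3 : h ∈ bd G A := by
      rw [mem_bd]
      exact ⟨hh, h1, h2⟩
    rw [cut, Finset.card_eq_zero] at hA
    rw [hA] at h3
    simp at h3
  have h : 2 * cut G (A \ X) = 2 * cut G X := by
    rw [two_cut, two_cut]
    refine Finset.sum_congr rfl fun h hh => ?_
    have h1 := hb h hh
    have h2 := hb _ (G.opp_mem h hh)
    rw [G.opp_opp h hh] at h2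
    have h5 := @hX (G.base h)
    have h6 := @hX (G.base (G.opp h))
    by_cases h3 : G.base h ∈ X <;> by_cases h4 : G.base (G.opp h) ∈ X <;>
      by_cases h7 : G.base h ∈ A <;> by_cases h8 : G.base (G.opp h) ∈ A <;> simp_all
  omega

/-- The function that is minimised. -/
noncomputable def dd49 (G : RotGraph V H) (A X : Finset V) : ℕ :=
  (A.card * A.card + 1) * cut G X + X.card * (A.card - X.card)

/-- `X` separates `a` and `b`. -/
def Sp49 (X : Finset V) (a b : V) : Prop := ¬ (a ∈ X ↔ b ∈ X)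

theorem dd49_le (G : RotGraph V H) (A X Z : Finset V) (hZ : Z ⊆ A)
    (h : dd49 G A X ≤ dd49 G A Z) : cut G X ≤ cut G Z := by
  by_contra hc
  have hc' : cut G Z + 1 ≤ cut G X := by omega
  have h1 : Z.card * (A.card - Z.card) ≤ A.card * A.card :=
    Nat.mul_le_mul (Finset.card_le_card hZ) (Nat.sub_le _ _)
  have h2 : (A.card * A.card + 1) * (cut G Z + 1) ≤
      (A.card * A.card + 1) * cut G X := Nat.mul_le_mul_left _ hc'
  rw [Nat.mul_add, Nat.mul_one] at h2
  simp only [dd49] at h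
  omega

theorem cross49 (G : RotGraph V H) (A : Finset V) (r : V) (hr : r ∈ A) (X Y : Finset V)
    (hX : X ⊆ A) (hY : Y ⊆ A) (hrX : r ∉ X) (hrY : r ∉ Y) (h1 : ¬ X ⊆ Y)
    (h2 : ¬ Y ⊆ X) (h3 : ¬ Disjoint X Y) :
    dd49 G A (X ∩ Y) + dd49 G A (X ∪ Y) < dd49 G A X + dd49 G A Y ∧
    dd49 G A (X \ Y) + dd49 G A (Y \ X) < dd49 G A X + dd49 G A Y := by
  have p1 : 0 < (X ∩ Y).card := by
    rw [Finset.card_pos, Finset.nonempty_iff_ne_empty, Ne, ← Finset.disjoint_iff_inter_eq_empty]
    exact h3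
  have q1 : 0 < (X \ Y).card := by
    rw [Finset.card_pos]
    exact Finset.sdiff_nonempty.2 h1
  have r1 : 0 < (Y \ X).card := by
    rw [Finset.card_pos]
    exact Finset.sdiff_nonempty.2 h2
  have s1 : 0 < (A \ (X ∪ Y)).card := by
    rw [Finset.card_pos]
    exact ⟨r, by simp [hr, hrX, hrY]⟩
  have e1 : X.card = (X ∩ Y).card + (X \ Y).card := (Finset.card_inter_add_card_sdiff X Y).symm
  have e2 : Y.card = (X ∩ Y).card + (Y \ X).card := by
    rw [Finset.inter_comm]
    exact (Finset.card_inter_add_card_sdiff Y X).symm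
  have e3 : (X ∪ Y).card = (X ∩ Y).card + (X \ Y).card + (Y \ X).card := by
    have := Finset.card_union_add_card_inter X Y
    omega
  have e4 : A.card = (X ∩ Y).card + (X \ Y).card + (Y \ X).card +
      (A \ (X ∪ Y)).card := by
    have h := Finset.card_sdiff_add_card_eq_card (Finset.union_subset hX hY)
    omega
  have c1 := cut_submod G X Y
  have c2 := cut_posimod G X Y
  have d1 := Nat.mul_le_mul_left (A.card * A.card + 1) c1
  have d2 := Nat.mul_le_mul_left (A.card * A.card + 1) c2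
  rw [Nat.mul_add, Nat.mul_add] at d1 d2
  have f1 : (X ∩ Y).card * (A.card - (X ∩ Y).card) +
      (X ∪ Y).card * (A.card - (X ∪ Y).card) <
      X.card * (A.card - X.card) + Y.card * (A.card - Y.card) := by
    rw [e1, e2, e3, e4]
    generalize (X ∩ Y).card = p at *
    generalize (X \ Y).card = q at *
    generalize (Y \ X).card = r' at *
    generalize (A \ (X ∪ Y)).card = s at *
    have g1 : p + q + r' + s - p = q + r' + s := by omega
    have g2 : p + q + r' + s - (p + q + r') = s := by omega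
    have g3 : p + q + r' + s - (p + q) = r' + s := by omega
    have g4 : p + q + r' + s - (p + r') = q + s := by omega
    rw [g1, g2, g3, g4]
    have : 0 < q * r' := Nat.mul_pos q1 r1
    nlinarith
  have f2 : (X \ Y).card * (A.card - (X \ Y).card) +
      (Y \ X).card * (A.card - (Y \ X).card) <
      X.card * (A.card - X.card) + Y.card * (A.card - Y.card) := by
    rw [e1, e2, e4]
    generalize (X ∩ Y).card = p at *
    generalize (X \ Y).card = q at *
    generalize (Y \ X).card = r' at *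
    generalize (A \ (X ∪ Y)).card = s at *
    have g1 : p + q + r' + s - q = p + r' + s := by omega
    have g2 : p + q + r' + s - r' = p + q + s := by omega
    have g3 : p + q + r' + s - (p + q) = r' + s := by omega
    have g4 : p + q + r' + s - (p + r') = q + s := by omega
    rw [g1, g2, g3, g4]
    have : 0 < p * s := Nat.mul_pos p1 s1
    nlinarith
  simp only [dd49]
  constructor <;> omega

/-- Minimum cuts among the sets without `r`. -/
def Mn49 (G : RotGraph V H) (A : Finset V) (r : V) (X : Finset V) : Prop :=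
  ∃ a ∈ A, ∃ b ∈ A, Sp49 X a b ∧ ∀ Z ⊆ A, r ∉ Z → Sp49 Z a b → dd49 G A X ≤ dd49 G A Z

theorem lam49 (G : RotGraph V H) (A : Finset V) (r : V) (hr : r ∈ A) (X Y : Finset V)
    (hX : X ⊆ A) (hY : Y ⊆ A) (hrX : r ∉ X) (hrY : r ∉ Y) (mX : Mn49 G A r X)
    (mY : Mn49 G A r Y) : X ⊆ Y ∨ Y ⊆ X ∨ Disjoint X Y := by
  by_contra hcon
  push Not at hcon
  obtain ⟨h1, h2, h3⟩ := hcon
  obtain ⟨c1, c2⟩ := cross49 G A r hr X Y hX hY hrX hrY h1 h2 h3
  obtain ⟨a, -, b, -, s1, m1⟩ := mX
  obtain ⟨u, -, v, -, s2, m2⟩ := mY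
  have sI : X ∩ Y ⊆ A := fun x hx => hX (Finset.mem_inter.1 hx).1
  have sU : X ∪ Y ⊆ A := Finset.union_subset hX hY
  have sD : X \ Y ⊆ A := fun x hx => hX (Finset.mem_sdiff.1 hx).1
  have sE : Y \ X ⊆ A := fun x hx => hY (Finset.mem_sdiff.1 hx).1
  have rI : r ∉ X ∩ Y := by simp [hrX]
  have rU : r ∉ X ∪ Y := by simp [hrX, hrY]
  have rD : r ∉ X \ Y := by simp [hrX]
  have rE : r ∉ Y \ X := by simp [hrY]
  have a1 := m1 _ sI rI
  have a2 := m1 _ sU rU
  have a3 := m1 _ sD rD
  have a4 := m1 _ sE rE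
  have a5 := m1 Y hY hrY
  have b1 := m2 _ sI rI
  have b2 := m2 _ sU rU
  have b3 := m2 _ sD rD
  have b4 := m2 _ sE rE
  have b5 := m2 X hX hrX
  clear m1 m2 sI sU sD sE rI rU rD rE h1 h2 h3
  simp only [Sp49, Finset.mem_inter, Finset.mem_union, Finset.mem_sdiff] at *
  by_cases k1 : a ∈ X <;> by_cases k2 : a ∈ Y <;> by_cases k3 : b ∈ X <;>
    simp only [k1, k2, k3, not_true, not_false_iff, true_and, false_and, and_true, and_false,
      true_or, false_or, or_true, or_false, iff_true, iff_false, true_iff, false_iff,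
      not_not, iff_self, false_imp_iff, true_imp_iff] at s1 a1 a2 a3 a4 a5 <;>
    by_cases k4 : b ∈ Y <;> by_cases k5 : u ∈ X <;> by_cases k6 : u ∈ Y <;>
    by_cases k7 : v ∈ X <;> by_cases k8 : v ∈ Y <;>
    simp [k4, k5, k6, k7, k8] at s2 a1 a2 a3 a4 a5 b1 b2 b3 b4 b5 <;> omega

end I1

theorem I1_49 : StGHT := by
  intro V H G A M hAV hne hcut
  obtain ⟨r, hr⟩ := hne
  set P : Finset V → Prop := fun X => r ∉ X ∧ cut G X < M ∧ Mn49 G A r X with hP
  have hmem : ∀ X, X ∈ insert A (A.powerset.filter P) ↔ X = A ∨ (X ⊆ A ∧ P X) := by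
    intro X
    simp only [Finset.mem_insert, Finset.mem_filter, Finset.mem_powerset]
  refine ⟨insert A (A.powerset.filter P), ?_, ?_, ?_, ?_, ?_, ?_⟩
  · exact Finset.mem_insert_self _ _
  · intro X hX
    rw [hmem] at hX
    rcases hX with rfl | hX
    · exact subset_rfl
    · exact hX.1
  · intro X hX
    rw [hmem] at hX
    rcases hX with rfl | ⟨h1, h2, h3, a, -, b, -, h4, -⟩
    · exact ⟨r, hr⟩
    · by_contra h5
      rw [Finset.not_nonempty_iff_eq_empty] at h5
      subst h5
      exact h4 (by simp)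
  · intro X hX Y hY
    rw [hmem] at hX hY
    rcases hX with rfl | ⟨h1, h2, -, h3⟩
    · rcases hY with rfl | ⟨h4, -⟩
      · exact Or.inl subset_rfl
      · exact Or.inr (Or.inl h4)
    · rcases hY with rfl | ⟨h4, h5, -, h6⟩
      · exact Or.inl h1
      · exact lam49 G A r hr X Y h1 h4 h2 h5 h3 h6
  · intro X hX hXA
    rw [hmem] at hX
    rcases hX with rfl | ⟨h1, h2, h3, a, ha, b, hb, h4, h5⟩
    · exact absurd rfl hXA
    · refine ⟨h3, ?_⟩
      have key : ∀ Z ⊆ A, Sp49 Z a b → cut G X ≤ cut G Z := by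
        intro Z hZ hs
        by_cases hrZ : r ∈ Z
        · have h6 : Sp49 (A \ Z) a b := by
            intro h7
            apply hs
            simp only [Finset.mem_sdiff, ha, hb, true_and] at h7
            exact not_iff_not.1 h7
          have h7 := dd49_le G A X (A \ Z) Finset.sdiff_subset
            (h5 _ Finset.sdiff_subset (by simp [hrZ]) h6)
          rwa [cut_compl49 G hcut hZ] at h7
        · exact dd49_le G A X Z hZ (h5 Z hZ hrZ hs)
      by_cases haX : a ∈ X
      · have hbX : b ∉ X := fun h => h4 (by simp [haX, h])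
        refine ⟨a, haX, b, hb, hbX, fun Z hZ h6 h7 => key Z hZ (by simp [Sp49, h6, h7])⟩
      · have hbX : b ∈ X := by
          by_contra h
          exact h4 (by simp [haX, h])
        refine ⟨b, hbX, a, ha, haX, fun Z hZ h6 h7 => key Z hZ (by simp [Sp49, h6, h7])⟩
  · rintro u hu v hv ⟨Z, hZ, huZ, hvZ, hcZ⟩
    have hflip : ∀ Z ⊆ A, Sp49 Z u v → ∃ Z' ⊆ A, r ∉ Z' ∧ Sp49 Z' u v ∧
        cut G Z' = cut G Z := by
      intro Z hZ hs
      by_cases hrZ : r ∈ Z
      · refine ⟨A \ Z, Finset.sdiff_subset, by simp [hrZ], ?_, cut_compl49 G hcut hZ⟩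
        intro h7
        apply hs
        simp only [Finset.mem_sdiff, hu, hv, true_and] at h7
        exact not_iff_not.1 h7
      · exact ⟨Z, hZ, hrZ, hs, rfl⟩
    obtain ⟨Z', hZ', hrZ', hsZ', hcZ'⟩ := hflip Z hZ (by simp [Sp49, huZ, hvZ])
    obtain ⟨X, hX, hmin⟩ := Finset.exists_min_image
      (A.powerset.filter (fun X => r ∉ X ∧ Sp49 X u v)) (dd49 G A)
      ⟨Z', by simp only [Finset.mem_filter, Finset.mem_powerset]; exact ⟨hZ', hrZ', hsZ'⟩⟩
    simp only [Finset.mem_filter, Finset.mem_powerset] at hX hmin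
    have hle := dd49_le G A X Z' hZ' (hmin Z' ⟨hZ', hrZ', hsZ'⟩)
    refine ⟨X, ?_, ?_, ?_⟩
    · rw [hmem]
      exact Or.inr ⟨hX.1, hX.2.1, by omega, u, hu, v, hv, hX.2.2,
        fun Z h1 h2 h3 => hmin Z ⟨h1, h2, h3⟩⟩
    · have h := hX.2.2
      simp only [Sp49] at h
      by_cases h1 : u ∈ X <;> by_cases h2 : v ∈ X <;> simp_all
    · intro Z₁ hZ₁ h1 h2
      obtain ⟨Z₂, h3, h4, h5, h6⟩ := hflip Z₁ hZ₁ (by simp [Sp49, h1, h2])
      rw [← h6]
      exact dd49_le G A X Z₂ h3 (hmin Z₂ ⟨h3, h4, h5⟩)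

end RotWqo.Pb
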