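import Pool.Agent.Lib.MP_cb4a0f_co.Pb.I1_49

/-!
# MP_cb4a0f_co: Gomory-Hu families are linked
-/

open Classical

namespace RotWqo.Pb

theorem I2_49 : StGHL := by
  intro V H G A M T hAV hcut hT X hX Y hY hYX hXY hmin U hYU hUX
  by_contra hlt
  rw [not_le] at hlt
  have hXA : X ≠ A := by
    rintro rfl
    omega
  have hYA : Y ≠ A := by
    rintro rfl
    omega
  have hXs := hT.sub X hX
  obtain ⟨-, a, ha, b, hb, hbX, hm⟩ := hT.min X hX hXA
  obtain ⟨hYM, c, hc, d, hd, hdY, hn⟩ := hT.min Y hY hYA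
  have hUA : U ⊆ A := hUX.trans hXs
  have hdU : d ∈ U := by
    by_contra h
    have := hn U hUA (hYU hc) h
    omega
  have haU : a ∉ U := by
    intro h
    have := hm U hUA h (fun h' => hbX (hUX h'))
    omega
  obtain ⟨W, hW, hsep, hWm⟩ := hT.sep d hd a (hXs ha) ⟨U, hUA, hdU, haU, by omega⟩
  have hWU := hWm U hUA hdU haU
  have hWA := hT.sub W hW
  rcases hsep with ⟨h1, h2⟩ | ⟨h1, h2⟩
  · have hWX : W ⊆ X := by
      rcases hT.lam X hX W hW with h3 | h3 | h3
      · exact absurd (h3 ha) h2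
      · exact h3
      · exact absurd h1 (Finset.disjoint_left.1 h3 (hUX hdU))
    rcases hT.lam Y hY W hW with h3 | h3 | h3
    · have := hmin W hW h3 hWX
      omega
    · exact hdY (h3 h1)
    · have h4 := hn (A \ W) Finset.sdiff_subset
        (Finset.mem_sdiff.2 ⟨hT.sub Y hY hc, Finset.disjoint_left.1 h3 hc⟩) (by simp [h1])
      rw [cut_compl49 G hcut hWA] at h4
      omega
  · have hWX : W ⊆ X := by
      rcases hT.lam X hX W hW with h3 | h3 | h3
      · exact absurd (h3 (hUX hdU)) h2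
      · exact h3
      · exact absurd h1 (Finset.disjoint_left.1 h3 ha)
    have h4 := hm W hWA h1 (fun h => hbX (hWX h))
    omega

end RotWqo.Pb
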