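import Pool.Agent.Lib.MP_cb4a0f_co.Pb.Stmts
import Pool.Agent.Lib.MP_cb4a0f_co.Bag.FlowF
import Pool.Agent.Lib.MP_cb4a0f_co.Tc.Exp9

/-!
# MP_cb4a0f_co, Pb (II1): orders of the boundary half-edges of minimum cuts, from flows
-/

open Classical

namespace RotWqo.Pb

open RotWqo.Bag RotWqo.Hk RotWqo.Pl

theorem nc_pull25 {H H' : Type*} {M : H → H → Prop} {M' : H' → H' → Prop} {e : H' → H}
    {l : List H} (h : NC M l) : ∀ l' : List H', l = l'.map e →
      (∀ a ∈ l', ∀ b ∈ l', M (e a) (e b) → M' a b) →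
      (∀ a ∈ l', ∀ b, M' a b → ∃ c, M (e a) c) → NC M' l' := by
  induction h with
  | done l h =>
    intro l' hl _ h2
    refine .done _ fun a ha b hab => ?_
    obtain ⟨c, hc⟩ := h2 a ha b hab
    exact h (e a) (hl ▸ List.mem_map_of_mem ha) c hc
  | pair l a b l1 h1 h2 h3 ih =>
    intro l' hl k1 k2
    obtain ⟨n, hn⟩ := h1
    rw [hl, ← List.map_rotate, List.map_eq_cons_iff] at hn
    obtain ⟨a', t, h4, h5, h6⟩ := hn
    rw [List.map_eq_cons_iff] at h6
    obtain ⟨b', t', h7, h8, h9⟩ := h6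
    have hr : l' ~r a' :: b' :: t' := ⟨n, by rw [h4, h7]⟩
    have hm : ∀ c, c ∈ a' :: b' :: t' → c ∈ l' := fun c hc => hr.mem_iff.2 hc
    refine .pair _ a' b' t' hr (k1 _ (hm _ (by simp)) _ (hm _ (by simp)) ?_) (ih t' h9.symm ?_ ?_)
    · rw [h5, h8]
      exact h2
    · exact fun a ha b hb => k1 a (hm a (by simp [ha])) b (hm b (by simp [hb]))
    · exact fun a ha b => k2 a (hm a (by simp [ha])) b

theorem II1_25 : StOrd := by
  intro V H G X a hX ha hmin
  obtain ⟨U, T, M, en, F⟩ := Bag.stFlow V H G X a (fun _ => 0) ha hX (by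
    intro Z hZ hZX _
    simpa using hmin Z hZ hZX)
  have hT : T = ∅ := by
    rw [Finset.eq_empty_iff_forall_notMem]
    intro h hh
    have h1 := F.U_mem h (F.T_sub hh)
    have h2 := F.T_card (G.base h) h1.2 (F.T_x h hh)
    rw [Finset.card_eq_zero, Finset.eq_empty_iff_forall_notMem] at h2
    exact h2 h (Finset.mem_filter.2 ⟨hh, rfl⟩)
  have hen : ∀ p ∈ U, G.base p = a → Run G.opp M p (en p) ∧ en p ∈ bd G X := by
    intro p hp hpa
    obtain ⟨h1, h2 | h2⟩ := F.run p hp hpa
    · exact ⟨h1, h2⟩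
    · rw [hT] at h2
      simp at h2
  have hinj : Set.InjOn en ((U.filter (fun h => G.base h = a) : Finset H) : Set H) := by
    have hcard : (U.filter (fun h => G.base h = a)).card ≤ (bd G X).card := by
      rw [F.card]
      simp [cut]
    have hsurj : Set.SurjOn en ((U.filter (fun h => G.base h = a) : Finset H) : Set H)
        ((bd G X : Finset H) : Set H) := by
      intro b hb
      obtain ⟨p, hp, hpa, hpb⟩ := F.surj_bd b hb
      exact ⟨p, by simp [hp, hpa], hpb⟩
    intro p hp q hq hpq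
    exact Finset.inj_on_of_surj_on_of_card_le (fun p _ => en p)
      (by
        intro p hp
        rw [Finset.mem_filter] at hp
        exact (hen p hp.1 hp.2).2)
      (by
        intro b hb
        obtain ⟨p, hp, hpb⟩ := hsurj hb
        exact ⟨p, hp, hpb⟩)
      hcard hp hq hpq
  have hinj' : ∀ p ∈ U, G.base p = a → ∀ q ∈ U, G.base q = a → en p = en q → p = q := by
    intro p hp hpa q hq hqa h
    exact hinj (by simp [hp, hpa]) (by simp [hq, hqa]) h
  set L : List H := (G.rot a).filter (fun h => decide (h ∈ U)) with hL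
  have memL : ∀ p, p ∈ L ↔ p ∈ U ∧ G.base p = a := by
    intro p
    rw [hL, List.mem_filter, G.mem_rot, decide_eq_true_eq]
    constructor
    · rintro ⟨⟨-, h1⟩, h2⟩
      exact ⟨h2, h1⟩
    · rintro ⟨h1, h2⟩
      exact ⟨⟨(F.U_mem p h1).1, h2⟩, h1⟩
  refine ⟨L.map en, ?_, ?_, ?_⟩
  · rw [List.nodup_map_iff_inj_on ((G.nodup a).filter _)]
    intro p hp q hq h
    rw [← hL] at hp hq
    exact hinj' p ((memL p).1 hp).1 ((memL p).1 hp).2 q ((memL q).1 hq).1 ((memL q).1 hq).2 h
  · intro h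
    rw [List.mem_map]
    constructor
    · rintro ⟨p, hp, rfl⟩
      exact (hen p ((memL p).1 hp).1 ((memL p).1 hp).2).2
    · intro hh
      obtain ⟨p, hp, hpa, hpb⟩ := F.surj_bd h hh
      exact ⟨p, (memL p).2 ⟨hp, hpa⟩, hpb⟩
  · intro N Ns Nf Nm hN
    have hMx : ∀ p q, M p q → G.base p ≠ a := fun p q h => (F.M_mem p q h).2.2.1
    refine ⟨fun p q => M p q ∨ ((p ∈ U ∧ G.base p = a) ∧ (q ∈ U ∧ G.base q = a) ∧
      N (en p) (en q)), ?_, ?_, ?_, ?_, ?_⟩
    · rintro p q (h | ⟨h1, h2, h3⟩)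
      · exact Or.inl (F.M_symm _ _ h)
      · exact Or.inr ⟨h2, h1, Ns _ _ h3⟩
    · rintro p q r (h | ⟨h1, h2, h3⟩) (h' | ⟨h1', h2', h3'⟩)
      · exact F.M_fun _ _ _ h h'
      · exact absurd h1'.2 (hMx _ _ h)
      · exact absurd h1.2 (hMx _ _ h')
      · exact hinj' q h2.1 h2.2 r h2'.1 h2'.2 (Nf _ _ _ h3 h3')
    · rintro p q (h | ⟨h1, h2, h3⟩)
      · have h4 := F.M_mem _ _ h
        have h5 := F.U_mem _ h4.1
        exact ⟨h5.1, h5.2, h4.2.2.2⟩
      · exact ⟨(F.U_mem _ h1.1).1, h1.2 ▸ ha, by rw [h1.2, h2.2]⟩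
    · intro v hv
      by_cases hva : v = a
      · subst hva
        have key : ∀ p ∈ G.rot v, (∃ q, (M p q ∨ ((p ∈ U ∧ G.base p = v) ∧
            (q ∈ U ∧ G.base q = v) ∧ N (en p) (en q)))) ↔ (∃ c, N (en p) c) ∧ p ∈ U := by
          intro p hp
          rw [G.mem_rot] at hp
          constructor
          · rintro ⟨q, h | ⟨h1, h2, h3⟩⟩
            · exact absurd hp.2 (hMx _ _ h)
            · exact ⟨⟨_, h3⟩, h1.1⟩
          · rintro ⟨⟨c, hc⟩, hpU⟩
            obtain ⟨q, hq, hqa, hqc⟩ := F.surj_bd c (Nm c _ (Ns _ _ hc))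
            exact ⟨q, Or.inr ⟨⟨hpU, hp.2⟩, ⟨hq, hqa⟩, by rw [hqc]; exact hc⟩⟩
        refine nc_pull25 (e := en) (M := N) hN _ ?_ ?_ ?_
        · rw [List.filter_map, hL, List.filter_filter]
          congr 1
          refine List.filter_congr fun p hp => ?_
          rw [Function.comp_apply, ← Bool.decide_and, decide_eq_decide]
          exact (key p hp).symm
        · intro p hp q hq h
          rw [List.mem_filter, decide_eq_true_eq] at hp hq
          exact Or.inr ⟨⟨((key p hp.1).1 hp.2).2, ((G.mem_rot _ _).1 hp.1).2⟩,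
            ⟨((key q hq.1).1 hq.2).2, ((G.mem_rot _ _).1 hq.1).2⟩, h⟩
        · intro p hp q _
          rw [List.mem_filter, decide_eq_true_eq] at hp
          exact ((key p hp.1).1 hp.2).1
      · have hc : ∀ p ∈ G.rot v, (∃ q, (M p q ∨ ((p ∈ U ∧ G.base p = a) ∧
            (q ∈ U ∧ G.base q = a) ∧ N (en p) (en q)))) ↔ p ∈ U := by
          intro p hp
          rw [G.mem_rot] at hp
          constructor
          · rintro ⟨q, h | ⟨h1, h2, h3⟩⟩
            · exact (F.M_mem _ _ h).1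
            · exact h1.1
          · intro hpU
            obtain ⟨q, hq⟩ := F.M_total p hpU (by rw [hT]; simp) (by rw [hp.2]; exact hva)
            exact ⟨q, Or.inl hq⟩
        have h1 := F.nc v hv hva
        have h2 : (G.rot v).filter (fun p => decide (∃ q, (M p q ∨ ((p ∈ U ∧ G.base p = a) ∧
            (q ∈ U ∧ G.base q = a) ∧ N (en p) (en q))))) =
            (G.rot v).filter (fun h => decide (h ∈ U)) := by
          refine List.filter_congr fun p hp => ?_
          rw [decide_eq_decide]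
          exact hc p hp
        rw [h2]
        refine h1.congr fun p hp q => ?_
        rw [List.mem_filter, G.mem_rot] at hp
        constructor
        · exact Or.inl
        · rintro (h | ⟨h3, -⟩)
          · exact h
          · exact absurd (hp.1.2.symm.trans h3.2) hva
    · intro b c hbc
      obtain ⟨p, hp, hpa, hpb⟩ := F.surj_bd b (Nm b c hbc)
      obtain ⟨q, hq, hqa, hqc⟩ := F.surj_bd c (Nm c b (Ns _ _ hbc))
      have h1 := (hen p hp hpa).1
      have h2 := (hen q hq hqa).1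
      rw [hpb] at h1
      rw [hqc] at h2
      have hM1 : ∀ u w, M u w → G.opp (G.opp u) = u := fun u w h =>
        G.opp_opp u (F.U_mem u (F.M_mem u w h).1).1
      have h3 := h1.reverse F.M_symm hM1
      refine (h3.mono fun _ _ h => Or.inl h).trans (.step _ q _ ?_ (h2.mono fun _ _ h => Or.inl h))
      rw [G.opp_opp p (F.U_mem p hp).1]
      exact Or.inr ⟨⟨hp, hpa⟩, ⟨hq, hqa⟩, by rw [hpb, hqc]; exact hbc⟩

end RotWqo.Pb
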