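import Pool.Agent.Lib.MP_cb4a0f_co.Pb.Stmts
import Pool.Agent.Lib.MP_cb4a0f_co.Tc.Mark1

/-!
# MP_cb4a0f_co, Pb: respecting the order of the boundary half-edges
-/

open Classical

namespace RotWqo.Pb

open RotWqo.Bag RotWqo.Hk RotWqo.Pl

theorem ii3_59_list {γ δ : Type*} (L : List γ) (L' : List δ) (hL : L.Nodup) (β : γ → δ)
    (hlen : L.length = L'.length)
    (h : ∀ x ∈ L, L'.idxOf (β x) = L.idxOf x ∧ β x ∈ L') : L.map β = L' := by
  apply List.ext_getElem
  · rw [List.length_map, hlen]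
  · intro i h1 h2
    rw [List.getElem_map]
    have hi : i < L.length := by rwa [List.length_map] at h1
    obtain ⟨h3, h4⟩ := h L[i] (List.getElem_mem hi)
    rw [hL.idxOf_getElem i hi] at h3
    have h5 := List.getElem_idxOf (List.idxOf_lt_length_iff.2 h4)
    rw [← h5]
    congr 1

/-- (II3) Respecting the orders of the boundaries is free. -/
theorem ii3_59 : StMarkO := by
  intro d α V H G A o Q q _ lab S ho hS
  have hpre : IsPreorder α (fun a b => ∃ β,
      PE (fun v v' => q (lab a v) (lab b v')) (G a) (A a) (G b) (A b) β) :=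
    { refl := fun a => ⟨id, PE.refl _ (fun v => refl_of q (lab a v)) (G a) (A a)⟩
      trans := by
        rintro a b c ⟨β, h⟩ ⟨β', h'⟩
        exact ⟨β' ∘ β, Tc.Mark1.trans_lab h h'⟩ }
  rw [Set.partiallyWellOrderedOn_iff_exists_lt]
  intro f hf
  obtain ⟨g, hg⟩ := hS.exists_monotone_subseq hf
  have hb : ∀ n, ∃ β, PE (fun v v' => q (lab (f (g n)) v) (lab (f (g (n + 1))) v'))
      (G (f (g n))) (A (f (g n))) (G (f (g (n + 1)))) (A (f (g (n + 1)))) β :=
    fun n => hg n (n + 1) (Nat.le_succ n)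
  choose b hb using hb
  let B : ∀ n, H (f (g 0)) → H (f (g n)) :=
    fun n => Nat.rec (motive := fun n => H (f (g 0)) → H (f (g n))) id (fun n F => b n ∘ F) n
  have hB0 : ∀ x, B 0 x = x := fun x => rfl
  have hBs : ∀ n x, B (n + 1) x = b n (B n x) := fun n x => rfl
  have hcomp : ∀ n n', n < n' → ∃ β, PE (fun v v' => q (lab (f (g n)) v) (lab (f (g n')) v'))
      (G (f (g n))) (A (f (g n))) (G (f (g n'))) (A (f (g n'))) β ∧
      ∀ x, B n' x = β (B n x) := by
    intro n n' h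
    induction n', h using Nat.le_induction with
    | base => exact ⟨b n, hb n, fun x => hBs n x⟩
    | succ m hm ih =>
      obtain ⟨β, h1, h2⟩ := ih
      exact ⟨b m ∘ β, Tc.Mark1.trans_lab h1 (hb m), fun x => by rw [hBs, h2]; rfl⟩
  have hbij : ∀ n, ∀ y, y ∈ bd (G (f (g n))) (A (f (g n))) ↔
      ∃ x ∈ bd (G (f (g 0))) (A (f (g 0))), B n x = y := by
    intro n
    induction n with
    | zero => intro y; simp [hB0]
    | succ n ih =>
      intro y
      obtain ⟨F, φ, M, E⟩ := hb n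
      constructor
      · intro hy
        obtain ⟨z, hz, rfl⟩ := E.β_bij.surjOn hy
        obtain ⟨x, hx, rfl⟩ := (ih z).1 hz
        exact ⟨x, hx, hBs n x⟩
      · rintro ⟨x, hx, rfl⟩
        rw [hBs]
        exact E.β_bij.mapsTo ((ih _).2 ⟨x, hx, rfl⟩)
  have hlen1 : ∀ n n', n < n' → (o (f (g n))).length = (o (f (g n'))).length := by
    intro n n' h
    obtain ⟨β, hβ, -⟩ := hcomp n n' h
    obtain ⟨h1, h2, -⟩ := ho _ (hf (g n))
    obtain ⟨h3, h4, -⟩ := ho _ (hf (g n'))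
    have h5 := (Tc.Mark1.perm_bd hβ).length_eq
    have h6 : (o (f (g n))).Perm (bd (G (f (g n))) (A (f (g n)))).toList := by
      rw [List.perm_ext_iff_of_nodup h1 (Finset.nodup_toList _)]
      intro a
      rw [h2, Finset.mem_toList]
    have h7 : (o (f (g n'))).Perm (bd (G (f (g n'))) (A (f (g n')))).toList := by
      rw [List.perm_ext_iff_of_nodup h3 (Finset.nodup_toList _)]
      intro a
      rw [h4, Finset.mem_toList]
    rw [h6.length_eq, h7.length_eq, ← h5, List.length_map]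
  let σ : ℕ → Fin (o (f (g 0))).length → Fin (d + 1) := fun n i =>
    Fin.ofNat (d + 1) ((o (f (g n))).idxOf (B n (o (f (g 0)))[i]))
  obtain ⟨m, m', hne, heq⟩ := Finite.exists_ne_map_eq_of_infinite σ
  wlog hlt : m < m' generalizing m m' with Hw
  · exact Hw m' m hne.symm heq.symm (lt_of_le_of_ne (not_lt.1 hlt) hne.symm)
  obtain ⟨β, hβ, hβB⟩ := hcomp m m' hlt
  refine ⟨g m, g m', g.strictMono hlt, β, hβ, ?_⟩
  obtain ⟨h1, h2, h2'⟩ := ho _ (hf (g m))
  obtain ⟨h3, h4, h4'⟩ := ho _ (hf (g m'))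
  obtain ⟨h5, h6, h6'⟩ := ho _ (hf (g 0))
  refine ii3_59_list _ _ h1 β (hlen1 m m' hlt) ?_
  intro y hy
  obtain ⟨x, hx, rfl⟩ := (hbij m y).1 ((h2 y).1 hy)
  have hmem : B m' x ∈ o (f (g m')) := (h4 _).2 ((hbij m' _).2 ⟨x, hx, rfl⟩)
  rw [← hβB]
  refine ⟨?_, hmem⟩
  obtain ⟨i, hi, hix⟩ := List.getElem_of_mem ((h6 x).2 hx)
  have h7 := congrFun heq ⟨i, hi⟩
  simp only [σ] at h7
  have h8 : (o (f (g 0)))[(⟨i, hi⟩ : Fin _)] = x := hix
  rw [h8] at h7
  have h9 := congrArg Fin.val h7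
  simp only [Fin.ofNat, Fin.val_mk] at h9
  have ha : (o (f (g m))).idxOf (B m x) < d + 1 :=
    lt_of_lt_of_le (List.idxOf_lt_length_iff.2 hy) (h2'.trans (Nat.le_succ d))
  have hb' : (o (f (g m'))).idxOf (B m' x) < d + 1 :=
    lt_of_lt_of_le (List.idxOf_lt_length_iff.2 hmem) (h4'.trans (Nat.le_succ d))
  rw [Nat.mod_eq_of_lt ha, Nat.mod_eq_of_lt hb'] at h9
  exact h9.symm

end RotWqo.Pb
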