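import Pool.Agent.Lib.MP_cb4a0f_co.Pb.Stmts

/-!
# MP_cb4a0f_co: removal of a vertex which has all its half-edges used (II4)
-/

open Classical

namespace RotWqo.Pb

open RotWqo.Bag RotWqo.Hk RotWqo.Pl

/-- The number of half-edges at the other vertices which lead to `z`. -/
theorem card_bd_erase23 {V H : Type*} (K : RotGraph V H) (z : V) :
    (bd K (K.verts.erase z)).card = (bd K {z}).card := by
  refine Finset.card_bij (fun h _ => K.opp h) ?_ ?_ ?_
  · intro h hh
    rw [mem_bd] at hh ⊢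
    obtain ⟨h1, h2, h3⟩ := hh
    rw [Finset.mem_erase] at h2 h3
    refine ⟨K.opp_mem h h1, ?_, ?_⟩
    · rw [Finset.mem_singleton]
      by_contra h4
      exact h3 ⟨h4, K.base_mem _ (K.opp_mem h h1)⟩
    · rw [K.opp_opp h h1, Finset.mem_singleton]
      exact h2.1
  · intro a ha b hb hab
    have ha' := (mem_bd.1 ha).1
    have hb' := (mem_bd.1 hb).1
    rw [← K.opp_opp a ha', hab, K.opp_opp b hb']
  · intro b hb
    rw [mem_bd] at hb
    obtain ⟨h1, h2, h3⟩ := hb
    rw [Finset.mem_singleton] at h2 h3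
    refine ⟨K.opp b, ?_, K.opp_opp b h1⟩
    rw [mem_bd, K.opp_opp b h1]
    refine ⟨K.opp_mem b h1, ?_, ?_⟩
    · rw [Finset.mem_erase]
      exact ⟨h3, K.base_mem _ (K.opp_mem b h1)⟩
    · rw [Finset.mem_erase]
      exact fun h4 => h4.1 h2

/-- The last step of a run. -/
theorem run_last23 {H : Type*} {opp : H → H} {M : H → H → Prop} {x y : H} (h : Run opp M x y) :
    y = x ∨ ∃ w, M w y := by
  induction h with
  | refl x => exact Or.inl rfl
  | step x z y h1 _ ih =>
    rcases ih with rfl | h2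
    · exact Or.inr ⟨_, h1⟩
    · exact Or.inr h2

/-- (II4) Removal of a vertex which has all its half-edges used. -/
theorem II4_23 : StRes := by
  intro V V' H H' _ K K' z z' rc β hz hz' hr1 _ hlen hcut hP
  obtain ⟨f, φ, M, d⟩ := hP
  have hfz : f z = z' := hr1 _ (d.f_mem z hz) (d.f_rel z hz)
  -- all half-edges at `z'` are used
  have hall : ∀ a ∈ K'.darts, K'.base a = z' → Ker K K.verts φ a := by
    intro a ha hb
    have h1 := d.rot_eq z hz
    rw [hfz] at h1
    have h2 := h1.perm.length_eq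
    rw [List.length_map, hlen] at h2
    have h3 := List.length_filter_eq_length_iff.1 h2 a ((K'.mem_rot _ _).2 ⟨ha, hb⟩)
    simpa using h3
  have hfne : ∀ v ∈ K.verts, v ≠ z → f v ≠ z' := by
    intro v hv hvz h1
    exact hvz (d.f_inj (by simpa using hv) (by simpa using hz) (by rw [h1, hfz]))
  have hMz : ∀ a b, M a b → K'.base a ≠ z' := by
    intro a b hab h1
    exact d.M_ker a b hab (hall a (d.M_mem a b hab) h1)
  have hker : ∀ a, K'.base a ≠ z' →
      (Ker K (K.verts.erase z) φ a ↔ Ker K K.verts φ a) := by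
    intro a ha
    constructor
    · rintro ⟨h, h1, h2, h3⟩
      exact ⟨h, h1, (Finset.mem_erase.1 h2).2, h3⟩
    · rintro ⟨h, h1, h2, h3⟩
      refine ⟨h, h1, Finset.mem_erase.2 ⟨?_, h2⟩, h3⟩
      intro h4
      apply ha
      rw [← h3, d.φ_base h h1 h2, h4, hfz]
  have hbase : ∀ h ∈ K.darts, K.base h ∈ K.verts.erase z → K'.base (φ h) ≠ z' := by
    intro h h1 h2
    rw [Finset.mem_erase] at h2
    rw [d.φ_base h h1 h2.2]
    exact hfne _ h2.2 h2.1
  -- the runs of the boundary half-edges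
  have hrun : ∀ h ∈ bd K (K.verts.erase z), φ (K.opp h) ∈ K'.darts ∧
      K'.base (φ (K.opp h)) = z' ∧ Run K'.opp M (φ h) (K'.opp (φ (K.opp h))) ∧
      K'.base (K'.opp (φ (K.opp h))) ≠ z' := by
    intro h hh
    rw [mem_bd] at hh
    obtain ⟨h1, h2, h3⟩ := hh
    have h4 := K.opp_mem h h1
    have h5 : K.base (K.opp h) = z := by
      by_contra h6
      exact h3 (Finset.mem_erase.2 ⟨h6, K.base_mem _ h4⟩)
    have h6 : K.base (K.opp h) ∈ K.verts := K.base_mem _ h4
    obtain ⟨y, hy1, hy2⟩ := d.run_in h h1 (Finset.mem_erase.1 h2).2 h6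
    have hy3 : y ∈ K'.darts ∧ K'.base y ≠ z' := by
      rcases run_last23 hy1 with rfl | ⟨w, hw⟩
      · exact ⟨d.φ_mem h h1 (Finset.mem_erase.1 h2).2, hbase h h1 h2⟩
      · have hw' := d.M_symm _ _ hw
        exact ⟨d.M_mem _ _ hw', hMz _ _ hw'⟩
    have hy4 : K'.opp (φ (K.opp h)) = y := by
      rw [← hy2, K'.opp_opp y hy3.1]
    refine ⟨d.φ_mem _ h4 h6, ?_, ?_, ?_⟩
    · rw [d.φ_base _ h4 h6, h5, hfz]
    · rw [hy4]
      exact hy1
    · rw [hy4]
      exact hy3.2
  have hmaps : Set.MapsTo (fun h => K'.opp (φ (K.opp h))) (bd K (K.verts.erase z) : Set H)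
      (bd K' (K'.verts.erase z') : Set H') := by
    intro h hh
    rw [Finset.mem_coe] at hh
    obtain ⟨h1, h2, -, h4⟩ := hrun h hh
    rw [Finset.mem_coe, mem_bd]
    refine ⟨K'.opp_mem _ h1, ?_, ?_⟩
    · rw [Finset.mem_erase]
      exact ⟨h4, K'.base_mem _ (K'.opp_mem _ h1)⟩
    · rw [K'.opp_opp _ h1, Finset.mem_erase]
      exact fun h5 => h5.1 h2
  have hinj : Set.InjOn (fun h => K'.opp (φ (K.opp h))) (bd K (K.verts.erase z) : Set H) := by
    intro a ha b hb hab
    rw [Finset.mem_coe] at ha hb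
    have h1 := (hrun a ha).1
    have h2 := (hrun b hb).1
    have h3 : φ (K.opp a) = φ (K.opp b) := by
      have h4 : K'.opp (φ (K.opp a)) = K'.opp (φ (K.opp b)) := hab
      rw [← K'.opp_opp _ h1, h4, K'.opp_opp _ h2]
    have ha' := (mem_bd.1 ha).1
    have hb' := (mem_bd.1 hb).1
    have h4 := d.φ_inj _ (K.opp_mem a ha') _ (K.opp_mem b hb')
      (K.base_mem _ (K.opp_mem a ha')) (K.base_mem _ (K.opp_mem b hb')) h3
    rw [← K.opp_opp a ha', h4, K.opp_opp b hb']
  refine ⟨fun h => K'.opp (φ (K.opp h)), f, φ, M, ?_⟩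
  refine
    { f_mem := ?_
      f_rel := ?_
      f_inj := ?_
      M_symm := d.M_symm
      M_fun := d.M_fun
      M_mem := d.M_mem
      M_base := ?_
      M_ker := ?_
      φ_mem := ?_
      φ_base := ?_
      φ_inj := ?_
      rot_eq := ?_
      nc := ?_
      run_in := ?_
      run_out := ?_
      β_bij := ?_ }
  · intro v hv
    rw [Finset.mem_erase] at hv ⊢
    exact ⟨hfne v hv.2 hv.1, d.f_mem v hv.2⟩
  · intro v hv
    exact d.f_rel v (Finset.mem_erase.1 hv).2
  · intro v hv w hw hvw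
    rw [Finset.mem_coe, Finset.mem_erase] at hv hw
    exact d.f_inj (by simpa using hv.2) (by simpa using hw.2) hvw
  · intro a b hab
    obtain ⟨h1, h2⟩ := d.M_base a b hab
    exact ⟨Finset.mem_erase.2 ⟨hMz a b hab, h1⟩, h2⟩
  · intro a b hab h1
    exact d.M_ker a b hab ((hker a (hMz a b hab)).1 h1)
  · intro h hh hb
    exact d.φ_mem h hh (Finset.mem_erase.1 hb).2
  · intro h hh hb
    exact d.φ_base h hh (Finset.mem_erase.1 hb).2
  · intro h hh h' hh' hb hb'
    exact d.φ_inj h hh h' hh' (Finset.mem_erase.1 hb).2 (Finset.mem_erase.1 hb').2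
  · intro v hv
    rw [Finset.mem_erase] at hv
    have h1 := d.rot_eq v hv.2
    have h2 : (K'.rot (f v)).filter (fun a => decide (Ker K (K.verts.erase z) φ a)) =
        (K'.rot (f v)).filter (fun a => decide (Ker K K.verts φ a)) := by
      refine List.filter_congr fun a ha => ?_
      have h3 := ((K'.mem_rot _ _).1 ha).2
      rw [decide_eq_decide]
      exact hker a (by rw [h3]; exact hfne v hv.2 hv.1)
    rw [h2]
    exact h1
  · intro x hx
    rw [Finset.mem_erase] at hx
    have h1 := d.nc x hx.2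
    have h2 : (K'.rot x).filter
          (fun a => decide (Ker K (K.verts.erase z) φ a ∨ ∃ b, M a b)) =
        (K'.rot x).filter (fun a => decide (Ker K K.verts φ a ∨ ∃ b, M a b)) := by
      refine List.filter_congr fun a ha => ?_
      have h3 := ((K'.mem_rot _ _).1 ha).2
      rw [decide_eq_decide, hker a (by rw [h3]; exact hx.1)]
    rw [h2]
    exact h1
  · intro h hh hb hb'
    exact d.run_in h hh (Finset.mem_erase.1 hb).2 (Finset.mem_erase.1 hb').2
  · intro h hh
    exact (hrun h hh).2.2.1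
  · refine ⟨hmaps, hinj, ?_⟩
    have hc : (bd K' (K'.verts.erase z')).card ≤ (bd K (K.verts.erase z)).card := by
      rw [card_bd_erase23, card_bd_erase23]
      exact le_of_eq hcut.symm
    exact Finset.surjOn_of_injOn_of_card_le _ hmaps hinj hc

end RotWqo.Pb
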