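import Pool.Agent.Lib.MP_cb4a0f_co.Pb.Stmts

/-!
# MP_cb4a0f_co: embeddings do not depend on the choice of the first half-edges (II5)
-/

open Classical

namespace RotWqo.Pb

open RotWqo.Bag RotWqo.Hk RotWqo.Pl

theorem RotEq.bd23 {V H : Type*} {G K : RotGraph V H} (h : RotEq G K) (A : Finset V) :
    bd K A = bd G A := by
  ext x
  rw [mem_bd, mem_bd, h.darts, h.base, h.opp]

theorem RotEq.ker23 {V H H' : Type*} {G K : RotGraph V H} (h : RotEq G K) (A : Finset V)
    (φ : H → H') (a : H') : Ker K A φ a ↔ Ker G A φ a := by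
  unfold Ker
  rw [h.darts, h.base]

/-- (II5) Embeddings do not depend on the choice of the first half-edges. -/
theorem II5_23 : StRotEq := by
  intro V V' H H' G K G' K' A A' r β hG hG' hP
  obtain ⟨f, φ, M, d⟩ := hP
  refine ⟨f, φ, M, ?_⟩
  have hk : ∀ a, Ker K A φ a = Ker G A φ a := fun a => propext (hG.ker23 A φ a)
  refine
    { f_mem := d.f_mem
      f_rel := d.f_rel
      f_inj := d.f_inj
      M_symm := d.M_symm
      M_fun := d.M_fun
      M_mem := ?_
      M_base := ?_
      M_ker := ?_
      φ_mem := ?_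
      φ_base := ?_
      φ_inj := ?_
      rot_eq := ?_
      nc := ?_
      run_in := ?_
      run_out := ?_
      β_bij := ?_ }
  · intro a b hab
    rw [← hG'.darts]
    exact d.M_mem a b hab
  · intro a b hab
    rw [← hG'.base]
    exact d.M_base a b hab
  · intro a b hab
    rw [← hk]
    exact d.M_ker a b hab
  · intro h hh hb
    rw [← hG'.darts]
    refine d.φ_mem h ?_ ?_
    · rw [hG.darts]
      exact hh
    · rw [hG.base]
      exact hb
  · intro h hh hb
    rw [← hG'.base, ← hG.base]
    refine d.φ_base h ?_ ?_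
    · rw [hG.darts]
      exact hh
    · rw [hG.base]
      exact hb
  · have h1 := d.φ_inj
    rw [hG.darts, hG.base] at h1
    exact h1
  · intro v hv
    have h1 := d.rot_eq v hv
    simp only [hk] at h1
    refine (IsRotated.filter' (hG'.rot (f v)).symm _).trans (h1.trans ?_)
    exact (hG.rot v).map φ
  · intro x hx
    have h1 := d.nc x hx
    simp only [hk] at h1
    exact GenAux.nc_rot h1 (IsRotated.filter' (hG'.rot x).symm _)
  · have h1 := d.run_in
    rw [hG.darts, hG.base, hG.opp, hG'.opp] at h1
    exact h1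
  · have h1 := d.run_out
    rw [hG.bd23, hG'.opp] at h1
    exact h1
  · have h1 := d.β_bij
    rw [hG.bd23, hG'.bd23] at h1
    exact h1

end RotWqo.Pb
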