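import Pool.Agent.Lib.MP_cb4a0f_co.Pb.Defs
import Pool.Agent.Lib.MP_cb4a0f_co.Arc.Defs

/-!
# MP_cb4a0f_co: planar rotated graphs of bounded branch-width, statements of the modules
-/

open Classical

namespace RotWqo.Pb

open RotWqo.Bag RotWqo.Hk RotWqo.Pl

/-! ### V: planar graphs have arc carvings -/

/-- (V1) Adding parts one by one. -/
def StExt : Prop := ∀ (α : Type) (adj : α → α → Prop), (∀ a b, adj a b → adj b a) →
  ∀ (U W : Finset α) (P : Finset (Finset α)), Bond adj U W → (∀ X ∈ P, Bond adj U X) →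
    (∀ X ∈ P, ∀ Y ∈ P, X ≠ Y → Disjoint X Y) → P.biUnion id = W →
    ∀ A ⊆ P, A.Nonempty → A ≠ P → Bond adj U (A.biUnion id) →
      ∃ X ∈ P, X ∉ A ∧ Bond adj U ((insert X A).biUnion id)

/-- (V2) A tree whose nodes are bonds (or everything, or single elements); the boundary of each of
them is covered by the boundaries of four nodes of the given tree. -/
def StBC : Prop := ∀ (α : Type) (adj : α → α → Prop), (∀ a b, adj a b → adj b a) →
  ∀ (U : Finset α) (t : Tree α), t.leaves.Nodup → t.set = U → Cn adj U →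
    (∀ x ∈ U, ∃ A B : Finset α, U.erase x = A ∪ B ∧ (A = ∅ ∨ Cn adj A) ∧ (B = ∅ ∨ Cn adj B)) →
    ∃ t' : Tree α, t'.leaves.Nodup ∧ t'.set = U ∧ ∀ s, IsSub s t' →
      (s.set = U ∨ (∃ x, s.set = {x}) ∨ Bond adj U s.set) ∧
      ∃ s₁ s₂ s₃ s₄, IsSub s₁ t ∧ IsSub s₂ t ∧ IsSub s₃ t ∧ IsSub s₄ t ∧
        ∀ a ∈ s.set, ∀ b ∈ U, b ∉ s.set → adj a b →
          (a ∈ s₁.set ↔ b ∉ s₁.set) ∨ (a ∈ s₂.set ↔ b ∉ s₂.set) ∨
          (a ∈ s₃.set ↔ b ∉ s₃.set) ∨ (a ∈ s₄.set ↔ b ∉ s₄.set)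

/-- (V3) In planar graphs a bond leaves each face at most once. -/
def StBond : Prop := ∀ (V H : Type) (K : RotGraph V H) (U : Finset V), PlanarC K →
  U ⊆ K.verts → U.Nonempty → U ≠ K.verts → Tc.Conn K U → Tc.Conn K (K.verts \ U) →
    ∀ a ∈ bd K U, ∀ b ∈ bd K U, (∃ n, (fs K)^[n] a = b) → a = b

/-- (V4) The truncation: the vertices are the half-edges. -/
def StTrunc : Prop := ∀ (V H : Type) (G : RotGraph V H), PlanarC G → G.darts.Nonempty →
  ∃ K : RotGraph H (H × Fin 3), PlanarC K ∧ K.verts = G.darts ∧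
    K.darts = G.darts ×ˢ Finset.univ ∧ (∀ p, K.base p = p.1) ∧
    ∀ h ∈ G.darts, K.opp (h, 0) = (G.opp h, 0) ∧ K.opp (h, 1) = (nx G h, 2) ∧
      K.opp (nx G h, 2) = (h, 1) ∧ K.rot h = [(h, 0), (h, 1), (h, 2)]

/-- (V5) A set of half-edges which is connected and has a connected complement is an arc at
each vertex. -/
def StOne : Prop := ∀ (V H : Type) (G : RotGraph V H) (U : Finset H), PlanarC G →
  Bond (adj G) G.darts U → ∀ a ∈ U, ∀ b ∈ U, nx G a ∉ U → nx G b ∉ U →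
    G.base a = G.base b → a = b

/-- (V6) Planar graphs of bounded branch-width have arc carvings. -/
def StArcP : Prop := ∀ w : ℕ, ∃ W : ℕ, ∀ (V H : Type) (G : RotGraph V H) (A : Finset V)
  (t : Tree H), A ⊆ G.verts → cut G A = 0 → PlanarC (ind G A) → IsBr w G A t →
    ∃ t', IsACar W G A t'

/-- (V7) Restriction to a union of connected components. -/
def StRestr : Prop := ∀ (k : ℕ) (V H : Type) (G : RotGraph V H) (A : Finset V) (t : Tree H),
  A ⊆ G.verts → cut G A = 0 →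
    (IsBr k G G.verts t → dts G A = ∅ ∨ ∃ t', IsBr k G A t') ∧
    (IsACar k G G.verts t → dts G A = ∅ ∨ ∃ t', IsACar k G A t')

/-! ### I: Gomory-Hu families -/

/-- (I1) Existence. -/
def StGHT : Prop := ∀ (V H : Type) (G : RotGraph V H) (A : Finset V) (M : ℕ), A ⊆ G.verts →
  A.Nonempty → cut G A = 0 → ∃ T, IsGH M G A T

/-- (I2) Linking. -/
def StGHL : Prop := ∀ (V H : Type) (G : RotGraph V H) (A : Finset V) (M : ℕ)
  (T : Finset (Finset V)), A ⊆ G.verts → cut G A = 0 → IsGH M G A T → ∀ X ∈ T, ∀ Y ∈ T, Y ⊆ X →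
    cut G X = cut G Y → (∀ W ∈ T, Y ⊆ W → W ⊆ X → cut G Y ≤ cut G W) →
    ∀ U, Y ⊆ U → U ⊆ X → cut G Y ≤ cut G U

/-- (I3) Connectivity. -/
def StGHC : Prop := ∀ (V H : Type) (G : RotGraph V H) (A : Finset V) (M : ℕ)
  (T : Finset (Finset V)), A ⊆ G.verts → cut G A = 0 → Tc.Conn G A → IsGH M G A T → ∀ X ∈ T,
    Tc.Conn G X ∧ (X ≠ A → 0 < cut G X)

/-! ### II: contraction and expansion -/

/-- (II1) Orders for minimum cuts. -/
def StOrd : Prop := ∀ (V H : Type) (G : RotGraph V H) (X : Finset V) (a : V), X ⊆ G.verts →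
  a ∈ X → (∀ Z, a ∈ Z → Z ⊆ X → cut G X ≤ cut G Z) →
    ∃ l : List H, l.Nodup ∧ (∀ h, h ∈ l ↔ h ∈ bd G X) ∧ TravX G X l

/-- (II2) Expansion. -/
def StExpO : Prop := ∀ (V V' H H' : Type) [Nonempty V'] [Nonempty H'] (G : RotGraph V H)
  (G' : RotGraph V' H') (C : Finset (Finset V)) (C' : Finset (Finset V')) (o : Finset V → List H)
  (o' : Finset V' → List H') (S : Finset V) (S' : Finset V') (r : V → V' → Prop)
  (rc : V ⊕ Finset V → V' ⊕ Finset V' → Prop)
  (β : H ⊕ (Finset V × Bool) → H' ⊕ (Finset V' × Bool)), S ⊆ G.verts → S' ⊆ G'.verts →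
    FamO G S C o → FamO G' S' C' o' → (∀ v v', rc (.inl v) (.inl v') → r v v') →
    (∀ v X', ¬ rc (.inl v) (.inr X')) → (∀ X v', ¬ rc (.inr X) (.inl v')) →
    (∀ X ∈ C, X ⊆ S → ∀ X' ∈ C', X' ⊆ S' → rc (.inr X) (.inr X') →
      MPEO r G X (o X) G' X' (o' X')) →
    (∀ X' ∈ C', X' ⊆ S' → TravX G' X' (o' X')) →
    PE rc (ctrO G C o) (Tc.cA C S) (ctrO G' C' o') (Tc.cA C' S') β →
    ∃ β, PE r G S G' S' β

/-- (II3) Respecting the orders of the boundaries is free. -/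
def StMarkO : Prop := ∀ (d : ℕ) (α : Type) (V H : α → Type) (G : ∀ a, RotGraph (V a) (H a))
  (A : ∀ a, Finset (V a)) (o : ∀ a, List (H a)) (Q : Type) (q : Q → Q → Prop) [IsPreorder Q q]
  (lab : ∀ a, V a → Q) (S : Set α),
    (∀ a ∈ S, (o a).Nodup ∧ (∀ h, h ∈ o a ↔ h ∈ bd (G a) (A a)) ∧ (o a).length ≤ d) →
    S.PartiallyWellOrderedOn (fun a b => ∃ β,
      PE (fun v v' => q (lab a v) (lab b v')) (G a) (A a) (G b) (A b) β) →
    S.PartiallyWellOrderedOn (fun a b =>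
      MPEO (fun v v' => q (lab a v) (lab b v')) (G a) (A a) (o a) (G b) (A b) (o b))

/-- (II4) Removal of a vertex which has all its half-edges used. -/
def StRes : Prop := ∀ (V V' H H' : Type) [Nonempty H'] (K : RotGraph V H) (K' : RotGraph V' H')
  (z : V) (z' : V') (rc : V → V' → Prop) (β : H → H'), z ∈ K.verts → z' ∈ K'.verts →
    (∀ b ∈ K'.verts, rc z b → b = z') → (∀ a ∈ K.verts, rc a z' → a = z) →
    (K.rot z).length = (K'.rot z').length → cut K {z} = cut K' {z'} →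
    PE rc K K.verts K' K'.verts β →
    ∃ β', PE rc K (K.verts.erase z) K' (K'.verts.erase z') β'

/-- (II5) Embeddings do not depend on the choice of the first half-edges. -/
def StRotEq : Prop := ∀ (V V' H H' : Type) (G K : RotGraph V H) (G' K' : RotGraph V' H')
  (A : Finset V) (A' : Finset V') (r : V → V' → Prop) (β : H → H'), RotEq G K → RotEq G' K' →
    PE r K A K' A' β → PE r G A G' A' β

/-! ### III: torsos -/

/-- (III1) The list at a vertex can be rotated so that all nodes of an arc carving are segments. -/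
def StLin : Prop := ∀ (k : ℕ) (V H : Type) (G : RotGraph V H) (A : Finset V) (t : Tree H)
  (v : V), A ⊆ G.verts → IsACar k G A t → v ∈ A → ∃ l : List H, l ~r G.rot v ∧
    ∀ s, IsSub s t → ∃ l₁ l₂ l₃, l = l₁ ++ l₂ ++ l₃ ∧ ∀ h ∈ l, h ∈ s.set ↔ h ∈ l₂

/-- (III2) Torsos have bounded arc width. -/
def StTorso : Prop := ∀ k m M : ℕ, ∃ K : ℕ, ∀ (V H : Type) (G : RotGraph V H) (A : Finset V)
  (T : Finset (Finset V)) (X : Finset V) (o : Finset V → List H), A ⊆ G.verts → cut G A = 0 →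
    Tc.Conn G A → IsGH M G A T → (dts G A = ∅ ∨ ∃ t, IsACar k G A t) → X ∈ T →
    (Tc.bag T X).card ≤ m →
    ∃ K', RotEq (ctrO G (fam G T X) o) K' ∧ Arc.ArcWidthLE K K'

/-! ### IV: the theorems -/

/-- (IV0) The theorem on arc carvings, for embeddings. -/
def StArcPE : Prop := ∀ (k : ℕ) (Q : Type) (q : Q → Q → Prop) [IsPreorder Q q],
  WellQuasiOrdered q → ∀ (V : ℕ → Type) (H : ℕ → Type) [∀ i, Nonempty (V i)]
    [∀ i, Nonempty (H i)] (G : ∀ i, RotGraph (V i) (H i)) (lab : ∀ i, V i → Q),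
    (∀ i, Arc.ArcWidthLE k (G i)) →
    ∃ i j, i < j ∧ ∃ β, PE (fun v w => q (lab i v) (lab j w)) (G i) (G i).verts (G j)
      (G j).verts β

/-- (IV1) Connected graphs with arc carvings and without large highly connected sets. -/
def StConnW : Prop := ∀ (k m M : ℕ) (Q : Type) (q : Q → Q → Prop) [IsPreorder Q q],
  WellQuasiOrdered q → ∀ (V H : ℕ → Type) [∀ i, Nonempty (V i)] [∀ i, Nonempty (H i)]
    (G : ∀ i, RotGraph (V i) (H i)) (lab : ∀ i, V i → Q) (A : ∀ i, Finset (V i)),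
    (∀ i, A i ⊆ (G i).verts) → (∀ i, (A i).Nonempty) → (∀ i, cut (G i) (A i) = 0) →
    (∀ i, Tc.Conn (G i) (A i)) → (∀ i, ∀ S ⊆ A i, m ≤ S.card → ¬ Lnk M (G i) S) →
    (∀ i, dts (G i) (A i) = ∅ ∨ ∃ t, IsACar k (G i) (A i) t) →
    ∃ i j, i < j ∧ ∃ β, PE (fun v w => q (lab i v) (lab j w)) (G i) (A i) (G j) (A j) β

/-- The connected components of the graphs of a sequence. -/
def Comps {V H : ℕ → Type} (G : ∀ i, RotGraph (V i) (H i)) : Set (Σ i, Finset (V i)) :=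
  {a | a.2 ⊆ (G a.1).verts ∧ a.2.Nonempty ∧ cut (G a.1) a.2 = 0 ∧ Tc.Conn (G a.1) a.2}

/-- (IV2) From connected components to graphs. -/
def StCompsW : Prop := ∀ (Q : Type) (q : Q → Q → Prop) [IsPreorder Q q],
  WellQuasiOrdered q → ∀ (V H : ℕ → Type) [∀ i, Nonempty (V i)] [∀ i, Nonempty (H i)]
    (G : ∀ i, RotGraph (V i) (H i)) (lab : ∀ i, V i → Q),
    (Comps G).PartiallyWellOrderedOn (fun a b => ∃ β,
      PE (fun v v' => q (lab a.1 v) (lab b.1 v')) (G a.1) a.2 (G b.1) b.2 β) →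
    ∃ i j, i < j ∧ ∃ β, PE (fun v w => q (lab i v) (lab j w)) (G i) (G i).verts (G j)
      (G j).verts β

/-- (IV3) From induced subgraphs to pieces. -/
def StIndPE : Prop := ∀ (V V' H H' : Type) (r : V → V' → Prop) (G : RotGraph V H)
  (A : Finset V) (G' : RotGraph V' H') (A' : Finset V') (β : H → H'), A ⊆ G.verts →
    A' ⊆ G'.verts → cut G A = 0 → cut G' A' = 0 →
    PE r (ind G A) (ind G A).verts (ind G' A') (ind G' A').verts β → PE r G A G' A' β

end RotWqo.Pb
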