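import Pool.Agent.Lib.MP_cb4a0f_co.Arc.All
import Pool.Agent.Lib.MP_cb4a0f_co.Pb.Stmts

/-!
# MP_cb4a0f_co: the theorem on arc carvings, for embeddings
-/

open Classical

namespace RotWqo.Arc

universe u v w

namespace ArcPE6

open Main22

theorem core (hT : StTrans.{u, v}) (hLV : StLeafV.{u, v}) (hLH : StLeafH.{u, v})
    (hGl : StGlue.{u, v, w}) (hLk : StLink.{u, v}) (hLd : StLinked.{u, v})
    (hF : StFinal.{u, v}) (k n : ℕ) {Q : Type w}
    (q : Q → Q → Prop) [IsPreorder Q q] (hq : WellQuasiOrdered q) (V : ℕ → Type u)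
    (H : ℕ → Type v) [∀ i, Nonempty (V i)] [∀ i, Nonempty (H i)] (G : ∀ i, RotGraph (V i) (H i))
    (lab : ∀ i, V i → Q) (u : ∀ i, Fin n → V i) (hu : ∀ i, Function.Injective (u i))
    (hv : ∀ i j, u i j ∈ (G i).verts)
    (hk : ∀ i v, ¬ IsHub (u i) v → ((G i).rot v).length ≤ k)
    (ht : ∀ i, ∃ t, IsArcCarving k (G i) (u i) t) :
    ∃ i j, i < j ∧ ∃ β, PE (fun v w => q (lab i v) (lab j w)) (G i) (G i).verts (G j)
      (G j).verts β := by
  have hT0 : ∀ i, ∃ t' : Tree (V i ⊕ H i), t'.leaves.Nodup ∧ t'.set = units (G i) (u i) ∧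
      (∀ s, IsSub s t' → Cv (G i) (u i) s.set ∧ ecut (G i) (u i) s.set ≤ k * 2 ^ n) ∧
      ∀ b a m, IsSub b t' → PathGe (rho k (G i) (u i)) m a b → rho k (G i) (u i) b.set = m →
        rho k (G i) (u i) a.set = m →
        (∀ j, st (G i) (u i) a.set j = st (G i) (u i) b.set j) ∧
        ecut (G i) (u i) a.set = ecut (G i) (u i) b.set ∧
          ∀ X, a.set ⊆ X → X ⊆ b.set → Cv (G i) (u i) X →
            ecut (G i) (u i) a.set ≤ ecut (G i) (u i) X := by
    intro i
    obtain ⟨t, h1⟩ := ht i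
    exact hLd n k (V i) (H i) (G i) (u i) t (hu i) h1
  choose T hT1 hT2 hT3 hT4 using hT0
  have hsu : ∀ x : Elt (fun i => V i ⊕ H i) T, x.t.set ⊆ units (G x.i) (u x.i) := fun x =>
    hT2 x.i ▸ x.h.set_subset
  set le : Elt (fun i => V i ⊕ H i) T → Elt (fun i => V i ⊕ H i) T → Prop := fun x y =>
    (∀ j, st (G x.i) (u x.i) x.t.set j = st (G y.i) (u y.i) y.t.set j) ∧
    ∃ β f φ M, PED (fun v w => q (lab x.i v) (lab y.i w)) (G x.i) (u x.i) x.t.set (G y.i)
      (u y.i) y.t.set β f φ M with hle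
  have : IsPreorder (Elt (fun i => V i ⊕ H i) T) le :=
    { refl := fun x => ⟨fun _ => rfl, id, id, id, _,
        PED.refl (fun v w => q (lab x.i v) (lab x.i w)) (fun v => _root_.refl _) _ _ _⟩
      trans := by
        rintro x y z ⟨h1, β, f, φ, M, h2⟩ ⟨h3, β', f', φ', M', h4⟩
        obtain ⟨P, hP⟩ := hT n (V x.i) (V y.i) (V z.i) (H x.i) (H y.i) (H z.i)
          (fun v w => q (lab x.i v) (lab y.i w)) (fun v w => q (lab y.i v) (lab z.i w))
          (fun v w => q (lab x.i v) (lab z.i w)) (fun a b c h h' => _root_.trans h h')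
          (G x.i) (u x.i) x.t.set (G y.i) (u y.i) y.t.set (G z.i) (u z.i) z.t.set
          β f φ M β' f' φ' M' (hsu x) (hsu y) (hsu z) h2 h4
        exact ⟨fun j => (h1 j).trans (h3 j), _, _, _, P, hP⟩ }
  have main : (Set.univ : Set (Elt (fun i => V i ⊕ H i) T)).PartiallyWellOrderedOn le := by
    refine wqo_of_levels le (fun x => x.t.leaves.length)
      (fun x => rho k (G x.i) (u x.i) x.t.set) (k * 2 ^ n + (k * 2 ^ n + 1) * (2 * n)) Ch
      ?_ ?_ ?_ ?_
    · rintro x y ⟨l, r, hlr, ⟨h, rfl⟩ | ⟨h, rfl⟩⟩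
      · have := leaves_pos r
        simp only [hlr, Tree.leaves, List.length_append]
        omega
      · have := leaves_pos l
        simp only [hlr, Tree.leaves, List.length_append]
        omega
    · intro x
      exact Nat.add_le_add (hT3 x.i x.t x.h).2 (Nat.mul_le_mul_left _ (pot_le _ _ _))
    · intro m x y hx hy hd
      obtain ⟨i, b, a, hb, ha, rfl, rfl, hp⟩ := pathGe (fun i => rho k (G i) (u i)) hd
      obtain ⟨h1, h2, h3⟩ := hT4 i b a m hb hp hx hy
      obtain ⟨β, M, h4⟩ := hLk n (V i) (H i) (fun v w => q (lab i v) (lab i w))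
        (fun v => _root_.refl _) (G i) (u i) a.set b.set (hu i) hp.set_subset
        (hT2 i ▸ hb.set_subset) (hT3 i a ha).1 (hT3 i b hb).1 h1 h2 h3
      exact ⟨h1, β, id, id, M, h4⟩
    · intro X hC
      set C : Set (Elt (fun i => V i ⊕ H i) T) := {y | ∃ x ∈ X, Ch x y} with hCdef
      have h1 : {x | x ∈ X ∧ ∃ v, x.t = .leaf v}.PartiallyWellOrderedOn le := by
        rw [Set.partiallyWellOrderedOn_iff_exists_lt]
        intro f hf
        choose v hv' using fun n => (hf n).2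
        obtain ⟨a, b, hab, h2, h3⟩ := leaf hLV hLH k n q hq (fun m => V (f m).i)
          (fun m => H (f m).i) (fun m => G (f m).i) (fun m => lab (f m).i) (fun m => u (f m).i)
          (fun m => hu _) (fun m => hk _) v (fun m => by
            have h4 := hsu (f m)
            rw [hv' m, TL.set_leaf] at h4
            exact h4 (Finset.mem_singleton_self _))
        refine ⟨a, b, hab, ?_⟩
        show (∀ j, st (G (f a).i) (u (f a).i) (f a).t.set j =
          st (G (f b).i) (u (f b).i) (f b).t.set j) ∧ _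
        simp only [hv', TL.set_leaf]
        exact ⟨h2, h3⟩
      have h2 : {x | x ∈ X ∧ ∃ l r, x.t = .node l r}.PartiallyWellOrderedOn le := by
        rw [Set.partiallyWellOrderedOn_iff_exists_lt]
        intro f hf
        choose l r hlr using fun n => (hf n).2
        have hsub : ∀ n, IsSub (.node (l n) (r n)) (T (f n).i) := fun n => hlr n ▸ (f n).h
        have hl : ∀ n, IsSub (l n) (T (f n).i) := fun n =>
          IsSub.trans' (.left _ _ .refl) (hsub n)
        have hr : ∀ n, IsSub (r n) (T (f n).i) := fun n =>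
          IsSub.trans' (.right _ _ .refl) (hsub n)
        have hlC : ∀ n, (⟨(f n).i, l n, hl n⟩ : Elt (fun i => V i ⊕ H i) T) ∈ C := fun n =>
          ⟨f n, (hf n).1, l n, r n, hlr n, Or.inl ⟨hl n, rfl⟩⟩
        have hrC : ∀ n, (⟨(f n).i, r n, hr n⟩ : Elt (fun i => V i ⊕ H i) T) ∈ C := fun n =>
          ⟨f n, (hf n).1, l n, r n, hlr n, Or.inr ⟨hr n, rfl⟩⟩
        obtain ⟨g, hg⟩ := hC.exists_monotone_subseq hlC
        obtain ⟨g', hg'⟩ := hC.exists_monotone_subseq (fun n => hrC (g n))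
        obtain ⟨a, b, hab, h3, h4⟩ := hGl n Q q (fun m => V (f (g (g' m))).i)
          (fun m => H (f (g (g' m))).i) (fun m => G (f (g (g' m))).i)
          (fun m => u (f (g (g' m))).i)
          (fun m => lab (f (g (g' m))).i) (fun m => (l (g (g' m))).set)
          (fun m => (r (g (g' m))).set) (fun m => hu _)
          (fun m => hT2 _ ▸ (hl _).set_subset) (fun m => hT2 _ ▸ (hr _).set_subset)
          (fun m => disjoint_of_nodup ((hsub _).leaves_nodup (hT1 _)))
          (fun m => (hT3 _ _ (hl _)).1) (fun m => (hT3 _ _ (hr _)).1)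
          (fun m => (hg _ _ (g'.monotone (Nat.le_succ m))).2)
          (fun m => (hg' _ _ (Nat.le_succ m)).2)
        refine ⟨g (g' a), g (g' b), g.strictMono (g'.strictMono hab), ?_⟩
        show (∀ j, st (G (f (g (g' a))).i) (u (f (g (g' a))).i) (f (g (g' a))).t.set j =
          st (G (f (g (g' b))).i) (u (f (g (g' b))).i) (f (g (g' b))).t.set j) ∧ _
        simp only [hlr, set_node]
        exact ⟨h3, h4⟩
      refine (h1.union h2).mono fun x hx => ?_
      rcases ht : x.t with v | ⟨l, r⟩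
      · exact Or.inl ⟨hx, v, ht⟩
      · exact Or.inr ⟨hx, l, r, ht⟩
  obtain ⟨m, l, hml, -, β, f, φ, M, hβ⟩ := main.exists_lt
    (f := fun n => (⟨n, T n, .refl⟩ : Elt (fun i => V i ⊕ H i) T)) (fun n => Set.mem_univ _)
  refine ⟨m, l, hml, β, ?_⟩
  rw [hT2, hT2] at hβ
  exact hF n (V m) (V l) (H m) (H l) _ (G m) (u m) (G l) (u l) β f φ M (hu m) (hu l) (hv m) (hv l)
    hβ

/-- (IV0) -/
theorem iv0_of (hT : StTrans.{0, 0}) (hLV : StLeafV.{0, 0}) (hLH : StLeafH.{0, 0})
    (hGl : StGlue.{0, 0, 0}) (hLk : StLink.{0, 0}) (hLd : StLinked.{0, 0})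
    (hF : StFinal.{0, 0}) : Pb.StArcPE := by
  intro k Q q _ hq V H _ _ G lab hG
  have h0 : ∀ i, ∃ (p : Fin (k + 1) × Bool) (u : Fin p.1 → V i), Function.Injective u ∧
      (∀ j, u j ∈ (G i).verts) ∧ (∀ v, ¬ IsHub u v → ((G i).rot v).length ≤ k) ∧
      (p.2 = true → units (G i) u = ∅) ∧ (p.2 = false → ∃ t, IsArcCarving k (G i) u t) := by
    intro i
    obtain ⟨n, u, h1, h2, h3, h4, h5⟩ := hG i
    rcases h5 with h5 | h5
    · exact ⟨(⟨n, Nat.lt_succ_of_le h1⟩, true), u, h2, h3, h4, fun _ => h5,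
        (fun h => by cases h)⟩
    · exact ⟨(⟨n, Nat.lt_succ_of_le h1⟩, false), u, h2, h3, h4,
        (fun h => by cases h), fun _ => h5⟩
  choose p u h1 h2 h3 h4 h5 using h0
  have hD : WellQuasiOrdered (fun a b : Fin (k + 1) × Bool => a = b) := Finite.wellQuasiOrdered _
  have : IsPreorder (Fin (k + 1) × Bool) (fun a b => a = b) :=
    { refl := fun a => rfl
      trans := fun a b c h h' => h.trans h' }
  obtain ⟨g, hg⟩ := hD.exists_monotone_subseq p
  have hp : ∀ m, p (g m) = p (g 0) := fun m => (hg 0 m (Nat.zero_le m)).symm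
  -- the hubs, with a constant number
  have h6 : ∀ m, ∃ u : Fin (p (g 0)).1 → V (g m), Function.Injective u ∧
      (∀ j, u j ∈ (G (g m)).verts) ∧ (∀ v, ¬ IsHub u v → ((G (g m)).rot v).length ≤ k) ∧
      ((p (g 0)).2 = true → units (G (g m)) u = ∅) ∧
      ((p (g 0)).2 = false → ∃ t, IsArcCarving k (G (g m)) u t) := by
    intro m
    rw [← hp m]
    exact ⟨u (g m), h1 _, h2 _, h3 _, h4 _, h5 _⟩
  choose u' g1 g2 g3 g4 g5 using h6
  rcases hb : (p (g 0)).2 with _ | _
  · obtain ⟨i, j, hij, h⟩ := core hT hLV hLH hGl hLk hLd hF k (p (g 0)).1 q hq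
      (fun m => V (g m)) (fun m => H (g m)) (fun m => G (g m)) (fun m => lab (g m)) u' g1 g2 g3
      (fun m => g5 m hb)
    exact ⟨g i, g j, g.strictMono hij, h⟩
  · obtain ⟨i, j, hij, h⟩ := (wqo_pi hq (p (g 0)).1) (fun m => fun i => lab (g m) (u' m i))
    obtain ⟨β, f, φ, M, h7⟩ := ped_empty (fun v w => q (lab (g i) v) (lab (g j) w)) (G (g i))
      (u' i) (G (g j)) (u' j) (g1 i) (g4 i hb) (g4 j hb) h
    exact ⟨g i, g j, g.strictMono hij, β, (hF _ _ _ _ _ _ _ _ _ _ β f φ M (g1 i)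
      (g1 j) (g2 i) (g2 j) h7)⟩


end ArcPE6

/-- (IV0) -/
theorem iv0_6 : Pb.StArcPE :=
  ArcPE6.iv0_of stTrans_21 stLeafV_21 stLeafH_21 (stGlue_21 stTrans_21 (Union6.stUnion_6 stNC_22))
    stLink_94 (Linked6.stLinked_6 stAbs_22) stFinal_21

end RotWqo.Arc
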