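import Pool.Agent.Lib.MP_cb4a0f_co.Pb.StepO6

/-!
# MP_cb4a0f_co: connected graphs with arc carvings, without large highly connected sets
-/

open Classical

namespace RotWqo.Pb

open RotWqo.Bag RotWqo.Hk RotWqo.Pl RotWqo.Tc.Step6

namespace IV16

section
variable {V H V' H' : Type*} {G : RotGraph V H} {A : Finset V} {T : Finset (Finset V)} {M : ℕ}

lemma mem_chd {Y W : Finset V} : Y ∈ Tc.chd T W ↔
    Y ∈ T ∧ Y ⊂ W ∧ ∀ Z ∈ T, Y ⊂ Z → ¬ Z ⊂ W := by
  simp [Tc.chd]

lemma bag_or_child {W : Finset V} {v : V} (hv : v ∈ W) :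
    v ∈ Tc.bag T W ∨ ∃ Y ∈ Tc.chd T W, v ∈ Y := by
  by_cases h1 : ∃ Y ∈ T, Y ⊂ W ∧ v ∈ Y
  · right
    obtain ⟨Y, h2, h3⟩ := h1
    obtain ⟨Z, h4, h5⟩ := (T.filter (fun Y => Y ⊂ W ∧ v ∈ Y)).exists_max_image Finset.card
      ⟨Y, Finset.mem_filter.2 ⟨h2, h3⟩⟩
    rw [Finset.mem_filter] at h4
    refine ⟨Z, mem_chd.2 ⟨h4.1, h4.2.1, fun Z' h6 h7 h8 => ?_⟩, h4.2.2⟩
    have h9 := h5 Z' (Finset.mem_filter.2 ⟨h6, h8, h7.1 h4.2.2⟩)
    exact absurd (Finset.card_lt_card h7) (not_lt.2 h9)
  · left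
    push Not at h1
    exact Finset.mem_filter.2 ⟨hv, fun Y h2 h3 => h1 Y h2 h3⟩

lemma chd_disj (hT : IsGH M G A T) {W Y Y' : Finset V} (hY : Y ∈ Tc.chd T W)
    (hY' : Y' ∈ Tc.chd T W) (hne : Y ≠ Y') : Disjoint Y Y' := by
  rw [mem_chd] at hY hY'
  rcases hT.lam Y hY.1 Y' hY'.1 with h | h | h
  · exact absurd hY'.2.1 (hY.2.2 Y' hY'.1 (h.ssubset_of_ne hne))
  · exact absurd hY.2.1 (hY'.2.2 Y hY.1 (h.ssubset_of_ne hne.symm))
  · exact h

lemma cls_eq {C : Finset (Finset V)} (hd : ∀ X ∈ C, ∀ Y ∈ C, X ≠ Y → Disjoint X Y)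
    {X : Finset V} (hX : X ∈ C) {v : V} (hv : v ∈ X) : Tc.cls C v = .inr X := by
  have h1 : ∃ X ∈ C, v ∈ X := ⟨X, hX, hv⟩
  unfold Tc.cls
  rw [dif_pos h1]
  congr 1
  by_contra h2
  exact Finset.disjoint_left.1 (hd _ h1.choose_spec.1 X hX h2) h1.choose_spec.2 hv

lemma cls_none {C : Finset (Finset V)} {v : V} (h : ∀ X ∈ C, v ∉ X) : Tc.cls C v = .inl v := by
  unfold Tc.cls
  rw [dif_neg]
  rintro ⟨X, h1, h2⟩
  exact h X h1 h2

lemma mem_lgs {C : Finset (Finset V)} (hd : ∀ X ∈ C, ∀ Y ∈ C, X ≠ Y → Disjoint X Y)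
    {X : Finset V} (hX : X ∈ C) (h : H) : h ∈ Tc.lgs G C X ↔ h ∈ bd G X := by
  unfold Tc.lgs
  rw [Finset.mem_toList, Finset.mem_filter, mem_bd]
  constructor
  · rintro ⟨h1, h2, h3⟩
    exact ⟨h1, (Tc.cls_inr h2).2, fun h4 => h3 (cls_eq hd hX h4)⟩
  · rintro ⟨h1, h2, h3⟩
    exact ⟨h1, cls_eq hd hX h2, fun h4 => h3 (Tc.cls_inr h4).2⟩

lemma lgo_length {C : Finset (Finset V)} {o : Finset V → List H}
    (hd : ∀ X ∈ C, ∀ Y ∈ C, X ≠ Y → Disjoint X Y)
    {X : Finset V} (hX : X ∈ C) : (lgo G C o X).length = cut G X := by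
  have h1 : (lgo G C o X).toFinset = bd G X := by
    ext h
    rw [List.mem_toFinset, mem_lgo, mem_lgs hd hX]
  rw [← List.toFinset_card_of_nodup (lgo_nodup G C o X), h1]
  rfl

lemma rot_length {C : Finset (Finset V)} {o : Finset V → List H}
    (hd : ∀ X ∈ C, ∀ Y ∈ C, X ≠ Y → Disjoint X Y)
    {X : Finset V} (hX : X ∈ C) : ((ctrO G C o).rot (.inr X)).length = cut G X + 2 := by
  change (ctrR G C o (.inr X)).length = _
  simp only [ctrR, if_pos hX, List.length_append, List.length_map, List.length_cons,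
    List.length_nil, lgo_length hd hX]

lemma cut_atom {C : Finset (Finset V)} {o : Finset V → List H}
    (hd : ∀ X ∈ C, ∀ Y ∈ C, X ≠ Y → Disjoint X Y)
    {X : Finset V} (hX : X ∈ C) : cut (ctrO G C o) {.inr X} = cut G X := by
  unfold cut
  have h1 : bd (ctrO G C o) {.inr X} = (bd G X).image .inl := by
    ext h
    rw [mem_bd, Finset.mem_image]
    change h ∈ Tc.ctrD G C ∧ Tc.ctrB G C h ∈ _ ∧ Tc.ctrB G C (Tc.ctrO G h) ∉ _ ↔ _
    rw [Finset.mem_singleton, Finset.mem_singleton]
    rcases h with h | p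
    · simp only [Tc.ctrD, Tc.ctrB, Tc.ctrO, Finset.mem_union, Finset.mem_image,
        Finset.mem_filter, Finset.mem_product, Sum.inl.injEq, reduceCtorEq, and_false,
        exists_false, or_false, exists_eq_right]
      rw [mem_bd]
      constructor
      · rintro ⟨⟨h1, h2⟩, h3, h4⟩
        exact ⟨h1, (Tc.cls_inr h3).2, fun h5 => h4 (cls_eq hd hX h5)⟩
      · rintro ⟨h1, h2, h3⟩
        have h4 := cls_eq hd hX h2
        have h5 : Tc.cls C (G.base (G.opp h)) ≠ .inr X := fun h6 => h3 (Tc.cls_inr h6).2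
        refine ⟨⟨h1, fun Y h6 h7 => ?_⟩, h4, h5⟩
        rw [h4] at h6
        cases h6
        exact h5 h7
    · simp only [Tc.ctrB, Tc.ctrO]
      constructor
      · rintro ⟨-, h2, h3⟩
        exact absurd h2 h3
      · rintro ⟨a, -, h2⟩
        cases h2
  rw [h1, Finset.card_image_of_injective _ Sum.inl_injective]

/-- The family of contracted sets. -/
lemma fam_o (hA : A ⊆ G.verts) (hT : IsGH M G A T) {X : Finset V} (hX : X ∈ T)
    {o : Finset V → List H}
    (ho : ∀ Y, (o Y).Nodup ∧ ∀ h, h ∈ o Y ↔ h ∈ bd G Y) : FamO G X (fam G T X) o := by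
  have h0 : ∀ Y ∈ fam G T X, Y ∈ Tc.chd T X ∨ (X ≠ G.verts ∧ Y = G.verts \ X) := by
    intro Y hY
    unfold fam at hY
    rw [Finset.mem_union] at hY
    rcases hY with hY | hY
    · exact Or.inl hY
    · split_ifs at hY with h1
      · simp at hY
      · exact Or.inr ⟨h1, Finset.mem_singleton.1 hY⟩
  have hXV := (hT.sub X hX).trans hA
  refine ⟨?_, ?_, ?_, ?_, fun Y _ => (ho Y).1, fun Y _ => (ho Y).2⟩
  · intro Y hY
    rcases h0 Y hY with h | ⟨h1, rfl⟩
    · exact (mem_chd.1 h).2.1.subset.trans hXV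
    · exact Finset.sdiff_subset
  · intro Y hY
    rcases h0 Y hY with h | ⟨h1, rfl⟩
    · exact Or.inl (mem_chd.1 h).2.1.subset
    · exact Or.inr Finset.sdiff_disjoint
  · intro Y hY
    rcases h0 Y hY with h | ⟨h1, rfl⟩
    · exact hT.ne Y (mem_chd.1 h).1
    · exact Finset.sdiff_nonempty.2 fun h2 => h1 (hXV.antisymm h2)
  · intro Y hY Y' hY' hne
    rcases h0 Y hY with h | ⟨h1, rfl⟩ <;> rcases h0 Y' hY' with h' | ⟨h1', rfl⟩
    · exact chd_disj hT h h' hne
    · exact Finset.disjoint_sdiff.mono_left (mem_chd.1 h).2.1.subset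
    · exact Finset.sdiff_disjoint.mono_right (mem_chd.1 h').2.1.subset
    · exact absurd rfl hne

/-- No member of the family separates two vertices of a bag. -/
lemma bag_lnk (hA0 : cut G A = 0) (hT : IsGH M G A T) {X : Finset V} (hX : X ∈ T) :
    Lnk M G (Tc.bag T X) := by
  rintro Z hZ ⟨u, hu, huZ⟩ ⟨v, hv, hvZ⟩
  by_contra h1
  unfold Tc.bag at hu hv
  rw [Finset.mem_filter] at hu hv
  have hXA := hT.sub X hX
  have h2 : cut G (Z ∩ A) ≤ cut G Z := by
    refine Finset.card_le_card fun h hh => ?_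
    rw [mem_bd, Finset.mem_inter, Finset.mem_inter] at hh
    rw [mem_bd]
    refine ⟨hh.1, hh.2.1.1, fun h3 => hh.2.2 ⟨h3, ?_⟩⟩
    by_contra h4
    have h5 : h ∈ bd G A := mem_bd.2 ⟨hh.1, hh.2.1.2, h4⟩
    rw [Finset.card_eq_zero.1 hA0] at h5
    simp at h5
  obtain ⟨W, hW, h3, -⟩ := hT.sep u (hXA hu.1) v (hXA hv.1) ⟨Z ∩ A, Finset.inter_subset_right,
    Finset.mem_inter.2 ⟨huZ, hXA hu.1⟩, fun h => hvZ (Finset.mem_inter.1 h).1, by omega⟩
  rcases hT.lam W hW X hX with h | h | h
  · have h4 : W ⊂ X := h.ssubset_of_ne (by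
      rintro rfl
      rcases h3 with ⟨-, h5⟩ | ⟨-, h5⟩
      · exact h5 hv.1
      · exact h5 hu.1)
    rcases h3 with ⟨h5, -⟩ | ⟨h5, -⟩
    · exact hu.2 W hW h4 h5
    · exact hv.2 W hW h4 h5
  · rcases h3 with ⟨-, h5⟩ | ⟨-, h5⟩
    · exact h5 (h hv.1)
    · exact h5 (h hu.1)
  · rcases h3 with ⟨h5, -⟩ | ⟨h5, -⟩
    · exact Finset.disjoint_left.1 h h5 hu.1
    · exact Finset.disjoint_left.1 h h5 hv.1

/-- The vertices of the contracted graph: the part inside `X`. -/
lemma verts_eq (hA : A ⊆ G.verts) (hT : IsGH M G A T) {X : Finset V} (hX : X ∈ T)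
    {o : Finset V → List H} (ho : ∀ Y, (o Y).Nodup ∧ ∀ h, h ∈ o Y ↔ h ∈ bd G Y) :
    (ctrO G (fam G T X) o).verts.erase (.inr (G.verts \ X)) = Tc.cA (fam G T X) X ∧
      (X = G.verts → (ctrO G (fam G T X) o).verts = Tc.cA (fam G T X) X) ∧
      (X ≠ G.verts → .inr (G.verts \ X) ∈ (ctrO G (fam G T X) o).verts) := by
  have hF := fam_o hA hT hX ho
  have hXV := (hT.sub X hX).trans hA
  have hv : (ctrO G (fam G T X) o).verts =
      G.verts.image (Tc.cls (fam G T X)) ∪ (fam G T X).image .inr := rfl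
  have h1 : ∀ Y ∈ fam G T X, Y ⊆ X → .inr Y ∈ Tc.cA (fam G T X) X := by
    intro Y hY hYX
    obtain ⟨v, hv⟩ := hF.ne Y hY
    exact Finset.mem_image.2 ⟨v, hYX hv, cls_eq hF.disj hY hv⟩
  have h2 : ∀ Y ∈ fam G T X, Y ⊆ X ∨ (X ≠ G.verts ∧ Y = G.verts \ X) := by
    intro Y hY
    unfold fam at hY
    rw [Finset.mem_union] at hY
    rcases hY with hY | hY
    · exact Or.inl (mem_chd.1 hY).2.1.subset
    · split_ifs at hY with h1
      · simp at hY
      · exact Or.inr ⟨h1, Finset.mem_singleton.1 hY⟩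
  have h3 : X ≠ G.verts → G.verts \ X ∈ fam G T X := by
    intro h
    unfold fam
    rw [if_neg h]
    exact Finset.mem_union_right _ (Finset.mem_singleton_self _)
  have h4 : ∀ v ∈ X, Tc.cls (fam G T X) v ≠ .inr (G.verts \ X) := by
    intro v hv h
    exact (Finset.mem_sdiff.1 (Tc.cls_inr h).2).2 hv
  have h5 : ∀ v ∈ G.verts, v ∉ X → Tc.cls (fam G T X) v = .inr (G.verts \ X) := by
    intro v hv hvX
    exact cls_eq hF.disj (h3 fun h => hvX (h ▸ hv)) (Finset.mem_sdiff.2 ⟨hv, hvX⟩)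
  refine ⟨?_, ?_, ?_⟩
  · ext x
    rw [Finset.mem_erase, hv, Finset.mem_union, Finset.mem_image, Finset.mem_image]
    constructor
    · rintro ⟨hx, ⟨v, hv1, rfl⟩ | ⟨Y, hY, rfl⟩⟩
      · by_cases hvX : v ∈ X
        · exact Finset.mem_image_of_mem _ hvX
        · exact absurd (h5 v hv1 hvX) hx
      · rcases h2 Y hY with h6 | ⟨-, h6⟩
        · exact h1 Y hY h6
        · exact absurd (congrArg Sum.inr h6) hx
    · intro hx
      obtain ⟨v, hv1, rfl⟩ := Finset.mem_image.1 hx
      exact ⟨h4 v hv1, Or.inl ⟨v, hXV hv1, rfl⟩⟩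
  · intro hXe
    ext x
    rw [hv, Finset.mem_union, Finset.mem_image, Finset.mem_image]
    constructor
    · rintro (⟨v, hv1, rfl⟩ | ⟨Y, hY, rfl⟩)
      · exact Finset.mem_image_of_mem _ (hXe ▸ hv1)
      · rcases h2 Y hY with h6 | ⟨h6, -⟩
        · exact h1 Y hY h6
        · exact absurd hXe h6
    · intro hx
      obtain ⟨v, hv1, rfl⟩ := Finset.mem_image.1 hx
      exact Or.inl ⟨v, hXV hv1, rfl⟩
  · intro hXe
    rw [hv]
    exact Finset.mem_union_right _ (Finset.mem_image_of_mem _ (h3 hXe))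

lemma erase_eq {α : Type*} (i1 i2 : DecidableEq α) (s : Finset α) (a : α) :
    @Finset.erase α i1 s a = @Finset.erase α i2 s a := by
  ext x
  simp only [Finset.mem_erase]

lemma PE.mono' {r r' : V → V' → Prop} {G' : RotGraph V' H'} {A' : Finset V'}
    {β : H → H'} (h : PE r G A G' A' β) (hr : ∀ v ∈ A, ∀ v' ∈ A', r v v' → r' v v') :
    PE r' G A G' A' β := by
  obtain ⟨f, φ, M, h⟩ := h
  exact ⟨f, φ, M, { h with f_rel := fun v hv => hr v hv _ (h.f_mem v hv) (h.f_rel v hv) }⟩

lemma cut_compl (hA : A ⊆ G.verts) : cut G (G.verts \ A) = cut G A := by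
  unfold cut
  refine Finset.card_bij (fun h _ => G.opp h) ?_ ?_ ?_
  · intro h hh
    rw [mem_bd, Finset.mem_sdiff, Finset.mem_sdiff] at hh
    rw [mem_bd, G.opp_opp h hh.1]
    refine ⟨G.opp_mem h hh.1, ?_, hh.2.1.2⟩
    by_contra h1
    exact hh.2.2 ⟨G.base_mem _ (G.opp_mem h hh.1), h1⟩
  · intro a ha b hb hab
    rw [mem_bd] at ha hb
    rw [← G.opp_opp a ha.1, hab, G.opp_opp b hb.1]
  · intro b hb
    rw [mem_bd] at hb
    refine ⟨G.opp b, ?_, G.opp_opp b hb.1⟩
    rw [mem_bd, G.opp_opp b hb.1, Finset.mem_sdiff, Finset.mem_sdiff]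
    exact ⟨G.opp_mem b hb.1, ⟨G.base_mem _ (G.opp_mem b hb.1), hb.2.2⟩, fun h => h.2 hb.2.1⟩

end

/-- Members of the families as elements. -/
def El {V : ℕ → Type} (T : ∀ i, Finset (Finset (V i))) : Type :=
  {a : Σ i, Finset (V i) // a.2 ∈ T a.1}

/-- Children. -/
def ChG {V : ℕ → Type} (T : ∀ i, Finset (Finset (V i))) (x y : El T) : Prop :=
  ∃ (i : ℕ) (X Y : Finset (V i)), x.1 = ⟨i, X⟩ ∧ y.1 = ⟨i, Y⟩ ∧ Y ∈ Tc.chd (T i) X

lemma desc_sub {V H : ℕ → Type} {G : ∀ i, RotGraph (V i) (H i)} {M : ℕ}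
    {A : ∀ i, Finset (V i)}
    {T : ∀ i, Finset (Finset (V i))} (hT : ∀ i, IsGH M (G i) (A i) (T i)) {m : ℕ} {x y : El T}
    (h : Desc (ChG T) (fun x : El T => cut (G x.1.1) x.1.2) m x y) :
    ∃ (i : ℕ) (X Y : Finset (V i)), x.1 = ⟨i, X⟩ ∧
      y.1 = ⟨i, Y⟩ ∧ Y ⊆ X ∧ ∀ W ∈ T i, Y ⊆ W → W ⊆ X → m ≤ cut (G i) W := by
  induction h with
  | refl x hx =>
    refine ⟨x.1.1, x.1.2, x.1.2, rfl, rfl, subset_rfl, fun W _ h1 h2 => ?_⟩
    rw [h2.antisymm h1]
    exact hx
  | step x z y hx hxz _ ih =>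
    obtain ⟨i, Z, Y, h1, h2, h3, h4⟩ := ih
    obtain ⟨j, X, Z', h5, h6, h7⟩ := hxz
    rw [h1] at h6
    obtain ⟨h8, h9⟩ := Sigma.mk.inj_iff.1 h6
    subst h8
    have h9 := eq_of_heq h9
    subst h9
    have hch := mem_chd.1 h7
    refine ⟨i, X, Y, h5, h2, h3.trans hch.2.1.subset, fun W hW h10 h11 => ?_⟩
    have hY : Y ∈ T i := by
      have := y.2
      rw [h2] at this
      exact this
    obtain ⟨v, hv⟩ := (hT i).ne Y hY
    rcases (hT i).lam W hW Z hch.1 with h | h | h
    · exact h4 W hW h10 h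
    · by_cases h12 : Z = W
      · exact h4 W hW h10 (h12 ▸ subset_rfl)
      · have h13 := hch.2.2 W hW (h.ssubset_of_ne h12)
        have h14 : W = X := by
          by_contra h15
          exact h13 (h11.ssubset_of_ne h15)
        rw [h14]
        change m ≤ cut (G x.1.1) x.1.2 at hx
        rw [h5] at hx
        exact hx
    · exact absurd (h3 hv) (Finset.disjoint_left.1 h (h10 hv))

end IV16

open IV16

/-- (IV1) -/
theorem iv1_6 (hE : StExpO) (hM : StMarkO) (hGT : StGHT) (hGL : StGHL) (hO : StOrd)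
    (hR : StRes) (hRE : StRotEq) (hTo : StTorso) (hAr : StArcPE) : StConnW := by
  intro k m M Q q _ hq V H _ _ G lab A hA hAn hA0 hAc hf hd
  choose T hT using fun i => hGT (V i) (H i) (G i) (A i) M (hA i) (hAn i) (hA0 i)
  obtain ⟨K, hK⟩ := hTo k m M
  -- orders
  set o : ∀ i, Finset (V i) → List (H i) := fun i X =>
    if h : ∃ l : List (H i), (l.Nodup ∧ ∀ h, h ∈ l ↔ h ∈ bd (G i) X) ∧ TravX (G i) X l
    then h.choose else (bd (G i) X).toList with ho
  have ho1 : ∀ i X, (o i X).Nodup ∧ ∀ h, h ∈ o i X ↔ h ∈ bd (G i) X := by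
    intro i X
    simp only [ho]
    split_ifs with h
    · exact h.choose_spec.1
    · exact ⟨Finset.nodup_toList _, fun h => Finset.mem_toList⟩
  have ho2 : ∀ i, ∀ X ∈ T i, X ≠ A i → TravX (G i) X (o i X) := by
    intro i X hX hne
    obtain ⟨-, a, ha, b, hb, hbX, hmin⟩ := (hT i).min X hX hne
    obtain ⟨l, h1, h2, h3⟩ := hO (V i) (H i) (G i) X a (((hT i).sub X hX).trans (hA i)) ha
      (fun Z hZ hZX => hmin Z (hZX.trans ((hT i).sub X hX)) hZ fun h => hbX (hZX h))
    have h4 : ∃ l : List (H i), (l.Nodup ∧ ∀ h, h ∈ l ↔ h ∈ bd (G i) X) ∧ TravX (G i) X l :=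
      ⟨l, ⟨h1, h2⟩, h3⟩
    simp only [ho, dif_pos h4]
    exact h4.choose_spec.2
  have hcut : ∀ i, ∀ X ∈ T i, cut (G i) X ≤ M := by
    intro i X hX
    by_cases h1 : X = A i
    · rw [h1, hA0]
      exact Nat.zero_le _
    · exact ((hT i).min X hX h1).1.le
  set le : El T → El T → Prop := fun a b =>
    ∃ β, PE (fun v v' => q (lab a.1.1 v) (lab b.1.1 v')) (G a.1.1) a.1.2 (G b.1.1) b.1.2 β
    with hle
  have : IsPreorder (El T) le :=
    { refl := fun x => ⟨id, PE.refl (fun v w => q (lab x.1.1 v) (lab x.1.1 w))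
        (fun v => refl_of q _) _ _⟩
      trans := fun x y z ⟨β, h⟩ ⟨β', h'⟩ => ⟨β' ∘ β,
        PE.trans (r₁ := fun v w => q (lab x.1.1 v) (lab y.1.1 w))
          (r₂ := fun v w => q (lab y.1.1 v) (lab z.1.1 w))
          (r := fun v w => q (lab x.1.1 v) (lab z.1.1 w))
          (fun u v w h h' => trans_of q h h') h h'⟩ }
  have main : (Set.univ : Set (El T)).PartiallyWellOrderedOn le := by
    refine wqo_of_levels le (fun x => x.1.2.card) (fun x => cut (G x.1.1) x.1.2) M (ChG T)
      ?_ ?_ ?_ ?_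
    · rintro ⟨⟨a, b⟩, hx⟩ ⟨⟨c, d⟩, hy⟩ ⟨i, X, Y, h1, h2, h3⟩
      have h1' : (⟨a, b⟩ : Σ i, Finset (V i)) = ⟨i, X⟩ := h1
      have h2' : (⟨c, d⟩ : Σ i, Finset (V i)) = ⟨i, Y⟩ := h2
      cases h1'
      cases h2'
      exact Finset.card_lt_card (mem_chd.1 h3).2.1
    · intro x
      exact hcut _ _ x.2
    · intro n x y hx hy hdc
      obtain ⟨i, X, Y, h1, h2, h3, h4⟩ := desc_sub hT hdc
      obtain ⟨⟨a, b⟩, hxT⟩ := x
      obtain ⟨⟨c, d⟩, hyT⟩ := y
      have h1' : (⟨a, b⟩ : Σ i, Finset (V i)) = ⟨i, X⟩ := h1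
      have h2' : (⟨c, d⟩ : Σ i, Finset (V i)) = ⟨i, Y⟩ := h2
      cases h1'
      cases h2'
      change cut (G i) X = n at hx
      change cut (G i) Y = n at hy
      change X ∈ T i at hxT
      change Y ∈ T i at hyT
      refine exists_link (fun v w => q (lab i v) (lab i w)) (fun v => refl_of q _) (G i) Y X h3
        (((hT i).sub X hxT).trans (hA i)) n hy hx ?_
      intro U hYU hUX
      rw [← hy]
      exact hGL (V i) (H i) (G i) (A i) M (T i) (hA i) (hA0 i) (hT i) X hxT Y hyT h3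
        (hx.trans hy.symm) (fun W hW hYW hWX => by rw [hy]; exact h4 W hW hYW hWX) U hYU hUX
    · intro S hS
      rw [Set.partiallyWellOrderedOn_iff_exists_lt]
      intro f hf0
      -- constant cut and constant type
      have hD : WellQuasiOrdered (fun a b : Fin (M + 1) × Bool => a = b) :=
        Finite.wellQuasiOrdered _
      have : IsPreorder (Fin (M + 1) × Bool) (fun a b => a = b) :=
        { refl := fun a => rfl
          trans := fun a b c h h' => h.trans h' }
      obtain ⟨g, hg⟩ := hD.exists_monotone_subseq (fun n =>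
        ((⟨cut (G (f n).1.1) (f n).1.2, Nat.lt_succ_of_le (hcut _ _ (f n).2)⟩ : Fin (M + 1)),
          decide ((f n).1.2 = (G (f n).1.1).verts)))
      have hg1 : ∀ n n', n ≤ n' → cut (G (f (g n)).1.1) (f (g n)).1.2 =
          cut (G (f (g n')).1.1) (f (g n')).1.2 ∧ ((f (g n)).1.2 = (G (f (g n)).1.1).verts ↔
          (f (g n')).1.2 = (G (f (g n')).1.1).verts) := by
        intro n n' hn
        have h1 := hg n n' hn
        rw [Prod.ext_iff] at h1
        refine ⟨congrArg Fin.val h1.1, ?_⟩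
        have h2 := h1.2
        simpa using h2
      have hmem : ∀ n, (f n).1.2 ∈ T (f n).1.1 := fun n => (f n).2
      obtain ⟨m', n', hmn, h⟩ := stepO hE hM M V H G Q q hq lab o
        (Subtype.val '' {y | (∃ x ∈ S, ChG T x y) ∧ y.1.2 ≠ A y.1.1})
        (by
          rintro _ ⟨y, -, rfl⟩
          refine ⟨(ho1 _ _).1, (ho1 _ _).2, ?_⟩
          have h1 : (o y.1.1 y.1.2).toFinset = bd (G y.1.1) y.1.2 := by
            ext h
            rw [List.mem_toFinset]
            exact (ho1 _ _).2 h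
          rw [← List.toFinset_card_of_nodup (ho1 _ _).1, h1]
          exact hcut _ _ y.2)
        ((hS.mono fun y hy => hy.1).image_of_monotone_on (fun a _ b _ h => h))
        (fun n => (f (g n)).1.1) (fun n => (f (g n)).1.2)
        (fun n => fam (G (f (g n)).1.1) (T (f (g n)).1.1) (f (g n)).1.2)
        (fun n => ((hT _).sub _ (hmem _)).trans (hA _))
        (fun n => fam_o (hA _) (hT _) (hmem _) (ho1 _))
        (by
          intro n X hXn hXS
          have h1 : X ∈ Tc.chd (T (f (g n)).1.1) (f (g n)).1.2 := by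
            unfold fam at hXn
            rw [Finset.mem_union] at hXn
            rcases hXn with h1 | h1
            · exact h1
            · split_ifs at h1 with h2
              · simp at h1
              · rw [Finset.mem_singleton] at h1
                exfalso
                refine h2 ((((hT _).sub _ (hmem _)).trans (hA _)).antisymm fun v hv => ?_)
                by_contra h3
                have h4 : v ∈ X := by
                  rw [h1]
                  exact Finset.mem_sdiff.2 ⟨hv, h3⟩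
                exact h3 (hXS h4)
          have h2 := mem_chd.1 h1
          refine ho2 _ X h2.1 ?_
          rintro rfl
          exact absurd ((hT _).sub _ (hmem (g n))) h2.2.1.2)
        (by
          intro n X hXn hXS
          have h1 : X ∈ Tc.chd (T (f (g n)).1.1) (f (g n)).1.2 := by
            unfold fam at hXn
            rw [Finset.mem_union] at hXn
            rcases hXn with h1 | h1
            · exact h1
            · split_ifs at h1 with h2
              · simp at h1
              · rw [Finset.mem_singleton] at h1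
                exfalso
                refine h2 ((((hT _).sub _ (hmem _)).trans (hA _)).antisymm fun v hv => ?_)
                by_contra h3
                have h4 : v ∈ X := by
                  rw [h1]
                  exact Finset.mem_sdiff.2 ⟨hv, h3⟩
                exact h3 (hXS h4)
          have h2 := mem_chd.1 h1
          refine ⟨⟨⟨(f (g n)).1.1, X⟩, h2.1⟩, ⟨⟨f (g n), hf0 _, (f (g n)).1.1, (f (g n)).1.2, X,
            rfl, rfl, h1⟩, ?_⟩, rfl⟩
          change X ≠ A (f (g n)).1.1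
          rintro rfl
          exact absurd ((hT _).sub _ (hmem (g n))) h2.2.1.2)
        (by
          intro Q' q' _ hq' lab'
          -- torsos
          have hb : ∀ n, (Tc.bag (T (f (g n)).1.1) (f (g n)).1.2).card ≤ m := by
            intro n
            by_contra h1
            have h2 : Tc.bag (T (f (g n)).1.1) (f (g n)).1.2 ⊆ A (f (g n)).1.1 :=
              (Finset.filter_subset _ _).trans ((hT _).sub _ (hmem _))
            exact hf _ _ h2 (by omega) (bag_lnk (hA0 _) (hT _) (hmem _))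
          choose K' hK1 hK2 using fun n => hK (V (f (g n)).1.1) (H (f (g n)).1.1)
            (G (f (g n)).1.1) (A (f (g n)).1.1) (T (f (g n)).1.1) (f (g n)).1.2
            (o (f (g n)).1.1) (hA _) (hA0 _) (hAc _) (hT _) (hd _) (hmem _) (hb n)
          set out : ∀ n, V (f (g n)).1.1 ⊕ Finset (V (f (g n)).1.1) := fun n =>
            .inr ((G (f (g n)).1.1).verts \ (f (g n)).1.2) with hout
          set lab2 : ∀ n, V (f (g n)).1.1 ⊕ Finset (V (f (g n)).1.1) → Lb Q' PUnit :=
            fun n x => if x = out n then .none else .hub (lab' n x) with hlab2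
          have : IsPreorder PUnit (fun _ _ : PUnit => True) :=
            { refl := fun _ => trivial
              trans := fun _ _ _ _ _ => trivial }
          obtain ⟨i, j, hij, β, hβ⟩ := hAr K (Lb Q' PUnit) (Lb.le q' (fun _ _ : PUnit => True))
            (Lb.wqo hq' (fun _ => ⟨0, 1, Nat.zero_lt_one, trivial⟩))
            (fun n => V (f (g n)).1.1 ⊕ Finset (V (f (g n)).1.1))
            (fun n => H (f (g n)).1.1 ⊕ (Finset (V (f (g n)).1.1) × Bool)) K' lab2 hK2
          refine ⟨i, j, hij, ?_⟩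
          have h1 := hRE _ _ _ _ _ _ _ _ _ _ _ _ (hK1 i) (hK1 j) hβ
          rw [(hK1 i).verts, (hK1 j).verts] at h1
          obtain ⟨vi1, vi2, vi3⟩ := verts_eq (hA _) (hT _) (hmem (g i)) (ho1 _)
          obtain ⟨vj1, vj2, vj3⟩ := verts_eq (hA _) (hT _) (hmem (g j)) (ho1 _)
          have hrel : ∀ a b, a ≠ out i → b ≠ out j →
              Lb.le q' (fun _ _ : PUnit => True) (lab2 i a) (lab2 j b) →
              q' (lab' i a) (lab' j b) := by
            intro a b ha hb h
            simp only [hlab2, if_neg ha, if_neg hb] at h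
            exact h
          by_cases hX : (f (g i)).1.2 = (G (f (g i)).1.1).verts
          · have hX' := (hg1 i j hij.le).2.1 hX
            rw [vi2 hX, vj2 hX'] at h1
            refine ⟨β, PE.mono' h1 fun a ha b hb => hrel a b ?_ ?_⟩
            · rw [← vi1] at ha
              exact (Finset.mem_erase.1 ha).1
            · rw [← vj1] at hb
              exact (Finset.mem_erase.1 hb).1
          · have hX' : (f (g j)).1.2 ≠ (G (f (g j)).1.1).verts := fun h =>
              hX ((hg1 i j hij.le).2.2 h)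
            have hFi := fam_o (hA _) (hT _) (hmem (g i)) (ho1 (f (g i)).1.1)
            have hFj := fam_o (hA _) (hT _) (hmem (g j)) (ho1 (f (g j)).1.1)
            have hmi : (G (f (g i)).1.1).verts \ (f (g i)).1.2 ∈
                fam (G (f (g i)).1.1) (T (f (g i)).1.1) (f (g i)).1.2 := by
              unfold fam
              rw [if_neg hX]
              exact Finset.mem_union_right _ (Finset.mem_singleton_self _)
            have hmj : (G (f (g j)).1.1).verts \ (f (g j)).1.2 ∈
                fam (G (f (g j)).1.1) (T (f (g j)).1.1) (f (g j)).1.2 := by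
              unfold fam
              rw [if_neg hX']
              exact Finset.mem_union_right _ (Finset.mem_singleton_self _)
            have hc : cut (G (f (g i)).1.1) ((G (f (g i)).1.1).verts \ (f (g i)).1.2) =
                cut (G (f (g j)).1.1) ((G (f (g j)).1.1).verts \ (f (g j)).1.2) := by
              rw [cut_compl (((hT _).sub _ (hmem _)).trans (hA _)),
                cut_compl (((hT _).sub _ (hmem _)).trans (hA _))]
              exact (hg1 i j hij.le).1
            obtain ⟨β', h2⟩ := hR _ _ _ _ _ _ (out i) (out j) _ β (vi3 hX) (vj3 hX')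
              (by
                intro b _ h
                by_contra hb
                simp only [hlab2, if_neg hb, if_pos] at h
                exact h)
              (by
                intro a _ h
                by_contra ha
                simp only [hlab2, if_neg ha, if_pos] at h
                exact h)
              (by
                simp only [hout]
                rw [rot_length hFi.disj hmi, rot_length hFj.disj hmj, hc])
              (by
                simp only [hout]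
                rw [cut_atom hFi.disj hmi, cut_atom hFj.disj hmj, hc])
              h1
            simp only [hout] at h2
            rw [(erase_eq _ _ _ _).trans vi1, (erase_eq _ _ _ _).trans vj1] at h2
            refine ⟨β', PE.mono' h2 fun a ha b hb => hrel a b ?_ ?_⟩
            · rw [← vi1] at ha
              exact (Finset.mem_erase.1 ha).1
            · rw [← vj1] at hb
              exact (Finset.mem_erase.1 hb).1)
      exact ⟨g m', g n', g.strictMono hmn, h⟩
  obtain ⟨i, j, hij, β, hβ⟩ := main.exists_lt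
    (f := fun n => (⟨⟨n, A n⟩, (hT n).top⟩ : El T)) (fun n => Set.mem_univ _)
  exact ⟨i, j, hij, β, hβ⟩

end RotWqo.Pb
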