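import Pool.Agent.Lib.MP_cb4a0f_co.Pb.StepO6
import Pool.Agent.Lib.MP_cb4a0f_co.Tc.T1_46

/-!
# MP_cb4a0f_co: from connected components to graphs
-/

open Classical

namespace RotWqo.Pb.C97

open RotWqo.Bag RotWqo.Hk RotWqo.Pl RotWqo.Tc.Step6 RotWqo.Tc.T1_46

theorem exists_tree {β : Type} : ∀ l : List β, l ≠ [] → ∃ t : Tree β, t.leaves = l
  | [], h => absurd rfl h
  | [b], _ => ⟨.leaf b, rfl⟩
  | b :: c :: l, _ => by
    obtain ⟨t, ht⟩ := exists_tree (c :: l) (by simp)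
    exact ⟨.node (.leaf b) t, by rw [Tree.leaves, ht]; rfl⟩

theorem exists_tree_set {β : Type} (S : Finset β) (hS : S.Nonempty) :
    ∃ t : Tree β, t.leaves.Nodup ∧ t.set = S := by
  obtain ⟨t, ht⟩ := exists_tree S.toList (by
    intro h
    rw [Finset.toList_eq_nil] at h
    exact hS.ne_empty h)
  refine ⟨t, ?_, ?_⟩
  · rw [ht]
    exact Finset.nodup_toList S
  · rw [Tree.set, ht]
    exact Finset.toList_toFinset S

section One

variable {V H : Type}

theorem cls_inr_of_cover {G : RotGraph V H} {C : Finset (Finset V)} (hC : Tc.Fam G G.verts C)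
    (hcov : ∀ v ∈ G.verts, ∃ X ∈ C, v ∈ X) {v : V} (hv : v ∈ G.verts) :
    ∃ X ∈ C, Tc.cls C v = .inr X := by
  obtain ⟨X, hX, hvX⟩ := hcov v hv
  exact ⟨X, hX, cls_eq hC hX hvX⟩

theorem ctrO_verts {G : RotGraph V H} {C : Finset (Finset V)} (hC : Tc.Fam G G.verts C)
    (o : Finset V → List H) : (ctrO G C o).verts = Tc.cA C G.verts := by
  change G.verts.image (Tc.cls C) ∪ C.image .inr = G.verts.image (Tc.cls C)
  apply Finset.union_eq_left.2
  intro z hz
  obtain ⟨X, hX, rfl⟩ := Finset.mem_image.1 hz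
  obtain ⟨v, hv⟩ := hC.ne X hX
  rw [Finset.mem_image]
  exact ⟨v, hC.sub X hX hv, cls_eq hC hX hv⟩

theorem ctrO_loop {G : RotGraph V H} {C : Finset (Finset V)} (hC : Tc.Fam G G.verts C)
    (h0 : ∀ X ∈ C, cut G X = 0) (hcov : ∀ v ∈ G.verts, ∃ X ∈ C, v ∈ X)
    (o : Finset V → List H) {d : H ⊕ (Finset V × Bool)} (hd : d ∈ (ctrO G C o).darts) :
    (ctrO G C o).base ((ctrO G C o).opp d) = (ctrO G C o).base d := by
  have h1 : (ctrO G C o).base d ∈ Tc.cA C G.verts := by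
    rw [← ctrO_verts hC o]
    exact (ctrO G C o).base_mem d hd
  obtain ⟨v, hv, he⟩ := Finset.mem_image.1 h1
  obtain ⟨X, hX, hXv⟩ := cls_inr_of_cover hC hcov hv
  rw [hXv] at he
  have h2 : (Tc.ctr G C).base d = .inr X := he.symm
  have h3 : (Tc.ctr G C).base ((Tc.ctr G C).opp d) = .inr X := atom_closed hC hX (h0 X hX) hd h2
  exact h3.trans h2.symm

theorem ctrO_rot {G : RotGraph V H} {C : Finset (Finset V)} (hC : Tc.Fam G G.verts C)
    (h0 : ∀ X ∈ C, cut G X = 0) (hcov : ∀ v ∈ G.verts, ∃ X ∈ C, v ∈ X)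
    (o : Finset V → List H) (z : V ⊕ Finset V) : ((ctrO G C o).rot z).length ≤ 2 := by
  rcases z with v | X
  · change (Tc.ctrR G C (.inl v)).length ≤ 2
    simp only [Tc.ctrR]
    split_ifs with h
    · have h1 : G.rot v = [] := by
        apply List.eq_nil_iff_forall_not_mem.2
        intro a ha
        rw [G.mem_rot] at ha
        obtain ⟨X, -, hX⟩ := cls_inr_of_cover hC hcov (ha.2 ▸ G.base_mem a ha.1)
        rw [h] at hX
        cases hX
      rw [h1]
      simp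
    · simp
  · change (ctrR G C o (.inr X)).length ≤ 2
    simp only [ctrR]
    split_ifs with h
    · have h1 : lgo G C o X = [] := by
        apply List.eq_nil_iff_forall_not_mem.2
        intro a ha
        rw [mem_lgo, lgs_nil hC h (h0 X h)] at ha
        exact absurd ha List.not_mem_nil
      rw [h1]
      simp
    · simp

theorem ctrO_arc {G : RotGraph V H} {C : Finset (Finset V)} (hC : Tc.Fam G G.verts C)
    (h0 : ∀ X ∈ C, cut G X = 0) (hcov : ∀ v ∈ G.verts, ∃ X ∈ C, v ∈ X)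
    (o : Finset V → List H) : Arc.ArcWidthLE 2 (ctrO G C o) := by
  refine ⟨0, fun i => i.elim0, Nat.zero_le _, fun i => i.elim0, fun i => i.elim0,
    fun v _ => ctrO_rot hC h0 hcov o v, ?_⟩
  rcases (Arc.units (ctrO G C o) (fun i : Fin 0 => i.elim0)).eq_empty_or_nonempty with h | h
  · exact Or.inl h
  · obtain ⟨t, h1, h2⟩ := exists_tree_set _ h
    refine Or.inr ⟨t, h1, h2, fun s _ => ⟨fun i => i.elim0, ?_⟩⟩
    have h3 : Arc.bdx (ctrO G C o) (fun i : Fin 0 => i.elim0) s.set = ∅ := by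
      apply Finset.eq_empty_of_forall_notMem
      intro d hd
      rw [Arc.mem_bdx] at hd
      obtain ⟨h4, h5, h6⟩ := hd
      have h7 : ∀ x : V ⊕ Finset V, ¬ Arc.IsHub (fun i : Fin 0 => i.elim0) x := by
        rintro x ⟨i, -⟩
        exact i.elim0
      rw [Arc.inn_nonhub (h7 _)] at h5 h6
      rw [ctrO_loop hC h0 hcov o h4] at h6
      exact h6 h5
    rw [Arc.ecut, h3]
    exact Nat.zero_le _

end One

/-- (IV2) From connected components to graphs. -/
theorem iv2_97 (hE : StExpO) (hA : StArcPE) (hCo : Tc.StComps.{0}) : StCompsW := by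
  intro Q q _ hq V H _ _ G lab hY
  by_cases hne : ∃ i, (G i).verts = ∅
  · obtain ⟨i, hi⟩ := hne
    refine ⟨i, i + 1, Nat.lt_succ_self i, fun _ => Classical.arbitrary _, ?_⟩
    rw [hi]
    exact PE.empty _ _ _
  push Not at hne
  have hC0 : ∀ i, ∃ C : Finset (Finset (V i)), Tc.Fam (G i) (G i).verts C ∧
      (∀ X ∈ C, cut (G i) X = 0 ∧ Tc.Conn (G i) X) ∧ ∀ v ∈ (G i).verts, ∃ X ∈ C, v ∈ X :=
    fun i => hCo (V i) (H i) (G i) (hne i)
  choose C c1 c2 c3 using hC0
  have hCY : ∀ i, ∀ X ∈ C i, (⟨i, X⟩ : Σ i, Finset (V i)) ∈ Comps G := fun i X hX =>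
    ⟨(c1 i).sub X hX, (c1 i).ne X hX, (c2 i X hX).1, (c2 i X hX).2⟩
  have hbd : ∀ i, ∀ X ∈ C i, bd (G i) X = ∅ := fun i X hX =>
    Finset.card_eq_zero.1 (c2 i X hX).1
  set o : ∀ i, Finset (V i) → List (H i) := fun _ _ => [] with ho
  have hF : ∀ i, FamO (G i) (G i).verts (C i) (o i) := fun i =>
    { verts := (c1 i).sub
      side := fun X hX => Or.inl ((c1 i).sub X hX)
      ne := (c1 i).ne
      disj := (c1 i).disj
      nodup := fun X _ => List.nodup_nil
      mem := fun X hX h => by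
        rw [hbd i X hX]
        simp [ho] }
  have hTr : ∀ i, ∀ X ∈ C i, X ⊆ (G i).verts → TravX (G i) X (o i X) := by
    intro i X hX _ N _ _ hN _
    refine ⟨fun _ _ => False, fun _ _ h => h, fun _ _ _ h => h.elim, fun _ _ h => h.elim,
      fun v _ => .done _ fun a _ b h => h, fun a b hab => ?_⟩
    have h1 := hN a b hab
    rw [hbd i X hX] at h1
    exact absurd h1 (Finset.notMem_empty _)
  set p : {a // a ∈ Comps G} → {a // a ∈ Comps G} → Prop := fun a b =>
    ∃ β, PE (fun v v' => q (lab a.1.1 v) (lab b.1.1 v')) (G a.1.1) a.1.2 (G b.1.1) b.1.2 β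
    with hp
  have : IsPreorder {a // a ∈ Comps G} p :=
    { refl := fun a => ⟨id, PE.refl (fun v v' => q (lab a.1.1 v) (lab a.1.1 v'))
        (fun v => refl_of q _) (G a.1.1) a.1.2⟩
      trans := by
        rintro a b c ⟨β, h⟩ ⟨β', h'⟩
        exact ⟨β' ∘ β, PE.trans (r₁ := fun v v' => q (lab a.1.1 v) (lab b.1.1 v'))
          (r₂ := fun v v' => q (lab b.1.1 v) (lab c.1.1 v'))
          (r := fun v v' => q (lab a.1.1 v) (lab c.1.1 v'))
          (fun u v w h1 h2 => trans_of q h1 h2) h h'⟩ }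
  have hpw : WellQuasiOrdered p := by
    intro f
    obtain ⟨m, n, hmn, h2⟩ := hY (fun n => ⟨(f n).1, (f n).2⟩)
    exact ⟨m, n, hmn, h2⟩
  set lab' : ∀ n, V n ⊕ Finset (V n) → Lb Q {a // a ∈ Comps G} := fun n x => match x with
    | .inl v => .hub (lab n v)
    | .inr X => if h : X ∈ C n then .atom ⟨⟨n, X⟩, hCY n X h⟩ else .none
    with hlab'
  obtain ⟨m, n, hmn, β, hβ⟩ := hA 2 (Lb Q {a // a ∈ Comps G}) (Lb.le q p) (Lb.wqo hq hpw)
    (fun n => V n ⊕ Finset (V n)) (fun n => H n ⊕ (Finset (V n) × Bool))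
    (fun n => ctrO (G n) (C n) (o n)) lab'
    (fun i => ctrO_arc (c1 i) (fun X hX => (c2 i X hX).1) (c3 i) (o i))
  rw [ctrO_verts (c1 m) (o m), ctrO_verts (c1 n) (o n)] at hβ
  refine ⟨m, n, hmn, ?_⟩
  refine hE (V m) (V n) (H m) (H n) (G m) (G n) (C m) (C n)
    (o m) (o n) (G m).verts (G n).verts
    _ (fun a b => Lb.le q p (lab' m a) (lab' n b)) β subset_rfl subset_rfl (hF m) (hF n)
    ?_ ?_ ?_ ?_ (hTr n) hβ
  · intro v v' h
    exact h
  · intro v X' h
    simp only [hlab'] at h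
    split_ifs at h <;> exact h
  · intro X v' h
    simp only [hlab'] at h
    split_ifs at h <;> exact h
  · intro X hX hXS X' hX' hXS' h
    simp only [hlab', dif_pos hX, dif_pos hX'] at h
    obtain ⟨β', hβ'⟩ := h
    exact ⟨β', hβ', rfl⟩

end RotWqo.Pb.C97
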