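import Pool.Agent.Lib.MP_cb4a0f_co.Pb.Stmts

/-!
# MP_cb4a0f_co: from induced subgraphs to pieces
-/

open Classical

namespace RotWqo.Pb.I97

open RotWqo.Bag RotWqo.Hk RotWqo.Pl

variable {V H : Type}

theorem bd_empty {G : RotGraph V H} {A : Finset V} (h0 : cut G A = 0) : bd G A = ∅ :=
  Finset.card_eq_zero.1 h0

theorem closed {G : RotGraph V H} {A : Finset V} (h0 : cut G A = 0) {h : H} (hh : h ∈ G.darts)
    (hb : G.base h ∈ A) : G.base (G.opp h) ∈ A := by
  by_contra hc
  have h1 : h ∈ bd G A := by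
    unfold bd
    rw [Finset.mem_filter]
    exact ⟨hh, hb, hc⟩
  rw [bd_empty h0] at h1
  exact Finset.notMem_empty _ h1

theorem ind_verts {G : RotGraph V H} {A : Finset V} (hA : A ⊆ G.verts) : (ind G A).verts = A := by
  ext v
  change v ∈ G.verts.filter (fun v => v ∈ A) ↔ v ∈ A
  rw [Finset.mem_filter]
  exact ⟨fun h => h.2, fun h => ⟨hA h, h⟩⟩

theorem ind_darts {G : RotGraph V H} {A : Finset V} (h0 : cut G A = 0) (h : H) :
    h ∈ (ind G A).darts ↔ h ∈ G.darts ∧ G.base h ∈ A := by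
  change h ∈ G.darts.filter (fun h => G.base h ∈ A ∧ G.base (G.opp h) ∈ A) ↔ _
  rw [Finset.mem_filter]
  exact ⟨fun hh => ⟨hh.1, hh.2.1⟩, fun hh => ⟨hh.1, hh.2, closed h0 hh.1 hh.2⟩⟩

theorem ind_rot {G : RotGraph V H} {A : Finset V} (h0 : cut G A = 0) {v : V} (hv : v ∈ A) :
    (ind G A).rot v = G.rot v := by
  change (G.rot v).filter (fun h => decide (G.base h ∈ A ∧ G.base (G.opp h) ∈ A)) = G.rot v
  rw [List.filter_eq_self]
  intro h hh
  rw [G.mem_rot] at hh
  have h1 : G.base h ∈ A := by rw [hh.2]; exact hv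
  exact decide_eq_true ⟨h1, closed h0 hh.1 h1⟩

theorem ind_ker {H' : Type} {G : RotGraph V H} {A : Finset V} (h0 : cut G A = 0) (φ : H → H') (a : H') :
    Ker (ind G A) A φ a ↔ Ker G A φ a := by
  constructor
  · rintro ⟨h, hh, hb, rfl⟩
    exact ⟨h, ((ind_darts h0 h).1 hh).1, hb, rfl⟩
  · rintro ⟨h, hh, hb, rfl⟩
    exact ⟨h, (ind_darts h0 h).2 ⟨hh, hb⟩, hb, rfl⟩

/-- (IV3) From induced subgraphs to pieces. -/
theorem iv3_97 : StIndPE := by
  intro V V' H H' r G A G' A' β hA hA' h0 h0' hPE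
  rw [ind_verts hA, ind_verts hA'] at hPE
  obtain ⟨f, φ, M, D⟩ := hPE
  refine ⟨f, φ, M, ?_⟩
  have hk : (fun a => Ker (ind G A) A φ a) = (fun a => Ker G A φ a) := by
    funext a
    exact propext (ind_ker h0 φ a)
  refine
    { f_mem := D.f_mem
      f_rel := D.f_rel
      f_inj := D.f_inj
      M_symm := D.M_symm
      M_fun := D.M_fun
      M_mem := fun a b hab => ((ind_darts h0' a).1 (D.M_mem a b hab)).1
      M_base := D.M_base
      M_ker := fun a b hab hK => D.M_ker a b hab ((ind_ker h0 φ a).2 hK)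
      φ_mem := fun h hh hb => ((ind_darts h0' _).1 (D.φ_mem h ((ind_darts h0 h).2 ⟨hh, hb⟩) hb)).1
      φ_base := fun h hh hb => D.φ_base h ((ind_darts h0 h).2 ⟨hh, hb⟩) hb
      φ_inj := fun h hh h' hh' hb hb' he =>
        D.φ_inj h ((ind_darts h0 h).2 ⟨hh, hb⟩) h' ((ind_darts h0 h').2 ⟨hh', hb'⟩) hb hb' he
      rot_eq := ?_
      nc := ?_
      run_in := fun h hh hb hb' => D.run_in h ((ind_darts h0 h).2 ⟨hh, hb⟩) hb hb'
      run_out := ?_
      β_bij := ?_ }
  · intro v hv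
    have h1 := D.rot_eq v hv
    rw [ind_rot h0' (D.f_mem v hv), ind_rot h0 hv] at h1
    have h2 : (G'.rot (f v)).filter (fun a => Ker (ind G A) A φ a) =
        (G'.rot (f v)).filter (fun a => Ker G A φ a) := by
      apply List.filter_congr
      intro a _
      simp only [ind_ker h0 φ a]
    rw [h2] at h1
    exact h1
  · intro x hx
    have h1 := D.nc x hx
    rw [ind_rot h0' hx] at h1
    have h2 : (G'.rot x).filter (fun a => Ker (ind G A) A φ a ∨ ∃ b, M a b) =
        (G'.rot x).filter (fun a => Ker G A φ a ∨ ∃ b, M a b) := by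
      apply List.filter_congr
      intro a _
      simp only [ind_ker h0 φ a]
    rw [h2] at h1
    exact h1
  · intro h hh
    rw [bd_empty h0] at hh
    exact absurd hh (Finset.notMem_empty _)
  · rw [bd_empty h0, bd_empty h0']
    simp

end RotWqo.Pb.I97
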