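import Pool.Agent.Lib.MP_cb4a0f_co.Pb.Stmts

/-!
# MP_cb4a0f_co, PB V1: adding parts one by one
-/

open Classical

namespace RotWqo.Pb

namespace V46

variable {α : Type*} {adj : α → α → Prop}

/-- `C` is a connected component of `S`. -/
structure IsC (adj : α → α → Prop) (S C : Finset α) : Prop where
  sub : C ⊆ S
  cn : Cn adj C
  cl : ∀ b ∈ C, ∀ c ∈ S, adj b c → c ∈ C

theorem cn_single (a : α) : Cn adj {a} := by
  refine ⟨Finset.singleton_nonempty a, ?_⟩
  intro T hT hne hT2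
  rcases Finset.subset_singleton_iff.1 hT with h | h
  · exact absurd h hne.ne_empty
  · exact absurd h hT2

theorem IsC.absorb {S C T : Finset α} (h : IsC adj S C) (hT : T ⊆ S) (hc : Cn adj T)
    {x : α} (hx : x ∈ T) (hx' : x ∈ C) : T ⊆ C := by
  by_contra hn
  have h1 : T ∩ C ≠ T := fun e => hn (by rw [← e]; exact Finset.inter_subset_right)
  obtain ⟨a, ha, b, hb, hb', hab⟩ := hc.2 (T ∩ C) Finset.inter_subset_left
    ⟨x, Finset.mem_inter.2 ⟨hx, hx'⟩⟩ h1
  exact hb' (Finset.mem_inter.2 ⟨hb, h.cl a (Finset.mem_inter.1 ha).2 b (hT hb) hab⟩)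

theorem cn_union (hs : ∀ a b, adj a b → adj b a) {A B : Finset α} (hA : Cn adj A)
    (hB : Cn adj B) {a b : α} (ha : a ∈ A) (hb : b ∈ B) (hab : a = b ∨ adj a b) :
    Cn adj (A ∪ B) := by
  refine ⟨⟨a, Finset.mem_union_left _ ha⟩, ?_⟩
  intro T hT hne hT2
  by_contra hn
  push Not at hn
  have key : ∀ D : Finset α, Cn adj D → D ⊆ A ∪ B → ∀ x ∈ T, x ∈ D → D ⊆ T := by
    intro D hD hDs x hxT hxD
    by_contra hn2
    have h1 : T ∩ D ≠ D := fun e => hn2 (by rw [← e]; exact Finset.inter_subset_left)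
    obtain ⟨p, hp, q, hq, hq', hpq⟩ := hD.2 (T ∩ D) Finset.inter_subset_right
      ⟨x, Finset.mem_inter.2 ⟨hxT, hxD⟩⟩ h1
    exact hn p (Finset.mem_inter.1 hp).1 q (hDs hq)
      (fun h => hq' (Finset.mem_inter.2 ⟨h, hq⟩)) hpq
  have kA := key A hA Finset.subset_union_left
  have kB := key B hB Finset.subset_union_right
  have both : A ⊆ T ∧ B ⊆ T := by
    obtain ⟨x, hx⟩ := hne
    rcases Finset.mem_union.1 (hT hx) with h | h
    · have hAT := kA x hx h
      have haT := hAT ha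
      have hbT : b ∈ T := by
        rcases hab with e | e
        · rwa [← e]
        · by_contra hbT
          exact hn a haT b (Finset.mem_union_right _ hb) hbT e
      exact ⟨hAT, kB b hbT hb⟩
    · have hBT := kB x hx h
      have hbT := hBT hb
      have haT : a ∈ T := by
        rcases hab with e | e
        · rwa [e]
        · by_contra haT
          exact hn b hbT a (Finset.mem_union_left _ ha) haT (hs a b e)
      exact ⟨kA a haT ha, hBT⟩
  exact hT2 (Finset.Subset.antisymm hT (Finset.union_subset both.1 both.2))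

theorem cn_of {W : Finset α} {x : α} (hx : x ∈ W)
    (h : ∀ w ∈ W, ∃ E ⊆ W, Cn adj E ∧ w ∈ E ∧ x ∈ E) : Cn adj W := by
  refine ⟨⟨x, hx⟩, ?_⟩
  intro T hT hne hT2
  by_contra hn
  push Not at hn
  have key : ∀ D : Finset α, Cn adj D → D ⊆ W → ∀ x ∈ T, x ∈ D → D ⊆ T := by
    intro D hD hDs x hxT hxD
    by_contra hn2
    have h1 : T ∩ D ≠ D := fun e => hn2 (by rw [← e]; exact Finset.inter_subset_left)
    obtain ⟨p, hp, q, hq, hq', hpq⟩ := hD.2 (T ∩ D) Finset.inter_subset_right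
      ⟨x, Finset.mem_inter.2 ⟨hxT, hxD⟩⟩ h1
    exact hn p (Finset.mem_inter.1 hp).1 q (hDs hq)
      (fun h => hq' (Finset.mem_inter.2 ⟨h, hq⟩)) hpq
  obtain ⟨w, hw⟩ := hne
  obtain ⟨E, hE, hEc, hwE, hxE⟩ := h w (hT hw)
  have hxT : x ∈ T := key E hEc hE w hw hwE hxE
  apply hT2
  refine Finset.Subset.antisymm hT ?_
  intro v hv
  obtain ⟨E, hE, hEc, hvE, hxE⟩ := h v hv
  exact key E hEc hE x hxT hxE hvE

/-- The component of `S` that contains the connected set `O`. -/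
noncomputable def comp (adj : α → α → Prop) (S O : Finset α) : Finset α :=
  S.filter (fun b => ∃ T ⊆ S, Cn adj T ∧ O ⊆ T ∧ b ∈ T)

theorem comp_isC (hs : ∀ a b, adj a b → adj b a) {S O : Finset α} (hO : Cn adj O)
    (hOS : O ⊆ S) : IsC adj S (comp adj S O) ∧ O ⊆ comp adj S O := by
  have h0 : O ⊆ comp adj S O := fun b hb =>
    Finset.mem_filter.2 ⟨hOS hb, O, hOS, hO, Finset.Subset.refl _, hb⟩
  obtain ⟨o, ho⟩ := hO.1
  refine ⟨⟨Finset.filter_subset _ _, ?_, ?_⟩, h0⟩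
  · refine cn_of (h0 ho) ?_
    intro w hw
    obtain ⟨hwS, T, hTS, hT, hOT, hwT⟩ := Finset.mem_filter.1 hw
    exact ⟨T, fun b hb => Finset.mem_filter.2 ⟨hTS hb, T, hTS, hT, hOT, hb⟩, hT, hwT, hOT ho⟩
  · intro b hb c hc hbc
    obtain ⟨hbS, T, hTS, hT, hOT, hbT⟩ := Finset.mem_filter.1 hb
    refine Finset.mem_filter.2 ⟨hc, T ∪ {c}, ?_, ?_, ?_, ?_⟩
    · exact Finset.union_subset hTS (Finset.singleton_subset_iff.2 hc)
    · exact cn_union hs hT (cn_single c) hbT (Finset.mem_singleton_self c) (Or.inr hbc)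
    · exact hOT.trans Finset.subset_union_left
    · exact Finset.mem_union_right _ (Finset.mem_singleton_self c)

/-- An edge leaves every proper nonempty part. -/
theorem Cn.edge {U D : Finset α} (hU : Cn adj U) (hD : D ⊆ U) (hne : D.Nonempty) {u : α}
    (hu : u ∈ U) (hu' : u ∉ D) : ∃ a ∈ D, ∃ b ∈ U, b ∉ D ∧ adj a b :=
  hU.2 D hD hne (fun e => hu' (by rw [e]; exact hu))

end V46

open V46

/-- (V1) -/
theorem V1_46 : StExt := by
  intro α adj hs U W P hW hP hdis hcov A hA hAne hAP hAb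
  -- abbreviations
  set A' := A.biUnion id with hA'
  have memA' : ∀ x, x ∈ A' ↔ ∃ Y ∈ A, x ∈ Y := by
    intro x; rw [hA', Finset.mem_biUnion]; rfl
  have hPU : ∀ X ∈ P, X ⊆ U := fun X hX => (hP X hX).1
  have hA'U : A' ⊆ U := hAb.1
  have hA'W : A' ⊆ W := by
    intro x hx
    obtain ⟨Y, hY, hxY⟩ := (memA' x).1 hx
    rw [← hcov, Finset.mem_biUnion]
    exact ⟨Y, hA hY, hxY⟩
  -- parts not in `A` are disjoint from `A'`
  have hd : ∀ X ∈ P, X ∉ A → ∀ x ∈ X, x ∉ A' := by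
    intro X hX hXA x hx hxA
    obtain ⟨Y, hY, hxY⟩ := (memA' x).1 hxA
    have hne : X ≠ Y := fun e => hXA (e ▸ hY)
    exact Finset.disjoint_left.1 (hdis X hX Y (hA hY) hne) hx hxY
  set O := U \ W with hO
  have hOc : Cn adj O := hW.2.2
  obtain ⟨o, ho⟩ := hOc.1
  have hoU : o ∈ U := (Finset.mem_sdiff.1 ho).1
  have hoW : o ∉ W := (Finset.mem_sdiff.1 ho).2
  have hXW : ∀ X ∈ P, X ⊆ W := by
    intro X hX x hx
    rw [← hcov, Finset.mem_biUnion]
    exact ⟨X, hX, hx⟩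
  have hOS : ∀ X ∈ P, O ⊆ U \ (A' ∪ X) := by
    intro X hX x hx
    obtain ⟨h1, h2⟩ := Finset.mem_sdiff.1 hx
    refine Finset.mem_sdiff.2 ⟨h1, fun h => h2 ?_⟩
    rcases Finset.mem_union.1 h with h | h
    · exact hA'W h
    · exact hXW X hX h
  -- candidates
  let K : Finset (Finset α) := P.filter (fun X => X ∉ A ∧ ∃ a ∈ A', ∃ x ∈ X, adj a x)
  have hKne : K.Nonempty := by
    obtain ⟨Y, hY, hYA⟩ : ∃ Y ∈ P, Y ∉ A := by
      by_contra hn
      push Not at hn
      exact hAP (Finset.Subset.antisymm hA hn)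
    obtain ⟨y, hy⟩ := (hP Y hY).2.1.1
    obtain ⟨a, ha, b, hb, hbA, hab⟩ := Cn.edge hW.2.1 hA'W hAb.2.1.1 (hXW Y hY hy)
      (hd Y hY hYA y hy)
    rw [← hcov, Finset.mem_biUnion] at hb
    obtain ⟨X, hX, hbX⟩ := hb
    refine ⟨X, Finset.mem_filter.2 ⟨hX, fun hXA => hbA ((memA' b).2 ⟨X, hXA, hbX⟩), a, ha, b,
      hbX, hab⟩⟩
  obtain ⟨X, hXK, hmax⟩ := Finset.exists_max_image K
    (fun X => (comp adj (U \ (A' ∪ X)) O).card) hKne
  obtain ⟨hX, hXA, a₀, ha₀, x₀, hx₀, hax⟩ := Finset.mem_filter.1 hXK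
  obtain ⟨hC, hOC⟩ := comp_isC hs hOc (hOS X hX)
  set C := comp adj (U \ (A' ∪ X)) O with hCdef
  have hCall : C = U \ (A' ∪ X) := by
    by_contra hne
    -- another component
    obtain ⟨d₀, hd₀, hd₀C⟩ : ∃ d ∈ U \ (A' ∪ X), d ∉ C := by
      by_contra hn
      push Not at hn
      exact hne (Finset.Subset.antisymm hC.sub hn)
    obtain ⟨hD, hdD⟩ := comp_isC hs (cn_single (adj := adj) d₀)
      (Finset.singleton_subset_iff.2 hd₀)
    set D := comp adj (U \ (A' ∪ X)) {d₀} with hDdef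
    have hd₀D : d₀ ∈ D := hdD (Finset.mem_singleton_self _)
    have hDC : ∀ x ∈ D, x ∉ C := fun x hx hxC => hd₀C (hC.absorb hD.sub hD.cn hx hxC hd₀D)
    have hoD : o ∉ D := fun h => hDC o h (hOC ho)
    have hDX : D ⊆ U \ X := by
      intro x hx
      obtain ⟨h1, h2⟩ := Finset.mem_sdiff.1 (hD.sub hx)
      exact Finset.mem_sdiff.2 ⟨h1, fun h => h2 (Finset.mem_union_right _ h)⟩
    obtain ⟨d, hdD', b, hb, hbD, hdb⟩ := Cn.edge (hP X hX).2.2 hDX ⟨d₀, hd₀D⟩
      (Finset.mem_sdiff.2 ⟨hoU, fun h => hoW (hXW X hX h)⟩) hoD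
    have hbA : b ∈ A' := by
      by_contra hbA
      obtain ⟨h1, h2⟩ := Finset.mem_sdiff.1 hb
      refine hbD (hD.cl d hdD' b (Finset.mem_sdiff.2 ⟨h1, fun h => ?_⟩) hdb)
      rcases Finset.mem_union.1 h with h | h
      · exact hbA h
      · exact h2 h
    obtain ⟨hdU, hdAX⟩ := Finset.mem_sdiff.1 (hD.sub hdD')
    have hdW : d ∈ W := by
      by_contra hdW
      exact hDC d hdD' (hOC (Finset.mem_sdiff.2 ⟨hdU, hdW⟩))
    rw [← hcov, Finset.mem_biUnion] at hdW
    obtain ⟨X', hX', hdX'⟩ := hdW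
    have hdX' : d ∈ X' := hdX'
    have hX'A : X' ∉ A := fun h =>
      hdAX (Finset.mem_union_left _ ((memA' d).2 ⟨X', h, hdX'⟩))
    have hX'X : X' ≠ X := fun e => hdAX (Finset.mem_union_right _ (e ▸ hdX'))
    have hX'sub : X' ⊆ U \ (A' ∪ X) := by
      intro x hx
      refine Finset.mem_sdiff.2 ⟨hPU X' hX' hx, fun h => ?_⟩
      rcases Finset.mem_union.1 h with h | h
      · exact hd X' hX' hX'A x hx h
      · exact Finset.disjoint_left.1 (hdis X' hX' X hX hX'X) hx h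
    have hX'D : X' ⊆ D := hD.absorb hX'sub (hP X' hX').2.1 hdX' hdD'
    have hX'K : X' ∈ K := Finset.mem_filter.2 ⟨hX', hX'A, b, hbA, d, hdX', hs _ _ hdb⟩
    -- `C ∪ X` is connected
    have hCA : C ⊆ U \ A' := by
      intro x hx
      obtain ⟨h1, h2⟩ := Finset.mem_sdiff.1 (hC.sub hx)
      exact Finset.mem_sdiff.2 ⟨h1, fun h => h2 (Finset.mem_union_left _ h)⟩
    have hx₀C : x₀ ∉ C := fun h =>
      (Finset.mem_sdiff.1 (hC.sub h)).2 (Finset.mem_union_right _ hx₀)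
    obtain ⟨c, hc, e, he, heC, hce⟩ := Cn.edge hAb.2.2 hCA hC.cn.1
      (Finset.mem_sdiff.2 ⟨hPU X hX hx₀, hd X hX hXA x₀ hx₀⟩) hx₀C
    have heX : e ∈ X := by
      by_contra heX
      obtain ⟨h1, h2⟩ := Finset.mem_sdiff.1 he
      refine heC (hC.cl c hc e (Finset.mem_sdiff.2 ⟨h1, fun h => ?_⟩) hce)
      rcases Finset.mem_union.1 h with h | h
      · exact h2 h
      · exact heX h
    have hCX : Cn adj (C ∪ X) := cn_union hs hC.cn (hP X hX).2.1 hc heX (Or.inr hce)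
    obtain ⟨hC', hOC'⟩ := comp_isC hs hOc (hOS X' hX')
    have hsub : C ∪ X ⊆ comp adj (U \ (A' ∪ X')) O := by
      refine hC'.absorb ?_ hCX (Finset.mem_union_left _ (hOC ho)) (hOC' ho)
      intro x hx
      rcases Finset.mem_union.1 hx with hx | hx
      · obtain ⟨h1, h2⟩ := Finset.mem_sdiff.1 (hCA hx)
        refine Finset.mem_sdiff.2 ⟨h1, fun h => ?_⟩
        rcases Finset.mem_union.1 h with h | h
        · exact h2 h
        · exact hDC x (hX'D h) hx
      · refine Finset.mem_sdiff.2 ⟨hPU X hX hx, fun h => ?_⟩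
        rcases Finset.mem_union.1 h with h | h
        · exact hd X hX hXA x hx h
        · exact Finset.disjoint_left.1 (hdis X' hX' X hX hX'X) h hx
    have h1 : (comp adj (U \ (A' ∪ X')) O).card ≤ C.card := hmax X' hX'K
    have h2 : C.card < (C ∪ X).card := by
      apply Finset.card_lt_card
      refine ⟨Finset.subset_union_left, fun h => hx₀C (h (Finset.mem_union_right _ hx₀))⟩
    have h3 := Finset.card_le_card hsub
    omega
  refine ⟨X, hX, hXA, ?_⟩
  have hins : (insert X A).biUnion id = A' ∪ X := by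
    rw [Finset.biUnion_insert, Finset.union_comm, hA']
    rfl
  rw [hins]
  refine ⟨Finset.union_subset hA'U (hPU X hX), ?_, ?_⟩
  · exact cn_union hs hAb.2.1 (hP X hX).2.1 ha₀ hx₀ (Or.inr hax)
  · rw [← hCall]
    exact hC.cn

end RotWqo.Pb
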