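import Pool.Agent.Lib.MP_cb4a0f_co.Pb.V1_46
import Pool.Agent.Lib.MP_cb4a0f_co.Linked

/-!
# MP_cb4a0f_co, PB V2: the tree of bonds
-/

open Classical

namespace RotWqo.Pb

namespace V46

variable {α : Type} {adj : α → α → Prop}

theorem set_node (l r : Tree α) : (Tree.node l r).set = l.set ∪ r.set := by
  simp only [Tree.set, Tree.leaves, List.toFinset_append]

theorem set_leaf (x : α) : (Tree.leaf x).set = {x} := by
  simp only [Tree.set, Tree.leaves, List.toFinset_cons, List.toFinset_nil, insert_empty_eq]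

/-- The boundary of `S` is covered by `s`. -/
def Cov1 (adj : α → α → Prop) (U : Finset α) (s : Tree α) (S : Finset α) : Prop :=
  ∀ a ∈ S, ∀ b ∈ U, b ∉ S → adj a b → (a ∈ s.set ↔ b ∉ s.set)

/-- The boundary of `S` is covered by four nodes. -/
def Cov (adj : α → α → Prop) (U : Finset α) (t : Tree α) (S : Finset α) : Prop :=
  ∃ s₁ s₂ s₃ s₄, IsSub s₁ t ∧ IsSub s₂ t ∧ IsSub s₃ t ∧ IsSub s₄ t ∧
    ∀ a ∈ S, ∀ b ∈ U, b ∉ S → adj a b →
      (a ∈ s₁.set ↔ b ∉ s₁.set) ∨ (a ∈ s₂.set ↔ b ∉ s₂.set) ∨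
      (a ∈ s₃.set ↔ b ∉ s₃.set) ∨ (a ∈ s₄.set ↔ b ∉ s₄.set)

theorem Cov1.cov {U : Finset α} {s t : Tree α} {S : Finset α} (h : Cov1 adj U s S)
    (hs : IsSub s t) : Cov adj U t S :=
  ⟨s, s, s, s, hs, hs, hs, hs, fun a ha b hb hb' hab => Or.inl (h a ha b hb hb' hab)⟩

/-- A good node. -/
def Gd (adj : α → α → Prop) (U : Finset α) (t : Tree α) (S : Finset α) : Prop :=
  (S = U ∨ (∃ x, S = {x}) ∨ Bond adj U S) ∧ Cov adj U t S

/-- A good tree on `S`. -/
def GT (adj : α → α → Prop) (U : Finset α) (t : Tree α) (S : Finset α) : Prop :=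
  ∃ T : Tree α, T.leaves.Nodup ∧ T.set = S ∧ ∀ s, IsSub s T → Gd adj U t s.set

theorem GT.node {U : Finset α} {t : Tree α} {S S' : Finset α} (h : GT adj U t S)
    (h' : GT adj U t S') (hd : ∀ x ∈ S, x ∉ S') (hg : Gd adj U t (S ∪ S')) :
    GT adj U t (S ∪ S') := by
  obtain ⟨T, h1, h2, h3⟩ := h
  obtain ⟨T', h1', h2', h3'⟩ := h'
  refine ⟨.node T T', ?_, ?_, ?_⟩
  · show (T.leaves ++ T'.leaves).Nodup
    rw [List.nodup_append]
    refine ⟨h1, h1', ?_⟩
    rintro a ha b hb rfl
    refine hd a ?_ ?_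
    · rw [← h2]; exact List.mem_toFinset.2 ha
    · rw [← h2']; exact List.mem_toFinset.2 hb
  · rw [set_node, h2, h2']
  · intro s hs
    cases hs with
    | refl => rw [set_node, h2, h2']; exact hg
    | left _ _ h => exact h3 s h
    | right _ _ h => exact h3' s h

theorem GT.leaf {U : Finset α} {t : Tree α} {x : α} (hg : Gd adj U t {x}) :
    GT adj U t {x} := by
  refine ⟨.leaf x, List.nodup_singleton x, set_leaf x, ?_⟩
  intro s hs
  cases hs with
  | refl => rw [set_leaf]; exact hg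

/-- Leaves are nodes. -/
theorem isSub_leaf : ∀ {t : Tree α} {x : α}, x ∈ t.set → IsSub (.leaf x) t
  | .leaf y, x, h => by
      rw [set_leaf, Finset.mem_singleton] at h
      rw [h]
      exact IsSub.refl
  | .node l r, x, h => by
      rw [set_node, Finset.mem_union] at h
      rcases h with h | h
      · exact IsSub.left _ _ (isSub_leaf h)
      · exact IsSub.right _ _ (isSub_leaf h)

theorem sub_nodup {s t : Tree α} (h : IsSub s t) (hnd : t.leaves.Nodup) : s.leaves.Nodup := by
  induction h with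
  | refl => exact hnd
  | left l r _ ih => exact ih (List.nodup_append.1 hnd).1
  | right l r _ ih => exact ih (List.nodup_append.1 hnd).2.1

/-- The complement of a component of the complement of a connected set is connected. -/
theorem compl_cn (hs : ∀ a b, adj a b → adj b a) {U X C : Finset α} (hU : Cn adj U)
    (hX : Cn adj X) (hXU : X ⊆ U) (hC : IsC adj (U \ X) C) : Cn adj (U \ C) := by
  obtain ⟨x₀, hx₀⟩ := hX.1
  have hXC : X ⊆ U \ C := fun x hx => Finset.mem_sdiff.2
    ⟨hXU hx, fun h => (Finset.mem_sdiff.1 (hC.sub h)).2 hx⟩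
  refine cn_of (hXC hx₀) ?_
  intro w hw
  obtain ⟨hwU, hwC⟩ := Finset.mem_sdiff.1 hw
  by_cases hwX : w ∈ X
  · exact ⟨X, hXC, hX, hwX, hx₀⟩
  have hwS : w ∈ U \ X := Finset.mem_sdiff.2 ⟨hwU, hwX⟩
  obtain ⟨hD, hwD⟩ := comp_isC hs (cn_single (adj := adj) w) (Finset.singleton_subset_iff.2 hwS)
  set D := comp adj (U \ X) {w}
  have hwD : w ∈ D := hwD (Finset.mem_singleton_self _)
  have hDC : ∀ x ∈ D, x ∉ C := fun x hx hxC => hwC (hC.absorb hD.sub hD.cn hx hxC hwD)
  have hDU : D ⊆ U := hD.sub.trans Finset.sdiff_subset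
  obtain ⟨a, ha, b, hb, hbD, hab⟩ := Cn.edge hU hDU ⟨w, hwD⟩ (hXU hx₀)
    (fun h => (Finset.mem_sdiff.1 (hD.sub h)).2 hx₀)
  have hbX : b ∈ X := by
    by_contra hbX
    exact hbD (hD.cl a ha b (Finset.mem_sdiff.2 ⟨hb, hbX⟩) hab)
  refine ⟨D ∪ X, ?_, cn_union hs hD.cn hX ha hbX (Or.inr hab), Finset.mem_union_left _ hwD,
    Finset.mem_union_right _ hx₀⟩
  exact Finset.union_subset (fun x hx => Finset.mem_sdiff.2 ⟨hDU hx, hDC x hx⟩) hXC

/-- The set `X` together with the components of its complement that do not contain `O`. -/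
noncomputable def fill (adj : α → α → Prop) (U O X : Finset α) : Finset α :=
  U \ comp adj (U \ X) O

section fills

variable (hs : ∀ a b, adj a b → adj b a) {U O : Finset α} (hU : Cn adj U) (hO : Cn adj O)
  (hOU : O ⊆ U)

include hs hO hOU

theorem fill_comp {X : Finset α} (hd : ∀ x ∈ X, x ∉ O) :
    IsC adj (U \ X) (comp adj (U \ X) O) ∧ O ⊆ comp adj (U \ X) O :=
  comp_isC hs hO (fun x hx => Finset.mem_sdiff.2 ⟨hOU hx, fun h => hd x h hx⟩)

theorem fill_O {X : Finset α} (hd : ∀ x ∈ X, x ∉ O) : ∀ x ∈ fill adj U O X, x ∉ O :=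
  fun _ hx hxO => (Finset.mem_sdiff.1 hx).2 ((fill_comp hs hO hOU hd).2 hxO)

theorem sub_fill {X : Finset α} (hXU : X ⊆ U) (hd : ∀ x ∈ X, x ∉ O) : X ⊆ fill adj U O X :=
  fun x hx => Finset.mem_sdiff.2
    ⟨hXU hx, fun h => (Finset.mem_sdiff.1 ((fill_comp hs hO hOU hd).1.sub h)).2 hx⟩

theorem fill_mono {X Y : Finset α} (hXY : X ⊆ Y) (hd : ∀ x ∈ Y, x ∉ O) :
    fill adj U O X ⊆ fill adj U O Y := by
  have h1 := fill_comp hs hO hOU (fun x hx => hd x (hXY hx))
  have h2 := fill_comp hs hO hOU hd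
  obtain ⟨o, ho⟩ := hO.1
  intro x hx
  obtain ⟨hxU, hxC⟩ := Finset.mem_sdiff.1 hx
  refine Finset.mem_sdiff.2 ⟨hxU, fun h => hxC ?_⟩
  refine h1.1.absorb ?_ h2.1.cn (h2.2 ho) (h1.2 ho) h
  exact h2.1.sub.trans (Finset.sdiff_subset_sdiff (Finset.Subset.refl _) hXY)

include hU

theorem fill_bond {X : Finset α} (hX : Cn adj X) (hXU : X ⊆ U) (hd : ∀ x ∈ X, x ∉ O) :
    Bond adj U (fill adj U O X) := by
  have h1 := fill_comp hs hO hOU hd
  refine ⟨Finset.sdiff_subset, compl_cn hs hU hX hXU h1.1, ?_⟩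
  have h2 : U \ fill adj U O X = comp adj (U \ X) O := by
    rw [fill, Finset.sdiff_sdiff_eq_self (h1.1.sub.trans Finset.sdiff_subset)]
  rw [h2]
  exact h1.1.cn

theorem fill_lam {X Y : Finset α} (hX : Cn adj X) (hXU : X ⊆ U) (hdX : ∀ x ∈ X, x ∉ O)
    (hY : Cn adj Y) (hYU : Y ⊆ U) (hdY : ∀ x ∈ Y, x ∉ O) (hXY : ∀ x ∈ X, x ∉ Y) :
    fill adj U O X ⊆ fill adj U O Y ∨ fill adj U O Y ⊆ fill adj U O X ∨
      ∀ x ∈ fill adj U O X, x ∉ fill adj U O Y := by
  have h1 := fill_comp hs hO hOU hdX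
  have h2 := fill_comp hs hO hOU hdY
  obtain ⟨o, ho⟩ := hO.1
  by_cases hA : Y ⊆ comp adj (U \ X) O
  · by_cases hB : X ⊆ comp adj (U \ Y) O
    · right; right
      have hb := fill_bond hs hU hO hOU hX hXU hdX
      obtain ⟨x₀, hx₀⟩ := hX.1
      have h3 : fill adj U O X ⊆ comp adj (U \ Y) O := by
        refine h2.1.absorb ?_ hb.2.1 (sub_fill hs hO hOU hXU hdX hx₀) (hB hx₀)
        intro z hz
        obtain ⟨hzU, hzC⟩ := Finset.mem_sdiff.1 hz
        exact Finset.mem_sdiff.2 ⟨hzU, fun h => hzC (hA h)⟩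
      intro x hx hx'
      exact (Finset.mem_sdiff.1 hx').2 (h3 hx)
    · left
      have h3 : comp adj (U \ Y) O ⊆ comp adj (U \ X) O := by
        refine h1.1.absorb ?_ h2.1.cn (h2.2 ho) (h1.2 ho)
        intro z hz
        refine Finset.mem_sdiff.2 ⟨(Finset.mem_sdiff.1 (h2.1.sub hz)).1, fun h => hB ?_⟩
        exact h2.1.absorb (fun w hw => Finset.mem_sdiff.2 ⟨hXU hw, hXY w hw⟩) hX h hz
      exact Finset.sdiff_subset_sdiff (Finset.Subset.refl _) h3
  · right; left
    have h3 : comp adj (U \ X) O ⊆ comp adj (U \ Y) O := by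
      refine h2.1.absorb ?_ h1.1.cn (h1.2 ho) (h2.2 ho)
      intro z hz
      refine Finset.mem_sdiff.2 ⟨(Finset.mem_sdiff.1 (h1.1.sub hz)).1, fun h => hA ?_⟩
      exact h1.1.absorb (fun w hw => Finset.mem_sdiff.2 ⟨hYU hw, fun h' => hXY w h' hw⟩) hY h hz
    exact Finset.sdiff_subset_sdiff (Finset.Subset.refl _) h3

end fills

theorem fill_self {U Y : Finset α} (hs : ∀ a b, adj a b → adj b a) (hY : Bond adj U Y) :
    fill adj U (U \ Y) Y = Y := by
  have h1 := comp_isC hs hY.2.2 (Finset.Subset.refl (U \ Y))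
  have h2 : comp adj (U \ Y) (U \ Y) = U \ Y := Finset.Subset.antisymm h1.1.sub h1.2
  rw [fill, h2, Finset.sdiff_sdiff_eq_self hY.1]

/-- Removal of one element. -/
theorem two (hs : ∀ a b, adj a b → adj b a) {U : Finset α} (hU : Cn adj U) {x : α}
    (hx : x ∈ U) (h2 : ∃ A B : Finset α, U.erase x = A ∪ B ∧ (A = ∅ ∨ Cn adj A) ∧
      (B = ∅ ∨ Cn adj B)) {C : Finset α} (hC : IsC adj (U.erase x) C) :
    (U.erase x \ C = ∅ ∨ Cn adj (U.erase x \ C)) ∧
    (∀ a ∈ U.erase x \ C, ∀ b ∈ U, b ∉ U.erase x \ C → adj a b → b = x) ∧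
    (∀ a ∈ C, ∀ b ∈ U, b ∉ C → adj a b → b = x) ∧ Cn adj ({x} ∪ C) ∧
    (Cn adj (U.erase x \ C) → Cn adj ({x} ∪ (U.erase x \ C))) := by
  have hxC : x ∉ C := fun h => Finset.notMem_erase x U (hC.sub h)
  have hb : ∀ a ∈ U.erase x \ C, ∀ b ∈ U, b ∉ U.erase x \ C → adj a b → b = x := by
    intro a ha b hb hb' hab
    by_contra hbx
    have h1 : b ∈ U.erase x := Finset.mem_erase.2 ⟨hbx, hb⟩
    have h3 : b ∈ C := by
      by_contra h3
      exact hb' (Finset.mem_sdiff.2 ⟨h1, h3⟩)
    exact (Finset.mem_sdiff.1 ha).2 (hC.cl b h3 a (Finset.mem_sdiff.1 ha).1 (hs _ _ hab))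
  have hc : ∀ a ∈ C, ∀ b ∈ U, b ∉ C → adj a b → b = x := by
    intro a ha b hb hb' hab
    by_contra hbx
    exact hb' (hC.cl a ha b (Finset.mem_erase.2 ⟨hbx, hb⟩) hab)
  refine ⟨?_, hb, hc, ?_, ?_⟩
  · obtain ⟨A, B, hAB, hA, hB⟩ := h2
    have key : ∀ A B : Finset α, U.erase x = A ∪ B → (A = ∅ ∨ Cn adj A) →
        (B = ∅ ∨ Cn adj B) → (∃ c ∈ C, c ∈ A) →
        (U.erase x \ C = ∅ ∨ Cn adj (U.erase x \ C)) := by
      intro A B hAB hA hB ⟨c, hcC, hcA⟩
      have hA' : Cn adj A := by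
        rcases hA with h | h
        · rw [h] at hcA; exact absurd hcA (Finset.notMem_empty c)
        · exact h
      have hAC : A ⊆ C := hC.absorb (by rw [hAB]; exact Finset.subset_union_left) hA' hcA hcC
      by_cases hY : U.erase x \ C = ∅
      · exact Or.inl hY
      right
      obtain ⟨y, hy⟩ := Finset.nonempty_iff_ne_empty.2 hY
      obtain ⟨hy1, hy2⟩ := Finset.mem_sdiff.1 hy
      have hyB : y ∈ B := by
        rw [hAB] at hy1
        rcases Finset.mem_union.1 hy1 with h | h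
        · exact absurd (hAC h) hy2
        · exact h
      have hB' : Cn adj B := by
        rcases hB with h | h
        · rw [h] at hyB; exact absurd hyB (Finset.notMem_empty y)
        · exact h
      have hBs : B ⊆ U.erase x := by rw [hAB]; exact Finset.subset_union_right
      have hBC : ∀ b ∈ B, b ∉ C := fun b hb hbC => hy2 (hC.absorb hBs hB' hb hbC hyB)
      have e : U.erase x \ C = B := by
        apply Finset.Subset.antisymm
        · intro z hz
          obtain ⟨hz1, hz2⟩ := Finset.mem_sdiff.1 hz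
          rw [hAB] at hz1
          rcases Finset.mem_union.1 hz1 with h | h
          · exact absurd (hAC h) hz2
          · exact h
        · intro z hz
          exact Finset.mem_sdiff.2 ⟨hBs hz, hBC z hz⟩
      rw [e]
      exact hB'
    obtain ⟨c, hcC⟩ := hC.cn.1
    have hcU := hC.sub hcC
    rw [hAB] at hcU
    rcases Finset.mem_union.1 hcU with h | h
    · exact key A B hAB hA hB ⟨c, hcC, h⟩
    · exact key B A (by rw [hAB, Finset.union_comm]) hB hA ⟨c, hcC, h⟩
  · have hCU : C ⊆ U := hC.sub.trans (Finset.erase_subset x U)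
    obtain ⟨a, ha, b, hb', hbC, hab⟩ := Cn.edge hU hCU hC.cn.1 hx hxC
    have e := hc a ha b hb' hbC hab
    subst e
    exact cn_union hs (cn_single b) hC.cn (Finset.mem_singleton_self b) ha (Or.inr (hs _ _ hab))
  · intro hY
    have hYU : U.erase x \ C ⊆ U := Finset.sdiff_subset.trans (Finset.erase_subset x U)
    have hxY : x ∉ U.erase x \ C := fun h =>
      Finset.notMem_erase x U (Finset.mem_sdiff.1 h).1
    obtain ⟨a, ha, b, hb', hbC, hab⟩ := Cn.edge hU hYU hY.1 hx hxY
    have e := hb a ha b hb' hbC hab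
    subst e
    exact cn_union hs (cn_single b) hY (Finset.mem_singleton_self b) ha (Or.inr (hs _ _ hab))

theorem isC_self {Y : Finset α} (hY : Cn adj Y) : IsC adj Y Y :=
  ⟨Finset.Subset.refl _, hY, fun _ _ _ hc _ => hc⟩

/-- The hypothesis of the induction: bonds with boundary covered by one node have good trees. -/
def Ind (adj : α → α → Prop) (U : Finset α) (t : Tree α) (Z : Finset α) : Prop :=
  ∀ H0, IsSub H0 t → Cov1 adj U H0 Z → ∀ H, IsSub H t → ∀ X, IsC adj (Z ∩ H.set) X →
    GT adj U t (fill adj U (U \ Z) X)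

theorem Ind.whole (hs : ∀ a b, adj a b → adj b a) {U : Finset α} {t : Tree α} {Z : Finset α}
    (h : Ind adj U t Z) (htU : t.set = U) (hZ : Bond adj U Z) {H0 : Tree α} (h0 : IsSub H0 t)
    (hc : Cov1 adj U H0 Z) : GT adj U t Z := by
  have h1 := h H0 h0 hc t IsSub.refl Z (by
    rw [htU, Finset.inter_eq_left.2 hZ.1]
    exact isC_self hZ.2.1)
  rwa [fill_self hs hZ] at h1

/-- Leaves. -/
theorem leaf_case (hs : ∀ a b, adj a b → adj b a) {U : Finset α} {t : Tree α}
    (htU : t.set = U) (hU : Cn adj U) {Z : Finset α} (hZ : Bond adj U Z) {x : α}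
    (hx : x ∈ Z) (h2 : ∃ A B : Finset α, U.erase x = A ∪ B ∧ (A = ∅ ∨ Cn adj A) ∧
      (B = ∅ ∨ Cn adj B))
    (ih : ∀ Y, Y.card < Z.card → Bond adj U Y → Ind adj U t Y) :
    GT adj U t (fill adj U (U \ Z) {x}) := by
  have hxU : x ∈ U := hZ.1 hx
  have hsub : IsSub (.leaf x) t := isSub_leaf (by rw [htU]; exact hxU)
  have hd : ∀ y ∈ ({x} : Finset α), y ∉ U \ Z := by
    intro y hy h
    rw [Finset.mem_singleton] at hy
    subst hy
    exact (Finset.mem_sdiff.1 h).2 hx
  have hC := fill_comp hs hZ.2.2 (Finset.sdiff_subset (s := U) (t := Z)) hd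
  rw [fill]
  set C := comp adj (U \ {x}) (U \ Z) with hCdef
  have eE : U \ {x} = U.erase x := Finset.sdiff_singleton_eq_erase x U
  have hC1 : IsC adj (U.erase x) C := by rw [← eE]; exact hC.1
  obtain ⟨hY, hYb, hCb, hxC, hxY⟩ := two hs hU hxU h2 hC1
  set Y := U.erase x \ C with hYdef
  have hxnC : x ∉ C := fun h => Finset.notMem_erase x U (hC1.sub h)
  have e1 : U \ C = {x} ∪ Y := by
    ext z
    rw [Finset.mem_sdiff, Finset.mem_union, Finset.mem_singleton, hYdef, Finset.mem_sdiff,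
      Finset.mem_erase]
    constructor
    · rintro ⟨h1, h3⟩
      by_cases hz : z = x
      · exact Or.inl hz
      · exact Or.inr ⟨⟨hz, h1⟩, h3⟩
    · rintro (h | ⟨⟨_, h⟩, h3⟩)
      · subst h
        exact ⟨hxU, hxnC⟩
      · exact ⟨h, h3⟩
  have gx : Gd adj U t {x} := by
    refine ⟨Or.inr (Or.inl ⟨x, rfl⟩), Cov1.cov (s := .leaf x) ?_ hsub⟩
    intro a ha b _ hb' _
    rw [set_leaf]
    exact ⟨fun _ => hb', fun _ => ha⟩
  rcases hY with hY | hY
  · rw [e1, hY, Finset.union_empty]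
    exact GT.leaf gx
  · have hYU : Y ⊆ U := Finset.sdiff_subset.trans (Finset.erase_subset x U)
    have hxnY : x ∉ Y := fun h => Finset.notMem_erase x U (Finset.mem_sdiff.1 h).1
    have e2 : U \ Y = {x} ∪ C := by
      ext z
      rw [Finset.mem_sdiff, Finset.mem_union, Finset.mem_singleton]
      constructor
      · rintro ⟨h1, h3⟩
        by_cases hz : z = x
        · exact Or.inl hz
        · right
          by_contra hzC
          exact h3 (Finset.mem_sdiff.2 ⟨Finset.mem_erase.2 ⟨hz, h1⟩, hzC⟩)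
      · rintro (h | h)
        · subst h
          exact ⟨hxU, hxnY⟩
        · exact ⟨Finset.mem_of_mem_erase (hC1.sub h), fun h3 => (Finset.mem_sdiff.1 h3).2 h⟩
    have hYB : Bond adj U Y := ⟨hYU, hY, by rw [e2]; exact hxC⟩
    have hYZ : Y ⊆ Z := by
      intro z hz
      by_contra hzZ
      exact (Finset.mem_sdiff.1 hz).2 (hC.2 (Finset.mem_sdiff.2 ⟨hYU hz, hzZ⟩))
    have hlt : Y.card < Z.card := Finset.card_lt_card ⟨hYZ, fun h => hxnY (h hx)⟩
    have hcov : Cov1 adj U (.leaf x) Y := by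
      intro a ha b hb hb' hab
      rw [set_leaf, Finset.mem_singleton, Finset.mem_singleton]
      have e := hYb a ha b hb hb' hab
      have ha' : a ≠ x := fun e => hxnY (e ▸ ha)
      exact ⟨fun h => absurd h ha', fun h => absurd e h⟩
    have gY : GT adj U t Y := (ih Y hlt hYB).whole hs htU hYB hsub hcov
    rw [e1]
    refine GT.node (GT.leaf gx) gY ?_ ?_
    · intro z hz
      rw [Finset.mem_singleton] at hz
      rw [hz]
      exact hxnY
    · refine ⟨Or.inr (Or.inr ⟨?_, hxY hY, ?_⟩), Cov1.cov (s := .leaf x) ?_ hsub⟩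
      · exact Finset.union_subset (Finset.singleton_subset_iff.2 hxU) hYU
      · rw [← e1, Finset.sdiff_sdiff_eq_self (hC1.sub.trans (Finset.erase_subset x U))]
        exact hC1.cn
      · intro a ha b hb hb' hab
        rw [set_leaf, Finset.mem_singleton, Finset.mem_singleton]
        have hbx : b ≠ x := fun e => hb' (Finset.mem_union_left _ (Finset.mem_singleton.2 e))
        have hax : a = x := by
          rcases Finset.mem_union.1 ha with h | h
          · exact Finset.mem_singleton.1 h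
          · exact absurd (hYb a h b hb (fun h3 => hb' (Finset.mem_union_right _ h3)) hab) hbx
        exact ⟨fun _ => hbx, fun _ => hax⟩

/-- The family of the parts. -/
noncomputable def Fam (adj : α → α → Prop) (U O X : Finset α) (l r : Tree α) :
    Finset (Finset α) :=
  U.powerset.filter (fun S => (∃ s, (s = l ∨ s = r) ∧ ∃ X', IsC adj (X ∩ s.set) X' ∧
    S = fill adj U O X') ∨ (IsC adj (U \ X) S ∧ ∀ o ∈ O, o ∉ S))

/-- The maximal parts. -/
noncomputable def Par (adj : α → α → Prop) (U O X : Finset α) (l r : Tree α) :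
    Finset (Finset α) :=
  (Fam adj U O X l r).filter (fun S => ∀ S' ∈ Fam adj U O X l r, S ⊆ S' → S = S')

theorem exists_par {U O X : Finset α} {l r : Tree α} {S : Finset α}
    (hS : S ∈ Fam adj U O X l r) : ∃ p ∈ Par adj U O X l r, S ⊆ p := by
  obtain ⟨p, hp, hmax⟩ := Finset.exists_max_image
    ((Fam adj U O X l r).filter (fun S' => S ⊆ S')) Finset.card
    ⟨S, Finset.mem_filter.2 ⟨hS, Finset.Subset.refl _⟩⟩
  obtain ⟨hp1, hp2⟩ := Finset.mem_filter.1 hp
  refine ⟨p, Finset.mem_filter.2 ⟨hp1, ?_⟩, hp2⟩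
  intro S' hS' hpS'
  exact Finset.eq_of_subset_of_card_le hpS'
    (hmax S' (Finset.mem_filter.2 ⟨hS', hp2.trans hpS'⟩))

/-- Nodes. -/
theorem node_case (hs : ∀ a b, adj a b → adj b a) {U : Finset α} {t : Tree α}
    (htU : t.set = U) (hnd : t.leaves.Nodup) (hU : Cn adj U) {Z : Finset α}
    (hZ : Bond adj U Z) {H0 : Tree α} (h0 : IsSub H0 t) (hc0 : Cov1 adj U H0 Z) {l r : Tree α}
    (hH : IsSub (.node l r) t) {X : Finset α} (hX : IsC adj (Z ∩ (Tree.node l r).set) X)
    (ihl : ∀ X', IsC adj (Z ∩ l.set) X' → GT adj U t (fill adj U (U \ Z) X'))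
    (ihr : ∀ X', IsC adj (Z ∩ r.set) X' → GT adj U t (fill adj U (U \ Z) X'))
    (ih : ∀ Y, Y.card < Z.card → Bond adj U Y → Ind adj U t Y) :
    GT adj U t (fill adj U (U \ Z) X) := by
  set O := U \ Z with hOdef
  have hO : Cn adj O := hZ.2.2
  have hOU : O ⊆ U := Finset.sdiff_subset
  have hXZ : X ⊆ Z := hX.sub.trans Finset.inter_subset_left
  have hXH : X ⊆ (Tree.node l r).set := hX.sub.trans Finset.inter_subset_right
  have hXU : X ⊆ U := hXZ.trans hZ.1
  have hdZ : ∀ x ∈ Z, x ∉ O := fun x hx h => (Finset.mem_sdiff.1 h).2 hx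
  have hdX : ∀ x ∈ X, x ∉ O := fun x hx => hdZ x (hXZ hx)
  have hZO : ∀ x ∈ U, x ∉ O → x ∈ Z := by
    intro x hx h
    by_contra hn
    exact h (Finset.mem_sdiff.2 ⟨hx, hn⟩)
  obtain ⟨hC, hOC⟩ := fill_comp hs hO hOU hdX
  set C := comp adj (U \ X) O with hCdef
  obtain ⟨x₀, hx₀⟩ := hX.cn.1
  obtain ⟨o, ho⟩ := hO.1
  -- members of the family
  have fam : ∀ S ∈ Fam adj U O X l r, S ⊆ U ∧ Bond adj U S ∧ GT adj U t S ∧
      S ⊆ fill adj U O X := by
    intro S hS
    obtain ⟨hSU, hS⟩ := Finset.mem_filter.1 hS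
    rw [Finset.mem_powerset] at hSU
    rcases hS with ⟨s, hs', X', hX', rfl⟩ | ⟨hS1, hS2⟩
    · have hX'X : X' ⊆ X := hX'.sub.trans Finset.inter_subset_left
      have hX's : X' ⊆ s.set := hX'.sub.trans Finset.inter_subset_right
      have hsH : s.set ⊆ (Tree.node l r).set := by
        rw [set_node]
        rcases hs' with rfl | rfl
        · exact Finset.subset_union_left
        · exact Finset.subset_union_right
      have hX'Z : IsC adj (Z ∩ s.set) X' := by
        refine ⟨Finset.subset_inter (hX'X.trans hXZ) hX's, hX'.cn, ?_⟩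
        intro b hb c hc hbc
        obtain ⟨hcZ, hcs⟩ := Finset.mem_inter.1 hc
        have hcX : c ∈ X := hX.cl b (hX'X hb) c (Finset.mem_inter.2 ⟨hcZ, hsH hcs⟩) hbc
        exact hX'.cl b hb c (Finset.mem_inter.2 ⟨hcX, hcs⟩) hbc
      have hdX' : ∀ x ∈ X', x ∉ O := fun x hx => hdX x (hX'X hx)
      refine ⟨hSU, fill_bond hs hU hO hOU hX'.cn (hX'X.trans hXU) hdX', ?_,
        fill_mono hs hO hOU hX'X hdX⟩
      rcases hs' with rfl | rfl
      · exact ihl X' hX'Z
      · exact ihr X' hX'Z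
    · have hB : Bond adj U S := ⟨hSU, hS1.cn, compl_cn hs hU hX.cn hXU hS1⟩
      have hSX : ∀ x ∈ S, x ∉ X := fun x hx => (Finset.mem_sdiff.1 (hS1.sub hx)).2
      have hSZ : S ⊆ Z := fun x hx => hZO x (hSU hx) (fun h => hS2 x h hx)
      have hlt : S.card < Z.card :=
        Finset.card_lt_card ⟨hSZ, fun h => hSX x₀ (h (hXZ hx₀)) hx₀⟩
      have hcov : Cov1 adj U (.node l r) S := by
        intro a ha b hb hb' hab
        have hbX : b ∈ X := by
          by_contra hbX
          exact hb' (hS1.cl a ha b (Finset.mem_sdiff.2 ⟨hb, hbX⟩) hab)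
        have haH : a ∉ (Tree.node l r).set := fun h =>
          hSX a ha (hX.cl b hbX a (Finset.mem_inter.2 ⟨hSZ ha, h⟩) (hs _ _ hab))
        exact ⟨fun h => absurd h haH, fun h => absurd (hXH hbX) h⟩
      refine ⟨hSU, hB, (ih S hlt hB).whole hs htU hB hH hcov, ?_⟩
      intro x hx
      refine Finset.mem_sdiff.2 ⟨hSU hx, fun h => ?_⟩
      exact hS2 o ho (hS1.absorb hC.sub hC.cn h hx (hOC ho))
  -- the family is laminar
  have lam : ∀ S ∈ Fam adj U O X l r, ∀ S' ∈ Fam adj U O X l r, S ⊆ S' ∨ S' ⊆ S ∨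
      ∀ x ∈ S, x ∉ S' := by
    intro S hS S' hS'
    have hf := fam S hS
    have hf' := fam S' hS'
    obtain ⟨hSU, hS⟩ := Finset.mem_filter.1 hS
    obtain ⟨hSU', hS'⟩ := Finset.mem_filter.1 hS'
    -- a filled component and a hole
    have mixed : ∀ (s : Tree α) (X' : Finset α), IsC adj (X ∩ s.set) X' → ∀ Y,
        IsC adj (U \ X) Y → Y ⊆ fill adj U O X' ∨ ∀ y ∈ Y, y ∉ fill adj U O X' := by
      intro s X' hX' Y hY
      have hX'X : X' ⊆ X := hX'.sub.trans Finset.inter_subset_left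
      have hdX' : ∀ x ∈ X', x ∉ O := fun x hx => hdX x (hX'X hx)
      obtain ⟨h1, h2⟩ := fill_comp hs hO hOU hdX'
      by_cases hm : ∃ y ∈ Y, y ∈ comp adj (U \ X') O
      · obtain ⟨y, hy, hyC⟩ := hm
        right
        have h3 : Y ⊆ comp adj (U \ X') O := h1.absorb
          (hY.sub.trans (Finset.sdiff_subset_sdiff (Finset.Subset.refl _) hX'X)) hY.cn hy hyC
        intro z hz hz'
        exact (Finset.mem_sdiff.1 hz').2 (h3 hz)
      · left
        push Not at hm
        intro z hz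
        exact Finset.mem_sdiff.2 ⟨(Finset.mem_sdiff.1 (hY.sub hz)).1, hm z hz⟩
    rcases hS with ⟨s, hs1, X₁, hX₁, rfl⟩ | ⟨hS1, hS2⟩
    · rcases hS' with ⟨s', hs1', X₂, hX₂, rfl⟩ | ⟨hS1', hS2'⟩
      · have a1 : X₁ ⊆ X := hX₁.sub.trans Finset.inter_subset_left
        have a2 : X₂ ⊆ X := hX₂.sub.trans Finset.inter_subset_left
        by_cases hdis : ∀ x ∈ X₁, x ∉ X₂
        · exact fill_lam hs hU hO hOU hX₁.cn (a1.trans hXU) (fun x hx => hdX x (a1 hx))
            hX₂.cn (a2.trans hXU) (fun x hx => hdX x (a2 hx)) hdis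
        · -- they meet: then they are equal
          push Not at hdis
          obtain ⟨z, hz1, hz2⟩ := hdis
          have hss : s = s' := by
            by_contra hne
            have hd : ∀ w ∈ l.set, w ∉ r.set := by
              have hsubnd : (Tree.node l r).leaves.Nodup := sub_nodup hH hnd
              intro w hw hw'
              have := (List.nodup_append.1 hsubnd).2.2 w (List.mem_toFinset.1 hw) w
                (List.mem_toFinset.1 hw')
              exact this rfl
            have m1 := (Finset.mem_inter.1 (hX₁.sub hz1)).2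
            have m2 := (Finset.mem_inter.1 (hX₂.sub hz2)).2
            rcases hs1 with rfl | rfl
            · rcases hs1' with rfl | rfl
              · exact hne rfl
              · exact hd z m1 m2
            · rcases hs1' with rfl | rfl
              · exact hd z m2 m1
              · exact hne rfl
          subst hss
          have e : X₁ = X₂ := Finset.Subset.antisymm (hX₂.absorb hX₁.sub hX₁.cn hz1 hz2)
            (hX₁.absorb hX₂.sub hX₂.cn hz2 hz1)
          rw [e]
          exact Or.inl (Finset.Subset.refl _)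
      · rcases mixed s X₁ hX₁ S' hS1' with h | h
        · exact Or.inr (Or.inl h)
        · exact Or.inr (Or.inr (fun x hx hx' => h x hx' hx))
    · rcases hS' with ⟨s', hs1', X₂, hX₂, rfl⟩ | ⟨hS1', hS2'⟩
      · rcases mixed s' X₂ hX₂ S hS1 with h | h
        · exact Or.inl h
        · exact Or.inr (Or.inr h)
      · by_cases hdis : ∀ x ∈ S, x ∉ S'
        · exact Or.inr (Or.inr hdis)
        · push Not at hdis
          obtain ⟨z, hz1, hz2⟩ := hdis
          exact Or.inl (hS1'.absorb hS1.sub hS1.cn hz1 hz2)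
  set P := Par adj U O X l r with hP
  have hPF : ∀ p ∈ P, p ∈ Fam adj U O X l r := fun p hp => (Finset.mem_filter.1 hp).1
  have hPd : ∀ p ∈ P, ∀ q ∈ P, ∀ x, x ∈ p → x ∈ q → p = q := by
    intro p hp q hq x hxp hxq
    rcases lam p (hPF p hp) q (hPF q hq) with h | h | h
    · exact (Finset.mem_filter.1 hp).2 q (hPF q hq) h
    · exact ((Finset.mem_filter.1 hq).2 p (hPF p hp) h).symm
    · exact absurd hxq (h x hxp)
  -- two elements of a member of the family are in the same part
  have same : ∀ S ∈ Fam adj U O X l r, ∀ a ∈ S, ∀ b ∈ S, ∀ p ∈ P, a ∈ p → b ∈ p := by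
    intro S hS a ha b hb p hp hap
    obtain ⟨q, hq, hSq⟩ := exists_par hS
    rw [hPd p hp q hq a hap (hSq ha)]
    exact hSq hb
  have memX : ∀ s, (s = l ∨ s = r) → ∀ a ∈ X, a ∈ s.set → ∃ X', IsC adj (X ∩ s.set) X' ∧
      a ∈ X' ∧ fill adj U O X' ∈ Fam adj U O X l r ∧ X' ⊆ fill adj U O X' := by
    intro s hs' a ha has
    obtain ⟨h1, h2⟩ := comp_isC hs (cn_single (adj := adj) a)
      (Finset.singleton_subset_iff.2 (Finset.mem_inter.2 ⟨ha, has⟩))
    have h3 : comp adj (X ∩ s.set) {a} ⊆ X := h1.sub.trans Finset.inter_subset_left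
    refine ⟨_, h1, h2 (Finset.mem_singleton_self a), Finset.mem_filter.2 ⟨?_, Or.inl
      ⟨s, hs', _, h1, rfl⟩⟩, sub_fill hs hO hOU (h3.trans hXU) (fun x hx => hdX x (h3 hx))⟩
    rw [Finset.mem_powerset]
    exact Finset.sdiff_subset
  have memY : ∀ a ∈ U, a ∉ X → a ∉ C → ∃ Y, IsC adj (U \ X) Y ∧ a ∈ Y ∧
      Y ∈ Fam adj U O X l r := by
    intro a haU haX haC
    obtain ⟨h1, h2⟩ := comp_isC hs (cn_single (adj := adj) a)
      (Finset.singleton_subset_iff.2 (Finset.mem_sdiff.2 ⟨haU, haX⟩))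
    have haY := h2 (Finset.mem_singleton_self a)
    refine ⟨_, h1, haY, Finset.mem_filter.2 ⟨?_, Or.inr ⟨h1, ?_⟩⟩⟩
    · rw [Finset.mem_powerset]
      exact h1.sub.trans Finset.sdiff_subset
    · intro o' ho' h
      exact haC (hC.absorb h1.sub h1.cn h (hOC ho') haY)
  have hWP : P.biUnion id = fill adj U O X := by
    apply Finset.Subset.antisymm
    · intro x hx
      obtain ⟨p, hp, hxp⟩ := Finset.mem_biUnion.1 hx
      exact (fam p (hPF p hp)).2.2.2 hxp
    · intro x hx
      obtain ⟨hxU, hxC⟩ := Finset.mem_sdiff.1 hx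
      rw [Finset.mem_biUnion]
      by_cases hxX : x ∈ X
      · have hxH := hXH hxX
        rw [set_node, Finset.mem_union] at hxH
        obtain ⟨s, hs', hxs⟩ : ∃ s, (s = l ∨ s = r) ∧ x ∈ s.set := by
          rcases hxH with h | h
          · exact ⟨l, Or.inl rfl, h⟩
          · exact ⟨r, Or.inr rfl, h⟩
        obtain ⟨X', _, hxX', hF, hsf⟩ := memX s hs' x hxX hxs
        obtain ⟨p, hp, hsp⟩ := exists_par hF
        exact ⟨p, hp, hsp (hsf hxX')⟩
      · obtain ⟨Y, _, hxY, hF⟩ := memY x hxU hxX hxC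
        obtain ⟨p, hp, hsp⟩ := exists_par hF
        exact ⟨p, hp, hsp hxY⟩
  -- the boundary of a union of parts is covered
  have cov : ∀ A ⊆ P, Cov adj U t (A.biUnion id) := by
    intro A hA
    refine ⟨H0, .node l r, l, r, h0, hH, TL.sub_trans (IsSub.left _ _ IsSub.refl) hH,
      TL.sub_trans (IsSub.right _ _ IsSub.refl) hH, ?_⟩
    intro a ha b hb hb' hab
    obtain ⟨p, hp, hap⟩ := Finset.mem_biUnion.1 ha
    have hap : a ∈ p := hap
    have hbp : b ∉ p := fun h => hb' (Finset.mem_biUnion.2 ⟨p, hp, h⟩)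
    have haf : a ∈ fill adj U O X := (fam p (hPF p (hA hp))).2.2.2 hap
    obtain ⟨haU, haC⟩ := Finset.mem_sdiff.1 haf
    have haO : a ∉ O := fun h => haC (hOC h)
    have haZ : a ∈ Z := hZO a haU haO
    by_cases haX : a ∈ X
    · by_cases hbX : b ∈ X
      · have both : ∀ s, (s = l ∨ s = r) → a ∈ s.set → b ∈ s.set → False := by
          intro s hs' has hbs
          obtain ⟨X', hX', haX', hF, hsf⟩ := memX s hs' a haX has
          have hbX' : b ∈ X' := hX'.cl a haX' b (Finset.mem_inter.2 ⟨hbX, hbs⟩) hab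
          exact hbp (same _ hF a (hsf haX') b (hsf hbX') p (hA hp) hap)
        have haH := hXH haX
        have hbH := hXH hbX
        rw [set_node, Finset.mem_union] at haH hbH
        by_cases hal : a ∈ l.set
        · have hbl : b ∉ l.set := fun h => both l (Or.inl rfl) hal h
          exact Or.inr (Or.inr (Or.inl ⟨fun _ => hbl, fun _ => hal⟩))
        · by_cases hbl : b ∈ l.set
          · exact Or.inr (Or.inr (Or.inl ⟨fun h => absurd h hal, fun h => absurd hbl h⟩))
          · exact absurd (both r (Or.inr rfl) (haH.resolve_left hal) (hbH.resolve_left hbl))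
              (fun h => h)
      · by_cases hbZ : b ∈ Z
        · have hbH : b ∉ (Tree.node l r).set := fun h =>
            hbX (hX.cl a haX b (Finset.mem_inter.2 ⟨hbZ, h⟩) hab)
          exact Or.inr (Or.inl ⟨fun _ => hbH, fun _ => hXH haX⟩)
        · exact Or.inl (hc0 a haZ b hb hbZ hab)
    · by_cases hbX : b ∈ X
      · have haH : a ∉ (Tree.node l r).set := fun h =>
          haX (hX.cl b hbX a (Finset.mem_inter.2 ⟨haZ, h⟩) (hs _ _ hab))
        exact Or.inr (Or.inl ⟨fun h => absurd h haH, fun h => absurd (hXH hbX) h⟩)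
      · obtain ⟨Y, hY, haY, hF⟩ := memY a haU haX haC
        have hbY : b ∈ Y := hY.cl a haY b (Finset.mem_sdiff.2 ⟨hb, hbX⟩) hab
        exact absurd (same Y hF a haY b hbY p (hA hp) hap) hbp
  -- adding the parts one by one
  have hWB : Bond adj U (fill adj U O X) := fill_bond hs hU hO hOU hX.cn hXU hdX
  have asm : ∀ n : ℕ, ∀ A ⊆ P, (P \ A).card = n → A.Nonempty → Bond adj U (A.biUnion id) →
      GT adj U t (A.biUnion id) → GT adj U t (P.biUnion id) := by
    intro n
    induction n with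
    | zero =>
      intro A hA hn _ _ hG
      have e : A = P := Finset.Subset.antisymm hA
        (Finset.sdiff_eq_empty_iff_subset.1 (Finset.card_eq_zero.1 hn))
      rw [e] at hG
      exact hG
    | succ n ihn =>
      intro A hA hn hne hB hG
      have hAP : A ≠ P := by
        rintro rfl
        rw [Finset.sdiff_self, Finset.card_empty] at hn
        omega
      obtain ⟨p, hp, hpA, hpB⟩ := V1_46 α adj hs U (fill adj U O X) P hWB
        (fun q hq => (fam q (hPF q hq)).2.1)
        (fun q hq q' hq' hne' => Finset.disjoint_left.2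
          (fun x hx hx' => hne' (hPd q hq q' hq' x hx hx'))) hWP A hA hne hAP hB
      have hins : insert p A ⊆ P := Finset.insert_subset hp hA
      refine ihn (insert p A) hins ?_ (Finset.insert_nonempty _ _) hpB ?_
      · have e : P \ insert p A = (P \ A).erase p := by
          ext q
          simp only [Finset.mem_sdiff, Finset.mem_insert, Finset.mem_erase]
          tauto
        rw [e, Finset.card_erase_of_mem (Finset.mem_sdiff.2 ⟨hp, hpA⟩), hn]
        rfl
      · have e : (insert p A).biUnion id = A.biUnion id ∪ p := by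
          rw [Finset.biUnion_insert, Finset.union_comm]
          rfl
        have hcv := cov (insert p A) hins
        rw [e] at hpB hcv ⊢
        refine GT.node hG (fam p (hPF p hp)).2.2.1 ?_ ⟨Or.inr (Or.inr hpB), hcv⟩
        intro x hx hxp
        obtain ⟨q, hq, hxq⟩ := Finset.mem_biUnion.1 hx
        exact hpA (by rw [hPd p hp q (hA hq) x hxp hxq]; exact hq)
  have hx₀W : x₀ ∈ P.biUnion id := by
    rw [hWP]
    exact sub_fill hs hO hOU hXU hdX hx₀
  obtain ⟨p, hp, _⟩ := Finset.mem_biUnion.1 hx₀W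
  have e : ({p} : Finset (Finset α)).biUnion id = p := Finset.singleton_biUnion
  rw [← hWP]
  refine asm _ {p} (Finset.singleton_subset_iff.2 hp) rfl (Finset.singleton_nonempty p) ?_ ?_
  · rw [e]; exact (fam p (hPF p hp)).2.1
  · rw [e]; exact (fam p (hPF p hp)).2.2.1

theorem rec_main (hs : ∀ a b, adj a b → adj b a) {U : Finset α} {t : Tree α}
    (htU : t.set = U) (hnd : t.leaves.Nodup) (hU : Cn adj U)
    (h2 : ∀ x ∈ U, ∃ A B : Finset α, U.erase x = A ∪ B ∧ (A = ∅ ∨ Cn adj A) ∧
      (B = ∅ ∨ Cn adj B)) :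
    ∀ n : ℕ, ∀ Z : Finset α, Z.card = n → Bond adj U Z → Ind adj U t Z := by
  intro n
  induction n using Nat.strong_induction_on with
  | _ n ih =>
    intro Z hn hZ H0 h0 hc0 H
    have ih' : ∀ Y : Finset α, Y.card < Z.card → Bond adj U Y → Ind adj U t Y :=
      fun Y hY hB => ih Y.card (by omega) Y rfl hB
    induction H with
    | leaf x =>
      intro _ X hX
      have hXx : X = {x} := by
        obtain ⟨y, hy⟩ := hX.cn.1
        have h1 : X ⊆ {x} := by
          have := hX.sub.trans (Finset.inter_subset_right (s₁ := Z) (s₂ := (Tree.leaf x).set))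
          rwa [set_leaf] at this
        exact Finset.Subset.antisymm h1 (by
          rw [Finset.singleton_subset_iff]
          have := Finset.mem_singleton.1 (h1 hy)
          rwa [this] at hy)
      have hxZ : x ∈ Z := (Finset.mem_inter.1 (hX.sub (by
        rw [hXx]; exact Finset.mem_singleton_self x))).1
      rw [hXx]
      exact leaf_case hs htU hU hZ hxZ (h2 x (hZ.1 hxZ)) ih'
    | node l r ihl ihr =>
      intro hH X hX
      exact node_case hs htU hnd hU hZ h0 hc0 hH hX
        (ihl (TL.sub_trans (IsSub.left _ _ IsSub.refl) hH))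
        (ihr (TL.sub_trans (IsSub.right _ _ IsSub.refl) hH)) ih'

end V46

open V46

/-- (V2) -/
theorem V2_46 : StBC := by
  intro α adj hs U t hnd htU hU h2
  have main := fun Z hZ => rec_main hs htU hnd hU h2 _ Z rfl hZ
  obtain ⟨x, hx⟩ := hU.1
  have hsub : IsSub (.leaf x) t := isSub_leaf (by rw [htU]; exact hx)
  have gx : Gd adj U t {x} := by
    refine ⟨Or.inr (Or.inl ⟨x, rfl⟩), Cov1.cov (s := .leaf x) ?_ hsub⟩
    intro a ha b _ hb' _
    rw [set_leaf]
    exact ⟨fun _ => hb', fun _ => ha⟩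
  suffices hG : GT adj U t U by
    obtain ⟨T, h1, h3, h4⟩ := hG
    exact ⟨T, h1, h3, h4⟩
  have gU : Gd adj U t U := by
    refine ⟨Or.inl rfl, t, t, t, t, IsSub.refl, IsSub.refl, IsSub.refl, IsSub.refl, ?_⟩
    intro a _ b hb hb' _
    exact absurd hb hb'
  by_cases he : U.erase x = ∅
  · have e : U = {x} := by
      apply Finset.Subset.antisymm
      · intro z hz
        by_contra hzx
        have : z ∈ U.erase x := Finset.mem_erase.2 ⟨fun e => hzx (Finset.mem_singleton.2 e), hz⟩
        rw [he] at this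
        exact Finset.notMem_empty z this
      · exact Finset.singleton_subset_iff.2 hx
    have := GT.leaf gx
    rwa [← e] at this
  obtain ⟨o, ho⟩ := Finset.nonempty_iff_ne_empty.2 he
  obtain ⟨hC, hoC⟩ := comp_isC hs (cn_single (adj := adj) o) (Finset.singleton_subset_iff.2 ho)
  set C := comp adj (U.erase x) {o} with hCdef
  obtain ⟨hY, hYb, hCb, hxC, hxY⟩ := two hs hU hx (h2 x hx) hC
  set Y := U.erase x \ C with hYdef
  have hCU : C ⊆ U := hC.sub.trans (Finset.erase_subset x U)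
  have hYU : Y ⊆ U := Finset.sdiff_subset.trans (Finset.erase_subset x U)
  have hxnC : x ∉ C := fun h => Finset.notMem_erase x U (hC.sub h)
  have hxnY : x ∉ Y := fun h => Finset.notMem_erase x U (Finset.mem_sdiff.1 h).1
  have e1 : U \ C = {x} ∪ Y := by
    ext z
    rw [Finset.mem_sdiff, Finset.mem_union, Finset.mem_singleton, hYdef, Finset.mem_sdiff,
      Finset.mem_erase]
    constructor
    · rintro ⟨h1, h3⟩
      by_cases hz : z = x
      · exact Or.inl hz
      · exact Or.inr ⟨⟨hz, h1⟩, h3⟩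
    · rintro (h | ⟨⟨_, h⟩, h3⟩)
      · subst h
        exact ⟨hx, hxnC⟩
      · exact ⟨h, h3⟩
  have e2 : U \ Y = {x} ∪ C := by
    ext z
    rw [Finset.mem_sdiff, Finset.mem_union, Finset.mem_singleton]
    constructor
    · rintro ⟨h1, h3⟩
      by_cases hz : z = x
      · exact Or.inl hz
      · right
        by_contra hzC
        exact h3 (Finset.mem_sdiff.2 ⟨Finset.mem_erase.2 ⟨hz, h1⟩, hzC⟩)
    · rintro (h | h)
      · subst h
        exact ⟨hx, hxnY⟩
      · exact ⟨hCU h, fun h3 => (Finset.mem_sdiff.1 h3).2 h⟩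
  have covC : Cov1 adj U (.leaf x) C := by
    intro a ha b hb hb' hab
    rw [set_leaf, Finset.mem_singleton, Finset.mem_singleton]
    have e := hCb a ha b hb hb' hab
    exact ⟨fun h => absurd (h ▸ ha) hxnC, fun h => absurd e h⟩
  rcases hY with hY | hY
  · have hUC : U = {x} ∪ C := by
      rw [← e2, hY, Finset.sdiff_empty]
    have hB : Bond adj U C := ⟨hCU, hC.cn, by
      rw [e1, hY, Finset.union_empty]; exact cn_single x⟩
    have gC : GT adj U t C := (main C hB).whole hs htU hB hsub covC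
    have := GT.node (GT.leaf gx) gC (by
      intro z hz
      rw [Finset.mem_singleton] at hz
      rw [hz]; exact hxnC) (by rw [← hUC]; exact gU)
    rwa [← hUC] at this
  · have hBC : Bond adj U C := ⟨hCU, hC.cn, by rw [e1]; exact hxY hY⟩
    have hBY : Bond adj U Y := ⟨hYU, hY, by rw [e2]; exact hxC⟩
    have covY : Cov1 adj U (.leaf x) Y := by
      intro a ha b hb hb' hab
      rw [set_leaf, Finset.mem_singleton, Finset.mem_singleton]
      have e := hYb a ha b hb hb' hab
      exact ⟨fun h => absurd (h ▸ ha) hxnY, fun h => absurd e h⟩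
    have gC : GT adj U t C := (main C hBC).whole hs htU hBC hsub covC
    have gY : GT adj U t Y := (main Y hBY).whole hs htU hBY hsub covY
    have gXY : GT adj U t ({x} ∪ Y) := by
      refine GT.node (GT.leaf gx) gY ?_ ?_
      · intro z hz
        rw [Finset.mem_singleton] at hz
        rw [hz]; exact hxnY
      · refine ⟨Or.inr (Or.inr ⟨?_, hxY hY, ?_⟩), Cov1.cov (s := .leaf x) ?_ hsub⟩
        · exact Finset.union_subset (Finset.singleton_subset_iff.2 hx) hYU
        · rw [← e1, Finset.sdiff_sdiff_eq_self hCU]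
          exact hC.cn
        · intro a ha b hb hb' hab
          rw [set_leaf, Finset.mem_singleton, Finset.mem_singleton]
          have hbx : b ≠ x := fun e => hb' (Finset.mem_union_left _ (Finset.mem_singleton.2 e))
          have hax : a = x := by
            rcases Finset.mem_union.1 ha with h | h
            · exact Finset.mem_singleton.1 h
            · exact absurd (hYb a h b hb (fun h3 => hb' (Finset.mem_union_right _ h3)) hab) hbx
          exact ⟨fun _ => hbx, fun _ => hax⟩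
    have hUC : U = ({x} ∪ Y) ∪ C := by
      rw [← e1, Finset.sdiff_union_of_subset hCU]
    have := GT.node gXY gC (by
      intro z hz hzC
      rw [← e1] at hz
      exact (Finset.mem_sdiff.1 hz).2 hzC) (by rw [← hUC]; exact gU)
    rwa [← hUC] at this

end RotWqo.Pb
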