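import Pool.Agent.Lib.MP_cb4a0f_co.Pb.Stmts
import Pool.Agent.Lib.MP_cb4a0f_co.Pl.E5_25
import Pool.Agent.Lib.MP_cb4a0f_co.Pl.E1_11

/-!
# MP_cb4a0f_co, row V3 of PB: a bond leaves each face at most once (helper88)
-/

open Classical

namespace RotWqo.Pb

open RotWqo.Bag RotWqo.Hk RotWqo.Pl

namespace V3x88

variable {V H : Type} {K : RotGraph V H} {U : Finset V}

/-- A property preserved by `nx` holds everywhere at the vertex. -/
theorem nx_closed {P : H → Prop} {e g : H} (he : e ∈ K.darts)
    (hP : ∀ h ∈ K.darts, K.base h = K.base e → P h → P (nx K h)) (hPe : P e)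
    (hg : g ∈ K.darts) (hb : K.base g = K.base e) : P g := by
  obtain ⟨m, hm⟩ := exists_rot_cons (mem_rot_base he)
  have key : ∀ (n : ℕ) (a : List H) (x : H) (b : List H), a.length = n →
      e :: m = a ++ x :: b → P x := by
    intro n
    induction n with
    | zero =>
      intro a x b ha h
      rw [List.length_eq_zero_iff] at ha
      subst ha
      simp only [List.nil_append, List.cons.injEq] at h
      rw [← h.1]
      exact hPe
    | succ n ih =>
      intro a x b ha h
      rcases List.eq_nil_or_concat a with rfl | ⟨a', y, rfl⟩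
      · simp at ha
      · rw [List.concat_eq_append] at h ha
        have ha' : a'.length = n := by simpa using ha
        have h1 : e :: m = a' ++ y :: (x :: b) := by simpa using h
        have hy := ih a' y (x :: b) ha' h1
        have hr : K.rot (K.base e) ~r y :: x :: (b ++ a') := by
          refine hm.trans ?_
          rw [h1]
          simpa using (List.isRotated_append (l := a') (l' := y :: x :: b))
        have h2 : y ∈ K.rot (K.base e) := hr.mem_iff.2 (by simp)
        obtain ⟨h3, h4⟩ := (K.mem_rot _ _).1 h2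
        have h5 := hP y h3 h4 hy
        rw [← h4] at hr
        rwa [nx_of_rot hr] at h5
  have h1 : g ∈ K.rot (K.base e) := (K.mem_rot _ _).2 ⟨hg, hb⟩
  have h2 : g ∈ e :: m := hm.mem_iff.1 h1
  obtain ⟨a, b, hab⟩ := List.append_of_mem h2
  exact key _ a g b rfl hab

theorem mem_ind {h : H} :
    h ∈ (ind K U).darts ↔ h ∈ K.darts ∧ K.base h ∈ U ∧ K.base (K.opp h) ∈ U := by
  simp only [ind, Finset.mem_filter]

theorem opp_ind {h : H} (hh : h ∈ (ind K U).darts) : K.opp h ∈ (ind K U).darts :=
  (ind K U).opp_mem h hh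

theorem nx_ind {h : H} (hh : h ∈ (ind K U).darts) (hn : nx K h ∈ (ind K U).darts) :
    nx (ind K U) h = nx K h := by
  have h0 := (mem_ind.1 hh)
  have hn0 := (mem_ind.1 hn)
  rcases nx_cases K h0.1 with ⟨h1, h2⟩ | ⟨l, h1⟩
  · rcases nx_cases (ind K U) hh with ⟨-, h4⟩ | ⟨l, h3⟩
    · rw [h4, h2]
    · exfalso
      have h4 : (ind K U).rot ((ind K U).base h) =
          (K.rot (K.base h)).filter
            (fun h => decide (K.base h ∈ U ∧ K.base (K.opp h) ∈ U)) := rfl
      rw [h4, h1] at h3
      have h5 := h3.perm.length_eq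
      have h6 := List.length_filter_le
        (fun h => decide (K.base h ∈ U ∧ K.base (K.opp h) ∈ U)) [h]
      simp only [List.length_cons, List.length_nil] at h5 h6
      omega
  · have h3 := IsRotated.filter' h1 (fun h => decide (K.base h ∈ U ∧ K.base (K.opp h) ∈ U))
    have h4 : (ind K U).rot ((ind K U).base h) =
          (K.rot (K.base h)).filter
            (fun h => decide (K.base h ∈ U ∧ K.base (K.opp h) ∈ U)) := rfl
    rw [← h4, List.filter_cons_of_pos (by simpa using h0.2),
      List.filter_cons_of_pos (by simpa using hn0.2)] at h3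
    exact nx_of_rot h3

theorem fs_ind {h : H} (hh : h ∈ (ind K U).darts) (hn : fs K h ∈ (ind K U).darts) :
    fs (ind K U) h = fs K h := by
  have h1 : fs (ind K U) h = nx (ind K U) (K.opp h) := rfl
  rw [h1]
  exact nx_ind (opp_ind hh) hn

/-- The faces that stay inside `ind K U`. -/
noncomputable def Fin (K : RotGraph V H) (U : Finset V) : Finset (Finset H) :=
  (K.darts.filter (fun h => ∀ n, (fs K)^[n] h ∈ (ind K U).darts)).image (face K)

theorem iter_ind {h : H} (hh : ∀ n, (fs K)^[n] h ∈ (ind K U).darts) (n : ℕ) :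
    (fs (ind K U))^[n] h = (fs K)^[n] h := by
  induction n with
  | zero => rfl
  | succ n ih =>
    rw [Function.iterate_succ_apply', Function.iterate_succ_apply', ih]
    refine fs_ind (hh n) ?_
    have := hh (n + 1)
    rwa [Function.iterate_succ_apply'] at this

theorem face_ind {h : H} (hh : ∀ n, (fs K)^[n] h ∈ (ind K U).darts) :
    face (ind K U) h = face K h := by
  ext g
  rw [mem_face, mem_face]
  constructor
  · rintro ⟨h1, n, hn⟩
    rw [iter_ind hh] at hn
    exact ⟨(mem_ind.1 h1).1, n, hn⟩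
  · rintro ⟨h1, n, hn⟩
    refine ⟨?_, n, by rw [iter_ind hh]; exact hn⟩
    rw [← hn]
    exact hh n

theorem fin_sub : Fin K U ⊆ (ind K U).darts.image (face (ind K U)) := by
  intro F hF
  obtain ⟨h, h1, rfl⟩ := Finset.mem_image.1 hF
  rw [Finset.mem_filter] at h1
  refine Finset.mem_image.2 ⟨h, h1.2 0, face_ind h1.2⟩

theorem exists_exit (hc : Tc.Conn K U) (hb : (bd K U).Nonempty)
    (hd : (ind K U).darts.Nonempty) :
    ∃ e ∈ (ind K U).darts, fs K e ∉ (ind K U).darts := by
  obtain ⟨g, hg⟩ := hb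
  rw [mem_bd] at hg
  obtain ⟨hg1, hg2, hg3⟩ := hg
  -- a half-edge of `ind K U` at the end of `g`
  have h1 : ∃ e ∈ (ind K U).darts, K.base e = K.base g := by
    by_cases hU : U = {K.base g}
    · obtain ⟨e, he⟩ := hd
      refine ⟨e, he, ?_⟩
      have h2 := (mem_ind.1 he).2.1
      rw [hU, Finset.mem_singleton] at h2
      exact h2
    · have h2 := hc {K.base g} (by simpa using hg2) (by simp) (fun h => hU h.symm)
      unfold Tc.Nadj at h2
      push Not at h2
      obtain ⟨h, h3, h4, h5⟩ := h2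
      rw [Finset.mem_singleton] at h4
      rw [Finset.mem_sdiff] at h5
      exact ⟨h, mem_ind.2 ⟨h3, by rw [h4]; exact hg2, h5.1⟩, h4⟩
  obtain ⟨e, he, heg⟩ := h1
  by_contra hcon
  push Not at hcon
  have h2 : g ∈ (ind K U).darts := by
    refine nx_closed (P := fun x => x ∈ (ind K U).darts) (mem_ind.1 he).1 ?_ he hg1 heg.symm
    intro h _ _ hh
    have h3 := hcon (K.opp h) (opp_ind hh)
    have h4 : fs K (K.opp h) = nx K (K.opp (K.opp h)) := rfl
    rw [h4, K.opp_opp h (mem_ind.1 hh).1] at h3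
    exact h3
  exact hg3 (mem_ind.1 h2).2.2

theorem fin_card (hc : Tc.Conn K U) (hb : (bd K U).Nonempty) :
    (Fin K U).card + 1 ≤ faces (ind K U) := by
  unfold faces
  by_cases h0 : (ind K U).darts = ∅
  · rw [if_pos h0]
    have h1 : Fin K U = ∅ := by
      unfold Fin
      rw [Finset.image_eq_empty, Finset.filter_eq_empty_iff]
      intro h _ h2
      have h3 := h2 0
      rw [h0] at h3
      simp at h3
    rw [h1]
    simp
  · rw [if_neg h0]
    obtain ⟨e, he, he2⟩ := exists_exit hc hb (Finset.nonempty_iff_ne_empty.2 h0)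
    refine Finset.card_lt_card ⟨fin_sub, fun hsub => ?_⟩
    have h1 := hsub (Finset.mem_image_of_mem _ he)
    unfold Fin at h1
    obtain ⟨h, h2, h3⟩ := Finset.mem_image.1 h1
    rw [Finset.mem_filter] at h2
    have h4 : e ∈ face K h := by
      rw [h3]
      exact mem_face_self he
    obtain ⟨-, n, hn⟩ := mem_face.1 h4
    apply he2
    rw [← hn, ← Function.iterate_succ_apply' (fs K)]
    exact h2.2 (n + 1)

/-- Faces without half-edges in `bd K U` stay in `U` if they start there. -/
theorem stay {h : H} (hh : h ∈ K.darts) (hn : ∀ n, (fs K)^[n] h ∉ bd K U)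
    (hU : K.base h ∈ U) (n : ℕ) : K.base ((fs K)^[n] h) ∈ U := by
  induction n with
  | zero => exact hU
  | succ n ih =>
    rw [Function.iterate_succ_apply', fs_base (fs_iter_mem hh n)]
    by_contra h1
    exact hn n (mem_bd.2 ⟨fs_iter_mem hh n, ih, h1⟩)

theorem faces_cover : K.darts.image (face K) ⊆
    (bd K U).image (face K) ∪ (Fin K U ∪ Fin K (K.verts \ U)) := by
  intro F hF
  obtain ⟨h, hh, rfl⟩ := Finset.mem_image.1 hF
  by_cases h1 : ∃ n, (fs K)^[n] h ∈ bd K U
  · obtain ⟨n, hn⟩ := h1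
    refine Finset.mem_union_left _ (Finset.mem_image.2 ⟨_, hn, ?_⟩)
    exact face_eq_of_mem hh (mem_face.2 ⟨fs_iter_mem hh n, n, rfl⟩)
  · push Not at h1
    refine Finset.mem_union_right _ ?_
    by_cases h2 : K.base h ∈ U
    · refine Finset.mem_union_left _ (Finset.mem_image_of_mem _ ?_)
      rw [Finset.mem_filter]
      refine ⟨hh, fun n => mem_ind.2 ⟨fs_iter_mem hh n, stay hh h1 h2 n, ?_⟩⟩
      have h3 := stay hh h1 h2 (n + 1)
      rwa [Function.iterate_succ_apply', fs_base (fs_iter_mem hh n)] at h3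
    · refine Finset.mem_union_right _ (Finset.mem_image_of_mem _ ?_)
      rw [Finset.mem_filter]
      have key : ∀ n, K.base ((fs K)^[n] h) ∈ K.verts \ U := by
        intro n
        rw [Finset.mem_sdiff]
        refine ⟨K.base_mem _ (fs_iter_mem hh n), fun h3 => h2 ?_⟩
        obtain ⟨k, hk⟩ := fs_symm hh ⟨n, rfl⟩
        have h4 := stay (U := U) (fs_iter_mem hh n) (fun m => ?_) h3 k
        · rwa [hk] at h4
        · rw [← Function.iterate_add_apply]
          exact h1 _
      refine ⟨hh, fun n => mem_ind.2 ⟨fs_iter_mem hh n, key n, ?_⟩⟩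
      have h3 := key (n + 1)
      rwa [Function.iterate_succ_apply', fs_base (fs_iter_mem hh n)] at h3

theorem conn_ind (hU : U ⊆ K.verts) (hne : U.Nonempty) (hc : Tc.Conn K U) :
    Conn (ind K U) := by
  have hv : (ind K U).verts = U := by
    ext v
    simp only [ind, Finset.mem_filter]
    exact ⟨fun h => h.2, fun h => ⟨hU h, h⟩⟩
  refine ⟨by rw [hv]; exact hne, fun S hS hSn hS' => ?_⟩
  rw [hv] at hS hS'
  have h1 := hc S hS hSn hS'
  unfold Tc.Nadj at h1
  push Not at h1
  obtain ⟨h, h2, h3, h4⟩ := h1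
  rw [Finset.mem_sdiff] at h4
  refine Finset.card_pos.2 ⟨h, ?_⟩
  rw [mem_bd]
  exact ⟨mem_ind.2 ⟨h2, hS h3, h4.1⟩, h3, h4.2⟩

theorem card_verts_ind (hU : U ⊆ K.verts) : (ind K U).verts.card = U.card := by
  congr 1
  ext v
  simp only [ind, Finset.mem_filter]
  exact ⟨fun h => h.2, fun h => ⟨hU h, h⟩⟩

theorem euler_ind (hU : U ⊆ K.verts) (hne : U.Nonempty) (hc : Tc.Conn K U)
    (hb : (bd K U).Nonempty) :
    2 * (U.card + ((Fin K U).card + 1)) ≤ (ind K U).darts.card + 4 := by
  have h1 := euler_ineq25 e1_11 e2_11 e3_11 stCyc_25 _ (ind K U) rfl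
    (conn_ind hU hne hc)
  rw [card_verts_ind hU] at h1
  have h2 := fin_card hc hb
  omega

theorem card_bd_opp : (bd K (K.verts \ U)).card = (bd K U).card := by
  refine Finset.card_bij' (fun h _ => K.opp h) (fun h _ => K.opp h) ?_ ?_ ?_ ?_
  · intro h hh
    rw [mem_bd, Finset.mem_sdiff, Finset.mem_sdiff] at hh
    obtain ⟨h1, h2, h3⟩ := hh
    rw [mem_bd, K.opp_opp h h1]
    refine ⟨K.opp_mem h h1, ?_, h2.2⟩
    by_contra h4
    exact h3 ⟨K.base_mem _ (K.opp_mem h h1), h4⟩
  · intro h hh
    rw [mem_bd] at hh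
    obtain ⟨h1, h2, h3⟩ := hh
    rw [mem_bd, K.opp_opp h h1, Finset.mem_sdiff, Finset.mem_sdiff]
    exact ⟨K.opp_mem h h1, ⟨K.base_mem _ (K.opp_mem h h1), h3⟩, fun h4 => h4.2 h2⟩
  · intro h hh
    exact K.opp_opp h (mem_bd.1 hh).1
  · intro h hh
    exact K.opp_opp h (mem_bd.1 hh).1

theorem card_darts :
    (ind K U).darts.card + (ind K (K.verts \ U)).darts.card + 2 * (bd K U).card ≤
      K.darts.card := by
  have h1 : Disjoint (ind K U).darts (ind K (K.verts \ U)).darts := by
    rw [Finset.disjoint_left]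
    intro h h1 h2
    exact (Finset.mem_sdiff.1 (mem_ind.1 h2).2.1).2 (mem_ind.1 h1).2.1
  have h2 : Disjoint (bd K U) (bd K (K.verts \ U)) := by
    rw [Finset.disjoint_left]
    intro h h1 h2
    exact (Finset.mem_sdiff.1 (mem_bd.1 h2).2.1).2 (mem_bd.1 h1).2.1
  have h3 : Disjoint ((ind K U).darts ∪ (ind K (K.verts \ U)).darts)
      (bd K U ∪ bd K (K.verts \ U)) := by
    rw [Finset.disjoint_left]
    intro h h1 h2
    rw [Finset.mem_union, mem_ind, mem_ind] at h1
    rw [Finset.mem_union, mem_bd, mem_bd] at h2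
    rcases h1 with ⟨_, h3, h4⟩ | ⟨_, h3, h4⟩ <;> rcases h2 with ⟨_, h5, h6⟩ | ⟨_, h5, h6⟩
    · exact h6 h4
    · exact (Finset.mem_sdiff.1 h5).2 h3
    · exact (Finset.mem_sdiff.1 h3).2 h5
    · exact h6 h4
  have h4 : ((ind K U).darts ∪ (ind K (K.verts \ U)).darts) ∪
      (bd K U ∪ bd K (K.verts \ U)) ⊆ K.darts := by
    intro h hh
    rw [Finset.mem_union, Finset.mem_union, Finset.mem_union, mem_ind, mem_ind, mem_bd,
      mem_bd] at hh
    rcases hh with (h | h) | (h | h) <;> exact h.1
  have h5 := Finset.card_le_card h4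
  rw [Finset.card_union_of_disjoint h3, Finset.card_union_of_disjoint h1,
    Finset.card_union_of_disjoint h2, card_bd_opp] at h5
  omega

end V3x88

open V3x88 in
theorem v3_88 : StBond := by
  intro V H K U hP hU hne hne' hc hc' a ha b hb hab
  obtain ⟨hC, hE⟩ := hP
  have hbU : (bd K U).Nonempty := ⟨a, ha⟩
  have hbW : (bd K (K.verts \ U)).Nonempty := by
    rw [← Finset.card_pos, card_bd_opp]
    exact Finset.card_pos.2 hbU
  have hWne : (K.verts \ U).Nonempty := by
    rw [Finset.nonempty_iff_ne_empty]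
    intro h
    rw [Finset.sdiff_eq_empty_iff_subset] at h
    exact hne' (Finset.Subset.antisymm hU h)
  have e1 := euler_ind hU hne hc hbU
  have e2 := euler_ind (U := K.verts \ U) Finset.sdiff_subset hWne hc' hbW
  have hd : K.darts ≠ ∅ := by
    intro h
    have := (mem_bd.1 ha).1
    rw [h] at this
    simp at this
  have hF : faces K = (K.darts.image (face K)).card := by
    unfold faces
    rw [if_neg hd]
  have h1 := Finset.card_le_card (faces_cover (K := K) (U := U))
  have h2 := Finset.card_union_le ((bd K U).image (face K))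
    (V3x88.Fin K U ∪ V3x88.Fin K (K.verts \ U))
  have h3 := Finset.card_union_le (V3x88.Fin K U) (V3x88.Fin K (K.verts \ U))
  have h4 := card_darts (K := K) (U := U)
  have h5 : (K.verts \ U).card + U.card = K.verts.card := Finset.card_sdiff_add_card_eq_card hU
  have h6 : (bd K U).card ≤ ((bd K U).image (face K)).card := by omega
  have h7 := Finset.card_image_le (s := bd K U) (f := face K)
  have h8 : Set.InjOn (face K) (bd K U : Set H) := Finset.card_image_iff.1 (le_antisymm h7 h6)
  refine h8 ha hb ?_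
  have h9 : b ∈ face K a := mem_face.2 ⟨(mem_bd.1 hb).1, hab⟩
  exact (face_eq_of_mem (mem_bd.1 ha).1 h9).symm

end RotWqo.Pb
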