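import Pool.Agent.Lib.MP_cb4a0f_co.Pb.Stmts
import Pool.Agent.Lib.MP_cb4a0f_co.Pl.E1_11

/-!
# MP_cb4a0f_co: planar rotated graphs of bounded branch-width, the truncation (row V4)
-/

open Classical

namespace RotWqo.Pb.Tr77

open RotWqo.Bag RotWqo.Hk RotWqo.Pl RotWqo.Pl.Fc11

variable {V H : Type*} {G : RotGraph V H}

theorem pv_spec {h : H} (hh : h ∈ G.darts) : pv G h ∈ G.darts ∧ nx G (pv G h) = h := by
  have h1 : ∃ g ∈ G.darts, nx G g = h := by
    obtain ⟨g, h2, -, h3⟩ := exists_nx hh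
    exact ⟨g, h2, h3⟩
  unfold pv
  rw [dif_pos h1]
  exact h1.choose_spec

theorem pv_mem {h : H} (hh : h ∈ G.darts) : pv G h ∈ G.darts := (pv_spec hh).1

theorem nx_pv {h : H} (hh : h ∈ G.darts) : nx G (pv G h) = h := (pv_spec hh).2

theorem pv_base {h : H} (hh : h ∈ G.darts) : G.base (pv G h) = G.base h := by
  rw [← (nx_mem (pv_mem hh)).2, nx_pv hh]

theorem pv_nx {h : H} (hh : h ∈ G.darts) : pv G (nx G h) = h :=
  nx_injOn G (pv_mem (nx_mem hh).1) hh (nx_pv (nx_mem hh).1)

/-- A property which passes to the next half-edge passes to all half-edges with the same end. -/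
theorem nx_closed {P : H → Prop} (hP : ∀ h ∈ G.darts, P h → P (nx G h)) {h g : H}
    (hh : h ∈ G.darts) (hg : g ∈ G.darts) (hb : G.base g = G.base h) (hp : P h) : P g := by
  obtain ⟨l', hl'⟩ := exists_rot_cons (mem_rot_base hh)
  have key : ∀ (l2 l1 : List H) (x : H), G.rot (G.base h) ~r l1 ++ x :: l2 → P x →
      ∀ y ∈ l2, P y := by
    intro l2
    induction l2 with
    | nil =>
      intro l1 x _ _ y hy
      exact absurd hy List.not_mem_nil
    | cons z l2 ih =>
      intro l1 x hr hx y hy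
      have h1 : G.rot (G.base h) ~r x :: z :: (l2 ++ l1) := by
        refine hr.trans ?_
        simpa using (List.isRotated_append (l := l1) (l' := x :: z :: l2))
      have h2 := (G.mem_rot _ _).1 (h1.mem_iff.2 List.mem_cons_self)
      have h3 : P z := by
        have h4 : nx G x = z := nx_of_rot (by rw [h2.2]; exact h1)
        rw [← h4]
        exact hP x h2.1 hx
      rcases List.mem_cons.1 hy with rfl | hy
      · exact h3
      · exact ih (l1 ++ [x]) z (by simpa using hr) h3 y hy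
  have h1 : g ∈ h :: l' := hl'.mem_iff.1 ((G.mem_rot _ _).2 ⟨hg, hb⟩)
  rcases List.mem_cons.1 h1 with rfl | h1
  · exact hp
  · exact key l' [] h (by simpa using hl') hp g h1

/-- The truncation. -/
noncomputable def trunc (G : RotGraph V H) : RotGraph H (H × Fin 3) where
  verts := G.darts
  darts := G.darts ×ˢ Finset.univ
  base p := p.1
  opp p := if p.2 = 0 then (G.opp p.1, 0) else if p.2 = 1 then (nx G p.1, 2) else (pv G p.1, 1)
  rot h := if h ∈ G.darts then [(h, 0), (h, 1), (h, 2)] else []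
  base_mem p hp := (Finset.mem_product.1 hp).1
  opp_mem p hp := by
    obtain ⟨h1, -⟩ := Finset.mem_product.1 hp
    rw [Finset.mem_product]
    refine ⟨?_, Finset.mem_univ _⟩
    split_ifs
    · exact G.opp_mem _ h1
    · exact (nx_mem h1).1
    · exact pv_mem h1
  opp_opp p hp := by
    obtain ⟨h1, -⟩ := Finset.mem_product.1 hp
    obtain ⟨h, i⟩ := p
    simp only at h1
    fin_cases i
    · simp [G.opp_opp h h1]
    · simp [pv_nx h1]
    · simp [nx_pv h1]
  opp_ne p hp := by
    obtain ⟨h1, -⟩ := Finset.mem_product.1 hp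
    obtain ⟨h, i⟩ := p
    simp only at h1
    fin_cases i
    · simp [G.opp_ne h h1]
    · simp
    · simp
  nodup h := by
    split_ifs
    · simp
    · exact List.nodup_nil
  mem_rot h p := by
    obtain ⟨g, i⟩ := p
    simp only [Finset.mem_product, Finset.mem_univ, and_true]
    constructor
    · intro h1
      split_ifs at h1 with h2
      · have h3 : g = h := by
          simp only [List.mem_cons, Prod.mk.injEq, List.not_mem_nil, or_false] at h1
          rcases h1 with h1 | h1 | h1 <;> exact h1.1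
        subst h3
        exact ⟨h2, rfl⟩
      · exact absurd h1 List.not_mem_nil
    · rintro ⟨h1, rfl⟩
      rw [if_pos h1]
      fin_cases i <;> simp

theorem trunc_mem {h : H} (hh : h ∈ G.darts) (i : Fin 3) : (h, i) ∈ (trunc G).darts :=
  Finset.mem_product.2 ⟨hh, Finset.mem_univ _⟩

theorem opp0 (h : H) : (trunc G).opp (h, 0) = (G.opp h, 0) := by simp [trunc]

theorem opp1 (h : H) : (trunc G).opp (h, 1) = (nx G h, 2) := by simp [trunc]

theorem opp2 (h : H) : (trunc G).opp (h, 2) = (pv G h, 1) := by simp [trunc]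

theorem rotK {h : H} (hh : h ∈ G.darts) : (trunc G).rot h = [(h, 0), (h, 1), (h, 2)] := by
  show (if h ∈ G.darts then [(h, 0), (h, 1), (h, 2)] else []) = _
  rw [if_pos hh]

theorem nxK0 {h : H} (hh : h ∈ G.darts) : nx (trunc G) (h, 0) = (h, 1) := by
  refine nx_of_rot (l := [(h, 2)]) ?_
  show (trunc G).rot h ~r _
  rw [rotK hh]

theorem nxK1 {h : H} (hh : h ∈ G.darts) : nx (trunc G) (h, 1) = (h, 2) := by
  refine nx_of_rot (l := [(h, 0)]) ?_
  show (trunc G).rot h ~r _
  rw [rotK hh]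
  exact ⟨1, rfl⟩

theorem nxK2 {h : H} (hh : h ∈ G.darts) : nx (trunc G) (h, 2) = (h, 0) := by
  refine nx_of_rot (l := [(h, 1)]) ?_
  show (trunc G).rot h ~r _
  rw [rotK hh]
  exact ⟨2, rfl⟩

theorem fsK0 {h : H} (hh : h ∈ G.darts) : fs (trunc G) (h, 0) = (G.opp h, 1) := by
  unfold fs
  rw [opp0, nxK0 (G.opp_mem h hh)]

theorem fsK1 {h : H} (hh : h ∈ G.darts) : fs (trunc G) (h, 1) = (nx G h, 0) := by
  unfold fs
  rw [opp1, nxK2 (nx_mem hh).1]

theorem fsK2 {h : H} (hh : h ∈ G.darts) : fs (trunc G) (h, 2) = (pv G h, 2) := by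
  unfold fs
  rw [opp2, nxK1 (pv_mem hh)]

/-- faces of the first kind -/
def P0 (G : RotGraph V H) (h : H) (p : H × Fin 3) : Prop :=
  (p.2 = 0 ∧ R G h p.1) ∨ (p.2 = 1 ∧ R G h (G.opp p.1))

theorem R0 {h : H} (hh : h ∈ G.darts) {p : H × Fin 3} (hp : R (trunc G) (h, 0) p) :
    P0 G h p := by
  refine R.closed (G := trunc G) (P := P0 G h) ?_ (trunc_mem hh 0) hp (Or.inl ⟨rfl, R.refl h⟩)
  rintro ⟨x, i⟩ hx (⟨h2, h3⟩ | ⟨h2, h3⟩)
  · have hx' : x ∈ G.darts := (Finset.mem_product.1 hx).1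
    simp only at h2 h3
    subst h2
    rw [fsK0 hx']
    refine Or.inr ⟨rfl, ?_⟩
    show R G h (G.opp (G.opp x))
    rw [G.opp_opp x hx']
    exact h3
  · have hx' : x ∈ G.darts := (Finset.mem_product.1 hx).1
    simp only at h2 h3
    subst h2
    rw [fsK1 hx']
    refine Or.inl ⟨rfl, h3.trans ⟨1, ?_⟩⟩
    show nx G (G.opp (G.opp x)) = _
    rw [G.opp_opp x hx']

theorem R00 {h g : H} (hh : h ∈ G.darts) : R (trunc G) (h, 0) (g, 0) ↔ R G h g := by
  constructor
  · intro h1
    rcases R0 hh h1 with ⟨-, h2⟩ | ⟨h2, -⟩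
    · exact h2
    · simp at h2
  · intro h1
    refine R.closed (G := G) (P := fun z => R (trunc G) (h, 0) (z, 0)) ?_ hh h1 (R.refl _)
    intro x hx h2
    refine h2.trans ⟨2, ?_⟩
    show fs (trunc G) (fs (trunc G) (x, 0)) = _
    rw [fsK0 hx, fsK1 (G.opp_mem x hx)]
    rfl

theorem R02 {h g : H} (hh : h ∈ G.darts) : ¬ R (trunc G) (h, 0) (g, 2) := by
  intro h1
  rcases R0 hh h1 with ⟨h2, -⟩ | ⟨h2, -⟩ <;> simp at h2

theorem R22 {h g : H} (hh : h ∈ G.darts) (hg : g ∈ G.darts) :
    R (trunc G) (h, 2) (g, 2) ↔ G.base h = G.base g := by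
  constructor
  · intro h1
    refine (R.closed (G := trunc G) (P := fun p => p.2 = 2 ∧ G.base h = G.base p.1) ?_
      (trunc_mem hh 2) h1 ⟨rfl, rfl⟩).2
    rintro ⟨x, i⟩ hx ⟨h2, h3⟩
    have hx' : x ∈ G.darts := (Finset.mem_product.1 hx).1
    simp only at h2 h3
    subst h2
    rw [fsK2 hx']
    exact ⟨rfl, by rw [h3, pv_base hx']⟩
  · intro h1
    refine nx_closed (G := G) (P := fun z => R (trunc G) (z, 2) (g, 2)) ?_ hg hh h1 (R.refl _)
    intro x hx h2
    refine R.head ?_ h2
    rw [fsK2 (nx_mem hx).1, pv_nx hx]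

theorem base_surj (hC : Conn G) (hne : G.darts.Nonempty) : G.darts.image G.base = G.verts := by
  refine conn_closed hC ?_ (hne.image _) ?_
  · intro v hv
    obtain ⟨x, hx, rfl⟩ := Finset.mem_image.1 hv
    exact G.base_mem x hx
  · intro x hx _
    exact Finset.mem_image_of_mem _ (G.opp_mem x hx)

theorem connK (hC : Conn G) (hne : G.darts.Nonempty) : Conn (trunc G) := by
  refine ⟨hne, fun S hS hSne hS' => ?_⟩
  by_contra h0
  have h1 : bd (trunc G) S = ∅ := by
    have : cut (trunc G) S = 0 := by omega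
    unfold cut at this
    exact Finset.card_eq_zero.1 this
  have cl : ∀ p ∈ (trunc G).darts, p.1 ∈ S → ((trunc G).opp p).1 ∈ S := by
    intro p hp h2
    by_contra h3
    have : p ∈ bd (trunc G) S := (mem_bd).2 ⟨hp, h2, h3⟩
    rw [h1] at this
    exact absurd this (Finset.notMem_empty _)
  have clo : ∀ h ∈ G.darts, h ∈ S → G.opp h ∈ S := by
    intro h hh h2
    have := cl (h, 0) (trunc_mem hh 0) h2
    rw [opp0] at this
    exact this
  have cln : ∀ h ∈ G.darts, h ∈ S → nx G h ∈ S := by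
    intro h hh h2
    have := cl (h, 1) (trunc_mem hh 1) h2
    rw [opp1] at this
    exact this
  apply hS'
  have hS2 : S ⊆ G.darts := hS
  have h4 : S.image G.base = G.verts := by
    refine conn_closed hC ?_ (hSne.image _) ?_
    · intro v hv
      obtain ⟨x, hx, rfl⟩ := Finset.mem_image.1 hv
      exact G.base_mem x (hS2 hx)
    · intro x hx h5
      obtain ⟨y, hy, h6⟩ := Finset.mem_image.1 h5
      have h7 : x ∈ S := nx_closed (P := fun z => z ∈ S) cln (hS2 hy) hx h6.symm hy
      exact Finset.mem_image_of_mem _ (clo x hx h7)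
  refine Finset.Subset.antisymm hS ?_
  intro x hx
  have hx' : x ∈ G.darts := hx
  have h5 : G.base x ∈ S.image G.base := by
    rw [h4]
    exact G.base_mem x hx'
  obtain ⟨y, hy, h6⟩ := Finset.mem_image.1 h5
  exact nx_closed (P := fun z => z ∈ S) cln (hS2 hy) hx' h6.symm hy

theorem facesK (hC : Conn G) (hne : G.darts.Nonempty) :
    faces (trunc G) = G.verts.card + faces G := by
  obtain ⟨d, hd⟩ := hne
  have e0 : faces (trunc G) = ((trunc G).darts.image (face (trunc G))).card := by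
    rw [faces_G (trunc_mem hd 0)]
    refine congrArg Finset.card ?_
    ext F
    simp only [Finset.mem_image]
  rw [e0, faces_G hd]
  have e : (trunc G).darts.image (face (trunc G)) =
      (G.darts.image (fun h => face (trunc G) (h, 2))) ∪
        (G.darts.image (fun h => face (trunc G) (h, 0))) := by
    ext F
    rw [Finset.mem_union, Finset.mem_image, Finset.mem_image, Finset.mem_image]
    constructor
    · rintro ⟨⟨x, i⟩, hx, rfl⟩
      have hx' : x ∈ G.darts := (Finset.mem_product.1 hx).1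
      fin_cases i
      · exact Or.inr ⟨x, hx', rfl⟩
      · refine Or.inr ⟨nx G x, (nx_mem hx').1, ?_⟩
        refine ((face_iff (trunc_mem hx' 1) (trunc_mem (nx_mem hx').1 0)).2 ?_).symm
        exact ⟨1, fsK1 hx'⟩
      · exact Or.inl ⟨x, hx', rfl⟩
    · rintro (⟨x, hx, rfl⟩ | ⟨x, hx, rfl⟩)
      · exact ⟨(x, 2), trunc_mem hx 2, rfl⟩
      · exact ⟨(x, 0), trunc_mem hx 0, rfl⟩
  rw [e, Finset.card_union_of_disjoint]
  · congr 1
    · rw [← base_surj hC ⟨d, hd⟩]
      refine card_image_eq_of _ _ _ ?_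
      intro x hx y hy
      rw [face_iff (trunc_mem hx 2) (trunc_mem hy 2), R22 hx hy]
    · refine card_image_eq_of _ _ _ ?_
      intro x hx y hy
      rw [face_iff (trunc_mem hx 0) (trunc_mem hy 0), R00 hx, face_iff hx hy]
  · rw [Finset.disjoint_left]
    intro F h1 h2
    obtain ⟨x, hx, rfl⟩ := Finset.mem_image.1 h1
    obtain ⟨y, hy, h3⟩ := Finset.mem_image.1 h2
    exact R02 hy ((face_iff (trunc_mem hy 0) (trunc_mem hx 2)).1 h3)

end RotWqo.Pb.Tr77

namespace RotWqo.Pb

open RotWqo.Bag RotWqo.Hk RotWqo.Pl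

/-- row V4 -/
theorem v4_77 : StTrunc := by
  intro V H G hG hne
  refine ⟨Tr77.trunc G, ⟨Tr77.connK hG.1 hne, ?_⟩, rfl, rfl, fun _ => rfl, ?_⟩
  · rw [Tr77.facesK hG.1 hne]
    have h1 : (Tr77.trunc G).darts.card = G.darts.card * 3 := by
      show (G.darts ×ˢ (Finset.univ : Finset (Fin 3))).card = _
      rw [Finset.card_product]
      simp
    have h2 : (Tr77.trunc G).verts = G.darts := rfl
    rw [h1, h2]
    have h3 := hG.2
    omega
  · intro h hh
    refine ⟨Tr77.opp0 h, Tr77.opp1 h, ?_, Tr77.rotK hh⟩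
    rw [Tr77.opp2, Tr77.pv_nx hh]

end RotWqo.Pb
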