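import Pool.Agent.Lib.MP_cb4a0f_co.Pb.Stmts
import Pool.Agent.Lib.MP_cb4a0f_co.Pl.Nx6

/-!
# MP_cb4a0f_co: planar rotated graphs of bounded branch-width, one exit (V5)
-/

open Classical

namespace RotWqo.Pb.V5x11

open RotWqo.Bag RotWqo.Hk RotWqo.Pl

variable {V H : Type}

/-- All half-edges at a vertex are reached from each of them by `nx`. -/
theorem nx_reach (G : RotGraph V H) {a b : H} (ha : a ∈ G.darts) (hb : b ∈ G.darts)
    (hab : G.base a = G.base b) : ∃ n, (nx G)^[n] a = b := by
  obtain ⟨l, hl⟩ := exists_rot_cons (mem_rot_base ha)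
  -- along the list
  have key : ∀ (m : List H) (p : List H) (x : H), G.rot (G.base a) ~r p ++ x :: m →
      ∀ y ∈ x :: m, ∃ n, (nx G)^[n] x = y := by
    intro m
    induction m with
    | nil =>
      intro p x _ y hy
      rw [List.mem_singleton] at hy
      exact ⟨0, hy.symm⟩
    | cons z m ih =>
      intro p x hr y hy
      rcases List.mem_cons.1 hy with rfl | hy
      · exact ⟨0, rfl⟩
      · have hx : x ∈ G.rot (G.base a) := hr.mem_iff.2 (by simp)
        have hbx : G.base x = G.base a := ((G.mem_rot _ _).1 hx).2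
        have h1 : nx G x = z := by
          refine nx_of_rot (l := m ++ p) ?_
          rw [hbx]
          refine hr.trans ?_
          simpa using (List.isRotated_append (l := p) (l' := x :: z :: m))
        obtain ⟨n, hn⟩ := ih (p ++ [x]) z (by simpa using hr) y hy
        refine ⟨n + 1, ?_⟩
        rw [Function.iterate_succ_apply, h1, hn]
  refine key l [] a (by simpa using hl) b ?_
  rw [← hl.mem_iff, hab]
  exact mem_rot_base hb

theorem adj_symm (G : RotGraph V H) {a b : H} (h : adj G a b) : adj G b a := by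
  rcases h with h | h | h | h
  · exact Or.inr (Or.inl h)
  · exact Or.inl h
  · exact Or.inr (Or.inr (Or.inr h))
  · exact Or.inr (Or.inr (Or.inl h))

/-- (V5) -/
theorem v5_11 (hB : StBond) (hT : StTrunc) : StOne := by
  intro V H G U hG hU a ha b hb hna hnb hab
  obtain ⟨hUs, hc1, hc2⟩ := hU
  have hne : G.darts.Nonempty := ⟨a, hUs ha⟩
  obtain ⟨K, hK, hKv, hKd, hKb, hKr⟩ := hT V H G hG hne
  have mk : ∀ {h : H}, h ∈ G.darts → ∀ i, (h, i) ∈ K.darts := by
    intro h hh i
    rw [hKd]
    exact Finset.mem_product.2 ⟨hh, Finset.mem_univ _⟩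
  -- connected sets of half-edges
  have conn : ∀ S ⊆ G.darts, Cn (adj G) S → Tc.Conn K S := by
    intro S hS hC Y hY hYn hYne hN
    obtain ⟨x, hx, y, hy, hyY, hxy⟩ := hC.2 Y hY hYn hYne
    have hxd : x ∈ G.darts := hS (hY hx)
    have hyd : y ∈ G.darts := hS hy
    have hyS : y ∈ S \ Y := Finset.mem_sdiff.2 ⟨hy, hyY⟩
    rcases hxy with h | h | h | h
    · have h1 := hN (x, 0) (mk hxd 0) (by rw [hKb]; exact hx)
      rw [(hKr x hxd).1, hKb, ← h] at h1
      exact h1 hyS
    · have h0 : y = G.opp x := by rw [h, G.opp_opp y hyd]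
      have h1 := hN (x, 0) (mk hxd 0) (by rw [hKb]; exact hx)
      rw [(hKr x hxd).1, hKb, ← h0] at h1
      exact h1 hyS
    · have h1 := hN (x, 1) (mk hxd 1) (by rw [hKb]; exact hx)
      rw [(hKr x hxd).2.1, hKb, ← h] at h1
      exact h1 hyS
    · have h1 := hN (x, 2) (mk hxd 2) (by rw [hKb]; exact hx)
      rw [h, (hKr y hyd).2.2.1, hKb] at h1
      exact h1 hyS
  -- the faces around the vertices
  have hfs : ∀ h ∈ G.darts, fs K (nx G h, 2) = (h, 2) := by
    intro h hh
    obtain ⟨-, -, h1, h2⟩ := hKr h hh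
    unfold fs
    rw [h1]
    refine nx_of_rot (l := [(h, 0)]) ?_
    rw [hKb, h2]
    exact ⟨1, rfl⟩
  have hit : ∀ n, ∀ h ∈ G.darts, (fs K)^[n] ((nx G)^[n] h, 2) = (h, 2) := by
    intro n
    induction n with
    | zero => intro h _; rfl
    | succ n ih =>
      intro h hh
      rw [Function.iterate_succ_apply (f := nx G), Function.iterate_succ_apply' (f := fs K),
        ih _ (nx_mem hh).1]
      exact hfs h hh
  have had := hUs ha
  have hbd := hUs hb
  have hna' := (nx_mem had).1
  have hnb' := (nx_mem hbd).1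
  obtain ⟨n, hn⟩ := nx_reach G hnb' hna' (by rw [(nx_mem had).2, (nx_mem hbd).2, hab])
  have e1 : (fs K)^[n] (nx G a, 2) = (nx G b, 2) := by
    have := hit n (nx G b) hnb'
    rw [hn] at this
    exact this
  -- the complement of `U`
  have hUc : K.verts \ (G.darts \ U) = U := by
    rw [hKv]
    exact Finset.sdiff_sdiff_eq_self hUs
  have hin : ∀ x ∈ U, nx G x ∉ U → ((nx G x, 2) : H × Fin 3) ∈ bd K (G.darts \ U) := by
    intro x hx hnx
    have hxd := hUs hx
    rw [mem_bd]
    refine ⟨mk (nx_mem hxd).1 2, ?_, ?_⟩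
    · rw [hKb]
      exact Finset.mem_sdiff.2 ⟨(nx_mem hxd).1, hnx⟩
    · rw [(hKr x hxd).2.2.1, hKb]
      exact fun h => (Finset.mem_sdiff.1 h).2 hx
  have e2 := hB H (H × Fin 3) K (G.darts \ U) hK (by rw [hKv]; exact Finset.sdiff_subset)
    ⟨nx G a, Finset.mem_sdiff.2 ⟨hna', hna⟩⟩ (by
      rw [hKv]
      intro h
      have h1 : a ∈ G.darts \ U := by rw [h]; exact had
      exact (Finset.mem_sdiff.1 h1).2 ha)
    (conn _ Finset.sdiff_subset hc2) (by rw [hUc]; exact conn _ hUs hc1)
    _ (hin a ha hna) _ (hin b hb hnb) ⟨n, e1⟩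
  have e3 : nx G a = nx G b := congrArg Prod.fst e2
  exact nx_injOn G had hbd e3

end RotWqo.Pb.V5x11
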