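import Pool.Agent.Lib.MP_cb4a0f_co.Pb.V4_77

/-!
# MP_cb4a0f_co: planar rotated graphs of bounded branch-width, arc carvings (row V6)
-/

open Classical

namespace RotWqo.Pb.Ac77

open RotWqo.Bag RotWqo.Hk RotWqo.Pl

variable {V H : Type*} {G : RotGraph V H}

theorem adj_symm (G : RotGraph V H) (a b : H) (h : adj G a b) : adj G b a := by
  unfold adj at h ⊢
  tauto

/-- A set of half-edges which is closed contains all half-edges. -/
theorem darts_closed (hC : Pl.Conn G) {S : Finset H} (hS : S ⊆ G.darts) (hne : S.Nonempty)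
    (clo : ∀ h ∈ G.darts, h ∈ S → G.opp h ∈ S) (cln : ∀ h ∈ G.darts, h ∈ S → nx G h ∈ S) :
    S = G.darts := by
  have h4 : S.image G.base = G.verts := by
    refine Fc11.conn_closed hC ?_ (hne.image _) ?_
    · intro v hv
      obtain ⟨x, hx, rfl⟩ := Finset.mem_image.1 hv
      exact G.base_mem x (hS hx)
    · intro x hx h5
      obtain ⟨y, hy, h6⟩ := Finset.mem_image.1 h5
      have h7 : x ∈ S := Tr77.nx_closed (P := fun z => z ∈ S) cln (hS hy) hx h6.symm hy
      exact Finset.mem_image_of_mem _ (clo x hx h7)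
  refine Finset.Subset.antisymm hS ?_
  intro x hx
  have h5 : G.base x ∈ S.image G.base := by
    rw [h4]
    exact G.base_mem x hx
  obtain ⟨y, hy, h6⟩ := Finset.mem_image.1 h5
  exact Tr77.nx_closed (P := fun z => z ∈ S) cln (hS hy) hx h6.symm hy

/-- The half-edges of a connected graph are connected. -/
theorem cn_darts (hC : Pl.Conn G) (hne : G.darts.Nonempty) : Cn (adj G) G.darts := by
  refine ⟨hne, fun T hT hTne hT' => ?_⟩
  by_contra hno
  push Not at hno
  apply hT'
  refine darts_closed hC hT hTne ?_ ?_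
  · intro h hh hT1
    by_contra h1
    exact hno h hT1 _ (G.opp_mem h hh) h1 (Or.inl rfl)
  · intro h hh hT1
    by_contra h1
    exact hno h hT1 _ (nx_mem hh).1 h1 (Or.inr (Or.inr (Or.inl rfl)))

/-- The component of `y` in `S`. -/
theorem exists_comp {α : Type*} {ad : α → α → Prop} (hs : ∀ a b, ad a b → ad b a) {S : Finset α}
    {y : α} (hy : y ∈ S) : ∃ A ⊆ S, y ∈ A ∧ Cn ad A ∧ ∀ a ∈ A, ∀ b ∈ S, ad a b → b ∈ A := by
  set A := S.filter (fun z => ∀ T ⊆ S, y ∈ T → (∀ a ∈ T, ∀ b ∈ S, ad a b → b ∈ T) → z ∈ T)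
    with hA
  have hyA : y ∈ A := Finset.mem_filter.2 ⟨hy, fun T _ h _ => h⟩
  have hcl : ∀ a ∈ A, ∀ b ∈ S, ad a b → b ∈ A := by
    intro a ha b hb hab
    rw [hA, Finset.mem_filter] at ha ⊢
    exact ⟨hb, fun T hT h1 h2 => h2 a (ha.2 T hT h1 h2) b hb hab⟩
  have hmin : ∀ T ⊆ S, y ∈ T → (∀ a ∈ T, ∀ b ∈ S, ad a b → b ∈ T) → A ⊆ T := by
    intro T hT h1 h2 z hz
    rw [hA, Finset.mem_filter] at hz
    exact hz.2 T hT h1 h2
  have hAS : A ⊆ S := Finset.filter_subset _ _
  refine ⟨A, hAS, hyA, ⟨⟨y, hyA⟩, fun T hT hTne hTA => ?_⟩, hcl⟩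
  by_contra hno
  push Not at hno
  by_cases hyT : y ∈ T
  · apply hTA
    refine Finset.Subset.antisymm hT (hmin T (hT.trans hAS) hyT ?_)
    intro a ha b hb hab
    by_contra hbT
    exact hno a ha b (hcl a (hT ha) b hb hab) hbT hab
  · obtain ⟨t, ht⟩ := hTne
    have h1 : A ⊆ A \ T := by
      refine hmin _ (Finset.sdiff_subset.trans hAS) (Finset.mem_sdiff.2 ⟨hyA, hyT⟩) ?_
      intro a ha b hb hab
      rw [Finset.mem_sdiff] at ha ⊢
      refine ⟨hcl a ha.1 b hb hab, fun hbT => ?_⟩
      exact hno b hbT a ha.1 ha.2 (hs a b hab)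
    exact (Finset.mem_sdiff.1 (h1 (hT ht))).2 ht

/-- If one half-edge is removed then at most two components remain. -/
theorem two_comps (hC : Pl.Conn G) {x : H} (hx : x ∈ G.darts) :
    ∃ A B : Finset H, G.darts.erase x = A ∪ B ∧ (A = ∅ ∨ Cn (adj G) A) ∧
      (B = ∅ ∨ Cn (adj G) B) := by
  set S := G.darts.erase x with hS
  have hcn := cn_darts hC ⟨x, hx⟩
  have hSsub : S ⊆ G.darts := Finset.erase_subset _ _
  have hxS : x ∉ S := Finset.notMem_erase _ _
  obtain ⟨A, hAS, hA1, hA2, hA3⟩ : ∃ A ⊆ S, (A = ∅ ∨ Cn (adj G) A) ∧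
      (∀ a ∈ A, ∀ b ∈ S, adj G a b → b ∈ A) ∧
      ∀ b ∈ G.darts, G.base b = G.base x → b = x ∨ b ∈ A := by
    by_cases hn : nx G x = x
    · refine ⟨∅, Finset.empty_subset _, Or.inl rfl, fun a ha => absurd ha (Finset.notMem_empty _),
        ?_⟩
      intro b hb hbx
      left
      refine Tr77.nx_closed (P := fun z => z = x) ?_ hx hb hbx rfl
      intro z _ hz
      rw [hz, hn]
    · have hnS : nx G x ∈ S := Finset.mem_erase.2 ⟨hn, (nx_mem hx).1⟩
      obtain ⟨A, h1, h2, h3, h4⟩ := exists_comp (adj_symm G) hnS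
      refine ⟨A, h1, Or.inr h3, h4, ?_⟩
      intro b hb hbx
      refine Tr77.nx_closed (P := fun z => z = x ∨ z ∈ A) ?_ hx hb hbx (Or.inl rfl)
      rintro z hz (rfl | hzA)
      · exact Or.inr h2
      · by_cases hzx : nx G z = x
        · exact Or.inl hzx
        · right
          exact h4 z hzA _ (Finset.mem_erase.2 ⟨hzx, (nx_mem hz).1⟩)
            (Or.inr (Or.inr (Or.inl rfl)))
  refine ⟨A, S \ A, (Finset.union_sdiff_of_subset hAS).symm, hA1, ?_⟩
  by_cases hB : S \ A = ∅
  · exact Or.inl hB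
  right
  refine ⟨Finset.nonempty_iff_ne_empty.2 hB, fun T hT hTne hTB => ?_⟩
  by_contra hno
  push Not at hno
  -- a closed part of the rest contains the other half of `x`
  have key : ∀ T' ⊆ S \ A, T'.Nonempty → (∀ a ∈ T', ∀ b ∈ S \ A, b ∉ T' → ¬ adj G a b) →
      G.opp x ∈ T' := by
    intro T' hT' hne' hcl'
    have hT'd : T' ⊆ G.darts := hT'.trans (Finset.sdiff_subset.trans hSsub)
    have hxT' : x ∉ T' := fun h => hxS (Finset.mem_sdiff.1 (hT' h)).1
    obtain ⟨a, ha, b, hb, hbT, hab⟩ := hcn.2 T' hT'd hne' (fun h => hxT' (by rw [h]; exact hx))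
    obtain ⟨haS, haA⟩ := Finset.mem_sdiff.1 (hT' ha)
    have hbx : b = x := by
      by_contra h
      have hbS : b ∈ S := Finset.mem_erase.2 ⟨h, hb⟩
      by_cases hbA : b ∈ A
      · exact haA (hA2 b hbA a haS (adj_symm G a b hab))
      · exact hcl' a ha b (Finset.mem_sdiff.2 ⟨hbS, hbA⟩) hbT hab
    subst hbx
    have had : a ∈ G.darts := hT'd ha
    have hab' : a ≠ b := fun h => hxT' (h ▸ ha)
    have hbase : G.base a = G.base b → False := by
      intro h
      rcases hA3 a had h with h1 | h1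
      · exact hab' h1
      · exact haA h1
    rcases hab with h | h | h | h
    · rw [h, G.opp_opp a had]
      exact ha
    · rw [← h]
      exact ha
    · exact (hbase (by rw [h, (nx_mem had).2])).elim
    · exact (hbase (by rw [h, (nx_mem hb).2])).elim
  have h1 := key T hT hTne (fun a ha b hb hbT => hno a ha b hb hbT)
  have h2 := key ((S \ A) \ T) Finset.sdiff_subset (by
    rw [Finset.sdiff_nonempty]
    intro h
    exact hTB (Finset.Subset.antisymm hT h)) (by
    intro a ha b hb hbT hab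
    rw [Finset.mem_sdiff] at ha
    have hbT' : b ∈ T := by
      by_contra h
      exact hbT (Finset.mem_sdiff.2 ⟨hb, h⟩)
    exact hno b hbT' a ha.1 ha.2 (adj_symm G a b hab))
  exact (Finset.mem_sdiff.1 h2).2 h1

/-! ### Unions of components -/

section
variable {A : Finset V}

theorem opp_in (hc : cut G A = 0) {h : H} (hh : h ∈ G.darts) (hA : G.base h ∈ A) :
    G.base (G.opp h) ∈ A := by
  by_contra h1
  have h2 : h ∈ bd G A := mem_bd.2 ⟨hh, hA, h1⟩
  unfold cut at hc
  rw [Finset.card_eq_zero.1 hc] at h2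
  exact absurd h2 (Finset.notMem_empty _)

theorem mem_dts77 {h : H} : h ∈ dts G A ↔ h ∈ G.darts ∧ G.base h ∈ A := by
  simp [dts]

theorem ind_darts (hc : cut G A = 0) : (ind G A).darts = dts G A := by
  ext h
  show h ∈ G.darts.filter _ ↔ _
  rw [Finset.mem_filter, mem_dts77]
  constructor
  · rintro ⟨h1, h2, -⟩
    exact ⟨h1, h2⟩
  · rintro ⟨h1, h2⟩
    exact ⟨h1, h2, opp_in hc h1 h2⟩

theorem ind_rot (hc : cut G A = 0) {v : V} (hv : v ∈ A) : (ind G A).rot v = G.rot v := by
  show (G.rot v).filter _ = _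
  rw [List.filter_eq_self]
  intro h hh
  obtain ⟨h1, h2⟩ := (G.mem_rot v h).1 hh
  rw [decide_eq_true_eq]
  have h3 : G.base h ∈ A := by rw [h2]; exact hv
  exact ⟨h3, opp_in hc h1 h3⟩

theorem ind_nx (hc : cut G A = 0) {h : H} (hh : h ∈ dts G A) : nx (ind G A) h = nx G h := by
  have h1 := (mem_dts77.1 hh).2
  unfold nx
  have h2 : (ind G A).base h = G.base h := rfl
  rw [h2, ind_rot hc h1]

end

/-- Counting. -/
theorem card_le_four {α : Type*} {w : ℕ} {F B₁ B₂ B₃ B₄ : Finset α}
    (h : F ⊆ B₁ ∪ B₂ ∪ B₃ ∪ B₄) (h1 : B₁.card ≤ w) (h2 : B₂.card ≤ w) (h3 : B₃.card ≤ w)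
    (h4 : B₄.card ≤ w) : F.card ≤ 4 * w := by
  have a1 := Finset.card_le_card h
  have a2 := Finset.card_union_le (B₁ ∪ B₂ ∪ B₃) B₄
  have a3 := Finset.card_union_le (B₁ ∪ B₂) B₃
  have a4 := Finset.card_union_le B₁ B₂
  omega

end RotWqo.Pb.Ac77

namespace RotWqo.Pb

open RotWqo.Bag RotWqo.Hk RotWqo.Pl

/-- row V6 -/
theorem v6_77 : StBC → StOne → StArcP := by
  intro hBC hOne w
  refine ⟨8 * w, ?_⟩
  intro V H G A t hA hc hP ht
  obtain ⟨htn, hts, htw⟩ := ht
  have hdts : (ind G A).darts = dts G A := Ac77.ind_darts hc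
  have hne : (ind G A).darts.Nonempty := by
    rw [hdts, ← hts]
    cases t with
    | leaf x => exact ⟨x, by simp [Tree.set, Tree.leaves]⟩
    | node l r =>
      have : ∀ s : Tree H, s.set.Nonempty := by
        intro s
        induction s with
        | leaf x => exact ⟨x, by simp [Tree.set, Tree.leaves]⟩
        | node l r ihl _ =>
          obtain ⟨x, hx⟩ := ihl
          refine ⟨x, ?_⟩
          simp only [Tree.set, Tree.leaves, List.mem_toFinset, List.mem_append] at hx ⊢
          exact Or.inl hx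
      exact this _
  have hC := hP.1
  obtain ⟨t', ht'n, ht's, ht'⟩ := hBC H (adj (ind G A)) (Ac77.adj_symm _) (ind G A).darts t htn
    (by rw [hts, hdts]) (Ac77.cn_darts hC hne) (fun x hx => Ac77.two_comps hC hx)
  rw [hdts] at ht's ht'
  refine ⟨t', ht'n, ht's, fun s hs => ?_⟩
  obtain ⟨hs1, s₁, s₂, s₃, s₄, i₁, i₂, i₃, i₄, hcov⟩ := ht' s hs
  have hsub : s.set ⊆ dts G A := by
    rcases hs1 with h | ⟨x, h⟩ | h
    · rw [h]
    · rw [h, Finset.singleton_subset_iff]
      have h1 : IsSub s t' := hs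
      have h2 : ∀ {s u : Tree H}, IsSub s u → s.set ⊆ u.set := by
        intro s u hsu
        induction hsu with
        | refl => exact Finset.Subset.refl _
        | left l r _ ih =>
          intro y hy
          have := ih hy
          simp only [Tree.set, Tree.leaves, List.mem_toFinset, List.mem_append] at this ⊢
          exact Or.inl this
        | right l r _ ih =>
          intro y hy
          have := ih hy
          simp only [Tree.set, Tree.leaves, List.mem_toFinset, List.mem_append] at this ⊢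
          exact Or.inr this
      rw [← ht's]
      exact h2 h1 (by rw [h]; exact Finset.mem_singleton_self x)
    · exact h.1
  have hnxm : ∀ h ∈ dts G A, nx G h ∈ dts G A := by
    intro h hh
    obtain ⟨h1, h2⟩ := Ac77.mem_dts77.1 hh
    exact Ac77.mem_dts77.2 ⟨(nx_mem h1).1, by rw [(nx_mem h1).2]; exact h2⟩
  have hopm : ∀ h ∈ dts G A, G.opp h ∈ dts G A := by
    intro h hh
    obtain ⟨h1, h2⟩ := Ac77.mem_dts77.1 hh
    exact Ac77.mem_dts77.2 ⟨G.opp_mem h h1, Ac77.opp_in hc h1 h2⟩
  have hone : ∀ a ∈ s.set, ∀ b ∈ s.set, nx G a ∉ s.set → nx G b ∉ s.set →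
      G.base a = G.base b → a = b := by
    intro a ha b hb hna hnb hab
    rcases hs1 with h | ⟨x, h⟩ | h
    · exfalso
      apply hna
      rw [h]
      exact hnxm a (hsub ha)
    · rw [h, Finset.mem_singleton] at ha hb
      rw [ha, hb]
    · rw [← hdts] at h
      refine hOne V H (ind G A) s.set hP h a ha b hb ?_ ?_ hab
      · rw [Ac77.ind_nx hc (hsub ha)]
        exact hna
      · rw [Ac77.ind_nx hc (hsub hb)]
        exact hnb
  refine ⟨hone, ?_, ?_⟩
  · -- exits
    have h1 : (s.set.filter (fun h => nx G h ∉ s.set)).card ≤ 4 * w := by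
      have h2 : ((s.set.filter (fun h => nx G h ∉ s.set)).image G.base).card =
          (s.set.filter (fun h => nx G h ∉ s.set)).card := by
        refine Finset.card_image_of_injOn ?_
        intro a ha b hb hab
        have ha' := Finset.mem_filter.1 (Finset.mem_coe.1 ha)
        have hb' := Finset.mem_filter.1 (Finset.mem_coe.1 hb)
        exact hone a ha'.1 b hb'.1 ha'.2 hb'.2 hab
      rw [← h2]
      refine Ac77.card_le_four (B₁ := bv G s₁.set) (B₂ := bv G s₂.set) (B₃ := bv G s₃.set)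
        (B₄ := bv G s₄.set) ?_ (htw s₁ i₁).1 (htw s₂ i₂).1 (htw s₃ i₃).1 (htw s₄ i₄).1
      intro v hv
      obtain ⟨h, hh, rfl⟩ := Finset.mem_image.1 hv
      obtain ⟨hh1, hh2⟩ := Finset.mem_filter.1 hh
      have hd := hsub hh1
      have hd' := (Ac77.mem_dts77.1 hd).1
      have hcase := hcov h hh1 (nx G h) (hnxm h hd) hh2 (by
        refine Or.inr (Or.inr (Or.inl ?_))
        rw [Ac77.ind_nx hc hd])
      have hbv : ∀ r : Tree H, (h ∈ r.set ↔ nx G h ∉ r.set) → G.base h ∈ bv G r.set := by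
        intro r hr
        unfold bv
        rw [Finset.mem_image]
        by_cases h3 : h ∈ r.set
        · exact ⟨h, Finset.mem_filter.2 ⟨h3, nx G h, (nx_mem hd').1, (nx_mem hd').2, hr.1 h3⟩, rfl⟩
        · have h4 : nx G h ∈ r.set := by
            by_contra h5
            exact h3 (hr.2 h5)
          exact ⟨nx G h, Finset.mem_filter.2 ⟨h4, h, hd', (nx_mem hd').2.symm, h3⟩,
            (nx_mem hd').2⟩
      rw [Finset.mem_union, Finset.mem_union, Finset.mem_union]
      rcases hcase with h3 | h3 | h3 | h3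
      · exact Or.inl (Or.inl (Or.inl (hbv _ h3)))
      · exact Or.inl (Or.inl (Or.inr (hbv _ h3)))
      · exact Or.inl (Or.inr (hbv _ h3))
      · exact Or.inr (hbv _ h3)
    omega
  · -- edges
    have hcr : ∀ r, IsSub r t →
        ((dts G A).filter (fun h => (h ∈ r.set ↔ G.opp h ∉ r.set))).card ≤ 2 * w := by
      intro r hr
      set E := r.set.filter (fun h => G.opp h ∉ r.set) with hE
      have hEw : E.card ≤ w := (htw r hr).2
      have h2 : (dts G A).filter (fun h => (h ∈ r.set ↔ G.opp h ∉ r.set)) ⊆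
          E ∪ E.image G.opp := by
        intro h hh
        obtain ⟨hh1, hh2⟩ := Finset.mem_filter.1 hh
        have hd' := (Ac77.mem_dts77.1 hh1).1
        rw [Finset.mem_union, Finset.mem_image]
        by_cases h3 : h ∈ r.set
        · exact Or.inl (Finset.mem_filter.2 ⟨h3, hh2.1 h3⟩)
        · right
          have h4 : G.opp h ∈ r.set := by
            by_contra h5
            exact h3 (hh2.2 h5)
          refine ⟨G.opp h, Finset.mem_filter.2 ⟨h4, ?_⟩, G.opp_opp h hd'⟩
          rw [G.opp_opp h hd']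
          exact h3
      have h3 := Finset.card_le_card h2
      have h4 := Finset.card_union_le E (E.image G.opp)
      have h5 := Finset.card_image_le (s := E) (f := G.opp)
      omega
    have h1 : (s.set.filter (fun h => G.opp h ∉ s.set)).card ≤ 4 * (2 * w) := by
      refine Ac77.card_le_four ?_ (hcr s₁ i₁) (hcr s₂ i₂) (hcr s₃ i₃) (hcr s₄ i₄)
      intro h hh
      obtain ⟨hh1, hh2⟩ := Finset.mem_filter.1 hh
      have hd := hsub hh1
      have hcase := hcov h hh1 (G.opp h) (hopm h hd) hh2 (Or.inl rfl)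
      rw [Finset.mem_union, Finset.mem_union, Finset.mem_union, Finset.mem_filter,
        Finset.mem_filter, Finset.mem_filter, Finset.mem_filter]
      rcases hcase with h3 | h3 | h3 | h3
      · exact Or.inl (Or.inl (Or.inl ⟨hd, h3⟩))
      · exact Or.inl (Or.inl (Or.inr ⟨hd, h3⟩))
      · exact Or.inl (Or.inr ⟨hd, h3⟩)
      · exact Or.inr ⟨hd, h3⟩
    omega

end RotWqo.Pb
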