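import Pool.Agent.Lib.MP_cb4a0f_co.Pl.All
import Pool.Agent.Lib.MP_cb4a0f_co.Pb.Final6
import Pool.Agent.Lib.MP_cb4a0f_co.Pb.IV0_6
import Pool.Agent.Lib.MP_cb4a0f_co.Pb.IV1_6
import Pool.Agent.Lib.MP_cb4a0f_co.Pb.IV2_97
import Pool.Agent.Lib.MP_cb4a0f_co.Pb.IV3_97
import Pool.Agent.Lib.MP_cb4a0f_co.Pb.I1_49
import Pool.Agent.Lib.MP_cb4a0f_co.Pb.I2_49
import Pool.Agent.Lib.MP_cb4a0f_co.Pb.II1_25
import Pool.Agent.Lib.MP_cb4a0f_co.Pb.II2_94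
import Pool.Agent.Lib.MP_cb4a0f_co.Pb.II3_59
import Pool.Agent.Lib.MP_cb4a0f_co.Pb.II4_23
import Pool.Agent.Lib.MP_cb4a0f_co.Pb.II5_23
import Pool.Agent.Lib.MP_cb4a0f_co.Pb.V1_46
import Pool.Agent.Lib.MP_cb4a0f_co.Pb.V2_46
import Pool.Agent.Lib.MP_cb4a0f_co.Pb.V3_88
import Pool.Agent.Lib.MP_cb4a0f_co.Pb.V4_77
import Pool.Agent.Lib.MP_cb4a0f_co.Pb.V5_11
import Pool.Agent.Lib.MP_cb4a0f_co.Pb.V6_77
import Pool.Agent.Lib.MP_cb4a0f_co.Pb.V7_23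
import Pool.Agent.Lib.MP_cb4a0f_co.Tc.T1_46

/-!
# MP_cb4a0f_co: planar rotated graphs of bounded branch-width, all modules but the torsos
-/

open Classical

namespace RotWqo.Pb

open RotWqo.Pl

theorem arcP_all : StArcP := v6_77 V2_46 (V5x11.v5_11 v3_88 v4_77)

theorem conn_all (hT : StTorso) : StConnW :=
  iv1_6 II94.II2_94 ii3_59 I1_49 I2_49 II1_25 II4_23 II5_23 hT Arc.iv0_6

theorem comps_all : StCompsW := C97.iv2_97 II94.II2_94 Arc.iv0_6 Tc.T1_46.stComps_46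

end RotWqo.Pb
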