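import Pool.Agent.Lib.MP_cb4a0f_co.Pb.Stmts

/-!
# MP_cb4a0f_co: the caterpillar of a family of bonds
-/

open Classical

namespace RotWqo.Pb

section Cat

variable {α : Type}

theorem isSub_node49 {s l r : Tree α} (h : IsSub s (.node l r)) :
    s = .node l r ∨ IsSub s l ∨ IsSub s r := by
  cases h with
  | refl => exact Or.inl rfl
  | left _ _ h => exact Or.inr (Or.inl h)
  | right _ _ h => exact Or.inr (Or.inr h)

theorem set_node49 (l r : Tree α) : (Tree.node l r).set = l.set ∪ r.set := by
  ext x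
  simp [Tree.set, Tree.leaves]

theorem leaves_node49 {l r : Tree α} (hl : l.leaves.Nodup) (hr : r.leaves.Nodup)
    (h : Disjoint l.set r.set) : (Tree.node l r).leaves.Nodup := by
  rw [Tree.leaves, List.nodup_append]
  refine ⟨hl, hr, ?_⟩
  intro a ha b hb hab
  subst hab
  exact Finset.disjoint_left.1 h (List.mem_toFinset.2 ha) (List.mem_toFinset.2 hb)

theorem cat49 (hE : StExt) (adj : α → α → Prop) (hs : ∀ a b, adj a b → adj b a)
    (U W : Finset α) (P : Finset (Finset α)) (hW : Bond adj U W) (hP : ∀ X ∈ P, Bond adj U X)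
    (hdisj : ∀ X ∈ P, ∀ Y ∈ P, X ≠ Y → Disjoint X Y) (hPW : P.biUnion id = W)
    (tr : Finset α → Tree α) (htr : ∀ X ∈ P, (tr X).leaves.Nodup ∧ (tr X).set = X) :
    ∃ t' : Tree α, t'.leaves.Nodup ∧ t'.set = W ∧ ∀ s, IsSub s t' →
      (∃ X ∈ P, IsSub s (tr X)) ∨
      (∃ A ⊆ P, A.Nonempty ∧ s.set = A.biUnion id ∧ Bond adj U s.set) := by
  have hPne : P.Nonempty := by
    obtain ⟨x, hx⟩ := hW.2.1.1
    rw [← hPW] at hx
    obtain ⟨X, hX, -⟩ := Finset.mem_biUnion.1 hx
    exact ⟨X, hX⟩
  have key : ∀ n, n + 1 ≤ P.card → ∃ A ⊆ P, A.card = n + 1 ∧ Bond adj U (A.biUnion id) ∧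
      ∃ t' : Tree α, t'.leaves.Nodup ∧ t'.set = A.biUnion id ∧ ∀ s, IsSub s t' →
        (∃ X ∈ P, IsSub s (tr X)) ∨
        (∃ A ⊆ P, A.Nonempty ∧ s.set = A.biUnion id ∧ Bond adj U s.set) := by
    intro n
    induction n with
    | zero =>
      intro _
      obtain ⟨X, hX⟩ := hPne
      refine ⟨{X}, Finset.singleton_subset_iff.2 hX, by simp, ?_, tr X, (htr X hX).1, ?_, ?_⟩
      · rw [Finset.singleton_biUnion]
        exact hP X hX
      · rw [Finset.singleton_biUnion]
        exact (htr X hX).2
      · intro s hs'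
        exact Or.inl ⟨X, hX, hs'⟩
    | succ n ih =>
      intro hn
      obtain ⟨A, hAP, hAc, hAB, t1, ht1, ht2, ht3⟩ := ih (by omega)
      have hAne : A.Nonempty := by
        rw [← Finset.card_pos]
        omega
      have hAneP : A ≠ P := by
        rintro rfl
        omega
      obtain ⟨X, hX, hXA, hXB⟩ := hE α adj hs U W P hW hP hdisj hPW A hAP hAne hAneP hAB
      have hd : Disjoint t1.set (tr X).set := by
        rw [ht2, (htr X hX).2, Finset.disjoint_left]
        intro x hx hxX
        obtain ⟨Y, hY, hxY⟩ := Finset.mem_biUnion.1 hx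
        have hne : Y ≠ X := by
          rintro rfl
          exact hXA hY
        exact Finset.disjoint_left.1 (hdisj Y (hAP hY) X hX hne) hxY hxX
      have hset : (Tree.node t1 (tr X)).set = (insert X A).biUnion id := by
        rw [set_node49, ht2, (htr X hX).2, Finset.biUnion_insert, Finset.union_comm]
        rfl
      refine ⟨insert X A, Finset.insert_subset hX hAP, ?_, hXB, .node t1 (tr X),
        leaves_node49 ht1 (htr X hX).1 hd, hset, ?_⟩
      · rw [Finset.card_insert_of_notMem hXA, hAc]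
      · intro s hs'
        rcases isSub_node49 hs' with rfl | h | h
        · refine Or.inr ⟨insert X A, Finset.insert_subset hX hAP,
            Finset.insert_nonempty X A, hset, ?_⟩
          rw [hset]
          exact hXB
        · exact ht3 s h
        · exact Or.inl ⟨X, hX, h⟩
  obtain ⟨A, hAP, hAc, hAB, t', h1, h2, h3⟩ := key (P.card - 1) (by
    have := hPne.card_pos
    omega)
  have hAeq : A = P := by
    apply Finset.eq_of_subset_of_card_le hAP
    have := hPne.card_pos
    omega
  subst hAeq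
  exact ⟨t', h1, by rw [h2, hPW], h3⟩

end Cat

end RotWqo.Pb
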