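import Pool.Agent.Lib.MP_cb4a0f_co.Pl.Defs
import Pool.Agent.Lib.MP_cb4a0f_co.Tc.Defs

/-!
# MP_cb4a0f_co: planar rotated graphs of bounded branch-width, definitions of the modules
-/

open Classical

namespace RotWqo.Pb

open RotWqo.Bag RotWqo.Hk RotWqo.Pl

variable {V H V' H' : Type*}

/-! ### Finite graphs, abstractly -/

/-- `S` is nonempty and connected in the graph with the adjacency `adj`. -/
def Cn {α : Type*} (adj : α → α → Prop) (S : Finset α) : Prop :=
  S.Nonempty ∧ ∀ T ⊆ S, T.Nonempty → T ≠ S → ∃ a ∈ T, ∃ b ∈ S, b ∉ T ∧ adj a b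

/-- `S` and its complement in `U` are connected. -/
def Bond {α : Type*} (adj : α → α → Prop) (U S : Finset α) : Prop :=
  S ⊆ U ∧ Cn adj S ∧ Cn adj (U \ S)

/-- Adjacency of half-edges: the two halves of an edge, and successive half-edges at a vertex. -/
def adj (G : RotGraph V H) (a b : H) : Prop :=
  b = G.opp a ∨ a = G.opp b ∨ b = nx G a ∨ a = nx G b

/-! ### Decompositions into half-edges -/

/-- The vertices with half-edges in `S` and half-edges not in `S`. -/
noncomputable def bv (G : RotGraph V H) (S : Finset H) : Finset V :=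
  (S.filter (fun h => ∃ g ∈ G.darts, G.base g = G.base h ∧ g ∉ S)).image G.base

/-- A branch decomposition of width at most `k` of the piece `(G, A)`, with half-edges as leaves:
below every node, at most `k` vertices have half-edges both in the set and outside, and at most `k`
edges have exactly one half in the set. -/
def IsBr (k : ℕ) (G : RotGraph V H) (A : Finset V) (t : Tree H) : Prop :=
  t.leaves.Nodup ∧ t.set = dts G A ∧ ∀ s, IsSub s t →
    (bv G s.set).card ≤ k ∧ (s.set.filter (fun h => G.opp h ∉ s.set)).card ≤ k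

/-- A carving of the half-edges at `A` into arcs: below every node, the half-edges at each vertex
are consecutive in the cyclic order, at most `k` vertices have half-edges both in the set and
outside, and at most `k` edges have exactly one half in the set. -/
def IsACar (k : ℕ) (G : RotGraph V H) (A : Finset V) (t : Tree H) : Prop :=
  t.leaves.Nodup ∧ t.set = dts G A ∧ ∀ s, IsSub s t →
    (∀ a ∈ s.set, ∀ b ∈ s.set, nx G a ∉ s.set → nx G b ∉ s.set → G.base a = G.base b → a = b) ∧
    (s.set.filter (fun h => nx G h ∉ s.set)).card ≤ k ∧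
    (s.set.filter (fun h => G.opp h ∉ s.set)).card ≤ k

/-! ### Gomory-Hu families -/

/-- A laminar family of minimum edge cuts with fewer than `M` edges in the part `A` of `G`, which
contains a minimum cut for each pair of vertices separated by fewer than `M` edges. -/
structure IsGH (M : ℕ) (G : RotGraph V H) (A : Finset V) (T : Finset (Finset V)) : Prop where
  top : A ∈ T
  sub : ∀ X ∈ T, X ⊆ A
  ne : ∀ X ∈ T, X.Nonempty
  lam : ∀ X ∈ T, ∀ Y ∈ T, X ⊆ Y ∨ Y ⊆ X ∨ Disjoint X Y
  min : ∀ X ∈ T, X ≠ A → cut G X < M ∧ ∃ a ∈ X, ∃ b ∈ A, b ∉ X ∧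
    ∀ Z ⊆ A, a ∈ Z → b ∉ Z → cut G X ≤ cut G Z
  sep : ∀ u ∈ A, ∀ v ∈ A, (∃ Z ⊆ A, u ∈ Z ∧ v ∉ Z ∧ cut G Z < M) →
    ∃ X ∈ T, ((u ∈ X ∧ v ∉ X) ∨ (v ∈ X ∧ u ∉ X)) ∧ ∀ Z ⊆ A, u ∈ Z → v ∉ Z → cut G X ≤ cut G Z

/-! ### Contraction with prescribed orders -/

/-- The list of the half-edges of the set `X` in the contracted graph: the prescribed one if it
is possible. -/
noncomputable def lgo (G : RotGraph V H) (C : Finset (Finset V)) (o : Finset V → List H)
    (X : Finset V) : List H :=
  if (o X).Nodup ∧ ∀ h, h ∈ o X ↔ h ∈ Tc.lgs G C X then o X else Tc.lgs G C X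

theorem lgo_nodup (G : RotGraph V H) (C : Finset (Finset V)) (o : Finset V → List H)
    (X : Finset V) : (lgo G C o X).Nodup := by
  unfold lgo
  split_ifs with h
  · exact h.1
  · exact Finset.nodup_toList _

theorem mem_lgo (G : RotGraph V H) (C : Finset (Finset V)) (o : Finset V → List H)
    (X : Finset V) (h : H) : h ∈ lgo G C o X ↔ h ∈ Tc.lgs G C X := by
  unfold lgo
  split_ifs with h1
  · exact h1.2 h
  · exact Iff.rfl

/-- The lists of the contracted graph. -/
noncomputable def ctrR (G : RotGraph V H) (C : Finset (Finset V)) (o : Finset V → List H) :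
    V ⊕ Finset V → List (H ⊕ (Finset V × Bool))
  | .inl v => Tc.ctrR G C (.inl v)
  | .inr X => if X ∈ C then (lgo G C o X).map .inl ++ [.inr (X, false), .inr (X, true)] else []

/-- The contracted graph with prescribed orders: each set in `C` becomes a vertex with the order
`o X`, and with a loop as a mark. -/
noncomputable def ctrO (G : RotGraph V H) (C : Finset (Finset V)) (o : Finset V → List H) :
    RotGraph (V ⊕ Finset V) (H ⊕ (Finset V × Bool)) where
  verts := (Tc.ctr G C).verts
  darts := (Tc.ctr G C).darts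
  base := (Tc.ctr G C).base
  opp := (Tc.ctr G C).opp
  rot := ctrR G C o
  base_mem := (Tc.ctr G C).base_mem
  opp_mem := (Tc.ctr G C).opp_mem
  opp_opp := (Tc.ctr G C).opp_opp
  opp_ne := (Tc.ctr G C).opp_ne
  nodup := by
    rintro (v | X)
    · exact (Tc.ctr G C).nodup (.inl v)
    · simp only [ctrR]
      split_ifs
      · rw [List.nodup_append]
        refine ⟨(lgo_nodup G C o X).map Sum.inl_injective, by simp, ?_⟩
        intro a ha b hb hab
        subst hab
        rw [List.mem_map] at ha
        obtain ⟨h, -, rfl⟩ := ha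
        simp at hb
      · exact List.nodup_nil
  mem_rot := by
    rintro (v | X) h
    · exact (Tc.ctr G C).mem_rot (.inl v) h
    · rw [← (Tc.ctr G C).mem_rot (.inr X) h]
      change h ∈ ctrR G C o (.inr X) ↔ h ∈ Tc.ctrR G C (.inr X)
      simp only [ctrR, Tc.ctrR]
      split_ifs
      · rw [List.mem_append, List.mem_append, List.mem_map, List.mem_map]
        simp only [mem_lgo]
      · exact Iff.rfl

/-- `C` is a family of disjoint nonempty sets, each of them contained in `S` or disjoint from `S`,
and `o` orders their boundary half-edges. -/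
structure FamO (G : RotGraph V H) (S : Finset V) (C : Finset (Finset V))
    (o : Finset V → List H) : Prop where
  verts : ∀ X ∈ C, X ⊆ G.verts
  side : ∀ X ∈ C, X ⊆ S ∨ Disjoint X S
  ne : ∀ X ∈ C, X.Nonempty
  disj : ∀ X ∈ C, ∀ Y ∈ C, X ≠ Y → Disjoint X Y
  nodup : ∀ X ∈ C, (o X).Nodup
  mem : ∀ X ∈ C, ∀ h, h ∈ o X ↔ h ∈ bd G X

/-- Embedding of pieces that respects the orders of the boundary half-edges. -/
def MPEO (r : V → V' → Prop) (G : RotGraph V H) (A : Finset V) (l : List H)
    (G' : RotGraph V' H') (A' : Finset V') (l' : List H') : Prop :=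
  ∃ β, PE r G A G' A' β ∧ l.map β = l'

/-- Every noncrossing matching of boundary half-edges, in the cyclic order `l`, is realised inside
`X`. -/
def TravX (G : RotGraph V H) (X : Finset V) (l : List H) : Prop :=
  ∀ N : H → H → Prop, (∀ a b, N a b → N b a) → (∀ a b c, N a b → N a c → b = c) →
    (∀ a b, N a b → a ∈ bd G X) → NC N (l.filter (fun a => decide (∃ b, N a b))) →
    ∃ M : H → H → Prop, (∀ a b, M a b → M b a) ∧ (∀ a b c, M a b → M a c → b = c) ∧
      (∀ a b, M a b → a ∈ G.darts ∧ G.base a ∈ X ∧ G.base b = G.base a) ∧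
      (∀ v ∈ X, NC M ((G.rot v).filter (fun a => decide (∃ b, M a b)))) ∧
      ∀ a b, N a b → Run G.opp M (G.opp a) b

/-- The lists of half-edges are rotated. -/
structure RotEq (G K : RotGraph V H) : Prop where
  verts : K.verts = G.verts
  darts : K.darts = G.darts
  base : K.base = G.base
  opp : K.opp = G.opp
  rot : ∀ v, K.rot v ~r G.rot v

/-- The contracted sets for the node `X` of the family `T`: its children and the rest of the
graph. -/
noncomputable def fam (G : RotGraph V H) (T : Finset (Finset V)) (X : Finset V) :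
    Finset (Finset V) :=
  Tc.chd T X ∪ (if X = G.verts then ∅ else {G.verts \ X})

/-! ### Induced subgraphs, truncation -/

/-- The subgraph induced by `A`. -/
noncomputable def ind (G : RotGraph V H) (A : Finset V) : RotGraph V H where
  verts := G.verts.filter (fun v => v ∈ A)
  darts := G.darts.filter (fun h => G.base h ∈ A ∧ G.base (G.opp h) ∈ A)
  base := G.base
  opp := G.opp
  rot v := (G.rot v).filter (fun h => decide (G.base h ∈ A ∧ G.base (G.opp h) ∈ A))
  base_mem h hh := by
    rw [Finset.mem_filter] at hh ⊢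
    exact ⟨G.base_mem h hh.1, hh.2.1⟩
  opp_mem h hh := by
    rw [Finset.mem_filter] at hh ⊢
    exact ⟨G.opp_mem h hh.1, hh.2.2, by rw [G.opp_opp h hh.1]; exact hh.2.1⟩
  opp_opp h hh := G.opp_opp h (Finset.mem_filter.1 hh).1
  opp_ne h hh := G.opp_ne h (Finset.mem_filter.1 hh).1
  nodup v := (G.nodup v).filter _
  mem_rot v h := by
    rw [List.mem_filter, G.mem_rot, Finset.mem_filter]
    simp only [decide_eq_true_eq]
    tauto

/-- The half-edge that precedes `h` in the rotation at its end. -/
noncomputable def pv (G : RotGraph V H) (h : H) : H :=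
  if hh : ∃ g ∈ G.darts, nx G g = h then hh.choose else h

end RotWqo.Pb
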