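import Pool.Agent.Lib.MP_cb4a0f_co.Pb.Stmts

/-!
# MP_cb4a0f_co: connected components and the filling of a connected set
-/

open Classical

namespace RotWqo.Pb

section Fill

variable {α : Type*} {adj : α → α → Prop}

theorem Cn.un49 (hs : ∀ a b, adj a b → adj b a) {S T : Finset α} (hS : Cn adj S)
    (hT : Cn adj T) {s t : α} (hsS : s ∈ S) (htT : t ∈ T) (hst : adj s t) :
    Cn adj (S ∪ T) := by
  refine ⟨⟨s, Finset.mem_union_left _ hsS⟩, ?_⟩
  intro X hX hne hneq
  by_cases h1 : (X ∩ S).Nonempty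
  · by_cases h2 : X ∩ S = S
    · have hSX : S ⊆ X := by
        intro x hx
        rw [← h2] at hx
        exact (Finset.mem_inter.1 hx).1
      by_cases h3 : t ∈ X
      · have h4 : X ∩ T ≠ T := by
          intro h
          apply hneq
          refine Finset.Subset.antisymm hX (Finset.union_subset hSX ?_)
          intro x hx
          rw [← h] at hx
          exact (Finset.mem_inter.1 hx).1
        obtain ⟨a, ha, b, hb, hbX, hab⟩ := hT.2 (X ∩ T) Finset.inter_subset_right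
          ⟨t, Finset.mem_inter.2 ⟨h3, htT⟩⟩ h4
        refine ⟨a, (Finset.mem_inter.1 ha).1, b, Finset.mem_union_right _ hb, ?_, hab⟩
        intro hb'
        exact hbX (Finset.mem_inter.2 ⟨hb', hb⟩)
      · exact ⟨s, hSX hsS, t, Finset.mem_union_right _ htT, h3, hst⟩
    · obtain ⟨a, ha, b, hb, hbX, hab⟩ := hS.2 (X ∩ S) Finset.inter_subset_right h1 h2
      refine ⟨a, (Finset.mem_inter.1 ha).1, b, Finset.mem_union_left _ hb, ?_, hab⟩
      intro hb'
      exact hbX (Finset.mem_inter.2 ⟨hb', hb⟩)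
  · have h2 : ∀ x ∈ X, x ∉ S := fun x hx hxS => h1 ⟨x, Finset.mem_inter.2 ⟨hx, hxS⟩⟩
    have hXT : X ⊆ T := by
      intro x hx
      rcases Finset.mem_union.1 (hX hx) with h | h
      · exact absurd h (h2 x hx)
      · exact h
    by_cases h3 : X = T
    · subst h3
      exact ⟨t, htT, s, Finset.mem_union_left _ hsS, fun h => h2 s h hsS, hs _ _ hst⟩
    · obtain ⟨a, ha, b, hb, hbX, hab⟩ := hT.2 X hXT hne h3
      exact ⟨a, ha, b, Finset.mem_union_right _ hb, hbX, hab⟩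

theorem Cn.sg49 (x : α) : Cn adj {x} := by
  refine ⟨Finset.singleton_nonempty x, ?_⟩
  intro T hT hne hneq
  exact absurd ((Finset.subset_singleton_iff.1 hT).resolve_left hne.ne_empty) hneq

/-- two connected sets which meet have a connected union -/
theorem Cn.meet49 {S T : Finset α} (hS : Cn adj S)
    (hT : Cn adj T) {s : α} (hsS : s ∈ S) (hsT : s ∈ T) : Cn adj (S ∪ T) := by
  refine ⟨⟨s, Finset.mem_union_left _ hsS⟩, ?_⟩
  intro X hX hne hneq
  by_cases h1 : (X ∩ S).Nonempty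
  · by_cases h2 : X ∩ S = S
    · have hSX : S ⊆ X := by
        intro x hx
        rw [← h2] at hx
        exact (Finset.mem_inter.1 hx).1
      have h4 : X ∩ T ≠ T := by
        intro h
        apply hneq
        refine Finset.Subset.antisymm hX (Finset.union_subset hSX ?_)
        intro x hx
        rw [← h] at hx
        exact (Finset.mem_inter.1 hx).1
      obtain ⟨a, ha, b, hb, hbX, hab⟩ := hT.2 (X ∩ T) Finset.inter_subset_right
        ⟨s, Finset.mem_inter.2 ⟨hSX hsS, hsT⟩⟩ h4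
      refine ⟨a, (Finset.mem_inter.1 ha).1, b, Finset.mem_union_right _ hb, ?_, hab⟩
      intro hb'
      exact hbX (Finset.mem_inter.2 ⟨hb', hb⟩)
    · obtain ⟨a, ha, b, hb, hbX, hab⟩ := hS.2 (X ∩ S) Finset.inter_subset_right h1 h2
      refine ⟨a, (Finset.mem_inter.1 ha).1, b, Finset.mem_union_left _ hb, ?_, hab⟩
      intro hb'
      exact hbX (Finset.mem_inter.2 ⟨hb', hb⟩)
  · have h2 : ∀ x ∈ X, x ∉ S := fun x hx hxS => h1 ⟨x, Finset.mem_inter.2 ⟨hx, hxS⟩⟩
    have hXT : X ⊆ T := by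
      intro x hx
      rcases Finset.mem_union.1 (hX hx) with h | h
      · exact absurd h (h2 x hx)
      · exact h
    have h3 : X ≠ T := by
      rintro rfl
      exact h2 s hsT hsS
    obtain ⟨a, ha, b, hb, hbX, hab⟩ := hT.2 X hXT hne h3
    exact ⟨a, ha, b, Finset.mem_union_right _ hb, hbX, hab⟩

/-- `X` is a connected component of the graph induced by `S`. -/
def IsCp49 (adj : α → α → Prop) (S X : Finset α) : Prop :=
  X ⊆ S ∧ Cn adj X ∧ ∀ x ∈ X, ∀ y ∈ S, adj x y → y ∈ X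

theorem IsCp49.sub {S K C : Finset α} (h : IsCp49 adj S K) (hC : Cn adj C) (hCS : C ⊆ S) {x : α}
    (hxC : x ∈ C) (hxK : x ∈ K) : C ⊆ K := by
  by_contra hne
  obtain ⟨a, ha, b, hb, hbn, hab⟩ := hC.2 (C ∩ K) Finset.inter_subset_left
    ⟨x, Finset.mem_inter.2 ⟨hxC, hxK⟩⟩ (by
      intro h'
      apply hne
      intro y hy
      rw [← h'] at hy
      exact (Finset.mem_inter.1 hy).2)
  exact hbn (Finset.mem_inter.2 ⟨hb, h.2.2 a (Finset.mem_inter.1 ha).2 b (hCS hb) hab⟩)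

theorem IsCp49.eq {S K C : Finset α} (h : IsCp49 adj S K) (h' : IsCp49 adj S C) {x : α}
    (hxC : x ∈ C) (hxK : x ∈ K) : K = C :=
  Finset.Subset.antisymm (h'.sub h.2.1 h.1 hxK hxC) (h.sub h'.2.1 h'.1 hxC hxK)

theorem exists_cp49 (hs : ∀ a b, adj a b → adj b a) {O S : Finset α} (hO : Cn adj O)
    (hOS : O ⊆ S) : ∃ K, IsCp49 adj S K ∧ O ⊆ K := by
  obtain ⟨K, hK, hmax⟩ := Finset.exists_max_image
    (S.powerset.filter (fun K => Cn adj K ∧ O ⊆ K)) (fun K => K.card)
    ⟨O, by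
      rw [Finset.mem_filter, Finset.mem_powerset]
      exact ⟨hOS, hO, subset_rfl⟩⟩
  rw [Finset.mem_filter, Finset.mem_powerset] at hK
  refine ⟨K, ⟨hK.1, hK.2.1, ?_⟩, hK.2.2⟩
  intro x hx y hy hxy
  by_contra hyK
  have h1 := hmax (K ∪ {y}) (by
    rw [Finset.mem_filter, Finset.mem_powerset]
    refine ⟨Finset.union_subset hK.1 (Finset.singleton_subset_iff.2 hy),
      Cn.un49 hs hK.2.1 (Cn.sg49 y) hx (Finset.mem_singleton_self y) hxy,
      hK.2.2.trans Finset.subset_union_left⟩)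
  rw [Finset.card_union_of_disjoint (by simpa using hyK), Finset.card_singleton] at h1
  omega

/-- the component of `S` that contains `O` -/
noncomputable def cp49 (adj : α → α → Prop) (S O : Finset α) : Finset α :=
  if h : ∃ K, IsCp49 adj S K ∧ O ⊆ K then h.choose else ∅

theorem cp49_spec (hs : ∀ a b, adj a b → adj b a) {O S : Finset α} (hO : Cn adj O)
    (hOS : O ⊆ S) : IsCp49 adj S (cp49 adj S O) ∧ O ⊆ cp49 adj S O := by
  have h := exists_cp49 hs hO hOS
  rw [cp49, dif_pos h]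
  exact h.choose_spec

/-- the filling of `X`, seen from `O` -/
noncomputable def fl49 (adj : α → α → Prop) (U O X : Finset α) : Finset α :=
  U \ cp49 adj (U \ X) O

/-- the standing hypotheses -/
structure Fh49 (adj : α → α → Prop) (U O X : Finset α) : Prop where
  symm : ∀ a b, adj a b → adj b a
  hU : Cn adj U
  hO : Cn adj O
  OU : O ⊆ U
  hX : Cn adj X
  XU : X ⊆ U
  disj : Disjoint X O

namespace Fh49

variable {U O X Y : Finset α}

theorem OUX (h : Fh49 adj U O X) : O ⊆ U \ X := by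
  intro x hx
  rw [Finset.mem_sdiff]
  exact ⟨h.OU hx, fun h' => Finset.disjoint_left.1 h.disj h' hx⟩

theorem cp (h : Fh49 adj U O X) : IsCp49 adj (U \ X) (cp49 adj (U \ X) O) :=
  (cp49_spec h.symm h.hO h.OUX).1

theorem Ocp (h : Fh49 adj U O X) : O ⊆ cp49 adj (U \ X) O :=
  (cp49_spec h.symm h.hO h.OUX).2

theorem mem_fl (x : α) : x ∈ fl49 adj U O X ↔ x ∈ U ∧ x ∉ cp49 adj (U \ X) O := by
  rw [fl49, Finset.mem_sdiff]

theorem sub_fl (h : Fh49 adj U O X) : X ⊆ fl49 adj U O X := by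
  intro x hx
  rw [mem_fl]
  refine ⟨h.XU hx, fun h' => ?_⟩
  have := h.cp.1 h'
  rw [Finset.mem_sdiff] at this
  exact this.2 hx

theorem fl_disj (h : Fh49 adj U O X) : Disjoint (fl49 adj U O X) O := by
  rw [Finset.disjoint_left]
  intro x hx hxO
  rw [mem_fl] at hx
  exact hx.2 (h.Ocp hxO)

theorem fl_sub : fl49 adj U O X ⊆ U := Finset.sdiff_subset

theorem leave (h : Fh49 adj U O X) {a b : α} (ha : a ∈ fl49 adj U O X) (hb : b ∈ U)
    (hbn : b ∉ fl49 adj U O X) (hab : adj a b) : a ∈ X := by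
  by_contra haX
  rw [mem_fl] at ha hbn
  have hbK : b ∈ cp49 adj (U \ X) O := by
    by_contra h'
    exact hbn ⟨hb, h'⟩
  exact ha.2 (h.cp.2.2 b hbK a (Finset.mem_sdiff.2 ⟨ha.1, haX⟩) (h.symm _ _ hab))

theorem sdiff_fl (h : Fh49 adj U O X) : U \ fl49 adj U O X = cp49 adj (U \ X) O := by
  ext x
  rw [Finset.mem_sdiff, mem_fl]
  have h9 : x ∈ cp49 adj (U \ X) O → x ∈ U \ X := fun hx => h.cp.1 hx
  rw [Finset.mem_sdiff] at h9
  tauto

theorem cn_fl (h : Fh49 adj U O X) : Cn adj (fl49 adj U O X) := by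
  obtain ⟨x0, hx0⟩ := h.hX.1
  refine ⟨⟨x0, h.sub_fl hx0⟩, ?_⟩
  obtain ⟨o, ho⟩ := h.hO.1
  have hofl : o ∉ fl49 adj U O X := fun h' => Finset.disjoint_left.1 h.fl_disj h' ho
  -- a set which does not meet `X` has an edge to the rest of the filling
  have key : ∀ T ⊆ fl49 adj U O X, T.Nonempty → Disjoint T X →
      ∃ a ∈ T, ∃ b ∈ fl49 adj U O X, b ∉ T ∧ adj a b := by
    intro T hT hne hd
    obtain ⟨a, ha, b, hb, hbT, hab⟩ := h.hU.2 T (hT.trans fl_sub) hne (by
      rintro rfl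
      exact hofl (hT (h.OU ho)))
    refine ⟨a, ha, b, ?_, hbT, hab⟩
    by_contra hbn
    exact Finset.disjoint_left.1 hd ha (h.leave (hT ha) hb hbn hab)
  intro T hT hne hneq
  by_cases h1 : Disjoint T X
  · exact key T hT hne h1
  · by_cases h2 : X ⊆ T
    · have h3 : ((fl49 adj U O X) \ T).Nonempty := by
        rw [Finset.sdiff_nonempty]
        intro h'
        exact hneq (Finset.Subset.antisymm hT h')
      obtain ⟨a, ha, b, hb, hbn, hab⟩ := key _ Finset.sdiff_subset h3 (by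
        rw [Finset.disjoint_left]
        intro x hx hxX
        exact (Finset.mem_sdiff.1 hx).2 (h2 hxX))
      rw [Finset.mem_sdiff] at ha hbn
      have hbT : b ∈ T := by
        by_contra h'
        exact hbn ⟨hb, h'⟩
      exact ⟨b, hbT, a, ha.1, ha.2, h.symm _ _ hab⟩
    · rw [Finset.not_disjoint_iff] at h1
      obtain ⟨x, hxT, hxX⟩ := h1
      obtain ⟨a, ha, b, hb, hbn, hab⟩ := h.hX.2 (T ∩ X) Finset.inter_subset_right
        ⟨x, Finset.mem_inter.2 ⟨hxT, hxX⟩⟩ (by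
          intro h'
          apply h2
          intro y hy
          rw [← h'] at hy
          exact (Finset.mem_inter.1 hy).1)
      refine ⟨a, (Finset.mem_inter.1 ha).1, b, h.sub_fl hb, ?_, hab⟩
      intro h'
      exact hbn (Finset.mem_inter.2 ⟨h', hb⟩)

theorem bond (h : Fh49 adj U O X) : Bond adj U (fl49 adj U O X) := by
  refine ⟨fl_sub, h.cn_fl, ?_⟩
  rw [h.sdiff_fl]
  exact h.cp.2.1

theorem mono (h : Fh49 adj U O X) (h' : Fh49 adj U O Y) (hsub : Y ⊆ fl49 adj U O X) :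
    fl49 adj U O Y ⊆ fl49 adj U O X := by
  have h1 : cp49 adj (U \ X) O ⊆ cp49 adj (U \ Y) O := by
    obtain ⟨o, ho⟩ := h.hO.1
    refine h'.cp.sub h.cp.2.1 ?_ (h.Ocp ho) (h'.Ocp ho)
    intro x hx
    have h2 := h.cp.1 hx
    rw [Finset.mem_sdiff] at h2 ⊢
    refine ⟨h2.1, fun h3 => ?_⟩
    exact ((mem_fl x).1 (hsub h3)).2 hx
  intro x hx
  rw [mem_fl] at hx ⊢
  exact ⟨hx.1, fun h2 => hx.2 (h1 h2)⟩

theorem either (h : Fh49 adj U O X) (h' : Fh49 adj U O Y) (hd : Disjoint X Y) :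
    Y ⊆ fl49 adj U O X ∨ Y ⊆ cp49 adj (U \ X) O := by
  by_cases h1 : ∃ y ∈ Y, y ∈ cp49 adj (U \ X) O
  · obtain ⟨y, hy, hyK⟩ := h1
    right
    refine h.cp.sub h'.hX ?_ hy hyK
    intro x hx
    rw [Finset.mem_sdiff]
    exact ⟨h'.XU hx, fun h2 => Finset.disjoint_left.1 hd h2 hx⟩
  · left
    push Not at h1
    intro y hy
    rw [mem_fl]
    exact ⟨h'.XU hy, h1 y hy⟩

theorem lam (h : Fh49 adj U O X) (h' : Fh49 adj U O Y) (hd : Disjoint X Y) :
    fl49 adj U O X ⊆ fl49 adj U O Y ∨ fl49 adj U O Y ⊆ fl49 adj U O X ∨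
      Disjoint (fl49 adj U O X) (fl49 adj U O Y) := by
  rcases h.either h' hd with h1 | h1
  · exact Or.inr (Or.inl (h.mono h' h1))
  · rcases h'.either h hd.symm with h2 | h2
    · exact Or.inl (h'.mono h h2)
    · right
      right
      have h3 : fl49 adj U O X ⊆ cp49 adj (U \ Y) O := by
        obtain ⟨x, hx⟩ := h.hX.1
        refine h'.cp.sub h.cn_fl ?_ (h.sub_fl hx) (h2 hx)
        intro y hy
        rw [Finset.mem_sdiff]
        refine ⟨fl_sub hy, fun h4 => ?_⟩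
        exact ((mem_fl y).1 hy).2 (h1 h4)
      rw [Finset.disjoint_left]
      intro x hx hxY
      exact ((mem_fl x).1 hxY).2 (h3 hx)

theorem fl_bond (h : Fh49 adj U O Y) (hB : Cn adj (U \ Y)) : fl49 adj U O Y = Y := by
  have h1 : cp49 adj (U \ Y) O = U \ Y := by
    obtain ⟨o, ho⟩ := h.hO.1
    exact Finset.Subset.antisymm h.cp.1 (h.cp.sub hB subset_rfl (h.OUX ho) (h.Ocp ho))
  ext x
  rw [mem_fl, h1, Finset.mem_sdiff]
  have h9 : x ∈ Y → x ∈ U := fun hx => h.XU hx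
  tauto

end Fh49

end Fill

end RotWqo.Pb
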