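import Pool.Agent.Lib.MP_cb4a0f_co.Pb.II2a_94

/-!
# MP_cb4a0f_co, Pb: expansion of the vertices of the contracted graphs (module II2)

If the contracted piece embeds in the contracted piece of the second graph, and the pieces behind
the vertices embed in the pieces behind the images (respecting the order of the boundary), and all
noncrossing matchings of the boundary half-edges are realised in the sets behind the other
vertices, then the piece embeds.
-/

open Classical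

namespace RotWqo.Pb.II94

open RotWqo.Bag RotWqo.Hk
open RotWqo.Tc (cls cA cls_inr cls_inl ctrD)
open RotWqo.Tc.Exp9 (cls_cases not_self nc_pull isRot_of_map run_head run_tail)

variable {V H V' H' : Type*}

/-- `C` is a family of disjoint nonempty subsets of `S`, and `o` orders their boundary
half-edges. -/
structure FamS (G : RotGraph V H) (S : Finset V) (C : Finset (Finset V))
    (o : Finset V → List H) : Prop where
  sub : ∀ X ∈ C, X ⊆ S
  ne : ∀ X ∈ C, X.Nonempty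
  disj : ∀ X ∈ C, ∀ Y ∈ C, X ≠ Y → Disjoint X Y
  nodup : ∀ X ∈ C, (o X).Nodup
  mem : ∀ X ∈ C, ∀ h, h ∈ o X ↔ h ∈ bd G X

/-! ### Classes, half-edges and lists of the contracted graph -/

variable {o : Finset V → List H} {o' : Finset V' → List H'}

theorem cls_eq_inr {G : RotGraph V H} {S : Finset V} {C : Finset (Finset V)} (hC : FamS G S C o)
    {v : V} {X : Finset V} : cls C v = .inr X ↔ X ∈ C ∧ v ∈ X := by
  constructor
  · exact cls_inr
  · rintro ⟨h1, h2⟩
    have h : ∃ X ∈ C, v ∈ X := ⟨X, h1, h2⟩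
    rw [cls, dif_pos h]
    congr 1
    by_contra hne
    exact Finset.disjoint_left.1 (hC.disj _ h.choose_spec.1 _ h1 hne) h.choose_spec.2 h2

theorem mem_cA_cls {G : RotGraph V H} {S : Finset V} {C : Finset (Finset V)} (hC : FamS G S C o)
    {v : V} : cls C v ∈ cA C S ↔ v ∈ S := by
  constructor
  · intro h
    rcases cls_cases C v with h1 | ⟨X, h1⟩
    · rw [h1, cA, Finset.mem_image] at h
      obtain ⟨w, hw, hw'⟩ := h
      rw [← cls_inl hw']
      exact hw
    · exact hC.sub X (cls_inr h1).1 (cls_inr h1).2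
  · intro h
    exact Finset.mem_image_of_mem _ h

theorem mem_cA_inl {G : RotGraph V H} {S : Finset V} {C : Finset (Finset V)} (_ : FamS G S C o)
    {v : V} (h : .inl v ∈ cA C S) : v ∈ S ∧ cls C v = .inl v := by
  rw [cA, Finset.mem_image] at h
  obtain ⟨w, hw, hw'⟩ := h
  have h1 := cls_inl hw'
  rw [h1] at hw hw'
  exact ⟨hw, hw'⟩

theorem mem_cA_inr {G : RotGraph V H} {S : Finset V} {C : Finset (Finset V)} (hC : FamS G S C o)
    {X : Finset V} : .inr X ∈ cA C S ↔ X ∈ C := by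
  constructor
  · intro h
    rw [cA, Finset.mem_image] at h
    obtain ⟨w, -, hw'⟩ := h
    exact (cls_inr hw').1
  · intro h
    obtain ⟨v, hv⟩ := hC.ne X h
    rw [← (cls_eq_inr hC).2 ⟨h, hv⟩]
    exact Finset.mem_image_of_mem _ (hC.sub X h hv)

theorem mem_ctr_inl {G : RotGraph V H} {C : Finset (Finset V)} {h : H} :
    .inl h ∈ (ctrO G C o).darts ↔ h ∈ G.darts ∧ ∀ X, cls C (G.base h) = .inr X →
      cls C (G.base (G.opp h)) ≠ .inr X := by
  simp [ctrO, Tc.ctr, ctrD]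

theorem mem_ctr_inr {G : RotGraph V H} {C : Finset (Finset V)} {p : Finset V × Bool} :
    .inr p ∈ (ctrO G C o).darts ↔ p.1 ∈ C := by
  rcases p with ⟨X, b⟩
  cases b <;> simp [ctrO, Tc.ctr, ctrD]

theorem base_inl (G : RotGraph V H) (C : Finset (Finset V)) (h : H) :
    (ctrO G C o).base (.inl h) = cls C (G.base h) := rfl

theorem base_inr (G : RotGraph V H) (C : Finset (Finset V)) (p : Finset V × Bool) :
    (ctrO G C o).base (.inr p) = .inr p.1 := rfl

theorem opp_inl (G : RotGraph V H) (C : Finset (Finset V)) (h : H) :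
    (ctrO G C o).opp (.inl h) = .inl (G.opp h) := rfl

theorem opp_inr (G : RotGraph V H) (C : Finset (Finset V)) (p : Finset V × Bool) :
    (ctrO G C o).opp (.inr p) = .inr (p.1, !p.2) := rfl

theorem mem_bd_ctr {G : RotGraph V H} {S : Finset V} {C : Finset (Finset V)} (hC : FamS G S C o)
    {g : H ⊕ (Finset V × Bool)} :
    g ∈ bd (ctrO G C o) (cA C S) ↔ ∃ h ∈ bd G S, g = .inl h := by
  rw [mem_bd]
  rcases g with h | p
  · rw [mem_ctr_inl, base_inl, opp_inl, base_inl, mem_cA_cls hC, mem_cA_cls hC]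
    constructor
    · rintro ⟨⟨h1, -⟩, h2, h3⟩
      exact ⟨h, mem_bd.2 ⟨h1, h2, h3⟩, rfl⟩
    · rintro ⟨h', h1, h2⟩
      cases h2
      obtain ⟨h3, h4, h5⟩ := mem_bd.1 h1
      refine ⟨⟨h3, fun X h6 h7 => h5 ?_⟩, h4, h5⟩
      exact hC.sub X (cls_inr h7).1 (cls_inr h7).2
  · rw [opp_inr, base_inr, base_inr]
    constructor
    · rintro ⟨h1, h2, h3⟩
      exact absurd h2 h3
    · rintro ⟨h', h1, h2⟩
      cases h2

theorem lgo_eq {G : RotGraph V H} {S : Finset V} {C : Finset (Finset V)} (hC : FamS G S C o)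
    {X : Finset V} (hX : X ∈ C) : lgo G C o X = o X := by
  unfold lgo
  rw [if_pos]
  refine ⟨hC.nodup X hX, fun h => ?_⟩
  rw [hC.mem X hX, mem_bd, Tc.lgs, Finset.mem_toList, Finset.mem_filter, cls_eq_inr hC, ne_eq,
    cls_eq_inr hC]
  simp [hX]

theorem rot_inl {G : RotGraph V H} {C : Finset (Finset V)} {v : V} (h : cls C v = .inl v) :
    (ctrO G C o).rot (.inl v) = (G.rot v).map Sum.inl := by
  change (if cls C v = .inl v then (G.rot v).map Sum.inl else []) = _
  rw [if_pos h]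

theorem rot_inr {G : RotGraph V H} {S : Finset V} {C : Finset (Finset V)} (hC : FamS G S C o)
    {X : Finset V} (hX : X ∈ C) :
    (ctrO G C o).rot (.inr X) =
      (o X).map Sum.inl ++ [Sum.inr (X, false), Sum.inr (X, true)] := by
  change (if X ∈ C then (lgo G C o X).map Sum.inl ++ [Sum.inr (X, false), Sum.inr (X, true)]
    else []) = _
  rw [if_pos hX, lgo_eq hC hX]


/-! ### The embedding of the contracted piece -/

section

variable {r : V → V' → Prop} {rc : V ⊕ Finset V → V' ⊕ Finset V' → Prop}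
  {G : RotGraph V H} {G' : RotGraph V' H'} {C : Finset (Finset V)} {C' : Finset (Finset V')}
  {S : Finset V} {S' : Finset V'} {β : H ⊕ (Finset V × Bool) → H' ⊕ (Finset V' × Bool)}
  {f : V ⊕ Finset V → V' ⊕ Finset V'}
  {φ : H ⊕ (Finset V × Bool) → H' ⊕ (Finset V' × Bool)}
  {M : H' ⊕ (Finset V' × Bool) → H' ⊕ (Finset V' × Bool) → Prop}

theorem f_hub (E : PEData rc (ctrO G C o) (cA C S) (ctrO G' C' o') (cA C' S') β f φ M)
    (hC : FamS G S C o) (hC' : FamS G' S' C' o') (h2 : ∀ v X', ¬ rc (.inl v) (.inr X')) {v : V}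
    (hv : v ∈ S) (hc : cls C v = .inl v) :
    ∃ v', v' ∈ S' ∧ cls C' v' = .inl v' ∧ f (.inl v) = .inl v' ∧ rc (.inl v) (.inl v') := by
  have h0 : (.inl v : V ⊕ Finset V) ∈ cA C S := by
    rw [← hc]
    exact (mem_cA_cls hC).2 hv
  have h1 := E.f_mem _ h0
  have h3 := E.f_rel _ h0
  rcases hf : f (.inl v) with v' | X'
  · rw [hf] at h1 h3
    obtain ⟨h4, h5⟩ := mem_cA_inl hC' h1
    exact ⟨v', h4, h5, rfl, h3⟩
  · rw [hf] at h3
    exact absurd h3 (h2 v X')

theorem f_atom (E : PEData rc (ctrO G C o) (cA C S) (ctrO G' C' o') (cA C' S') β f φ M)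
    (hC : FamS G S C o) (hC' : FamS G' S' C' o') (h3 : ∀ X v', ¬ rc (.inr X) (.inl v'))
    {X : Finset V} (hX : X ∈ C) :
    ∃ X' ∈ C', f (.inr X) = .inr X' ∧ rc (.inr X) (.inr X') := by
  have h0 : (.inr X : V ⊕ Finset V) ∈ cA C S := (mem_cA_inr hC).2 hX
  have h1 := E.f_mem _ h0
  have h4 := E.f_rel _ h0
  rcases hf : f (.inr X) with v' | X'
  · rw [hf] at h4
    exact absurd h4 (h3 X v')
  · rw [hf] at h1 h4
    exact ⟨X', (mem_cA_inr hC').1 h1, rfl, h4⟩

theorem allker (E : PEData rc (ctrO G C o) (cA C S) (ctrO G' C' o') (cA C' S') β f φ M)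
    (hC : FamS G S C o) (hC' : FamS G' S' C' o') {X : Finset V} {X' : Finset V'} (hX : X ∈ C)
    (hX' : X' ∈ C') (hf : f (.inr X) = .inr X')
    (hcard : (o X).length = (o' X').length) :
    (ctrO G' C' o').rot (.inr X') ~r ((ctrO G C o).rot (.inr X)).map φ ∧
      ∀ g ∈ (ctrO G' C' o').rot (.inr X'), Ker (ctrO G C o) (cA C S) φ g := by
  have h1 := E.rot_eq (.inr X) ((mem_cA_inr hC).2 hX)
  rw [hf] at h1
  have hlen : (((ctrO G C o).rot (.inr X)).map φ).length =
      ((ctrO G' C' o').rot (.inr X')).length := by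
    rw [List.length_map, rot_inr hC hX, rot_inr hC' hX']
    simp only [List.length_append, List.length_map, List.length_cons, List.length_nil]
    rw [hcard]
  have h2 := (List.length_filter_eq_length_iff (p := fun a => decide
    (Ker (ctrO G C o) (cA C S) φ a)) (l := (ctrO G' C' o').rot (.inr X'))).1 (by
      rw [h1.perm.length_eq, hlen])
  have h3 : ∀ g ∈ (ctrO G' C' o').rot (.inr X'), Ker (ctrO G C o) (cA C S) φ g := by
    intro g hg
    exact of_decide_eq_true (h2 g hg)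
  refine ⟨?_, h3⟩
  rwa [List.filter_eq_self.2 h2] at h1

theorem mem_loop' {X' : Finset V'} (hX' : X' ∈ C') (b : Bool) :
    .inr (X', b) ∈ (ctrO G' C' o').rot (.inr X') :=
  ((ctrO G' C' o').mem_rot _ _).2 ⟨mem_ctr_inr.2 hX', rfl⟩

theorem pre_loop (E : PEData rc (ctrO G C o) (cA C S) (ctrO G' C' o') (cA C' S') β f φ M)
    (hC : FamS G S C o) (hC' : FamS G' S' C' o') {X : Finset V} {X' : Finset V'} (hX : X ∈ C)
    (hX' : X' ∈ C') (hf : f (.inr X) = .inr X')
    (hk : ∀ g ∈ (ctrO G' C' o').rot (.inr X'), Ker (ctrO G C o) (cA C S) φ g) (b : Bool) :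
    ∃ b', φ (.inr (X, b')) = .inr (X', b) := by
  obtain ⟨g, hg, hA, hφ⟩ := hk _ (mem_loop' hX' b)
  have hXA : (.inr X : V ⊕ Finset V) ∈ cA C S := (mem_cA_inr hC).2 hX
  have hb : (ctrO G C o).base g = .inr X := by
    refine E.f_inj hA hXA ?_
    rw [hf, ← E.φ_base g hg hA, hφ]
    rfl
  have noM : ∀ z, ¬ M ((ctrO G' C' o').opp (φ g)) z := by
    intro z hz
    refine E.M_ker _ _ hz (hk _ ?_)
    rw [hφ, opp_inr]
    exact mem_loop' hX' _
  by_cases hin : (ctrO G C o).base ((ctrO G C o).opp g) ∈ cA C S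
  · obtain ⟨y, h1, h2⟩ := E.run_in g hg hA hin
    rcases run_head h1 with rfl | ⟨z, h3, -⟩
    · have h4 : (ctrO G C o).base ((ctrO G C o).opp g) = .inr X := by
        refine E.f_inj hin hXA ?_
        rw [hf, ← E.φ_base _ ((ctrO G C o).opp_mem g hg) hin, ← h2, hφ]
        rfl
      rcases g with h | p
      · exact absurd h4 ((mem_ctr_inl.1 hg).2 X hb)
      · rw [base_inr, Sum.inr.injEq] at hb
        refine ⟨p.2, ?_⟩
        rw [← hb]
        exact hφ
    · exact absurd h3 (noM z)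
  · have h1 := E.run_out g (mem_bd.2 ⟨hg, hA, hin⟩)
    rcases run_head h1 with h2 | ⟨z, h3, -⟩
    · have h3 := E.β_bij.mapsTo (Finset.mem_coe.2 (mem_bd.2 ⟨hg, hA, hin⟩))
      rw [Finset.mem_coe, mem_bd_ctr hC', h2, hφ] at h3
      obtain ⟨h, -, h4⟩ := h3
      cases h4
    · exact absurd h3 (noM z)

theorem legs (E : PEData rc (ctrO G C o) (cA C S) (ctrO G' C' o') (cA C' S') β f φ M)
    (hC : FamS G S C o) (hC' : FamS G' S' C' o') {X : Finset V} {X' : Finset V'} (hX : X ∈ C)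
    (hX' : X' ∈ C') (hf : f (.inr X) = .inr X') {b : H → H'}
    (hb : (o X).map b = o' X') :
    (∀ g ∈ (ctrO G' C' o').rot (.inr X'), Ker (ctrO G C o) (cA C S) φ g) ∧
      ∀ h ∈ bd G X, φ (.inl h) = .inl (b h) := by
  have hcard : (o X).length = (o' X').length := by
    have := congrArg List.length hb
    rwa [List.length_map] at this
  obtain ⟨h1, hk⟩ := allker E hC hC' hX hX' hf hcard
  refine ⟨hk, ?_⟩
  obtain ⟨b1, h2⟩ := pre_loop E hC hC' hX hX' hf hk false
  obtain ⟨b2, h3⟩ := pre_loop E hC hC' hX hX' hf hk true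
  have hb12 : b1 ≠ b2 := by
    rintro rfl
    rw [h2] at h3
    simp at h3
  have h4 : ∀ c : Bool, φ (.inr (X, c)) = .inr (X', false) ∨ φ (.inr (X, c)) = .inr (X', true) := by
    intro c
    cases b1 <;> cases b2 <;> cases c <;> simp_all
  rw [rot_inr hC hX, rot_inr hC' hX', List.map_append, List.map_map] at h1
  have hphi : φ (.inr (X, false)) ≠ φ (.inr (X, true)) := by
    cases b1 <;> cases b2 <;> simp_all
  have h5 := rot_mark h1 (by
      rw [← rot_inr hC' hX']
      exact (ctrO G' C' o').nodup _) (h4 false) (h4 true) hphi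
  rw [← hb, List.map_map, List.map_inj_left] at h5
  intro h hh
  exact h5 h ((hC.mem X hX h).2 hh)

/-- the matching of the half-edges of a set -/
def vX (M : H' ⊕ (Finset V' × Bool) → H' ⊕ (Finset V' × Bool) → Prop) (X' : Finset V')
    (a b : H') : Prop :=
  via M (fun c => .inr (X', c)) (.inl a) (.inl b)

/-- Runs of the contracted graph become runs. -/
theorem pass (E : PEData rc (ctrO G C o) (cA C S) (ctrO G' C' o') (cA C' S') β f φ M)
    (hC' : FamS G' S' C' o') {Mh : H' → H' → Prop}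
    (m1 : ∀ a b, cls C' (G'.base a) = .inl (G'.base a) → M (.inl a) (.inl b) → Mh a b)
    (m2 : ∀ X' ∈ C', (∀ X, f (.inr X) = .inr X' → X ∉ C) → ∀ l ∈ bd G' X', ∀ l' ∈ bd G' X',
      vX M X' l l' → Run G'.opp Mh (G'.opp l) l')
    (m3 : ∀ X' ∈ C', ∀ X ∈ C, f (.inr X) = .inr X' → ∀ g z, M g z →
      (ctrO G' C' o').base g ≠ .inr X') {g w : H' ⊕ (Finset V' × Bool)}
    (hr : Run (ctrO G' C' o').opp M g w) : ∀ y, w = .inl y → g ∈ (ctrO G' C' o').darts →
      (∀ x, g = .inl x → Run G'.opp Mh x y) ∧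
      ∀ X' b l, g = .inr (X', b) → M (.inl l) g → l ∈ bd G' X' → Run G'.opp Mh (G'.opp l) y := by
  have self : ∀ a, ¬ M a a := by
    intro a ha
    have h1 := (E.M_base _ _ ha).1
    have h2 := E.M_mem _ _ ha
    refine not_self (E.nc _ h1) E.M_symm E.M_fun (((ctrO G' C' o').nodup _).filter _) a ?_ ha
    rw [List.mem_filter]
    exact ⟨((ctrO G' C' o').mem_rot _ _).2 ⟨h2, rfl⟩, decide_eq_true (Or.inr ⟨a, ha⟩)⟩
  have leg : ∀ X' a z, M (.inl a) z → cls C' (G'.base a) = .inr X' → a ∈ bd G' X' := by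
    intro X' a z h1 h2
    obtain ⟨h3, h4⟩ := mem_ctr_inl.1 (E.M_mem _ _ h1)
    refine mem_bd.2 ⟨h3, (cls_inr h2).2, fun h5 => h4 X' h2 ?_⟩
    exact (cls_eq_inr hC').2 ⟨(cls_inr h2).1, h5⟩
  have nim : ∀ X' g z, M g z → (ctrO G' C' o').base g = .inr X' →
      ∀ X, f (.inr X) = .inr X' → X ∉ C := by
    intro X' g z h1 h2 X h3 h4
    have h5 := (E.M_base _ _ h1).1
    rw [h2] at h5
    exact m3 X' ((mem_cA_inr hC').1 h5) X h4 h3 g z h1 h2
  induction hr with
  | refl g =>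
    intro y hy hg
    refine ⟨fun x hx => ?_, fun X' b l h1 => ?_⟩
    · rw [hx, Sum.inl.injEq] at hy
      rw [hy]
      exact .refl _
    · rw [h1] at hy
      cases hy
  | step g z w h1 h2 ih =>
    intro y hy hg
    have hz : z ∈ (ctrO G' C' o').darts := E.M_mem _ _ (E.M_symm _ _ h1)
    obtain ⟨ih1, ih2⟩ := ih y hy hz
    refine ⟨fun x hx => ?_, fun X' b l hgb hl hlX => ?_⟩
    · rw [hx] at h1 hg
      rw [opp_inl] at h1
      have hx' := (mem_ctr_inl.1 hg).1
      have hzb := (E.M_base _ _ h1).2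
      rw [base_inl] at hzb
      rcases cls_cases C' (G'.base (G'.opp x)) with h3 | ⟨X', h3⟩
      · rcases z with z' | p
        · exact .step _ _ _ (m1 _ _ h3 h1) (ih1 z' rfl)
        · rw [base_inr, h3] at hzb
          cases hzb
      · have h4 := leg X' _ _ h1 h3
        have h5 : X' ∈ C' := (cls_inr h3).1
        rcases z with z' | p
        · rw [base_inl, h3] at hzb
          have h6 := leg X' _ _ (E.M_symm _ _ h1) hzb
          have h7 := m2 X' h5 (nim X' _ _ h1 h3) _ h4 _ h6 (Or.inl ⟨h1, by simp, by simp⟩)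
          rw [G'.opp_opp x hx'] at h7
          exact h7.trans (ih1 z' rfl)
        · rw [base_inr, h3, Sum.inr.injEq] at hzb
          have h6 := ih2 X' p.2 (G'.opp x) (by rw [← hzb]) h1 h4
          rwa [G'.opp_opp x hx'] at h6
    · rw [hgb] at h1 hl
      rw [opp_inr] at h1
      have hzb := (E.M_base _ _ h1).2
      rw [base_inr] at hzb
      have h5 : X' ∈ C' := by
        have h6 := (E.M_base _ _ h1).1
        rw [base_inr] at h6
        exact (mem_cA_inr hC').1 h6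
      rcases z with z' | p
      · rw [base_inl] at hzb
        have h6 := leg X' _ _ (E.M_symm _ _ h1) hzb
        have h7 := m2 X' h5 (nim X' _ _ h1 rfl) _ hlX _ h6
          (Or.inr ⟨by simp, by simp, b, hl, h1⟩)
        exact h7.trans (ih1 z' rfl)
      · exfalso
        rw [base_inr, Sum.inr.injEq] at hzb
        have hp : p = (X', p.2) := Prod.ext hzb rfl
        rw [hp] at h1
        by_cases h6 : p.2 = b
        · rw [h6] at h1
          have h9 := E.M_fun _ _ _ (E.M_symm _ _ h1) (E.M_symm _ _ hl)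
          cases h9
        · have h7 : p.2 = !b := by
            revert h6
            generalize p.2 = c
            cases b <;> cases c <;> simp
          rw [h7] at h1
          exact self _ h1

/-- The embedding is put together. -/
theorem assemble (E : PEData rc (ctrO G C o) (cA C S) (ctrO G' C' o') (cA C' S') β f φ M)
    (hC : FamS G S C o) (hC' : FamS G' S' C' o') {fh : V → V'} {ph : H → H'} {bh : H → H'}
    {Mh : H' → H' → Prop} {F : Finset V → Finset V'} {b1 : Finset V → H → H'}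
    {f1 : Finset V → V → V'} {p1 : Finset V → H → H'} {M1 : Finset V → H' → H' → Prop}
    {Mx : Finset V' → H' → H' → Prop}
    (hF : ∀ X ∈ C, F X ∈ C' ∧ f (.inr X) = .inr (F X))
    (hE : ∀ X ∈ C, PEData r G X G' (F X) (b1 X) (f1 X) (p1 X) (M1 X))
    (hb1 : ∀ X ∈ C, (o X).map (b1 X) = o' (F X))
    (hf1 : ∀ v ∈ S, cls C v = .inl v → f (.inl v) = .inl (fh v) ∧ fh v ∈ S' ∧
      cls C' (fh v) = .inl (fh v) ∧ r v (fh v))
    (hf2 : ∀ v X, cls C v = .inr X → fh v = f1 X v)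
    (hp1 : ∀ h ∈ G.darts, G.base h ∈ S → cls C (G.base h) = .inl (G.base h) →
      φ (.inl h) = .inl (ph h))
    (hp2 : ∀ h X, cls C (G.base h) = .inr X → ph h = p1 X h)
    (hbh : ∀ h ∈ bd G S, β (.inl h) = .inl (bh h))
    (hM1 : ∀ a b, cls C' (G'.base a) = .inl (G'.base a) → (Mh a b ↔ M (.inl a) (.inl b)))
    (hM2 : ∀ X' a b, cls C' (G'.base a) = .inr X' → (Mh a b ↔ Mx X' a b))
    (hx1 : ∀ X ∈ C, ∀ a b, Mx (F X) a b ↔ M1 X a b)
    (hx2 : ∀ X' ∈ C', (∀ X ∈ C, F X ≠ X') → (∀ a b, Mx X' a b → Mx X' b a) ∧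
      (∀ a b c, Mx X' a b → Mx X' a c → b = c) ∧
      (∀ a b, Mx X' a b → a ∈ G'.darts ∧ G'.base a ∈ X' ∧ G'.base b = G'.base a) ∧
      (∀ v ∈ X', NC (Mx X') ((G'.rot v).filter (fun a => decide (∃ b, Mx X' a b)))) ∧
      ∀ l ∈ bd G' X', ∀ l' ∈ bd G' X', vX M X' l l' → Run G'.opp (Mx X') (G'.opp l) l') :
    PEData r G S G' S' bh fh ph Mh := by
  -- classes of images
  have fcls : ∀ v ∈ S, cls C' (fh v) = f (cls C v) := by
    intro v hv
    rcases cls_cases C v with h1 | ⟨X, h1⟩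
    · obtain ⟨h2, -, h3, -⟩ := hf1 v hv h1
      rw [h1, h2, h3]
    · obtain ⟨h2, h3⟩ := cls_inr h1
      rw [h1, (hF X h2).2, hf2 v X h1]
      exact (cls_eq_inr hC').2 ⟨(hF X h2).1, (hE X h2).f_mem v h3⟩
  have inlmem : ∀ h ∈ G.darts, cls C (G.base h) = .inl (G.base h) →
      .inl h ∈ (ctrO G C o).darts := fun h h1 h2 => mem_ctr_inl.2 ⟨h1, fun X h3 => by
    rw [h2] at h3
    cases h3⟩
  have phbase : ∀ h ∈ G.darts, G.base h ∈ S → G'.base (ph h) = fh (G.base h) := by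
    intro h h1 h2
    rcases cls_cases C (G.base h) with h3 | ⟨X, h3⟩
    · have h4 := E.φ_base _ (inlmem h h1 h3) ((mem_cA_cls hC).2 h2)
      rw [hp1 h h1 h2 h3, base_inl, base_inl, h3, (hf1 _ h2 h3).1] at h4
      exact cls_inl h4
    · obtain ⟨h4, h5⟩ := cls_inr h3
      rw [hp2 h X h3, hf2 _ X h3]
      exact (hE X h4).φ_base h h1 h5
  have pcls : ∀ h ∈ G.darts, G.base h ∈ S → cls C' (G'.base (ph h)) = f (cls C (G.base h)) := by
    intro h h1 h2
    rw [phbase h h1 h2, fcls _ h2]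
  have fX : ∀ v X X', cls C v = .inr X → f (cls C v) = .inr X' → X ∈ C ∧ F X = X' := by
    intro v X X' h1 h2
    have h3 := (cls_inr h1).1
    rw [h1, (hF X h3).2, Sum.inr.injEq] at h2
    exact ⟨h3, h2⟩
  have fnl : ∀ v ∈ S, cls C v = .inl v → ∀ X', f (cls C v) ≠ .inr X' := by
    intro v h1 h2 X' h3
    rw [h2, (hf1 v h1 h2).1] at h3
    cases h3
  have fnr : ∀ v X w, cls C v = .inr X → f (cls C v) ≠ .inl w := by
    intro v X w h1 h2
    rw [h1, (hF X (cls_inr h1).1).2] at h2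
    cases h2
  have Finj : ∀ X ∈ C, ∀ Y ∈ C, F X = F Y → X = Y := by
    intro X hX Y hY h1
    have h2 := E.f_inj ((mem_cA_inr hC).2 hX) ((mem_cA_inr hC).2 hY)
      (by rw [(hF X hX).2, (hF Y hY).2, h1])
    rwa [Sum.inr.injEq] at h2
  -- the matchings of the sets
  have hx : ∀ X' ∈ C', (∀ a b, Mx X' a b → Mx X' b a) ∧
      (∀ a b c, Mx X' a b → Mx X' a c → b = c) ∧
      (∀ a b, Mx X' a b → a ∈ G'.darts ∧ G'.base a ∈ X' ∧ G'.base b = G'.base a) := by
    intro X' hX'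
    by_cases hi : ∃ X ∈ C, F X = X'
    · obtain ⟨X, h1, rfl⟩ := hi
      simp only [hx1 X h1]
      exact ⟨(hE X h1).M_symm, (hE X h1).M_fun, fun a b h => ⟨(hE X h1).M_mem a b h,
        (hE X h1).M_base a b h⟩⟩
    · push Not at hi
      obtain ⟨h1, h2, h3, -, -⟩ := hx2 X' hX' hi
      exact ⟨h1, h2, h3⟩
  have xcls : ∀ X' ∈ C', ∀ v, v ∈ X' → cls C' v = .inr X' := fun X' h1 v h2 =>
    (cls_eq_inr hC').2 ⟨h1, h2⟩
  have Msub : ∀ X' ∈ C', ∀ a b, Mx X' a b → Mh a b := by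
    intro X' h1 a b h2
    exact (hM2 X' a b (xcls X' h1 _ ((hx X' h1).2.2 a b h2).2.1)).2 h2
  have MhH : ∀ a b, cls C' (G'.base a) = .inl (G'.base a) → Mh a b →
      M (.inl a) (.inl b) ∧ G'.base b = G'.base a := by
    intro a b h1 h2
    have h3 := (hM1 a b h1).1 h2
    have h4 := (E.M_base _ _ h3).2
    rw [base_inl, base_inl, h1] at h4
    exact ⟨h3, cls_inl h4⟩
  have MhX : ∀ X' a b, cls C' (G'.base a) = .inr X' → Mh a b →
      Mx X' a b ∧ G'.base b = G'.base a := by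
    intro X' a b h1 h2
    have h3 := (hM2 X' a b h1).1 h2
    exact ⟨h3, ((hx X' (cls_inr h1).1).2.2 a b h3).2.2⟩
  -- kernels
  have kerH : ∀ a, cls C' (G'.base a) = .inl (G'.base a) →
      (Ker G S ph a ↔ Ker (ctrO G C o) (cA C S) φ (.inl a)) := by
    intro a ha
    constructor
    · rintro ⟨h, h1, h2, rfl⟩
      rcases cls_cases C (G.base h) with h3 | ⟨X, h3⟩
      · exact ⟨.inl h, inlmem h h1 h3, (mem_cA_cls hC).2 h2, hp1 h h1 h2 h3⟩
      · exact absurd ((pcls h h1 h2).symm.trans ha) (fnr _ X _ h3)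
    · rintro ⟨g, h1, h2, h3⟩
      have h4 := E.φ_base g h1 h2
      rw [h3, base_inl, ha] at h4
      rcases g with h | p
      · rw [base_inl] at h4 h2
        have h5 := (mem_cA_cls hC).1 h2
        have h6 := (mem_ctr_inl.1 h1).1
        rcases cls_cases C (G.base h) with h7 | ⟨X, h7⟩
        · refine ⟨h, h6, h5, ?_⟩
          rw [hp1 h h6 h5 h7, Sum.inl.injEq] at h3
          exact h3
        · exact absurd h4.symm (fnr _ X _ h7)
      · rw [base_inr, (hF p.1 (mem_ctr_inr.1 h1)).2] at h4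
        cases h4
  have kerX : ∀ X ∈ C, ∀ a, G'.base a ∈ F X → (Ker G S ph a ↔ Ker G X (p1 X) a) := by
    intro X hX a ha
    constructor
    · rintro ⟨h, h1, h2, rfl⟩
      have h3 := (pcls h h1 h2).symm.trans (xcls _ (hF X hX).1 _ ha)
      rcases cls_cases C (G.base h) with h4 | ⟨Y, h4⟩
      · exact absurd h3 (fnl _ h2 h4 _)
      · obtain ⟨h5, h6⟩ := fX _ Y _ h4 h3
        have h7 := Finj Y h5 X hX h6
        rw [h7] at h4
        exact ⟨h, h1, (cls_inr h4).2, (hp2 h X h4).symm⟩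
    · rintro ⟨h, h1, h2, rfl⟩
      exact ⟨h, h1, hC.sub X hX h2, hp2 h X ((cls_eq_inr hC).2 ⟨hX, h2⟩)⟩
  have kerN : ∀ X' ∈ C', (∀ X ∈ C, F X ≠ X') → ∀ a, G'.base a ∈ X' → ¬ Ker G S ph a := by
    rintro X' hX' hn a ha ⟨h, h1, h2, rfl⟩
    have h3 := (pcls h h1 h2).symm.trans (xcls _ hX' _ ha)
    rcases cls_cases C (G.base h) with h4 | ⟨Y, h4⟩
    · exact fnl _ h2 h4 _ h3
    · obtain ⟨h5, h6⟩ := fX _ Y _ h4 h3
      exact hn Y h5 h6
  -- runs
  have hleg := fun X (hX : X ∈ C) => legs E hC hC' hX (hF X hX).1 (hF X hX).2 (hb1 X hX)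
  have P : ∀ h ∈ G.darts, G.base h ∈ S → .inl h ∈ (ctrO G C o).darts →
      ∃ x, φ (.inl h) = .inl x ∧ Run G'.opp Mh (ph h) x := by
    intro h h1 h2 h3
    rcases cls_cases C (G.base h) with h4 | ⟨X, h4⟩
    · exact ⟨ph h, hp1 h h1 h2 h4, .refl _⟩
    · obtain ⟨h5, h6⟩ := cls_inr h4
      have h7 : h ∈ bd G X := mem_bd.2 ⟨h1, h6, fun h8 =>
        (mem_ctr_inl.1 h3).2 X h4 ((cls_eq_inr hC).2 ⟨h5, h8⟩)⟩
      refine ⟨b1 X h, (hleg X h5).2 h h7, ?_⟩
      rw [hp2 h X h4]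
      exact ((hE X h5).run_out h h7).mono fun a b h8 =>
        Msub _ (hF X h5).1 a b ((hx1 X h5 a b).2 h8)
  have L : ∀ {x y : H'}, .inl x ∈ (ctrO G' C' o').darts →
      Run (ctrO G' C' o').opp M (.inl x) (.inl y) → Run G'.opp Mh x y := by
    intro x y hx' hr
    refine (pass E hC' (Mh := Mh) (fun a b h1 h2 => (hM1 a b h1).2 h2) ?_ ?_ hr y rfl hx').1 x rfl
    · intro X' h1 h2 l hl l' hl' hne
      refine ((hx2 X' h1 fun X h3 h4 => h2 X ?_ h3).2.2.2.2 l hl l' hl' hne).mono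
        (Msub X' h1)
      rw [(hF X h3).2, h4]
    · intro X' h1 X h2 h3 g z h4 h5
      have h6 : F X = X' := by
        rw [(hF X h2).2, Sum.inr.injEq] at h3
        exact h3
      refine E.M_ker g z h4 ((hleg X h2).1 g ?_)
      rw [h6]
      exact ((ctrO G' C' o').mem_rot _ _).2 ⟨E.M_mem _ _ h4, h5⟩
  have Msymm : ∀ a b, Mh a b → Mh b a := by
    intro a b hab
    rcases cls_cases C' (G'.base a) with h1 | ⟨X', h1⟩
    · obtain ⟨h2, h3⟩ := MhH a b h1 hab
      refine (hM1 b a (by rw [h3, h1])).2 (E.M_symm _ _ h2)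
    · obtain ⟨h2, h3⟩ := MhX X' a b h1 hab
      exact (hM2 X' b a (by rw [h3, h1])).2 ((hx X' (cls_inr h1).1).1 _ _ h2)
  have Mmem : ∀ a b, Mh a b → a ∈ G'.darts := by
    intro a b hab
    rcases cls_cases C' (G'.base a) with h1 | ⟨X', h1⟩
    · exact (mem_ctr_inl.1 (E.M_mem _ _ (MhH a b h1 hab).1)).1
    · exact ((hx X' (cls_inr h1).1).2.2 _ _ (MhX X' a b h1 hab).1).1
  have pmem : ∀ h ∈ G.darts, G.base h ∈ S → ph h ∈ G'.darts := by
    intro h h1 h2
    rcases cls_cases C (G.base h) with h3 | ⟨X, h3⟩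
    · have h4 := E.φ_mem _ (inlmem h h1 h3) ((mem_cA_cls hC).2 h2)
      rw [hp1 h h1 h2 h3] at h4
      exact (mem_ctr_inl.1 h4).1
    · obtain ⟨h4, h5⟩ := cls_inr h3
      rw [hp2 h X h3]
      exact (hE X h4).φ_mem h h1 h5
  refine ⟨?_, ?_, ?_, Msymm, ?_, Mmem, ?_, ?_, pmem, phbase, ?_, ?_, ?_, ?_, ?_, ?_⟩
  · intro v hv
    rw [← mem_cA_cls hC', fcls v hv]
    exact E.f_mem _ ((mem_cA_cls hC).2 hv)
  · intro v hv
    rcases cls_cases C v with h1 | ⟨X, h1⟩
    · exact (hf1 v hv h1).2.2.2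
    · rw [hf2 v X h1]
      exact (hE X (cls_inr h1).1).f_rel v (cls_inr h1).2
  · intro v hv w hw hvw
    have h1 : cls C v = cls C w := by
      refine E.f_inj ((mem_cA_cls hC).2 hv) ((mem_cA_cls hC).2 hw) ?_
      rw [← fcls v hv, ← fcls w hw, hvw]
    rcases cls_cases C v with h2 | ⟨X, h2⟩
    · rw [h2] at h1
      exact (cls_inl h1.symm).symm
    · have h3 := h2
      rw [h1] at h3
      refine (hE X (cls_inr h2).1).f_inj (cls_inr h2).2 (cls_inr h3).2 ?_
      rw [← hf2 v X h2, ← hf2 w X h3, hvw]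
  · intro a b c hab hac
    rcases cls_cases C' (G'.base a) with h1 | ⟨X', h1⟩
    · have h2 := E.M_fun _ _ _ (MhH a b h1 hab).1 (MhH a c h1 hac).1
      rwa [Sum.inl.injEq] at h2
    · exact (hx X' (cls_inr h1).1).2.1 a b c (MhX X' a b h1 hab).1 (MhX X' a c h1 hac).1
  · intro a b hab
    rcases cls_cases C' (G'.base a) with h1 | ⟨X', h1⟩
    · obtain ⟨h2, h3⟩ := MhH a b h1 hab
      refine ⟨?_, h3⟩
      rw [← mem_cA_cls hC']
      exact (E.M_base _ _ h2).1
    · obtain ⟨h2, h3⟩ := MhX X' a b h1 hab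
      exact ⟨hC'.sub X' (cls_inr h1).1 (cls_inr h1).2, h3⟩
  · intro a b hab hk
    rcases cls_cases C' (G'.base a) with h1 | ⟨X', h1⟩
    · exact E.M_ker _ _ (MhH a b h1 hab).1 ((kerH a h1).1 hk)
    · obtain ⟨h2, h3⟩ := cls_inr h1
      by_cases hi : ∃ X ∈ C, F X = X'
      · obtain ⟨X, h4, rfl⟩ := hi
        exact (hE X h4).M_ker a b ((hx1 X h4 a b).1 (MhX _ a b h1 hab).1)
          ((kerX X h4 a h3).1 hk)
      · push Not at hi
        exact kerN X' h2 hi a h3 hk
  · intro h h1 k k1 h2 k2 hk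
    have h3 : cls C (G.base h) = cls C (G.base k) := by
      refine E.f_inj ((mem_cA_cls hC).2 h2) ((mem_cA_cls hC).2 k2) ?_
      rw [← pcls h h1 h2, ← pcls k k1 k2, hk]
    rcases cls_cases C (G.base h) with h4 | ⟨X, h4⟩
    · have h5 : G.base k = G.base h := by
        rw [h4] at h3
        exact cls_inl h3.symm
      have h6 := h4
      rw [← h5] at h6
      have h7 := E.φ_inj _ (inlmem h h1 h4) _ (inlmem k k1 h6) ((mem_cA_cls hC).2 h2)
        ((mem_cA_cls hC).2 k2) (by rw [hp1 h h1 h2 h4, hp1 k k1 k2 h6, hk])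
      rwa [Sum.inl.injEq] at h7
    · have h5 := h4
      rw [h3] at h5
      refine (hE X (cls_inr h4).1).φ_inj h h1 k k1 (cls_inr h4).2 (cls_inr h5).2 ?_
      rw [← hp2 h X h4, ← hp2 k X h5, hk]
  · intro v hv
    rcases cls_cases C v with h1 | ⟨X, h1⟩
    · obtain ⟨h2, h3, h4, -⟩ := hf1 v hv h1
      have h5 : (.inl v : V ⊕ Finset V) ∈ cA C S := by
        rw [← h1]
        exact (mem_cA_cls hC).2 hv
      have h6 := E.rot_eq _ h5
      rw [h2, rot_inl h1, rot_inl h4, List.filter_map, List.map_map] at h6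
      have h7 : (G.rot v).map (φ ∘ Sum.inl) = ((G.rot v).map ph).map Sum.inl := by
        rw [List.map_map]
        refine List.map_congr_left fun a ha => ?_
        have h8 := (G.mem_rot v a).1 ha
        exact hp1 a h8.1 (h8.2 ▸ hv) (by rw [h8.2, h1])
      have h8 : (G'.rot (fh v)).filter
          ((fun a => decide (Ker (ctrO G C o) (cA C S) φ a)) ∘ Sum.inl) =
          (G'.rot (fh v)).filter (fun a => decide (Ker G S ph a)) := by
        refine List.filter_congr fun a ha => ?_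
        have h9 := (G'.mem_rot _ a).1 ha
        rw [Function.comp_apply, decide_eq_decide]
        exact (kerH a (by rw [h9.2, h4])).symm
      rw [h7, h8] at h6
      exact isRot_of_map Sum.inl_injective h6
    · obtain ⟨h2, h3⟩ := cls_inr h1
      have h4 := (hE X h2).rot_eq v h3
      have h5 := (hE X h2).f_mem v h3
      rw [hf2 v X h1]
      have h6 : (G.rot v).map ph = (G.rot v).map (p1 X) := by
        refine List.map_congr_left fun a ha => ?_
        exact hp2 a X (by rw [((G.mem_rot v a).1 ha).2, h1])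
      have h7 : (G'.rot (f1 X v)).filter (fun a => decide (Ker G S ph a)) =
          (G'.rot (f1 X v)).filter (fun a => decide (Ker G X (p1 X) a)) := by
        refine List.filter_congr fun a ha => ?_
        rw [decide_eq_decide]
        exact kerX X h2 a (by rw [((G'.mem_rot _ a).1 ha).2]; exact h5)
      rw [h6, h7]
      exact h4
  · intro x hxS
    rcases cls_cases C' x with h1 | ⟨X', h1⟩
    · have h5 : (.inl x : V' ⊕ Finset V') ∈ cA C' S' := by
        rw [← h1]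
        exact (mem_cA_cls hC').2 hxS
      have h6 := E.nc _ h5
      rw [rot_inl h1, List.filter_map] at h6
      have hbx : ∀ a ∈ G'.rot x, cls C' (G'.base a) = .inl (G'.base a) := by
        intro a ha
        rw [((G'.mem_rot _ a).1 ha).2, h1]
      have h8 : (G'.rot x).filter ((fun a => decide (Ker (ctrO G C o) (cA C S) φ a ∨ ∃ b, M a b))
          ∘ Sum.inl) = (G'.rot x).filter (fun a => decide (Ker G S ph a ∨ ∃ b, Mh a b)) := by
        refine List.filter_congr fun a ha => ?_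
        rw [Function.comp_apply, decide_eq_decide, kerH a (hbx a ha)]
        refine or_congr_right ⟨?_, ?_⟩
        · rintro ⟨b, hb⟩
          have h9 := (E.M_base _ _ hb).2
          rcases b with b | p
          · exact ⟨b, (hM1 a b (hbx a ha)).2 hb⟩
          · rw [base_inl, base_inr, hbx a ha] at h9
            cases h9
        · rintro ⟨b, hb⟩
          exact ⟨_, (hM1 a b (hbx a ha)).1 hb⟩
      rw [h8] at h6
      refine nc_pull h6 _ rfl (fun a ha b _ hab => ?_) (fun a ha b hab => ?_)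
      · exact (hM1 a b (hbx a (List.mem_of_mem_filter ha))).2 hab
      · exact ⟨_, (hM1 a b (hbx a (List.mem_of_mem_filter ha))).1 hab⟩
    · obtain ⟨h2, h3⟩ := cls_inr h1
      have hbx : ∀ a ∈ G'.rot x, cls C' (G'.base a) = .inr X' := by
        intro a ha
        rw [((G'.mem_rot _ a).1 ha).2, h1]
      have hbx' : ∀ a ∈ G'.rot x, G'.base a ∈ X' := fun a ha => (cls_inr (hbx a ha)).2
      by_cases hi : ∃ X ∈ C, F X = X'
      · obtain ⟨X, h4, rfl⟩ := hi
        have h5 := (hE X h4).nc x h3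
        have h6 : (G'.rot x).filter (fun a => decide (Ker G S ph a ∨ ∃ b, Mh a b)) =
            (G'.rot x).filter (fun a => decide (Ker G X (p1 X) a ∨ ∃ b, M1 X a b)) := by
          refine List.filter_congr fun a ha => ?_
          rw [decide_eq_decide, kerX X h4 a (hbx' a ha)]
          refine or_congr_right (exists_congr fun b => ?_)
          rw [hM2 _ a b (hbx a ha), hx1 X h4]
        rw [h6]
        refine h5.weaken (fun a b hab => Msub _ h2 a b ((hx1 X h4 a b).2 hab)) fun a ha b hab => ?_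
        exact ⟨b, (hx1 X h4 a b).1 ((hM2 _ a b (hbx a (List.mem_of_mem_filter ha))).1 hab)⟩
      · push Not at hi
        have h5 := (hx2 X' h2 hi).2.2.2.1 x h3
        have h6 : (G'.rot x).filter (fun a => decide (Ker G S ph a ∨ ∃ b, Mh a b)) =
            (G'.rot x).filter (fun a => decide (∃ b, Mx X' a b)) := by
          refine List.filter_congr fun a ha => ?_
          rw [decide_eq_decide]
          constructor
          · rintro (h7 | ⟨b, h7⟩)
            · exact absurd h7 (kerN X' h2 hi a (hbx' a ha))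
            · exact ⟨b, (hM2 _ a b (hbx a ha)).1 h7⟩
          · rintro ⟨b, h7⟩
            exact Or.inr ⟨b, (hM2 _ a b (hbx a ha)).2 h7⟩
        rw [h6]
        refine h5.weaken (Msub X' h2) fun a ha b hab => ?_
        exact ⟨b, (hM2 _ a b (hbx a (List.mem_of_mem_filter ha))).1 hab⟩
  · intro h h1 h2 h3
    by_cases hin : .inl h ∈ (ctrO G C o).darts
    · have hin' : .inl (G.opp h) ∈ (ctrO G C o).darts := (ctrO G C o).opp_mem _ hin
      obtain ⟨x, hx4, hx5⟩ := P h h1 h2 hin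
      obtain ⟨x2, hx6, hx7⟩ := P _ (G.opp_mem h h1) h3 hin'
      obtain ⟨w, hw1, hw2⟩ := E.run_in (.inl h) hin ((mem_cA_cls hC).2 h2)
        ((mem_cA_cls hC).2 h3)
      have hφm := E.φ_mem _ hin ((mem_cA_cls hC).2 h2)
      rw [opp_inl, hx6] at hw2
      rcases w with y | p
      · rw [opp_inl, Sum.inl.injEq] at hw2
        rw [hx4] at hw1 hφm
        have h5 := L hφm hw1
        have h6 := hx7.reverse Msymm fun a b hab => G'.opp_opp a (Mmem a b hab)
        have hy : y ∈ G'.darts := by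
          rcases run_tail h5 with h7 | ⟨z, h7⟩
          · rw [h7]
            exact (mem_ctr_inl.1 hφm).1
          · exact Mmem _ _ (Msymm _ _ h7)
        rw [← hw2, G'.opp_opp y hy] at h6
        exact ⟨_, (hx5.trans h5).trans h6, G'.opp_opp _ (pmem _ (G.opp_mem h h1) h3)⟩
      · rw [opp_inr] at hw2
        cases hw2
    · rw [mem_ctr_inl] at hin
      push Not at hin
      obtain ⟨X, h4, h5⟩ := hin h1
      obtain ⟨h6, h7⟩ := cls_inr h4
      obtain ⟨y, h8, h9⟩ := (hE X h6).run_in h h1 h7 (cls_inr h5).2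
      refine ⟨y, ?_, ?_⟩
      · rw [hp2 h X h4]
        exact h8.mono fun a b h10 => Msub _ (hF X h6).1 a b ((hx1 X h6 a b).2 h10)
      · rw [h9, hp2 _ X h5]
  · intro h hh
    obtain ⟨h1, h2, h3⟩ := mem_bd.1 hh
    have h4 : .inl h ∈ bd (ctrO G C o) (cA C S) := (mem_bd_ctr hC).2 ⟨h, hh, rfl⟩
    have hin := (mem_bd.1 h4).1
    obtain ⟨x, h5, h6⟩ := P h h1 h2 hin
    have h7 := E.run_out _ h4
    have hφm := E.φ_mem _ hin ((mem_cA_cls hC).2 h2)
    rw [h5] at h7 hφm
    rw [hbh h hh] at h7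
    exact h6.trans (L hφm h7)
  · have h1 : ∀ h, h ∈ bd G S → .inl h ∈ bd (ctrO G C o) (cA C S) := fun h hh =>
      (mem_bd_ctr hC).2 ⟨h, hh, rfl⟩
    refine ⟨?_, ?_, ?_⟩
    · intro h hh
      have h2 := E.β_bij.mapsTo (Finset.mem_coe.2 (h1 h (Finset.mem_coe.1 hh)))
      rw [Finset.mem_coe, hbh h (Finset.mem_coe.1 hh), mem_bd_ctr hC'] at h2
      obtain ⟨h', h3, h4⟩ := h2
      rw [Sum.inl.injEq] at h4
      rw [h4]
      exact Finset.mem_coe.2 h3
    · intro h hh k hk hhk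
      have h2 := E.β_bij.injOn (Finset.mem_coe.2 (h1 h (Finset.mem_coe.1 hh)))
        (Finset.mem_coe.2 (h1 k (Finset.mem_coe.1 hk)))
        (by rw [hbh h (Finset.mem_coe.1 hh), hbh k (Finset.mem_coe.1 hk), hhk])
      rwa [Sum.inl.injEq] at h2
    · intro y hy
      obtain ⟨g, h2, h3⟩ := E.β_bij.surjOn (Finset.mem_coe.2
        ((mem_bd_ctr hC').2 ⟨y, Finset.mem_coe.1 hy, rfl⟩))
      obtain ⟨h, h4, rfl⟩ := (mem_bd_ctr hC).1 (Finset.mem_coe.1 h2)
      rw [hbh h h4, Sum.inl.injEq] at h3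
      exact ⟨h, Finset.mem_coe.2 h4, h3⟩

end


/-! ### The matchings of the sets that are not images -/

section

variable {r : V → V' → Prop} {rc : V ⊕ Finset V → V' ⊕ Finset V' → Prop}
  {G : RotGraph V H} {G' : RotGraph V' H'} {C : Finset (Finset V)} {C' : Finset (Finset V')}
  {S : Finset V} {S' : Finset V'} {β : H ⊕ (Finset V × Bool) → H' ⊕ (Finset V' × Bool)}
  {f : V ⊕ Finset V → V' ⊕ Finset V'}
  {φ : H ⊕ (Finset V × Bool) → H' ⊕ (Finset V' × Bool)}
  {M : H' ⊕ (Finset V' × Bool) → H' ⊕ (Finset V' × Bool) → Prop}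

theorem exists_N (E : PEData rc (ctrO G C o) (cA C S) (ctrO G' C' o') (cA C' S') β f φ M)
    (hC : FamS G S C o) (hC' : FamS G' S' C' o') (h2 : ∀ v X', ¬ rc (.inl v) (.inr X'))
    {X' : Finset V'} (hX' : X' ∈ C') (hn : ∀ X ∈ C, f (.inr X) ≠ .inr X')
    (ht : TravX G' X' (o' X')) :
    ∃ N : H' → H' → Prop, (∀ a b, N a b → N b a) ∧ (∀ a b c, N a b → N a c → b = c) ∧
      (∀ a b, N a b → a ∈ G'.darts ∧ G'.base a ∈ X' ∧ G'.base b = G'.base a) ∧
      (∀ v ∈ X', NC N ((G'.rot v).filter (fun a => decide (∃ b, N a b)))) ∧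
      ∀ l ∈ bd G' X', ∀ l' ∈ bd G' X', vX M X' l l' → Run G'.opp N (G'.opp l) l' := by
  have hA : (.inr X' : V' ⊕ Finset V') ∈ cA C' S' := (mem_cA_inr hC').2 hX'
  have self : ∀ a, ¬ M a a := by
    intro a ha
    have h1 := (E.M_base _ _ ha).1
    have h2 := E.M_mem _ _ ha
    refine not_self (E.nc _ h1) E.M_symm E.M_fun (((ctrO G' C' o').nodup _).filter _) a ?_ ha
    rw [List.mem_filter]
    exact ⟨((ctrO G' C' o').mem_rot _ _).2 ⟨h2, rfl⟩, decide_eq_true (Or.inr ⟨a, ha⟩)⟩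
  have noker : ∀ g ∈ (ctrO G' C' o').rot (.inr X'), ¬ Ker (ctrO G C o) (cA C S) φ g := by
    rintro g hg ⟨g0, k1, k2, rfl⟩
    have k3 := E.φ_base g0 k1 k2
    rw [((ctrO G' C' o').mem_rot _ _).1 hg |>.2] at k3
    rcases hb : (ctrO G C o).base g0 with v | X
    · rw [hb] at k2 k3
      obtain ⟨k4, k5⟩ := mem_cA_inl hC k2
      obtain ⟨v', -, -, k6, -⟩ := f_hub E hC hC' h2 k4 k5
      rw [k6] at k3
      cases k3
    · rw [hb] at k2 k3
      exact hn X ((mem_cA_inr hC).1 k2) k3.symm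
  have h1 := E.nc _ hA
  have h3 : ((ctrO G' C' o').rot (.inr X')).filter
      (fun a => decide (Ker (ctrO G C o) (cA C S) φ a ∨ ∃ b, M a b)) =
      ((ctrO G' C' o').rot (.inr X')).filter (fun a => decide (∃ b, M a b)) := by
    refine List.filter_congr fun a ha => ?_
    rw [decide_eq_decide]
    exact ⟨fun k => k.resolve_left (noker a ha), Or.inr⟩
  rw [h3, rot_inr hC' hX'] at h1
  have h4 := nc_mark (e := fun c => (.inr (X', c) : H' ⊕ (Finset V' × Bool))) E.M_symm E.M_fun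
    (by simp) self Sum.inl_injective (by simp) (hC'.nodup X' hX') (by
      rw [← rot_inr hC' hX']
      intro x hx y hxy
      rw [(ctrO G' C' o').mem_rot] at hx ⊢
      exact ⟨E.M_mem _ _ (E.M_symm _ _ hxy), by rw [(E.M_base _ _ hxy).2, hx.2]⟩) h1
  have vmem : ∀ a b, a ∈ bd G' X' → vX M X' a b → b ∈ bd G' X' := by
    intro a b ha hab
    have k1 : (ctrO G' C' o').base (.inl b) = .inr X' ∧ .inl b ∈ (ctrO G' C' o').darts := by
      rcases hab with ⟨k, -⟩ | ⟨-, -, c, -, k⟩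
      · refine ⟨?_, E.M_mem _ _ (E.M_symm _ _ k)⟩
        rw [(E.M_base _ _ k).2, base_inl]
        exact (cls_eq_inr hC').2 ⟨hX', (mem_bd.1 ha).2.1⟩
      · exact ⟨(E.M_base _ _ k).2, E.M_mem _ _ (E.M_symm _ _ k)⟩
    rw [base_inl, mem_ctr_inl] at k1
    refine mem_bd.2 ⟨k1.2.1, (cls_inr k1.1).2, fun k2 => k1.2.2 X' k1.1 ?_⟩
    exact (cls_eq_inr hC').2 ⟨hX', k2⟩
  have vsymm : ∀ a b, vX M X' a b → vX M X' b a := by
    rintro a b (⟨k, k1, k2⟩ | ⟨k1, k2, c, k3, k4⟩)
    · exact Or.inl ⟨E.M_symm _ _ k, k2, k1⟩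
    · exact Or.inr ⟨k2, k1, !c, E.M_symm _ _ k4, by simpa using E.M_symm _ _ k3⟩
  have vfun : ∀ a b c, vX M X' a b → vX M X' a c → b = c := by
    rintro a b c (⟨k, -, k2⟩ | ⟨-, -, d, k3, k4⟩) (⟨m, -, m2⟩ | ⟨-, -, d', m3, m4⟩)
    · exact Sum.inl_injective (E.M_fun _ _ _ k m)
    · exact absurd (E.M_fun _ _ _ k m3) (k2 d')
    · exact absurd (E.M_fun _ _ _ m k3) (m2 d)
    · have k5 := E.M_fun _ _ _ k3 m3
      simp only [Sum.inr.injEq, Prod.mk.injEq, true_and] at k5
      rw [← k5] at m4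
      exact Sum.inl_injective (E.M_fun _ _ _ k4 m4)
  obtain ⟨N, n1, n2, n3, n4, n5⟩ := ht (fun a b => vX M X' a b ∧ a ∈ bd G' X')
    (fun a b k => ⟨vsymm a b k.1, vmem a b k.2 k.1⟩)
    (fun a b c k k' => vfun a b c k.1 k'.1) (fun a b k => k.2) (by
      have h5 : (o' X').filter (fun a => decide (∃ b, vX M X' a b ∧ a ∈ bd G' X')) =
          (o' X').filter (fun a => decide (∃ b, via M (fun c => .inr (X', c)) (.inl a)
            (.inl b))) := by
        refine List.filter_congr fun a ha => ?_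
        rw [decide_eq_decide]
        exact ⟨fun ⟨b, k⟩ => ⟨b, k.1⟩, fun ⟨b, k⟩ => ⟨b, k, (hC'.mem X' hX' a).1 ha⟩⟩
      rw [h5]
      refine h4.congr fun a ha b => ?_
      exact ⟨fun k => ⟨k, (hC'.mem X' hX' a).1 (List.mem_of_mem_filter ha)⟩, fun k => k.1⟩)
  exact ⟨N, n1, n2, n3, n4, fun l hl l' _ k => n5 l l' ⟨k, hl⟩⟩

end

/-- The theorem for families of subsets. -/
theorem exp_sub [Nonempty V'] [Nonempty H'] {G : RotGraph V H} {G' : RotGraph V' H'}
    {C : Finset (Finset V)} {C' : Finset (Finset V')} {S : Finset V} {S' : Finset V'}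
    {r : V → V' → Prop} {rc : V ⊕ Finset V → V' ⊕ Finset V' → Prop}
    {β : H ⊕ (Finset V × Bool) → H' ⊕ (Finset V' × Bool)} (hC : FamS G S C o)
    (hC' : FamS G' S' C' o') (h1 : ∀ v v', rc (.inl v) (.inl v') → r v v')
    (h2 : ∀ v X', ¬ rc (.inl v) (.inr X')) (h3 : ∀ X v', ¬ rc (.inr X) (.inl v'))
    (h4 : ∀ X ∈ C, ∀ X' ∈ C', rc (.inr X) (.inr X') → MPEO r G X (o X) G' X' (o' X'))
    (h5 : ∀ X' ∈ C', TravX G' X' (o' X'))
    (hPE : PE rc (ctrO G C o) (cA C S) (ctrO G' C' o') (cA C' S') β) :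
    ∃ β, PE r G S G' S' β := by
  obtain ⟨f, φ, M, E⟩ := hPE
  have d : ∀ X, ∃ (F : Finset V') (b : H → H') (f1 : V → V') (p1 : H → H')
      (M1 : H' → H' → Prop), X ∈ C → F ∈ C' ∧ f (.inr X) = .inr F ∧
        PEData r G X G' F b f1 p1 M1 ∧ (o X).map b = o' F := by
    intro X
    by_cases hX : X ∈ C
    · obtain ⟨X', hX', hf, hr⟩ := f_atom E hC hC' h3 hX
      obtain ⟨b, ⟨f1, p1, M1, E1⟩, hb⟩ := h4 X hX X' hX' hr
      exact ⟨X', b, f1, p1, M1, fun _ => ⟨hX', hf, E1, hb⟩⟩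
    · exact ⟨∅, fun _ => Classical.arbitrary _, fun _ => Classical.arbitrary _,
        fun _ => Classical.arbitrary _, fun _ _ => False, fun h => absurd h hX⟩
  choose F b1 f1 p1 M1 hd using d
  have n : ∀ X', ∃ N : H' → H' → Prop, X' ∈ C' → (∀ X ∈ C, f (.inr X) ≠ .inr X') →
      (∀ a b, N a b → N b a) ∧ (∀ a b c, N a b → N a c → b = c) ∧
      (∀ a b, N a b → a ∈ G'.darts ∧ G'.base a ∈ X' ∧ G'.base b = G'.base a) ∧
      (∀ v ∈ X', NC N ((G'.rot v).filter (fun a => decide (∃ b, N a b)))) ∧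
      ∀ l ∈ bd G' X', ∀ l' ∈ bd G' X', vX M X' l l' → Run G'.opp N (G'.opp l) l' := by
    intro X'
    by_cases hX : X' ∈ C' ∧ ∀ X ∈ C, f (.inr X) ≠ .inr X'
    · obtain ⟨N, hN⟩ := exists_N E hC hC' h2 hX.1 hX.2 (h5 X' hX.1)
      exact ⟨N, fun _ _ => hN⟩
    · exact ⟨fun _ _ => False, fun h h' => absurd ⟨h, h'⟩ hX⟩
  choose N hN using n
  have dv : ∀ v, ∃ w, (v ∈ S → cls C v = .inl v → f (.inl v) = .inl w ∧ w ∈ S' ∧
      cls C' w = .inl w ∧ r v w) ∧ ∀ X, cls C v = .inr X → w = f1 X v := by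
    intro v
    rcases cls_cases C v with hc | ⟨X, hc⟩
    · by_cases hv : v ∈ S
      · obtain ⟨v', k1, k2, k3, k4⟩ := f_hub E hC hC' h2 hv hc
        exact ⟨v', fun _ _ => ⟨k3, k1, k2, h1 _ _ k4⟩, fun X hX => by
          rw [hc] at hX
          cases hX⟩
      · exact ⟨Classical.arbitrary _, fun h => absurd h hv, fun X hX => by
          rw [hc] at hX
          cases hX⟩
    · refine ⟨f1 X v, fun _ h => ?_, fun Y hY => ?_⟩
      · rw [hc] at h
        cases h
      · rw [hc, Sum.inr.injEq] at hY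
        rw [hY]
  choose fh hfh using dv
  have dh : ∀ h, ∃ x, (h ∈ G.darts → G.base h ∈ S → cls C (G.base h) = .inl (G.base h) →
      φ (.inl h) = .inl x) ∧ ∀ X, cls C (G.base h) = .inr X → x = p1 X h := by
    intro h
    rcases cls_cases C (G.base h) with hc | ⟨X, hc⟩
    · by_cases hh : h ∈ G.darts ∧ G.base h ∈ S
      · have k1 : .inl h ∈ (ctrO G C o).darts := mem_ctr_inl.2 ⟨hh.1, fun X hX => by
          rw [hc] at hX
          cases hX⟩
        have k2 := E.φ_base _ k1 ((mem_cA_cls hC).2 hh.2)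
        rw [base_inl, hc, (((hfh _).1 hh.2 hc).1)] at k2
        rcases hφ : φ (.inl h) with x | p
        · exact ⟨x, fun _ _ _ => rfl, fun X hX => by
            rw [hc] at hX
            cases hX⟩
        · rw [hφ, base_inr] at k2
          cases k2
      · exact ⟨Classical.arbitrary _, fun a b => absurd ⟨a, b⟩ hh, fun X hX => by
          rw [hc] at hX
          cases hX⟩
    · refine ⟨p1 X h, fun _ _ h => ?_, fun Y hY => ?_⟩
      · rw [hc] at h
        cases h
      · rw [hc, Sum.inr.injEq] at hY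
        rw [hY]
  choose ph hph using dh
  have db : ∀ h, ∃ y, h ∈ bd G S → β (.inl h) = .inl y := by
    intro h
    by_cases hh : h ∈ bd G S
    · have k1 := E.β_bij.mapsTo (Finset.mem_coe.2 ((mem_bd_ctr hC).2 ⟨h, hh, rfl⟩))
      rw [Finset.mem_coe, mem_bd_ctr hC'] at k1
      obtain ⟨y, -, k2⟩ := k1
      exact ⟨y, fun _ => k2⟩
    · exact ⟨Classical.arbitrary _, fun h => absurd h hh⟩
  choose bh hbh using db
  have Finj : ∀ X ∈ C, ∀ Y ∈ C, F X = F Y → X = Y := by
    intro X hX Y hY k1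
    have k2 := E.f_inj ((mem_cA_inr hC).2 hX) ((mem_cA_inr hC).2 hY)
      (by rw [(hd X hX).2.1, (hd Y hY).2.1, k1])
    rwa [Sum.inr.injEq] at k2
  refine ⟨bh, fh, ph, fun a b => (cls C' (G'.base a) = .inl (G'.base a) ∧ M (.inl a) (.inl b)) ∨
    ∃ X', cls C' (G'.base a) = .inr X' ∧ ((∃ X ∈ C, F X = X' ∧ M1 X a b) ∨
      ((∀ X ∈ C, F X ≠ X') ∧ N X' a b)), assemble E hC hC' (F := F) (b1 := b1) (f1 := f1)
      (p1 := p1) (M1 := M1) (Mx := fun X' a b => (∃ X ∈ C, F X = X' ∧ M1 X a b) ∨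
      ((∀ X ∈ C, F X ≠ X') ∧ N X' a b)) (fun X hX => ⟨(hd X hX).1, (hd X hX).2.1⟩)
      (fun X hX => (hd X hX).2.2.1) (fun X hX => (hd X hX).2.2.2) (fun v hv hc => ?_)
      (fun v => (hfh v).2) (fun h k1 k2 k3 => (hph h).1 k1 k2 k3) (fun h => (hph h).2)
      hbh ?_ ?_ ?_ ?_⟩
  · exact (hfh v).1 hv hc
  · intro a b ha
    constructor
    · rintro (k | ⟨X', k1, -⟩)
      · exact k.2
      · rw [ha] at k1
        cases k1
    · exact fun k => Or.inl ⟨ha, k⟩
  · intro X' a b ha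
    constructor
    · rintro (⟨k1, -⟩ | ⟨Y, k1, k2⟩)
      · rw [ha] at k1
        cases k1
      · rw [ha, Sum.inr.injEq] at k1
        rw [k1]
        exact k2
    · exact fun k => Or.inr ⟨X', ha, k⟩
  · intro X hX a b
    constructor
    · rintro (⟨Y, k1, k2, k3⟩ | ⟨k1, -⟩)
      · rwa [Finj Y k1 X hX k2] at k3
      · exact absurd rfl (k1 X hX)
    · exact fun k => Or.inl ⟨X, hX, rfl, k⟩
  · intro X' hX' hn
    have he : (fun a b => (∃ X ∈ C, F X = X' ∧ M1 X a b) ∨ ((∀ X ∈ C, F X ≠ X') ∧ N X' a b)) =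
        N X' := by
      funext a b
      refine propext ⟨?_, fun k => Or.inr ⟨hn, k⟩⟩
      rintro (⟨Y, k1, k2, -⟩ | ⟨-, k⟩)
      · exact absurd k2 (hn Y k1)
      · exact k
    have k := hN X' hX' (fun X hX hf => hn X hX (by
      rw [(hd X hX).2.1, Sum.inr.injEq] at hf
      exact hf))
    rw [← he] at k
    exact k

/-! ### Sets outside the piece -/

/-- `K` and `K₁` agree at `A`. -/
structure Same {W D : Type*} (K K₁ : RotGraph W D) (A : Finset W) : Prop where
  darts : ∀ g, K.base g ∈ A → (g ∈ K₁.darts ↔ g ∈ K.darts)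
  mem : ∀ g, K₁.base g ∈ A ↔ K.base g ∈ A
  base : ∀ g, K.base g ∈ A → K₁.base g = K.base g
  opp : K₁.opp = K.opp
  rot : ∀ v ∈ A, K₁.rot v = K.rot v

theorem Same.bd {W D : Type*} {K K₁ : RotGraph W D} {A : Finset W} (h : Same K K₁ A) :
    bd K₁ A = bd K A := by
  ext g
  rw [mem_bd, mem_bd, h.mem, h.opp, h.mem]
  constructor
  · rintro ⟨h1, h2, h3⟩
    exact ⟨(h.darts g h2).1 h1, h2, h3⟩
  · rintro ⟨h1, h2, h3⟩
    exact ⟨(h.darts g h2).2 h1, h2, h3⟩

theorem Same.ker {W D D' : Type*} {K K₁ : RotGraph W D} {A : Finset W} (h : Same K K₁ A)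
    (φ : D → D') (a : D') : Ker K₁ A φ a ↔ Ker K A φ a := by
  constructor
  · rintro ⟨g, h1, h2, h3⟩
    have h4 := (h.mem g).1 h2
    exact ⟨g, (h.darts g h4).1 h1, h4, h3⟩
  · rintro ⟨g, h1, h2, h3⟩
    exact ⟨g, (h.darts g h2).2 h1, (h.mem g).2 h2, h3⟩

theorem pe_transfer {W W' D D' : Type*} {r : W → W' → Prop} {K K₁ : RotGraph W D}
    {A : Finset W} {K' K₁' : RotGraph W' D'} {A' : Finset W'} {β : D → D'} (h : Same K K₁ A)
    (h' : Same K' K₁' A') (hPE : PE r K A K' A' β) : PE r K₁ A K₁' A' β := by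
  obtain ⟨f, φ, M, E⟩ := hPE
  have hk : ∀ a, Ker K₁ A φ a = Ker K A φ a := fun a => propext (h.ker φ a)
  have hd : ∀ g ∈ K₁.darts, K₁.base g ∈ A → g ∈ K.darts ∧ K.base g ∈ A := fun g h1 h2 =>
    ⟨(h.darts g ((h.mem g).1 h2)).1 h1, (h.mem g).1 h2⟩
  refine ⟨f, φ, M, E.f_mem, E.f_rel, E.f_inj, E.M_symm, E.M_fun, fun a b hab => ?_,
    fun a b hab => ?_, fun a b hab => ?_, fun g h1 h2 => ?_, fun g h1 h2 => ?_,
    fun g h1 g' h1' h2 h2' => ?_, fun v hv => ?_, fun x hx => ?_, fun g h1 h2 h3 => ?_,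
    fun g hg => ?_, ?_⟩
  · exact (h'.darts a (E.M_base a b hab).1).2 (E.M_mem a b hab)
  · obtain ⟨h1, h2⟩ := E.M_base a b hab
    rw [h'.mem, h'.base a h1, h'.base b (by rw [h2]; exact h1)]
    exact ⟨h1, h2⟩
  · rw [hk]
    exact E.M_ker a b hab
  · obtain ⟨h3, h4⟩ := hd g h1 h2
    refine (h'.darts _ ?_).2 (E.φ_mem g h3 h4)
    rw [E.φ_base g h3 h4]
    exact E.f_mem _ h4
  · obtain ⟨h3, h4⟩ := hd g h1 h2
    have h5 := E.φ_base g h3 h4
    rw [h'.base _ (by rw [h5]; exact E.f_mem _ h4), h5, h.base g h4]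
  · obtain ⟨h3, h4⟩ := hd g h1 h2
    obtain ⟨h3', h4'⟩ := hd g' h1' h2'
    exact E.φ_inj g h3 g' h3' h4 h4'
  · simp only [hk]
    rw [h'.rot _ (E.f_mem v hv), h.rot v hv]
    exact E.rot_eq v hv
  · simp only [hk]
    rw [h'.rot x hx]
    exact E.nc x hx
  · obtain ⟨h4, h5⟩ := hd g h1 h2
    rw [h.opp] at h3 ⊢
    rw [h'.opp]
    exact E.run_in g h4 h5 ((h.mem _).1 h3)
  · rw [h.bd] at hg
    rw [h'.opp]
    exact E.run_out g hg
  · rw [h.bd, h'.bd]
    exact E.β_bij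

/-- the members of the family that are subsets of `S` -/
noncomputable def inS (C : Finset (Finset V)) (S : Finset V) : Finset (Finset V) :=
  C.filter (fun X => X ⊆ S)

theorem FamO.inS {G : RotGraph V H} {S : Finset V} {C : Finset (Finset V)}
    (h : FamO G S C o) : FamS G S (inS C S) o := by
  have h1 : ∀ X ∈ II94.inS C S, X ∈ C ∧ X ⊆ S := fun X hX => Finset.mem_filter.1 hX
  exact ⟨fun X hX => (h1 X hX).2, fun X hX => h.ne X (h1 X hX).1,
    fun X hX Y hY => h.disj X (h1 X hX).1 Y (h1 Y hY).1, fun X hX => h.nodup X (h1 X hX).1,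
    fun X hX => h.mem X (h1 X hX).1⟩

theorem cls_O {G : RotGraph V H} {S : Finset V} {C : Finset (Finset V)}
    (hC : FamO G S C o) {v : V} {X : Finset V} : cls C v = .inr X ↔ X ∈ C ∧ v ∈ X := by
  constructor
  · exact cls_inr
  · rintro ⟨h1, h2⟩
    have h : ∃ X ∈ C, v ∈ X := ⟨X, h1, h2⟩
    rw [cls, dif_pos h]
    congr 1
    by_contra hne
    exact Finset.disjoint_left.1 (hC.disj _ h.choose_spec.1 _ h1 hne) h.choose_spec.2 h2

theorem cls_same {G : RotGraph V H} {S : Finset V} {C : Finset (Finset V)}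
    (hC : FamO G S C o) {v : V} (hv : v ∈ S) : cls (inS C S) v = cls C v := by
  have hS := FamO.inS hC
  rcases cls_cases C v with h1 | ⟨X, h1⟩
  · rcases cls_cases (inS C S) v with h2 | ⟨Y, h2⟩
    · rw [h1, h2]
    · obtain ⟨h3, h4⟩ := cls_inr h2
      rw [(cls_O hC).2 ⟨(Finset.mem_filter.1 h3).1, h4⟩, h2]
  · obtain ⟨h3, h4⟩ := cls_inr h1
    have h5 : X ⊆ S := by
      rcases hC.side X h3 with h5 | h5
      · exact h5
      · exact absurd hv (Finset.disjoint_left.1 h5 h4)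
    rw [h1]
    exact (cls_eq_inr hS).2 ⟨Finset.mem_filter.2 ⟨h3, h5⟩, h4⟩

theorem cA_same {G : RotGraph V H} {S : Finset V} {C : Finset (Finset V)}
    (hC : FamO G S C o) : cA (inS C S) S = cA C S :=
  Finset.image_congr fun _ hv => cls_same hC (Finset.mem_coe.1 hv)

theorem memO_cls {G : RotGraph V H} {S : Finset V} {C : Finset (Finset V)} (hC : FamO G S C o)
    {v : V} : cls C v ∈ cA C S ↔ v ∈ S := by
  constructor
  · intro h
    rw [cA, Finset.mem_image] at h
    obtain ⟨w, hw, hw'⟩ := h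
    rcases cls_cases C v with h1 | ⟨X, h1⟩
    · rw [h1] at hw'
      rw [← cls_inl hw']
      exact hw
    · rw [h1] at hw'
      obtain ⟨h2, h3⟩ := cls_inr hw'
      rcases hC.side X h2 with h5 | h5
      · exact h5 (cls_inr h1).2
      · exact absurd hw (Finset.disjoint_left.1 h5 h3)
  · intro h
    exact Finset.mem_image_of_mem _ h

theorem memO_inr {G : RotGraph V H} {S : Finset V} {C : Finset (Finset V)} (hC : FamO G S C o)
    {X : Finset V} : .inr X ∈ cA C S ↔ X ∈ inS C S := by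
  rw [← cA_same hC]
  exact mem_cA_inr (FamO.inS hC)

theorem same_O {G : RotGraph V H} {S : Finset V} {C : Finset (Finset V)} (hC : FamO G S C o) :
    Same (ctrO G C o) (ctrO G (inS C S) o) (cA C S) := by
  have hS := FamO.inS hC
  refine ⟨?_, ?_, ?_, rfl, ?_⟩
  · rintro (h | p) hg
    · rw [base_inl, memO_cls hC] at hg
      rw [mem_ctr_inl, mem_ctr_inl, cls_same hC hg]
      refine and_congr_right fun h1 => forall_congr' fun X => imp_congr_right fun h2 => ?_
      have h3 : X ∈ inS C S := by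
        rw [← cls_same hC hg] at h2
        exact (cls_inr h2).1
      rw [not_iff_not, cls_eq_inr hS, cls_O hC]
      simp [h3, (Finset.mem_filter.1 h3).1]
    · rw [base_inr, memO_inr hC] at hg
      rw [mem_ctr_inr, mem_ctr_inr]
      exact ⟨fun h => (Finset.mem_filter.1 h).1, fun _ => hg⟩
  · rintro (h | p)
    · rw [base_inl, base_inl, memO_cls hC, ← cA_same hC, mem_cA_cls hS]
    · rw [base_inr, base_inr]
  · rintro (h | p) hg
    · rw [base_inl, memO_cls hC] at hg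
      rw [base_inl, base_inl, cls_same hC hg]
    · rfl
  · rintro (v | X) hv
    · rw [cA, Finset.mem_image] at hv
      obtain ⟨w, hw, hw'⟩ := hv
      have h1 := cls_inl hw'
      rw [h1] at hw' hw
      rw [rot_inl hw', rot_inl (by rw [cls_same hC hw, hw'])]
    · have h1 := (memO_inr hC).1 hv
      have h2 := (Finset.mem_filter.1 h1).1
      rw [rot_inr hS h1]
      change _ = (if X ∈ C then (lgo G C o X).map Sum.inl ++ [Sum.inr (X, false),
        Sum.inr (X, true)] else [])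
      rw [if_pos h2]
      congr 2
      unfold lgo
      rw [if_pos]
      refine ⟨hC.nodup X h2, fun h => ?_⟩
      rw [hC.mem X h2, mem_bd, Tc.lgs, Finset.mem_toList, Finset.mem_filter, cls_O hC, ne_eq,
        cls_O hC]
      simp [h2]

/-- (II2) Expansion. -/
theorem II2_94 : StExpO := by
  intro V V' H H' _ _ G G' C C' o o' S S' r rc β _ _ hC hC' h1 h2 h3 h4 h5 hPE
  have hPE' := pe_transfer (same_O hC) (same_O hC') hPE
  rw [← cA_same hC, ← cA_same hC'] at hPE'
  refine exp_sub (FamO.inS hC) (FamO.inS hC') h1 h2 h3 ?_ ?_ hPE'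
  · intro X hX X' hX' h
    obtain ⟨k1, k2⟩ := Finset.mem_filter.1 hX
    obtain ⟨k3, k4⟩ := Finset.mem_filter.1 hX'
    exact h4 X k1 k2 X' k3 k4 h
  · intro X' hX'
    obtain ⟨k3, k4⟩ := Finset.mem_filter.1 hX'
    exact h5 X' k3 k4

end RotWqo.Pb.II94
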