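import Pool.Agent.Lib.MP_cb4a0f_co.Pb.Stmts
import Pool.Agent.Lib.MP_cb4a0f_co.Tc.Exp9
import Pool.Agent.Lib.MP_cb4a0f_co.Gen

/-!
# MP_cb4a0f_co, Pb: lists for the expansion (module II2)

The vertex of the contracted graph has a loop as a mark. If its half-edges are all used, the order
of the other half-edges is respected; otherwise the matching through the loop is a noncrossing
matching of the other half-edges.
-/

open Classical

namespace RotWqo.Pb.II94

variable {α γ : Type*}

theorem rot_split {L t : List α} {a : α} (h : L ~r a :: t) :
    ∃ l₁ l₂, L = l₁ ++ a :: l₂ ∧ t = l₂ ++ l₁ := by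
  obtain ⟨n, hn⟩ := h
  rw [List.rotate_eq_drop_append_take_mod] at hn
  rcases hd : L.drop (n % L.length) with _ | ⟨b, l⟩
  · rw [hd, List.nil_append] at hn
    refine ⟨[], t, ?_, by simp⟩
    have h1 := List.take_append_drop (n % L.length) L
    rw [hd, List.append_nil] at h1
    rw [← h1, hn]
    rfl
  · rw [hd, List.cons_append, List.cons.injEq] at hn
    obtain ⟨rfl, h2⟩ := hn
    refine ⟨L.take (n % L.length), l, ?_, h2.symm⟩
    rw [← hd, List.take_append_drop]

theorem rot_head {x : α} {l l' : List α} (hn : (x :: l).Nodup) (h : x :: l ~r x :: l') :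
    l = l' := by
  obtain ⟨l₁, l₂, h1, h2⟩ := rot_split h
  rcases l₁ with _ | ⟨y, l₁⟩
  · rw [List.nil_append, List.cons.injEq] at h1
    rw [h1.2, h2, List.append_nil]
  · rw [List.cons_append, List.cons.injEq] at h1
    exfalso
    have h3 := (List.nodup_cons.1 hn).1
    rw [h1.2] at h3
    exact h3 (by simp)

/-- the order is respected if the mark goes to the mark -/
theorem rot_mark {L L' : List α} {a b a' b' : α} (hr : L' ++ [a', b'] ~r L ++ [a, b])
    (hn : (L' ++ [a', b']).Nodup) (ha : a = a' ∨ a = b') (hb : b = a' ∨ b = b') (hab : a ≠ b) :
    L = L' := by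
  rcases hb with rfl | rfl
  · rcases ha with rfl | rfl
    · exact absurd rfl hab
    · -- a = b', b = a'
      have h1 : b :: (a :: L') ~r L' ++ [b, a] := by
        have := List.isRotated_append (l := [b, a]) (l' := L')
        simpa using this
      have h2 : L ++ [a, b] ~r b :: (L ++ [a]) := by
        have := List.isRotated_append (l := L ++ [a]) (l' := [b])
        simpa using this
      have h3 : (b :: (a :: L')).Nodup := (List.IsRotated.nodup_iff h1).2 hn
      have h4 := rot_head h3 ((h1.trans hr).trans h2)
      rcases L with _ | ⟨c, L⟩
      · simpa using h4.symm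
      · rw [List.cons_append, List.cons.injEq] at h4
        exfalso
        rw [List.nodup_cons, List.nodup_cons] at h3
        apply h3.2.1
        rw [h4.2]
        simp
  · rcases ha with rfl | rfl
    · have h1 : b :: (L' ++ [a]) ~r L' ++ [a, b] := by
        have := List.isRotated_append (l := [b]) (l' := L' ++ [a])
        simpa using this
      have h2 : L ++ [a, b] ~r b :: (L ++ [a]) := by
        have := List.isRotated_append (l := L ++ [a]) (l' := [b])
        simpa using this
      have h3 : (b :: (L' ++ [a])).Nodup := (List.IsRotated.nodup_iff h1).2 hn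
      have h4 := rot_head h3 ((h1.trans hr).trans h2)
      exact (List.append_cancel_right h4).symm
    · exact absurd rfl hab

/-- the matching through the loop `e` -/
def via (M : α → α → Prop) (e : Bool → α) (x y : α) : Prop :=
  (M x y ∧ (∀ c, x ≠ e c) ∧ ∀ c, y ≠ e c) ∨
    ((∀ c, x ≠ e c) ∧ (∀ c, y ≠ e c) ∧ ∃ c, M x (e c) ∧ M (e (!c)) y)

theorem nc_insert {M : α → α → Prop} {l l' : List α} {a b : α} (h : NC M (l ++ l'))
    (hM : M a b) : NC M (l ++ a :: b :: l') := by
  refine NC.pair _ a b (l' ++ l) ?_ hM (GenAux.nc_rot h List.isRotated_append)
  have h1 := List.isRotated_append (l := l) (l' := a :: b :: l')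
  simpa using h1

section

variable {M : α → α → Prop} {e : Bool → α}

/-- contraction of the mark -/
theorem nc_contract (hs : ∀ a b, M a b → M b a) (hf : ∀ a b c, M a b → M a c → b = c)
    (hne : e false ≠ e true) (hirr : ∀ a, ¬ M a a) {w : List α} (h : NC M w) :
    ∀ lw, w ~r e false :: e true :: lw → w.Nodup → NC (via M e) lw := by
  induction h with
  | done w h =>
    intro lw hw hn
    refine .done _ fun a ha b hab => ?_
    have haw : a ∈ w := hw.mem_iff.2 (by simp [ha])
    rcases hab with ⟨h1, -⟩ | ⟨-, -, c, h1, -⟩
    · exact h a haw _ h1
    · exact h a haw _ h1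
  | pair w a b w' h1 h2 h3 ih =>
    intro lw hw hn
    have hr : e false :: e true :: lw ~r a :: b :: w' := hw.symm.trans h1
    have hn1 : (e false :: e true :: lw).Nodup := (List.IsRotated.nodup_iff hw).1 hn
    have hn2 : (a :: b :: w').Nodup := (List.IsRotated.nodup_iff h1).1 hn
    have hel : ∀ c, e c ∉ lw := by
      rw [List.nodup_cons, List.nodup_cons, List.mem_cons, not_or] at hn1
      intro c
      cases c
      · exact hn1.1.2
      · exact hn1.2.1
    have hxe : ∀ x ∈ lw, ∀ c, x ≠ e c := by
      rintro x hx c rfl
      exact hel c hx
    have hvia : ∀ x y, via M e x y → ∃ c, M x c := by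
      rintro x y (⟨k, -⟩ | ⟨-, -, c, k, -⟩)
      · exact ⟨_, k⟩
      · exact ⟨_, k⟩
    obtain ⟨l₁, l₂, k1, k2⟩ := rot_split hr
    rcases l₁ with _ | ⟨x, l₁⟩
    · rw [List.nil_append, List.cons.injEq] at k1
      obtain ⟨rfl, k1⟩ := k1
      rw [List.append_nil, ← k1, List.cons.injEq] at k2
      obtain ⟨rfl, rfl⟩ := k2
      refine Tc.Exp9.nc_pull (e := id) h3 w' (by simp) (fun x hx y hy hxy => ?_)
        (fun x _ y hxy => hvia x y hxy)
      exact Or.inl ⟨hxy, hxe x hx, hxe y hy⟩
    · rw [List.cons_append, List.cons.injEq] at k1
      obtain ⟨rfl, k1⟩ := k1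
      rcases l₁ with _ | ⟨y, l₁⟩
      · -- `a = e true`
        rw [List.nil_append, List.cons.injEq] at k1
        obtain ⟨rfl, rfl⟩ := k1
        rcases lw with _ | ⟨c, l2⟩
        · exact .done _ fun a ha => by simp at ha
        · rw [List.cons_append, List.cons.injEq] at k2
          obtain ⟨rfl, rfl⟩ := k2
          have hb2 : b ∉ l2 := by
            rw [List.nodup_cons, List.nodup_cons, List.nodup_cons] at hn1
            exact hn1.2.2.1
          have hbe : ∀ c, b ≠ e c := hxe b (by simp)
          have h5 : NC (via M e) (l2 ++ [b]) := by
            refine Tc.Exp9.nc_pull (e := fun x => if x = b then e false else x) h3 _ ?_ ?_ ?_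
            · rw [List.map_append]
              congr 1
              · symm
                conv_rhs => rw [← List.map_id l2]
                refine List.map_congr_left fun x hx => ?_
                have : x ≠ b := by rintro rfl; exact hb2 hx
                simp [this]
              · simp
            · intro x hx y hy hxy
              have hx' : ∀ c, x ≠ e c := hxe x (by
                rw [List.mem_append, List.mem_singleton] at hx
                rw [List.mem_cons]; tauto)
              have hy' : ∀ c, y ≠ e c := hxe y (by
                rw [List.mem_append, List.mem_singleton] at hy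
                rw [List.mem_cons]; tauto)
              by_cases c1 : x = b
              · by_cases c2 : y = b
                · simp only [c1, c2, if_true] at hxy
                  exact absurd hxy (hirr _)
                · simp only [c1, c2, if_true, if_false] at hxy
                  rw [c1]
                  exact Or.inr ⟨hbe, hy', true, hs _ _ h2, hxy⟩
              · by_cases c2 : y = b
                · simp only [c1, c2, if_true, if_false] at hxy
                  rw [c2]
                  exact Or.inr ⟨hx', hbe, false, hxy, h2⟩
                · simp only [c1, c2, if_false] at hxy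
                  exact Or.inl ⟨hxy, hx', hy'⟩
            · intro x hx y hxy
              by_cases c1 : x = b
              · simp only [c1, if_true]
                rw [c1] at hxy
                rcases hxy with ⟨k, -, k'⟩ | ⟨-, -, c, k, k'⟩
                · exact absurd (hf _ _ _ k (hs _ _ h2)) (k' true)
                · cases c
                  · exact absurd (hf _ _ _ k (hs _ _ h2)) hne
                  · exact ⟨_, k'⟩
              · simp only [c1, if_false]
                exact hvia x y hxy
          exact GenAux.nc_rot h5 (by
            have := List.isRotated_append (l := [b]) (l' := l2)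
            simpa using this)
      · rw [List.cons_append, List.cons.injEq] at k1
        obtain ⟨rfl, rfl⟩ := k1
        rcases l₂ with _ | ⟨c, l3⟩
        · -- `b = e false`
          rw [List.nil_append, List.cons.injEq] at k2
          obtain ⟨rfl, rfl⟩ := k2
          have ha2 : a ∉ l₁ := by
            rw [List.nodup_cons, List.nodup_cons] at hn1
            have h6 := hn1.2.2
            rw [List.nodup_append] at h6
            intro h7
            exact h6.2.2 a h7 a (by simp) rfl
          have hae : ∀ c, a ≠ e c := hxe a (by simp)
          refine Tc.Exp9.nc_pull (e := fun x => if x = a then e true else x)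
            (GenAux.nc_rot h3 (l' := l₁ ++ [e true]) (by
              have := List.isRotated_append (l := l₁) (l' := [e true])
              simpa using this)) _ ?_ ?_ ?_
          · rw [List.map_append]
            congr 1
            · symm
              conv_rhs => rw [← List.map_id l₁]
              refine List.map_congr_left fun x hx => ?_
              have : x ≠ a := by rintro rfl; exact ha2 hx
              simp [this]
            · simp
          · intro x hx y hy hxy
            have hx' : ∀ c, x ≠ e c := hxe x hx
            have hy' : ∀ c, y ≠ e c := hxe y hy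
            by_cases c1 : x = a
            · by_cases c2 : y = a
              · simp only [c1, c2, if_true] at hxy
                exact absurd hxy (hirr _)
              · simp only [c1, c2, if_true, if_false] at hxy
                rw [c1]
                exact Or.inr ⟨hae, hy', false, h2, hxy⟩
            · by_cases c2 : y = a
              · simp only [c1, c2, if_true, if_false] at hxy
                rw [c2]
                exact Or.inr ⟨hx', hae, true, hxy, hs _ _ h2⟩
              · simp only [c1, c2, if_false] at hxy
                exact Or.inl ⟨hxy, hx', hy'⟩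
          · intro x hx y hxy
            by_cases c1 : x = a
            · simp only [c1, if_true]
              rw [c1] at hxy
              rcases hxy with ⟨k, -, k'⟩ | ⟨-, -, c, k, k'⟩
              · exact absurd (hf _ _ _ k h2) (k' false)
              · cases c
                · exact ⟨_, k'⟩
                · exact absurd (hf _ _ _ h2 k) hne
            · simp only [c1, if_false]
              exact hvia x y hxy
        · -- the general case
          rw [List.cons_append, List.cons.injEq] at k2
          obtain ⟨rfl, rfl⟩ := k2
          have hn3 : (l3 ++ e false :: e true :: l₁).Nodup :=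
            (List.nodup_cons.1 (List.nodup_cons.1 hn2).2).2
          have h6 := ih (l₁ ++ l3) (by
            have := List.isRotated_append (l := l3) (l' := e false :: e true :: l₁)
            simpa using this) hn3
          exact nc_insert h6 (Or.inl ⟨h2, hxe a (by simp), hxe b (by simp)⟩)

/-- the matching of the other letters is noncrossing -/
theorem nc_mark (hs : ∀ a b, M a b → M b a) (hf : ∀ a b c, M a b → M a c → b = c)
    (hne : e false ≠ e true) (hirr : ∀ a, ¬ M a a) {l : List γ} {i : γ → α}
    (hi : Function.Injective i) (hie : ∀ a c, i a ≠ e c) (hl : l.Nodup)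
    (hcl : ∀ x ∈ l.map i ++ [e false, e true], ∀ y, M x y → y ∈ l.map i ++ [e false, e true])
    (h : NC M ((l.map i ++ [e false, e true]).filter (fun a => decide (∃ b, M a b)))) :
    NC (fun a b => via M e (i a) (i b))
      (l.filter (fun a => decide (∃ b, via M e (i a) (i b)))) := by
  have hmem : ∀ y, y ∈ l.map i ++ [e false, e true] → (∃ b, y = i b) ∨ ∃ c, y = e c := by
    intro y hy
    rw [List.mem_append, List.mem_map] at hy
    rcases hy with ⟨b, -, rfl⟩ | hy
    · exact Or.inl ⟨b, rfl⟩
    · simp only [List.mem_cons, List.not_mem_nil, or_false] at hy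
      rcases hy with rfl | rfl
      · exact Or.inr ⟨false, rfl⟩
      · exact Or.inr ⟨true, rfl⟩
  have hcl' : ∀ a ∈ l, ∀ y, M (i a) y → (∃ b, y = i b) ∨ ∃ c, y = e c := fun a ha y hy =>
    hmem y (hcl _ (by simp only [List.mem_append, List.mem_map]; exact Or.inl ⟨a, ha, rfl⟩) y hy)
  have hcle : ∀ c, ∀ y, M (e c) y → (∃ b, y = i b) ∨ ∃ c, y = e c := fun c y hy =>
    hmem y (hcl _ (by cases c <;> simp) y hy)
  by_cases hb : ∀ c, ∃ b, M (e c) b
  · -- both ends of the loop are matched
    have h1 : (l.map i ++ [e false, e true]).filter (fun a => decide (∃ b, M a b)) =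
        (l.map i).filter (fun a => decide (∃ b, M a b)) ++ [e false, e true] := by
      rw [List.filter_append]
      congr 1
      rw [List.filter_eq_self]
      intro a ha
      simp only [List.mem_cons, List.not_mem_nil, or_false] at ha
      rcases ha with rfl | rfl
      · exact decide_eq_true (hb _)
      · exact decide_eq_true (hb _)
    rw [h1] at h
    have hn : ((l.map i).filter (fun a => decide (∃ b, M a b)) ++ [e false, e true]).Nodup := by
      rw [List.nodup_append]
      refine ⟨(hl.map hi).filter _, by simp [hne], ?_⟩
      intro a ha b hb' hab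
      rw [List.mem_filter, List.mem_map] at ha
      obtain ⟨⟨x, -, rfl⟩, -⟩ := ha
      simp only [List.mem_cons, List.not_mem_nil, or_false] at hb'
      rcases hb' with rfl | rfl
      · exact hie _ _ hab
      · exact hie _ _ hab
    have h2 := nc_contract hs hf hne hirr h ((l.map i).filter (fun a => decide (∃ b, M a b)))
      (by
        have := List.isRotated_append (l := (l.map i).filter (fun a => decide (∃ b, M a b)))
          (l' := [e false, e true])
        simpa using this) hn
    have h3 : (l.map i).filter (fun a => decide (∃ b, M a b)) =
        (l.filter (fun a => decide (∃ b, via M e (i a) (i b)))).map i := by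
      rw [List.filter_map]
      congr 1
      refine List.filter_congr fun a ha => ?_
      rw [Function.comp_apply, decide_eq_decide]
      constructor
      · rintro ⟨y, hy⟩
        rcases hcl' a ha y hy with ⟨b, rfl⟩ | ⟨c, rfl⟩
        · exact ⟨b, Or.inl ⟨hy, hie a, hie b⟩⟩
        · obtain ⟨z, hz⟩ := hb (!c)
          rcases hcle _ z hz with ⟨b, rfl⟩ | ⟨c', rfl⟩
          · exact ⟨b, Or.inr ⟨hie a, hie b, c, hy, hz⟩⟩
          · exfalso
            by_cases hcc : c' = c
            · rw [hcc] at hz
              exact hie a (!c) (hf _ _ _ (hs _ _ hy) (hs _ _ hz))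
            · have : c' = !c := by
                revert hcc
                cases c <;> cases c' <;> simp
              rw [this] at hz
              exact hirr _ hz
      · rintro ⟨b, (⟨k, -⟩ | ⟨-, -, c, k, -⟩)⟩
        · exact ⟨_, k⟩
        · exact ⟨_, k⟩
    rw [h3] at h2
    exact Tc.Exp9.nc_pull h2 _ rfl (fun a _ b _ k => k) fun a _ b k => ⟨_, k⟩
  · push Not at hb
    obtain ⟨c0, hc0⟩ := hb
    have hvia : ∀ x y, via M e x y → M x y := by
      rintro x y (⟨k, -⟩ | ⟨-, -, c, k1, k2⟩)
      · exact k
      · exfalso
        by_cases hcc : c0 = c
        · rw [hcc] at hc0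
          exact hc0 _ (hs _ _ k1)
        · have : c0 = !c := by
            revert hcc
            cases c <;> cases c0 <;> simp
          rw [this] at hc0
          exact hc0 _ k2
    have h1 := GenAux.nc_filter (M' := fun x y => M x y ∧ (∀ c, x ≠ e c) ∧ ∀ c, y ≠ e c)
      (fun x => (∀ c, x ≠ e c) ∧ ∀ c, ¬ M x (e c)) (fun a b k => k.1) (by
        intro a b hab
        by_cases ka : ∃ c, a = e c
        · obtain ⟨c, rfl⟩ := ka
          exact Or.inr ⟨fun k => k.1 c rfl, fun k => k.2 c (hs _ _ hab)⟩
        · by_cases kb : ∃ c, b = e c
          · obtain ⟨c, rfl⟩ := kb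
            exact Or.inr ⟨fun k => k.2 c hab, fun k => k.1 c rfl⟩
          · push Not at ka kb
            refine Or.inl ⟨⟨hab, ka, kb⟩, ⟨ka, fun c k => kb c (hf _ _ _ hab k)⟩, kb,
              fun c k => ka c (hf _ _ _ (hs _ _ hab) k)⟩) h
    have h2 : ((l.map i ++ [e false, e true]).filter (fun a => decide (∃ b, M a b))).filter
        (fun a => decide ((∀ c, a ≠ e c) ∧ ∀ c, ¬ M a (e c))) =
        (l.filter (fun a => decide (∃ b, via M e (i a) (i b)))).map i := by
      rw [List.filter_filter, List.filter_append]
      have h3 : [e false, e true].filter (fun a => decide ((∀ c, a ≠ e c) ∧ ∀ c, ¬ M a (e c)) &&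
          decide (∃ b, M a b)) = [] := by
        rw [List.filter_eq_nil_iff]
        intro a ha
        simp only [List.mem_cons, List.not_mem_nil, or_false] at ha
        rw [Bool.and_eq_true, decide_eq_true_eq]
        rintro ⟨⟨k, -⟩, -⟩
        rcases ha with rfl | rfl
        · exact k _ rfl
        · exact k _ rfl
      rw [h3, List.append_nil, List.filter_map]
      congr 1
      refine List.filter_congr fun a ha => ?_
      rw [Function.comp_apply, ← Bool.decide_and, decide_eq_decide]
      constructor
      · rintro ⟨⟨k1, k2⟩, y, hy⟩
        rcases hcl' a ha y hy with ⟨b, rfl⟩ | ⟨c, rfl⟩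
        · exact ⟨b, Or.inl ⟨hy, hie a, hie b⟩⟩
        · exact absurd hy (k2 c)
      · rintro ⟨b, k⟩
        have k' := hvia _ _ k
        exact ⟨⟨hie a, fun c k2 => hie b c (hf _ _ _ k' k2)⟩, _, k'⟩
    rw [h2] at h1
    exact Tc.Exp9.nc_pull h1 _ rfl (fun a _ b _ k => Or.inl k) fun a _ b k => ⟨_, hvia _ _ k,
      hie a, hie b⟩

end

end RotWqo.Pb.II94
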