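import Pool.Agent.Lib.MP_cb4a0f_co.Pb.Stmts
import Pool.Agent.Lib.MP_cb4a0f_co.Tc.Step6

/-!
# MP_cb4a0f_co: from contracted pieces with orders to pieces
-/

open Classical

namespace RotWqo.Pb

open RotWqo.Bag RotWqo.Hk RotWqo.Pl RotWqo.Tc.Step6

theorem MPEO.refl {V H : Type*} (r : V → V → Prop) (hr : ∀ v, r v v) (G : RotGraph V H)
    (A : Finset V) (l : List H) : MPEO r G A l G A l := by
  refine ⟨id, PE.refl r hr G A, ?_⟩
  rw [List.map_id]

theorem MPEO.trans {V V' V'' H H' H'' : Type*} {r₁ : V → V' → Prop} {r₂ : V' → V'' → Prop}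
    {r : V → V'' → Prop} (hr : ∀ u v w, r₁ u v → r₂ v w → r u w) {G : RotGraph V H}
    {A : Finset V} {l : List H} {G' : RotGraph V' H'} {A' : Finset V'} {l' : List H'}
    {G'' : RotGraph V'' H''} {A'' : Finset V''} {l'' : List H''} (h : MPEO r₁ G A l G' A' l')
    (h' : MPEO r₂ G' A' l' G'' A'' l'') : MPEO r G A l G'' A'' l'' := by
  obtain ⟨β, h1, h2⟩ := h
  obtain ⟨β', h1', h2'⟩ := h'
  refine ⟨β' ∘ β, PE.trans hr h1 h1', ?_⟩
  rw [← List.map_map, h2, h2']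

/-- If the contracted pieces are good for all labels, then the pieces are good. -/
theorem stepO (hE : StExpO) (hM : StMarkO) (d : ℕ) (V H : ℕ → Type) [∀ i, Nonempty (V i)]
    [∀ i, Nonempty (H i)] (G : ∀ i, RotGraph (V i) (H i)) (Q : Type) (q : Q → Q → Prop)
    [IsPreorder Q q] (hq : WellQuasiOrdered q) (lab : ∀ i, V i → Q)
    (o : ∀ i, Finset (V i) → List (H i))
    (Y : Set (Σ i, Finset (V i)))
    (hYo : ∀ a ∈ Y, (o a.1 a.2).Nodup ∧ (∀ h, h ∈ o a.1 a.2 ↔ h ∈ bd (G a.1) a.2) ∧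
      (o a.1 a.2).length ≤ d)
    (hY : Y.PartiallyWellOrderedOn (fun a b => ∃ β, PE (fun v v' => q (lab a.1 v) (lab b.1 v'))
      (G a.1) a.2 (G b.1) b.2 β))
    (i : ℕ → ℕ) (S : ∀ n, Finset (V (i n))) (C : ∀ n, Finset (Finset (V (i n))))
    (hS : ∀ n, S n ⊆ (G (i n)).verts) (hF : ∀ n, FamO (G (i n)) (S n) (C n) (o (i n)))
    (hTr : ∀ n, ∀ X ∈ C n, X ⊆ S n → TravX (G (i n)) X (o (i n) X))
    (hCY : ∀ n, ∀ X ∈ C n, X ⊆ S n → (⟨i n, X⟩ : Σ i, Finset (V i)) ∈ Y)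
    (hgood : ∀ (Q' : Type) (q' : Q' → Q' → Prop) [IsPreorder Q' q'], WellQuasiOrdered q' →
      ∀ lab' : ∀ n, V (i n) ⊕ Finset (V (i n)) → Q', ∃ m n, m < n ∧ ∃ β,
        PE (fun a b => q' (lab' m a) (lab' n b)) (ctrO (G (i m)) (C m) (o (i m)))
          (Tc.cA (C m) (S m)) (ctrO (G (i n)) (C n) (o (i n))) (Tc.cA (C n) (S n)) β) :
    ∃ m n, m < n ∧ ∃ β, PE (fun a b => q (lab (i m) a) (lab (i n) b)) (G (i m)) (S m)
      (G (i n)) (S n) β := by
  set p : {a // a ∈ Y} → {a // a ∈ Y} → Prop := fun a b =>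
    MPEO (fun v v' => q (lab a.1.1 v) (lab b.1.1 v')) (G a.1.1) a.1.2 (o a.1.1 a.1.2)
      (G b.1.1) b.1.2 (o b.1.1 b.1.2) with hp
  have : IsPreorder {a // a ∈ Y} p :=
    { refl := fun a => MPEO.refl (fun v v' => q (lab a.1.1 v) (lab a.1.1 v'))
        (fun v => refl_of q _) (G a.1.1) a.1.2 _
      trans := fun a b c h h' => MPEO.trans (r₁ := fun v v' => q (lab a.1.1 v) (lab b.1.1 v'))
        (r₂ := fun v v' => q (lab b.1.1 v) (lab c.1.1 v'))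
        (r := fun v v' => q (lab a.1.1 v) (lab c.1.1 v'))
        (fun u v w h1 h2 => trans_of q h1 h2) h h' }
  have hpw : WellQuasiOrdered p := by
    have h1 := hM d (Σ i, Finset (V i)) (fun a => V a.1) (fun a => H a.1) (fun a => G a.1)
      (fun a => a.2) (fun a => o a.1 a.2) Q q (fun a => lab a.1) Y hYo hY
    intro f
    obtain ⟨m, n, hmn, h2⟩ := h1 f
    exact ⟨m, n, hmn, h2⟩
  set lab' : ∀ n, V (i n) ⊕ Finset (V (i n)) → Lb Q {a // a ∈ Y} := fun n x => match x with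
    | .inl v => .hub (lab (i n) v)
    | .inr X => if h : X ∈ C n ∧ X ⊆ S n then .atom ⟨⟨i n, X⟩, hCY n X h.1 h.2⟩ else .none
    with hlab'
  obtain ⟨m, n, hmn, β, hβ⟩ := hgood (Lb Q {a // a ∈ Y}) (Lb.le q p) (Lb.wqo hq hpw) lab'
  refine ⟨m, n, hmn, ?_⟩
  refine hE (V (i m)) (V (i n)) (H (i m)) (H (i n)) (G (i m)) (G (i n)) (C m) (C n)
    (o (i m)) (o (i n)) (S m) (S n)
    _ (fun a b => Lb.le q p (lab' m a) (lab' n b)) β (hS m) (hS n) (hF m) (hF n) ?_ ?_ ?_ ?_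
    (hTr n) hβ
  · intro v v' h
    exact h
  · intro v X' h
    simp only [hlab'] at h
    split_ifs at h <;> exact h
  · intro X v' h
    simp only [hlab'] at h
    split_ifs at h <;> exact h
  · intro X hX hXS X' hX' hXS' h
    simp only [hlab', dif_pos (show X ∈ C m ∧ X ⊆ S m from ⟨hX, hXS⟩),
      dif_pos (show X' ∈ C n ∧ X' ⊆ S n from ⟨hX', hXS'⟩)] at h
    exact h

end RotWqo.Pb
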