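import Pool.Agent.Lib.MP_cb4a0f_co.Pb.Fill49
import Pool.Agent.Lib.MP_cb4a0f_co.Pb.Cat49

/-!
# MP_cb4a0f_co: a tree whose nodes are bonds
-/

open Classical

namespace RotWqo.Pb

section V2

variable {α : Type} {adj : α → α → Prop}

/-- the nodes of the new tree -/
def Gd49 (adj : α → α → Prop) (U : Finset α) (t : Tree α) (S : Finset α) : Prop :=
  ((∃ x, S = {x}) ∨ Bond adj U S) ∧
    ∃ s₁ s₂ s₃ s₄, IsSub s₁ t ∧ IsSub s₂ t ∧ IsSub s₃ t ∧ IsSub s₄ t ∧
      ∀ a ∈ S, ∀ b ∈ U, b ∉ S → adj a b →
        (a ∈ s₁.set ↔ b ∉ s₁.set) ∨ (a ∈ s₂.set ↔ b ∉ s₂.set) ∨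
        (a ∈ s₃.set ↔ b ∉ s₃.set) ∨ (a ∈ s₄.set ↔ b ∉ s₄.set)

/-- the boundary of `Z` is covered by the node `h` -/
def Cov49 (adj : α → α → Prop) (U Z : Finset α) (h : Tree α) : Prop :=
  ∀ a ∈ Z, ∀ b ∈ U, b ∉ Z → adj a b → (a ∈ h.set ↔ b ∉ h.set)

theorem Gd49.of_cov {U : Finset α} {t : Tree α} {S : Finset α} {h : Tree α} (hh : IsSub h t)
    (h1 : (∃ x, S = {x}) ∨ Bond adj U S) (h2 : Cov49 adj U S h) : Gd49 adj U t S :=
  ⟨h1, h, h, h, h, hh, hh, hh, hh, fun a ha b hb hbS hab => Or.inl (h2 a ha b hb hbS hab)⟩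

theorem set_leaf49 (x : α) : (Tree.leaf x : Tree α).set = {x} := by
  simp [Tree.set, Tree.leaves]

theorem isSub_leaf49 {s : Tree α} {x : α} (h : IsSub s (.leaf x)) : s = .leaf x := by
  cases h with
  | refl => rfl

theorem isSub_trans49 {s t u : Tree α} (h : IsSub s t) (h' : IsSub t u) : IsSub s u := by
  induction h' with
  | refl => exact h
  | left l r _ ih => exact IsSub.left _ _ ih
  | right l r _ ih => exact IsSub.right _ _ ih

theorem isSub_nodup49 {s t : Tree α} (h : IsSub s t) (hn : t.leaves.Nodup) :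
    s.leaves.Nodup := by
  induction h with
  | refl => exact hn
  | left l r _ ih =>
    rw [Tree.leaves, List.nodup_append] at hn
    exact ih hn.1
  | right l r _ ih =>
    rw [Tree.leaves, List.nodup_append] at hn
    exact ih hn.2.1

theorem node_disj49 {l r : Tree α} (h : (Tree.node l r).leaves.Nodup) :
    Disjoint l.set r.set := by
  rw [Tree.leaves, List.nodup_append] at h
  rw [Finset.disjoint_left]
  intro x hx hx'
  exact h.2.2 x (List.mem_toFinset.1 hx) x (List.mem_toFinset.1 hx') rfl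

/-- the statement of the recursion -/
def Rec49 (adj : α → α → Prop) (U : Finset α) (t : Tree α) (Z : Finset α) (H : Tree α) : Prop :=
  ∀ H0, IsSub H0 t → Cov49 adj U Z H0 → ∀ X, IsCp49 adj (Z ∩ H.set) X →
    ∃ t' : Tree α, t'.leaves.Nodup ∧ t'.set = fl49 adj U (U \ Z) X ∧
      ∀ s, IsSub s t' → Gd49 adj U t s.set

/-- the recursion for a bond with the whole tree -/
theorem rec_bond49 {U : Finset α} {t : Tree α} (hs : ∀ a b, adj a b → adj b a)
    (hU : Cn adj U) (ht : t.set = U) {Y : Finset α} (hY : Bond adj U Y) {h : Tree α}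
    (hh : IsSub h t) (hc : Cov49 adj U Y h) (hR : Rec49 adj U t Y t) :
    ∃ t' : Tree α, t'.leaves.Nodup ∧ t'.set = Y ∧ ∀ s, IsSub s t' → Gd49 adj U t s.set := by
  have h1 : IsCp49 adj (Y ∩ t.set) Y := by
    rw [ht, Finset.inter_eq_left.2 hY.1]
    exact ⟨subset_rfl, hY.2.1, fun x _ y hy _ => hy⟩
  obtain ⟨t', h2, h3, h4⟩ := hR h hh hc Y h1
  have h5 : Fh49 adj U (U \ Y) Y := ⟨hs, hU, hY.2.2, Finset.sdiff_subset, hY.2.1, hY.1,
    Finset.disjoint_sdiff⟩
  exact ⟨t', h2, by rw [h3, h5.fl_bond hY.2.2], h4⟩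

theorem rec_leaf49 {U : Finset α} {t : Tree α} (hs : ∀ a b, adj a b → adj b a)
    (hU : Cn adj U) (ht : t.set = U) {Z : Finset α} (hZ : Bond adj U Z)
    (hcut : ∀ x ∈ U, ∃ A B : Finset α, U.erase x = A ∪ B ∧ (A = ∅ ∨ Cn adj A) ∧
      (B = ∅ ∨ Cn adj B))
    (ih : ∀ Y, Y.card < Z.card → Bond adj U Y → Rec49 adj U t Y t) (x : α)
    (hx : IsSub (.leaf x) t) : Rec49 adj U t Z (.leaf x) := by
  intro H0 hH0 hcov X hX
  have hXx : X = {x} := by
    have h1 := hX.1
    rw [set_leaf49] at h1
    have h2 : X ⊆ {x} := h1.trans Finset.inter_subset_right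
    exact (Finset.subset_singleton_iff.1 h2).resolve_left hX.2.1.1.ne_empty
  subst hXx
  have hxZ : x ∈ Z := (Finset.mem_inter.1 (hX.1 (Finset.mem_singleton_self x))).1
  have hxU := hZ.1 hxZ
  have F : Fh49 adj U (U \ Z) {x} := ⟨hs, hU, hZ.2.2, Finset.sdiff_subset, Cn.sg49 x,
    Finset.singleton_subset_iff.2 hxU, by
      rw [Finset.disjoint_singleton_left, Finset.mem_sdiff]
      exact fun h => h.2 hxZ⟩
  set K := cp49 adj (U \ {x}) (U \ Z) with hK
  have hKc := F.cp
  rw [← hK] at hKc
  -- everything that is not in `K` and not `x`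
  set Y : Finset α := (U \ {x}) \ K with hY
  have hflY : fl49 adj U (U \ Z) {x} = {x} ∪ Y := by
    ext z
    rw [Fh49.mem_fl, Finset.mem_union, hY, Finset.mem_sdiff, Finset.mem_sdiff, ← hK,
      Finset.mem_singleton]
    have h1 : z ∈ K → z ∈ U \ {x} := fun h => hKc.1 h
    rw [Finset.mem_sdiff, Finset.mem_singleton] at h1
    constructor
    · rintro ⟨h2, h3⟩
      by_cases h4 : z = x
      · exact Or.inl h4
      · exact Or.inr ⟨⟨h2, h4⟩, h3⟩
    · rintro (rfl | h2)
      · exact ⟨hxU, fun h => (h1 h).2 rfl⟩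
      · exact ⟨h2.1.1, h2.2⟩
  have hcovx : Cov49 adj U (fl49 adj U (U \ Z) {x}) (.leaf x) := by
    intro a ha b hb hbn hab
    have h1 := F.leave ha hb hbn hab
    rw [set_leaf49]
    have h2 : b ∉ ({x} : Finset α) := fun h => hbn (F.sub_fl h)
    simp only [h1, h2, not_false_iff]
  by_cases hYe : Y = ∅
  · -- the complement of `x` is connected
    rw [hYe, Finset.union_empty] at hflY
    refine ⟨.leaf x, by simp [Tree.leaves], by rw [set_leaf49, hflY], ?_⟩
    intro s hsx
    rw [isSub_leaf49 hsx, set_leaf49]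
    refine Gd49.of_cov hx (Or.inl ⟨x, rfl⟩) ?_
    rw [hflY] at hcovx
    exact hcovx
  · have hYne : Y.Nonempty := Finset.nonempty_iff_ne_empty.2 hYe
    obtain ⟨A, B, hAB, hA, hB⟩ := hcut x hxU
    have herase : U.erase x = U \ {x} := (Finset.sdiff_singleton_eq_erase x U).symm
    rw [herase] at hAB
    -- `Y` is connected
    have hYmem : ∀ z, z ∈ Y ↔ z ∈ U \ {x} ∧ z ∉ K := by
      intro z
      rw [hY, Finset.mem_sdiff]
    have key : ∀ A B : Finset α, U \ {x} = A ∪ B → (A = ∅ ∨ Cn adj A) → (B = ∅ ∨ Cn adj B) →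
        (∃ z ∈ A, z ∈ K) → Cn adj Y := by
      intro A B hAB hA hB ⟨z, hzA, hzK⟩
      have hAc : Cn adj A := hA.resolve_left (by
        rintro rfl
        simp at hzA)
      have hAK : A ⊆ K := hKc.sub hAc (by rw [hAB]; exact Finset.subset_union_left) hzA hzK
      have hYB : Y ⊆ B := by
        intro w hw
        rw [hYmem, hAB, Finset.mem_union] at hw
        rcases hw.1 with h | h
        · exact absurd (hAK h) hw.2
        · exact h
      obtain ⟨y, hy⟩ := hYne
      have hBc : Cn adj B := hB.resolve_left (by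
        rintro rfl
        exact absurd (hYB hy) (by simp))
      have hBY : B ⊆ Y := by
        intro w hw
        rw [hYmem]
        refine ⟨by rw [hAB]; exact Finset.mem_union_right _ hw, fun hwK => ?_⟩
        have h1 : B ⊆ K := hKc.sub hBc (by rw [hAB]; exact Finset.subset_union_right) hw hwK
        exact ((hYmem y).1 hy).2 (h1 (hYB hy))
      rw [Finset.Subset.antisymm hYB hBY]
      exact hBc
    have hYc : Cn adj Y := by
      obtain ⟨k, hk⟩ := hKc.2.1.1
      have h1 := hKc.1 hk
      rw [hAB, Finset.mem_union] at h1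
      rcases h1 with h1 | h1
      · exact key A B hAB hA hB ⟨k, h1, hk⟩
      · exact key B A (by rw [hAB, Finset.union_comm]) hB hA ⟨k, h1, hk⟩
    have hYU : Y ⊆ U := by
      intro z hz
      rw [hYmem, Finset.mem_sdiff] at hz
      exact hz.1.1
    -- neighbours of `Y` outside are `x`
    have hYx : ∀ a ∈ Y, ∀ b ∈ U, b ∉ Y → adj a b → b = x := by
      intro a ha b hb hbY hab
      by_contra hbx
      rw [hYmem] at ha hbY
      have hb1 : b ∈ U \ {x} := by
        rw [Finset.mem_sdiff, Finset.mem_singleton]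
        exact ⟨hb, hbx⟩
      have hbK : b ∈ K := by
        by_contra h
        exact hbY ⟨hb1, h⟩
      exact ha.2 (hKc.2.2 b hbK a ha.1 (hs _ _ hab))
    have hxY : x ∉ Y := by
      rw [hYmem, Finset.mem_sdiff, Finset.mem_singleton]
      tauto
    have hUY : U \ Y = K ∪ {x} := by
      ext z
      have h1 : z ∈ K → z ∈ U \ {x} := fun h => hKc.1 h
      rw [Finset.mem_sdiff, Finset.mem_singleton] at h1
      rw [Finset.mem_sdiff, hYmem, Finset.mem_union, Finset.mem_sdiff, Finset.mem_singleton]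
      constructor
      · rintro ⟨h2, h3⟩
        by_cases h4 : z = x
        · exact Or.inr h4
        · left
          by_contra h5
          exact h3 ⟨⟨h2, h4⟩, h5⟩
      · rintro (h2 | rfl)
        · exact ⟨(h1 h2).1, fun h3 => h3.2 h2⟩
        · exact ⟨hxU, fun h3 => h3.1.2 rfl⟩
    have hKx : ∃ k ∈ K, adj k x := by
      obtain ⟨a, ha, b, hb, hbn, hab⟩ := hU.2 K (hKc.1.trans Finset.sdiff_subset) hKc.2.1.1 (by
        intro h
        have := hKc.1 (h ▸ hxU)
        simp at this)
      refine ⟨a, ha, ?_⟩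
      have : b = x := by
        by_contra h
        exact hbn (hKc.2.2 a ha b (by
          rw [Finset.mem_sdiff, Finset.mem_singleton]
          exact ⟨hb, h⟩) hab)
      rwa [this] at hab
    obtain ⟨k, hk, hkx⟩ := hKx
    have hYB : Bond adj U Y := by
      refine ⟨hYU, hYc, ?_⟩
      rw [hUY]
      exact Cn.un49 hs hKc.2.1 (Cn.sg49 x) hk (Finset.mem_singleton_self x) hkx
    have hYZ : Y ⊆ Z := by
      intro z hz
      by_contra hzZ
      rw [hYmem] at hz
      exact hz.2 (F.Ocp (Finset.mem_sdiff.2 ⟨(Finset.mem_sdiff.1 hz.1).1, hzZ⟩))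
    have hcard : Y.card < Z.card := by
      apply Finset.card_lt_card
      rw [Finset.ssubset_iff_of_subset hYZ]
      exact ⟨x, hxZ, hxY⟩
    have hcovY : Cov49 adj U Y (.leaf x) := by
      intro a ha b hb hbn hab
      have h1 := hYx a ha b hb hbn hab
      subst h1
      rw [set_leaf49]
      have h2 : a ∉ ({b} : Finset α) := by
        rw [Finset.mem_singleton]
        rintro rfl
        exact hxY ha
      simp only [h2, Finset.mem_singleton, not_true]
    obtain ⟨t', h1, h2, h3⟩ := rec_bond49 hs hU ht hYB hx hcovY (ih Y hcard hYB)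
    have hset : (Tree.node (.leaf x) t').set = fl49 adj U (U \ Z) {x} := by
      rw [set_node49, set_leaf49, h2, hflY]
    refine ⟨.node (.leaf x) t', leaves_node49 (by simp [Tree.leaves]) h1 ?_, hset, ?_⟩
    · rw [set_leaf49, h2, Finset.disjoint_singleton_left]
      exact hxY
    · intro s hs'
      rcases isSub_node49 hs' with rfl | h | h
      · rw [hset]
        exact Gd49.of_cov hx (Or.inr F.bond) hcovx
      · rw [isSub_leaf49 h, set_leaf49]
        refine Gd49.of_cov hx (Or.inl ⟨x, rfl⟩) ?_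
        intro a ha b hb hbn _
        rw [set_leaf49]
        simp only [ha, hbn, not_false_iff]
      · exact h3 s h

theorem rec_node49 (hE : StExt) {U : Finset α} {t : Tree α} (hs : ∀ a b, adj a b → adj b a)
    (hU : Cn adj U) (ht : t.set = U) (htn : t.leaves.Nodup) {Z : Finset α} (hZ : Bond adj U Z)
    (ih : ∀ Y, Y.card < Z.card → Bond adj U Y → Rec49 adj U t Y t) (H1 H2 : Tree α)
    (hH : IsSub (.node H1 H2) t) (R1 : Rec49 adj U t Z H1) (R2 : Rec49 adj U t Z H2) :
    Rec49 adj U t Z (.node H1 H2) := by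
  intro H0 hH0 hcov X hX
  have hH1 : IsSub H1 t := isSub_trans49 (IsSub.left _ _ IsSub.refl) hH
  have hH2 : IsSub H2 t := isSub_trans49 (IsSub.right _ _ IsSub.refl) hH
  have hd12 : Disjoint H1.set H2.set := node_disj49 (isSub_nodup49 hH htn)
  have hset12 : (Tree.node H1 H2).set = H1.set ∪ H2.set := set_node49 _ _
  have hXZ : X ⊆ Z := hX.1.trans Finset.inter_subset_left
  have hXH : X ⊆ (Tree.node H1 H2).set := hX.1.trans Finset.inter_subset_right
  have hXU := hXZ.trans hZ.1
  -- the standing hypotheses for connected subsets of `Z`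
  have mk : ∀ C : Finset α, Cn adj C → C ⊆ Z → Fh49 adj U (U \ Z) C := fun C hC hCZ =>
    ⟨hs, hU, hZ.2.2, Finset.sdiff_subset, hC, hCZ.trans hZ.1, by
      rw [Finset.disjoint_left]
      intro x hx hx'
      exact (Finset.mem_sdiff.1 hx').2 (hCZ hx)⟩
  have F := mk X hX.2.1 hXZ
  -- neighbours of `X` in `Z` are not in `H`
  have hXn : ∀ a ∈ X, ∀ b ∈ Z, b ∉ X → adj a b → b ∉ (Tree.node H1 H2).set := by
    intro a ha b hb hbX hab hbH
    exact hbX (hX.2.2 a ha b (Finset.mem_inter.2 ⟨hb, hbH⟩) hab)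
  -- the cells
  let cell : Finset α → Prop := fun C => IsCp49 adj (X ∩ H1.set) C ∨ IsCp49 adj (X ∩ H2.set) C ∨
    (IsCp49 adj (U \ X) C ∧ C ⊆ Z)
  have cellZ : ∀ C, cell C → C ⊆ Z := by
    rintro C (h | h | h)
    · exact (h.1.trans Finset.inter_subset_left).trans hXZ
    · exact (h.1.trans Finset.inter_subset_left).trans hXZ
    · exact h.2
  have cellC : ∀ C, cell C → Cn adj C := by
    rintro C (h | h | h)
    · exact h.2.1
    · exact h.2.1
    · exact h.1.2.1
  have cellF : ∀ C, cell C → Fh49 adj U (U \ Z) C := fun C hC => mk C (cellC C hC) (cellZ C hC)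
  have cellD : ∀ C D, cell C → cell D → ∀ x, x ∈ C → x ∈ D → C = D := by
    intro C D hC hD x hxC hxD
    rcases hC with h | h | h <;> rcases hD with h' | h' | h'
    · exact h.eq h' hxD hxC
    · exact absurd (Finset.mem_inter.1 (h'.1 hxD)).2
        (Finset.disjoint_left.1 hd12 (Finset.mem_inter.1 (h.1 hxC)).2)
    · exact absurd (Finset.mem_inter.1 (h.1 hxC)).1 (Finset.mem_sdiff.1 (h'.1.1 hxD)).2
    · exact absurd (Finset.mem_inter.1 (h.1 hxC)).2
        (Finset.disjoint_left.1 hd12 (Finset.mem_inter.1 (h'.1 hxD)).2)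
    · exact h.eq h' hxD hxC
    · exact absurd (Finset.mem_inter.1 (h.1 hxC)).1 (Finset.mem_sdiff.1 (h'.1.1 hxD)).2
    · exact absurd (Finset.mem_inter.1 (h'.1 hxD)).1 (Finset.mem_sdiff.1 (h.1.1 hxC)).2
    · exact absurd (Finset.mem_inter.1 (h'.1 hxD)).1 (Finset.mem_sdiff.1 (h.1.1 hxC)).2
    · exact h.1.eq h'.1 hxD hxC
  -- every point of the filling is in a cell
  have cellEx : ∀ x ∈ fl49 adj U (U \ Z) X, ∃ C, cell C ∧ x ∈ C := by
    intro x hx
    by_cases hxX : x ∈ X
    · have h1 := hXH hxX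
      rw [hset12, Finset.mem_union] at h1
      rcases h1 with h1 | h1
      · obtain ⟨K, hK, hxK⟩ := exists_cp49 (S := X ∩ H1.set) hs (Cn.sg49 x)
          (Finset.singleton_subset_iff.2 (Finset.mem_inter.2 ⟨hxX, h1⟩))
        exact ⟨K, Or.inl hK, hxK (Finset.mem_singleton_self x)⟩
      · obtain ⟨K, hK, hxK⟩ := exists_cp49 (S := X ∩ H2.set) hs (Cn.sg49 x)
          (Finset.singleton_subset_iff.2 (Finset.mem_inter.2 ⟨hxX, h1⟩))
        exact ⟨K, Or.inr (Or.inl hK), hxK (Finset.mem_singleton_self x)⟩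
    · have hxU : x ∈ U := Fh49.fl_sub hx
      obtain ⟨K, hK, hxK⟩ := exists_cp49 (S := U \ X) hs (Cn.sg49 x)
        (Finset.singleton_subset_iff.2 (Finset.mem_sdiff.2 ⟨hxU, hxX⟩))
      have hxK' := hxK (Finset.mem_singleton_self x)
      refine ⟨K, Or.inr (Or.inr ⟨hK, ?_⟩), hxK'⟩
      intro z hz
      by_contra hzZ
      have hzU := (Finset.mem_sdiff.1 (hK.1 hz)).1
      have h2 := F.cp.eq hK hz (F.Ocp (Finset.mem_sdiff.2 ⟨hzU, hzZ⟩))
      rw [Fh49.mem_fl] at hx
      rw [h2] at hx
      exact hx.2 hxK'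
  -- cells are inside the filling
  have cellSub : ∀ C, cell C → C ⊆ fl49 adj U (U \ Z) X := by
    rintro C (h | h | h)
    · exact (h.1.trans Finset.inter_subset_left).trans F.sub_fl
    · exact (h.1.trans Finset.inter_subset_left).trans F.sub_fl
    · intro x hx
      rw [Fh49.mem_fl]
      refine ⟨hZ.1 (h.2 hx), fun hxK => ?_⟩
      have h1 := F.cp.eq h.1 hx hxK
      obtain ⟨o, ho⟩ := hZ.2.2.1
      have h2 := F.Ocp ho
      rw [h1] at h2
      exact (Finset.mem_sdiff.1 ho).2 (h.2 h2)
  -- the fillings of the cells have trees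
  have cellT : ∀ C, cell C → ∃ t' : Tree α, t'.leaves.Nodup ∧
      t'.set = fl49 adj U (U \ Z) C ∧ ∀ s, IsSub s t' → Gd49 adj U t s.set := by
    intro C hC
    rcases hC with h | h | h
    · refine R1 H0 hH0 hcov C ⟨?_, h.2.1, ?_⟩
      · intro x hx
        have := Finset.mem_inter.1 (h.1 hx)
        exact Finset.mem_inter.2 ⟨hXZ this.1, this.2⟩
      · intro x hx y hy hxy
        rw [Finset.mem_inter] at hy
        have hxX := (Finset.mem_inter.1 (h.1 hx)).1
        have hyX : y ∈ X := by
          by_contra h'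
          refine hXn x hxX y hy.1 h' hxy ?_
          rw [hset12]
          exact Finset.mem_union_left _ hy.2
        exact h.2.2 x hx y (Finset.mem_inter.2 ⟨hyX, hy.2⟩) hxy
    · refine R2 H0 hH0 hcov C ⟨?_, h.2.1, ?_⟩
      · intro x hx
        have := Finset.mem_inter.1 (h.1 hx)
        exact Finset.mem_inter.2 ⟨hXZ this.1, this.2⟩
      · intro x hx y hy hxy
        rw [Finset.mem_inter] at hy
        have hxX := (Finset.mem_inter.1 (h.1 hx)).1
        have hyX : y ∈ X := by
          by_contra h'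
          refine hXn x hxX y hy.1 h' hxy ?_
          rw [hset12]
          exact Finset.mem_union_right _ hy.2
        exact h.2.2 x hx y (Finset.mem_inter.2 ⟨hyX, hy.2⟩) hxy
    · -- a hole
      have hCU : C ⊆ U := h.2.trans hZ.1
      have hCX : ∀ a ∈ C, ∀ b ∈ U, b ∉ C → adj a b → b ∈ X := by
        intro a ha b hb hbC hab
        by_contra hbX
        exact hbC (h.1.2.2 a ha b (Finset.mem_sdiff.2 ⟨hb, hbX⟩) hab)
      have hCnX : ∀ a ∈ C, a ∉ X := fun a ha => (Finset.mem_sdiff.1 (h.1.1 ha)).2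
      -- the complement of the hole is the filling of `X` seen from the hole
      have F' : Fh49 adj U C X := ⟨hs, hU, h.1.2.1, hCU, hX.2.1, hXU, by
        rw [Finset.disjoint_left]
        exact fun x hx hx' => hCnX x hx' hx⟩
      have h3 : cp49 adj (U \ X) C = C := by
        obtain ⟨c, hc⟩ := h.1.2.1.1
        exact F'.cp.eq h.1 hc (F'.Ocp hc)
      have hB : Bond adj U C := by
        refine ⟨hCU, h.1.2.1, ?_⟩
        have h4 := F'.cn_fl
        rw [fl49, h3] at h4
        exact h4
      have hcard : C.card < Z.card := by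
        apply Finset.card_lt_card
        rw [Finset.ssubset_iff_of_subset h.2]
        obtain ⟨x, hx⟩ := hX.2.1.1
        exact ⟨x, hXZ hx, fun h' => hCnX x h' hx⟩
      have hcovC : Cov49 adj U C (.node H1 H2) := by
        intro a ha b hb hbC hab
        have hbX := hCX a ha b hb hbC hab
        have h5 := hXn b hbX a (h.2 ha) (hCnX a ha) (hs _ _ hab)
        have h6 := hXH hbX
        simp only [h5, h6, not_true]
      obtain ⟨t', k1, k2, k3⟩ := rec_bond49 hs hU ht hB hH hcovC (ih C hcard hB)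
      refine ⟨t', k1, ?_, k3⟩
      rw [k2, (mk C h.1.2.1 h.2).fl_bond hB.2.2]
  -- the maximal fillings
  let P : Finset (Finset α) := U.powerset.filter (fun Y =>
    (∃ C, cell C ∧ Y = fl49 adj U (U \ Z) C) ∧
    ∀ C, cell C → Y ⊆ fl49 adj U (U \ Z) C → Y = fl49 adj U (U \ Z) C)
  have hPm : ∀ Y, Y ∈ P → (∃ C, cell C ∧ Y = fl49 adj U (U \ Z) C) ∧
      ∀ C, cell C → Y ⊆ fl49 adj U (U \ Z) C → Y = fl49 adj U (U \ Z) C := by
    intro Y hY
    exact (Finset.mem_filter.1 hY).2
  have hPabove : ∀ C, cell C → ∃ Y ∈ P, fl49 adj U (U \ Z) C ⊆ Y := by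
    intro C hC
    obtain ⟨Y, hY, hmax⟩ := Finset.exists_max_image
      (U.powerset.filter (fun Y => (∃ D, cell D ∧ Y = fl49 adj U (U \ Z) D) ∧
        fl49 adj U (U \ Z) C ⊆ Y)) (fun Y => Y.card) ⟨fl49 adj U (U \ Z) C, by
          rw [Finset.mem_filter, Finset.mem_powerset]
          exact ⟨Fh49.fl_sub, ⟨C, hC, rfl⟩, subset_rfl⟩⟩
    rw [Finset.mem_filter, Finset.mem_powerset] at hY
    refine ⟨Y, ?_, hY.2.2⟩
    rw [Finset.mem_filter, Finset.mem_powerset]
    refine ⟨hY.1, hY.2.1, ?_⟩
    intro D hD hsub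
    apply Finset.eq_of_subset_of_card_le hsub
    apply hmax
    rw [Finset.mem_filter, Finset.mem_powerset]
    exact ⟨Fh49.fl_sub, ⟨D, hD, rfl⟩, hY.2.2.trans hsub⟩
  have hPbond : ∀ Y ∈ P, Bond adj U Y := by
    intro Y hY
    obtain ⟨⟨C, hC, rfl⟩, -⟩ := hPm Y hY
    exact (cellF C hC).bond
  have hPdisj : ∀ Y ∈ P, ∀ Y' ∈ P, Y ≠ Y' → Disjoint Y Y' := by
    intro Y hY Y' hY' hne
    obtain ⟨⟨C, hC, hCY⟩, hm⟩ := hPm Y hY
    obtain ⟨⟨D, hD, hDY⟩, hm'⟩ := hPm Y' hY'
    have hCD : Disjoint C D := by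
      rw [Finset.disjoint_left]
      intro x hx hx'
      apply hne
      rw [hCY, hDY, cellD C D hC hD x hx hx']
    rcases (cellF C hC).lam (cellF D hD) hCD with h | h | h
    · exact absurd (by
        rw [← hCY] at h
        rw [hDY]
        exact hm D hD h) hne
    · exact absurd (by
        rw [← hDY] at h
        have := hm' C hC h
        rw [this, hCY]) hne
    · rw [hCY, hDY]
      exact h
  have hPW : P.biUnion id = fl49 adj U (U \ Z) X := by
    ext x
    rw [Finset.mem_biUnion]
    constructor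
    · rintro ⟨Y, hY, hx⟩
      obtain ⟨⟨C, hC, hCY⟩, -⟩ := hPm Y hY
      simp only [id, hCY] at hx
      exact F.mono (cellF C hC) (cellSub C hC) hx
    · intro hx
      obtain ⟨C, hC, hxC⟩ := cellEx x hx
      obtain ⟨Y, hY, hsub⟩ := hPabove C hC
      exact ⟨Y, hY, hsub ((cellF C hC).sub_fl hxC)⟩
  have htr : ∀ Y ∈ P, ∃ t' : Tree α, t'.leaves.Nodup ∧ t'.set = Y ∧
      ∀ s, IsSub s t' → Gd49 adj U t s.set := by
    intro Y hY
    obtain ⟨⟨C, hC, rfl⟩, -⟩ := hPm Y hY
    exact cellT C hC
  let tr : Finset α → Tree α := fun Y => if h : ∃ t' : Tree α, t'.leaves.Nodup ∧ t'.set = Y ∧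
    ∀ s, IsSub s t' → Gd49 adj U t s.set then h.choose else t
  have htr' : ∀ Y ∈ P, (tr Y).leaves.Nodup ∧ (tr Y).set = Y ∧
      ∀ s, IsSub s (tr Y) → Gd49 adj U t s.set := by
    intro Y hY
    have h := htr Y hY
    have h1 : tr Y = h.choose := dif_pos h
    rw [h1]
    exact h.choose_spec
  obtain ⟨t', k1, k2, k3⟩ := cat49 hE adj hs U (fl49 adj U (U \ Z) X) P F.bond hPbond hPdisj hPW
    tr (fun Y hY => ⟨(htr' Y hY).1, (htr' Y hY).2.1⟩)
  refine ⟨t', k1, k2, ?_⟩
  intro s hs'
  rcases k3 s hs' with ⟨Y, hY, h⟩ | ⟨A, hAP, -, hA, hB⟩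
  · exact (htr' Y hY).2.2 s h
  · refine ⟨Or.inr hB, H0, .node H1 H2, H1, H2, hH0, hH, hH1, hH2, ?_⟩
    intro a ha b hb hbS hab
    have haX' : a ∈ fl49 adj U (U \ Z) X := by
      rw [← k2]
      exact (by
        have : s.set ⊆ t'.set := by
          intro x hx
          have h1 := hs'
          clear * - h1 hx
          induction h1 with
          | refl => exact hx
          | left l r _ ih => rw [set_node49]; exact Finset.mem_union_left _ ih
          | right l r _ ih => rw [set_node49]; exact Finset.mem_union_right _ ih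
        exact this ha)
    have haZ : a ∈ Z := by
      by_contra h
      exact Finset.disjoint_left.1 F.fl_disj haX'
        (Finset.mem_sdiff.2 ⟨Fh49.fl_sub haX', h⟩)
    rw [hA, Finset.mem_biUnion] at ha
    obtain ⟨Y, hYA, haY⟩ := ha
    simp only [id] at haY
    have hbY : b ∉ Y := by
      intro h
      apply hbS
      rw [hA, Finset.mem_biUnion]
      exact ⟨Y, hYA, h⟩
    obtain ⟨⟨C, hC, hCY⟩, -⟩ := hPm Y (hAP hYA)
    have haC : a ∈ C := by
      rw [hCY] at haY hbY
      exact (cellF C hC).leave haY hb hbY hab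
    by_cases hbZ : b ∈ Z
    · by_cases hbX : b ∈ fl49 adj U (U \ Z) X
      · rw [← hPW, Finset.mem_biUnion] at hbX
        obtain ⟨Y', hY', hbY'⟩ := hbX
        simp only [id] at hbY'
        have hY'A : Y' ∉ A := by
          intro h
          apply hbS
          rw [hA, Finset.mem_biUnion]
          exact ⟨Y', h, hbY'⟩
        have hne : Y' ≠ Y := by
          rintro rfl
          exact hY'A hYA
        have haY' : a ∉ Y' := fun h =>
          Finset.disjoint_left.1 (hPdisj Y' hY' Y (hAP hYA) hne) h haY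
        obtain ⟨⟨D, hD, hDY⟩, -⟩ := hPm Y' hY'
        have hbD : b ∈ D := by
          rw [hDY] at hbY' haY'
          exact (cellF D hD).leave hbY' (Fh49.fl_sub haX') haY' (hs _ _ hab)
        have hCD : ∀ x, x ∈ C → x ∉ D := by
          intro x hx hx'
          apply hne
          rw [hCY, hDY, cellD C D hC hD x hx hx']
        rcases hC with h | h | h <;> rcases hD with h' | h' | h'
        · have hb' := Finset.mem_inter.1 (h'.1 hbD)
          exact absurd hbD (hCD b (h.2.2 a haC b (Finset.mem_inter.2 hb') hab))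
        · have ha' := (Finset.mem_inter.1 (h.1 haC)).2
          have hb' := (Finset.mem_inter.1 (h'.1 hbD)).2
          have hb'' : b ∉ H1.set := fun h => Finset.disjoint_left.1 hd12 h hb'
          right; right; left
          simp only [ha', hb'', not_false_iff]
        · have ha' := (Finset.mem_inter.1 (h.1 haC)).1
          have hb' := (Finset.mem_sdiff.1 (h'.1.1 hbD)).2
          have hb'' := hXn a ha' b hbZ hb' hab
          have ha'' := hXH ha'
          right; left
          simp only [ha'', hb'', not_false_iff]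
        · have ha' := (Finset.mem_inter.1 (h.1 haC)).2
          have hb' := (Finset.mem_inter.1 (h'.1 hbD)).2
          have ha'' : a ∉ H1.set := fun h => Finset.disjoint_left.1 hd12 h ha'
          right; right; left
          simp only [ha'', hb', not_true]
        · have hb' := Finset.mem_inter.1 (h'.1 hbD)
          exact absurd hbD (hCD b (h.2.2 a haC b (Finset.mem_inter.2 hb') hab))
        · have ha' := (Finset.mem_inter.1 (h.1 haC)).1
          have hb' := (Finset.mem_sdiff.1 (h'.1.1 hbD)).2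
          have hb'' := hXn a ha' b hbZ hb' hab
          have ha'' := hXH ha'
          right; left
          simp only [ha'', hb'', not_false_iff]
        · have ha' := (Finset.mem_sdiff.1 (h.1.1 haC)).2
          have hb' := (Finset.mem_inter.1 (h'.1 hbD)).1
          have ha'' := hXn b hb' a haZ ha' (hs _ _ hab)
          have hb'' := hXH hb'
          right; left
          simp only [ha'', hb'', not_true]
        · have ha' := (Finset.mem_sdiff.1 (h.1.1 haC)).2
          have hb' := (Finset.mem_inter.1 (h'.1 hbD)).1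
          have ha'' := hXn b hb' a haZ ha' (hs _ _ hab)
          have hb'' := hXH hb'
          right; left
          simp only [ha'', hb'', not_true]
        · exact absurd hbD (hCD b (h.1.2.2 a haC b (h'.1.1 hbD) hab))
      · have haX := F.leave haX' hb hbX hab
        have hbX' : b ∉ X := fun h => hbX (F.sub_fl h)
        have h1 := hXn a haX b hbZ hbX' hab
        have h2 := hXH haX
        right; left
        simp only [h1, h2, not_false_iff]
    · left
      exact hcov a haZ b hb hbZ hab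

theorem rec49 (hE : StExt) {U : Finset α} {t : Tree α} (hs : ∀ a b, adj a b → adj b a)
    (hU : Cn adj U) (ht : t.set = U) (htn : t.leaves.Nodup)
    (hcut : ∀ x ∈ U, ∃ A B : Finset α, U.erase x = A ∪ B ∧ (A = ∅ ∨ Cn adj A) ∧
      (B = ∅ ∨ Cn adj B)) :
    ∀ n, ∀ Z : Finset α, Z.card ≤ n → Bond adj U Z → ∀ H, IsSub H t → Rec49 adj U t Z H := by
  intro n
  induction n with
  | zero =>
    intro Z hZ hB
    have := hB.2.1.1.card_pos
    omega
  | succ n ih =>
    intro Z hZ hB H
    have ih' : ∀ Y, Y.card < Z.card → Bond adj U Y → Rec49 adj U t Y t :=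
      fun Y hY hYB => ih Y (by omega) hYB t IsSub.refl
    induction H with
    | leaf x => exact fun hx => rec_leaf49 hs hU ht hB hcut ih' x hx
    | node H1 H2 ih1 ih2 =>
      intro hH
      exact rec_node49 hE hs hU ht htn hB ih' H1 H2 hH
        (ih1 (isSub_trans49 (IsSub.left _ _ IsSub.refl) hH))
        (ih2 (isSub_trans49 (IsSub.right _ _ IsSub.refl) hH))

theorem leaf_sub49 {t : Tree α} {x : α} (h : x ∈ t.set) : IsSub (.leaf x) t := by
  induction t with
  | leaf y =>
    rw [set_leaf49, Finset.mem_singleton] at h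
    subst h
    exact IsSub.refl
  | node l r ihl ihr =>
    rw [set_node49, Finset.mem_union] at h
    rcases h with h | h
    · exact IsSub.left _ _ (ihl h)
    · exact IsSub.right _ _ (ihr h)

theorem two49 {U : Finset α} (hs : ∀ a b, adj a b → adj b a) (hU : Cn adj U) {r : α}
    (hr : r ∈ U) {A B : Finset α} (hAB : U.erase r = A ∪ B) (hA : Cn adj A) (hB : Cn adj B)
    (hn : ¬ Cn adj (U.erase r)) :
    Bond adj U A ∧ Cov49 adj U A (.leaf r) ∧ Disjoint A B ∧ r ∉ A ∧
      (∀ a ∈ A, ∀ b ∈ B, ¬ adj a b) := by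
  have hd : Disjoint A B := by
    rw [Finset.disjoint_left]
    intro x hx hx'
    apply hn
    rw [hAB]
    exact hA.meet49 hB hx hx'
  have hno : ∀ a ∈ A, ∀ b ∈ B, ¬ adj a b := by
    intro a ha b hb hab
    apply hn
    rw [hAB]
    exact Cn.un49 hs hA hB ha hb hab
  have hmem : ∀ x, x ∈ A ∪ B ↔ x ≠ r ∧ x ∈ U := by
    intro x
    rw [← hAB, Finset.mem_erase]
  have hrA : r ∉ A := fun h => ((hmem r).1 (Finset.mem_union_left _ h)).1 rfl
  have hrB : r ∉ B := fun h => ((hmem r).1 (Finset.mem_union_right _ h)).1 rfl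
  have hAU : A ⊆ U := fun x hx => ((hmem x).1 (Finset.mem_union_left _ hx)).2
  have hBU : B ⊆ U := fun x hx => ((hmem x).1 (Finset.mem_union_right _ hx)).2
  have hUA : U \ A = B ∪ {r} := by
    ext x
    have h1 := hmem x
    rw [Finset.mem_union] at h1
    have h2 : x ∈ A → x ∉ B := fun h h' => Finset.disjoint_left.1 hd h h'
    rw [Finset.mem_sdiff, Finset.mem_union, Finset.mem_singleton]
    constructor
    · rintro ⟨h3, h4⟩
      by_cases h5 : x = r
      · exact Or.inr h5
      · exact Or.inl ((h1.2 ⟨h5, h3⟩).resolve_left h4)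
    · rintro (h3 | rfl)
      · exact ⟨hBU h3, fun h4 => h2 h4 h3⟩
      · exact ⟨hr, hrA⟩
  have hBr : ∃ b ∈ B, adj b r := by
    obtain ⟨b, hb, c, hc, hcB, hbc⟩ := hU.2 B hBU hB.1 (by
      rintro rfl
      exact hrB hr)
    refine ⟨b, hb, ?_⟩
    by_cases h5 : c = r
    · rwa [h5] at hbc
    · have h6 := (hmem c).2 ⟨h5, hc⟩
      rcases Finset.mem_union.1 h6 with h7 | h7
      · exact absurd (hs _ _ hbc) (hno c h7 b hb)
      · exact absurd h7 hcB
  obtain ⟨b0, hb0, hb0r⟩ := hBr
  refine ⟨⟨hAU, hA, ?_⟩, ?_, hd, hrA, hno⟩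
  · rw [hUA]
    exact Cn.un49 hs hB (Cn.sg49 r) hb0 (Finset.mem_singleton_self r) hb0r
  · intro a ha b hb hbA hab
    have hbr : b = r := by
      by_contra h5
      rcases Finset.mem_union.1 ((hmem b).2 ⟨h5, hb⟩) with h7 | h7
      · exact hbA h7
      · exact hno a ha b h7 hab
    subst hbr
    rw [set_leaf49]
    have h2 : a ∉ ({b} : Finset α) := by
      rw [Finset.mem_singleton]
      rintro rfl
      exact hrA ha
    simp only [h2, Finset.mem_singleton, not_true]

end V2

theorem V2_49 (hE : StExt) : StBC := by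
  intro α adj hs U t htn ht hU hcut
  obtain ⟨r, hr⟩ := hU.1
  have hleaf : IsSub (.leaf r) t := leaf_sub49 (ht ▸ hr)
  have hrec : ∀ Y, Bond adj U Y → Cov49 adj U Y (.leaf r) → ∃ t' : Tree α, t'.leaves.Nodup ∧
      t'.set = Y ∧ ∀ s, IsSub s t' → Gd49 adj U t s.set := by
    intro Y hY hc
    exact rec_bond49 hs hU ht hY hleaf hc
      (rec49 hE hs hU ht htn hcut Y.card Y le_rfl hY t IsSub.refl)
  -- from good nodes to the conclusion
  have hfin : ∀ S : Finset α, (S = U ∨ Gd49 adj U t S) →
      (S = U ∨ (∃ x, S = {x}) ∨ Bond adj U S) ∧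
      ∃ s₁ s₂ s₃ s₄, IsSub s₁ t ∧ IsSub s₂ t ∧ IsSub s₃ t ∧ IsSub s₄ t ∧
        ∀ a ∈ S, ∀ b ∈ U, b ∉ S → adj a b →
          (a ∈ s₁.set ↔ b ∉ s₁.set) ∨ (a ∈ s₂.set ↔ b ∉ s₂.set) ∨
          (a ∈ s₃.set ↔ b ∉ s₃.set) ∨ (a ∈ s₄.set ↔ b ∉ s₄.set) := by
    rintro S (rfl | h)
    · exact ⟨Or.inl rfl, t, t, t, t, IsSub.refl, IsSub.refl, IsSub.refl, IsSub.refl,
        fun a _ b hb hbn _ => absurd hb hbn⟩
    · exact ⟨Or.inr h.1, h.2⟩
  have hsing : Gd49 adj U t {r} := by
    refine Gd49.of_cov hleaf (Or.inl ⟨r, rfl⟩) ?_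
    intro a ha b hb hbn _
    rw [set_leaf49]
    simp only [ha, hbn, not_false_iff]
  by_cases h1 : U.erase r = ∅
  · have hUr : U = {r} := by
      ext x
      rw [Finset.mem_singleton]
      constructor
      · intro hx
        by_contra hne
        have : x ∈ U.erase r := Finset.mem_erase.2 ⟨hne, hx⟩
        rw [h1] at this
        simp at this
      · rintro rfl
        exact hr
    refine ⟨.leaf r, by simp [Tree.leaves], by rw [set_leaf49, hUr], ?_⟩
    intro s hs'
    apply hfin
    left
    rw [isSub_leaf49 hs', set_leaf49, hUr]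
  · by_cases h2 : Cn adj (U.erase r)
    · have hsd : U \ U.erase r = {r} := by
        ext x
        rw [Finset.mem_sdiff, Finset.mem_erase, Finset.mem_singleton]
        constructor
        · rintro ⟨h3, h4⟩
          by_contra h5
          exact h4 ⟨h5, h3⟩
        · rintro rfl
          exact ⟨hr, fun h => h.1 rfl⟩
      have hB : Bond adj U (U.erase r) := by
        refine ⟨Finset.erase_subset r U, h2, ?_⟩
        rw [hsd]
        exact Cn.sg49 r
      have hc : Cov49 adj U (U.erase r) (.leaf r) := by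
        intro a ha b hb hbn _
        have hbr : b ∈ ({r} : Finset α) := by
          rw [← hsd]
          exact Finset.mem_sdiff.2 ⟨hb, hbn⟩
        have har : a ∉ ({r} : Finset α) := by
          rw [Finset.mem_singleton]
          rintro rfl
          exact (Finset.mem_erase.1 ha).1 rfl
        rw [set_leaf49]
        simp only [har, hbr, not_true]
      obtain ⟨t', k1, k2, k3⟩ := hrec _ hB hc
      have hset : (Tree.node (.leaf r) t').set = U := by
        rw [set_node49, set_leaf49, k2]
        ext x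
        rw [Finset.mem_union, Finset.mem_singleton, Finset.mem_erase]
        constructor
        · rintro (rfl | h)
          · exact hr
          · exact h.2
        · intro h
          by_cases h5 : x = r
          · exact Or.inl h5
          · exact Or.inr ⟨h5, h⟩
      refine ⟨.node (.leaf r) t', leaves_node49 (by simp [Tree.leaves]) k1 ?_, hset, ?_⟩
      · rw [set_leaf49, k2, Finset.disjoint_singleton_left]
        simp
      · intro s hs'
        apply hfin
        rcases isSub_node49 hs' with rfl | h | h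
        · exact Or.inl hset
        · right
          rw [isSub_leaf49 h, set_leaf49]
          exact hsing
        · exact Or.inr (k3 s h)
    · obtain ⟨A, B, hAB, hA, hB⟩ := hcut r hr
      have hAc : Cn adj A := by
        refine hA.resolve_left ?_
        rintro rfl
        rw [Finset.empty_union] at hAB
        rw [hAB] at h1 h2
        exact h2 (hB.resolve_left h1)
      have hBc : Cn adj B := by
        refine hB.resolve_left ?_
        rintro rfl
        rw [Finset.union_empty] at hAB
        rw [hAB] at h1 h2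
        exact h2 (hA.resolve_left h1)
      obtain ⟨a1, a2, a3, a4, a5⟩ := two49 hs hU hr hAB hAc hBc h2
      obtain ⟨b1, b2, b3, b4, b5⟩ := two49 hs hU hr (by rw [hAB, Finset.union_comm]) hBc hAc h2
      obtain ⟨tA, k1, k2, k3⟩ := hrec A a1 a2
      obtain ⟨tB, l1, l2, l3⟩ := hrec B b1 b2
      have hs1 : (Tree.node (.leaf r) tA).set = U \ B := by
        rw [set_node49, set_leaf49, k2]
        ext x
        have h1 : x ∈ U.erase r ↔ x ∈ A ∪ B := by rw [hAB]
        rw [Finset.mem_erase, Finset.mem_union] at h1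
        have h3 : x ∈ A → x ∉ B := fun h h' => Finset.disjoint_left.1 a3 h h'
        have h4 : x ∈ A → x ∈ U := fun h => a1.1 h
        rw [Finset.mem_union, Finset.mem_singleton, Finset.mem_sdiff]
        constructor
        · rintro (rfl | h)
          · exact ⟨hr, b4⟩
          · exact ⟨h4 h, h3 h⟩
        · rintro ⟨h5, h6⟩
          by_cases h7 : x = r
          · exact Or.inl h7
          · exact Or.inr ((h1.1 ⟨h7, h5⟩).resolve_right h6)
      have hs2 : (Tree.node (.node (.leaf r) tA) tB).set = U := by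
        rw [set_node49, hs1, l2]
        exact Finset.sdiff_union_of_subset b1.1
      have hUB : U \ (U \ B) = B := by
        rw [Finset.sdiff_sdiff_eq_self b1.1]
      refine ⟨.node (.node (.leaf r) tA) tB, leaves_node49 (leaves_node49
        (by simp [Tree.leaves]) k1 ?_) l1 ?_, hs2, ?_⟩
      · rw [set_leaf49, k2, Finset.disjoint_singleton_left]
        exact a4
      · rw [hs1, l2]
        exact Finset.sdiff_disjoint
      · intro s hs'
        apply hfin
        rcases isSub_node49 hs' with rfl | h | h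
        · exact Or.inl hs2
        · rcases isSub_node49 h with rfl | h | h
          · right
            rw [hs1]
            refine Gd49.of_cov hleaf (Or.inr ⟨Finset.sdiff_subset, b1.2.2, ?_⟩) ?_
            · rw [hUB]
              exact b1.2.1
            · intro a ha b hb hbn hab
              have hbB : b ∈ B := by
                rw [← hUB]
                exact Finset.mem_sdiff.2 ⟨hb, hbn⟩
              have h9 := b2 b hbB a (Finset.mem_sdiff.1 ha).1 (Finset.mem_sdiff.1 ha).2
                (hs _ _ hab)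
              tauto
          · right
            rw [isSub_leaf49 h, set_leaf49]
            exact hsing
          · exact Or.inr (k3 s h)
        · exact Or.inr (l3 s h)

end RotWqo.Pb
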