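import Pool.Agent.Lib.MP_cb4a0f_co.Pb.V4_77

/-!
# MP_cb4a0f_co: planar rotated graphs of bounded branch-width, bonds are arcs (row V5)
-/

open Classical

namespace RotWqo.Pb

open RotWqo.Bag RotWqo.Hk RotWqo.Pl

/-- row V5 -/
theorem v5_77 : StBond → StTrunc → StOne := by
  intro hB hT V H G U hG hU a ha b hb hna hnb hab
  obtain ⟨hUs, hU1, hU2⟩ := hU
  have had : a ∈ G.darts := hUs ha
  have hbd : b ∈ G.darts := hUs hb
  obtain ⟨K, hK, hKv, hKd, hKb, hKo⟩ := hT V H G hG ⟨a, had⟩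
  have hmem : ∀ h ∈ G.darts, ∀ i : Fin 3, (h, i) ∈ K.darts := by
    intro h hh i
    rw [hKd]
    exact Finset.mem_product.2 ⟨hh, Finset.mem_univ _⟩
  -- connected sets of half-edges are connected sets of vertices
  have hconn : ∀ S : Finset H, S ⊆ G.darts → Cn (adj G) S → Tc.Conn K S := by
    intro S hS hc Y hY hYne hYS hN
    obtain ⟨x, hx, y, hy, hyY, hxy⟩ := hc.2 Y hY hYne hYS
    have hxd : x ∈ G.darts := hS (hY hx)
    have hyd : y ∈ G.darts := hS hy
    have hy' : y ∈ S \ Y := Finset.mem_sdiff.2 ⟨hy, hyY⟩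
    have c0 : y = G.opp x → False := by
      intro h
      have h1 := hN (x, 0) (hmem x hxd 0) (by rw [hKb]; exact hx)
      rw [(hKo x hxd).1, hKb, ← h] at h1
      exact h1 hy'
    rcases hxy with h | h | h | h
    · exact c0 h
    · exact c0 (by rw [h, G.opp_opp y hyd])
    · have h1 := hN (x, 1) (hmem x hxd 1) (by rw [hKb]; exact hx)
      rw [(hKo x hxd).2.1, hKb, ← h] at h1
      exact h1 hy'
    · have h1 := hN (x, 2) (hmem x hxd 2) (by rw [hKb]; exact hx)
      rw [h, (hKo y hyd).2.2.1, hKb] at h1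
      exact h1 hy'
  -- the half-edges at a vertex form a face
  have nxK1 : ∀ h ∈ G.darts, nx K (h, 1) = (h, 2) := by
    intro h hh
    refine nx_of_rot (l := [(h, 0)]) ?_
    rw [hKb]
    show K.rot h ~r _
    rw [(hKo h hh).2.2.2]
    exact ⟨1, rfl⟩
  have hfs : ∀ h ∈ G.darts, fs K (nx G h, 2) = (h, 2) := by
    intro h hh
    unfold fs
    rw [(hKo h hh).2.2.1, nxK1 h hh]
  have hR : ∀ h ∈ G.darts, ∀ g ∈ G.darts, G.base g = G.base h → Fc11.R K (g, 2) (h, 2) := by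
    intro h hh g hg hbb
    refine Tr77.nx_closed (G := G) (P := fun z => Fc11.R K (z, 2) (h, 2)) ?_ hh hg hbb
      (Fc11.R.refl _)
    intro x hx h2
    exact Fc11.R.head (hfs x hx) h2
  have hbdm : ∀ h ∈ U, nx G h ∉ U → (nx G h, 2) ∈ bd K (G.darts \ U) := by
    intro h hh hn
    have hhd := hUs hh
    rw [mem_bd]
    refine ⟨hmem _ (nx_mem hhd).1 2, ?_, ?_⟩
    · rw [hKb]
      exact Finset.mem_sdiff.2 ⟨(nx_mem hhd).1, hn⟩
    · rw [(hKo h hhd).2.2.1, hKb]
      simp [hh]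
  have e1 : K.verts \ (G.darts \ U) = U := by
    rw [hKv, Finset.sdiff_sdiff_eq_self hUs]
  have key := hB H (H × Fin 3) K (G.darts \ U) hK (by rw [hKv]; exact Finset.sdiff_subset)
    ⟨nx G a, Finset.mem_sdiff.2 ⟨(nx_mem had).1, hna⟩⟩ (by
      intro h
      rw [hKv] at h
      have h1 : a ∈ G.darts \ U := by
        rw [h]
        exact had
      exact (Finset.mem_sdiff.1 h1).2 ha)
    (hconn _ Finset.sdiff_subset hU2) (by rw [e1]; exact hconn U hUs hU1)
    _ (hbdm a ha hna) _ (hbdm b hb hnb)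
    (hR _ (nx_mem hbd).1 _ (nx_mem had).1 (by rw [(nx_mem had).2, (nx_mem hbd).2, hab]))
  exact nx_injOn G had hbd (Prod.ext_iff.1 key).1

end RotWqo.Pb
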