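import Pool.Agent.Lib.MP_cb4a0f_co.Pb.Stmts
import Pool.Agent.Lib.MP_cb4a0f_co.Pl.Nx6

/-!
# MP_cb4a0f_co: restriction of decompositions to a union of components (V7)
-/

open Classical

namespace RotWqo.Pb

open RotWqo.Bag RotWqo.Hk RotWqo.Pl

/-- The part of a tree with leaves in a given set. -/
theorem restrict_tree23 {H : Type*} (p : H → Prop) (t : Tree H) :
    t.leaves.filter (fun h => decide (p h)) = [] ∨
    ∃ t' : Tree H, t'.leaves = t.leaves.filter (fun h => decide (p h)) ∧
      ∀ s', IsSub s' t' → ∃ s, IsSub s t ∧ s'.leaves = s.leaves.filter (fun h => decide (p h)) := by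
  induction t with
  | leaf h =>
    by_cases hp : p h
    · right
      refine ⟨.leaf h, ?_, ?_⟩
      · simp [Tree.leaves, hp]
      · intro s' hs'
        cases hs'
        exact ⟨.leaf h, IsSub.refl, by simp [Tree.leaves, hp]⟩
    · left
      simp [Tree.leaves, hp]
  | node a b iha ihb =>
    rcases iha with ha | ⟨a', ha1, ha2⟩
    · rcases ihb with hb | ⟨b', hb1, hb2⟩
      · left
        simp only [Tree.leaves, List.filter_append, ha, hb, List.append_nil]
      · right
        refine ⟨b', ?_, ?_⟩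
        · simp only [Tree.leaves, List.filter_append, ha, List.nil_append, hb1]
        · intro s' hs'
          obtain ⟨s, h1, h2⟩ := hb2 s' hs'
          exact ⟨s, IsSub.right _ _ h1, h2⟩
    · rcases ihb with hb | ⟨b', hb1, hb2⟩
      · right
        refine ⟨a', ?_, ?_⟩
        · simp only [Tree.leaves, List.filter_append, hb, List.append_nil, ha1]
        · intro s' hs'
          obtain ⟨s, h1, h2⟩ := ha2 s' hs'
          exact ⟨s, IsSub.left _ _ h1, h2⟩
      · right
        refine ⟨.node a' b', ?_, ?_⟩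
        · simp only [Tree.leaves, List.filter_append, ha1, hb1]
        · intro s' hs'
          cases hs' with
          | refl =>
            exact ⟨.node a b, IsSub.refl, by simp only [Tree.leaves, List.filter_append, ha1, hb1]⟩
          | left _ _ h =>
            obtain ⟨s, h1, h2⟩ := ha2 s' h
            exact ⟨s, IsSub.left _ _ h1, h2⟩
          | right _ _ h =>
            obtain ⟨s, h1, h2⟩ := hb2 s' h
            exact ⟨s, IsSub.right _ _ h1, h2⟩

theorem mem_dts23 {V H : Type*} {G : RotGraph V H} {A : Finset V} {h : H} :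
    h ∈ dts G A ↔ h ∈ G.darts ∧ G.base h ∈ A := by
  simp [dts]

/-- The restriction of a tree of all half-edges to the half-edges at `A`. -/
theorem restrict23 {V H : Type*} (G : RotGraph V H) (A : Finset V) (t : Tree H)
    (hA : A ⊆ G.verts) (hn : t.leaves.Nodup) (ht : t.set = dts G G.verts) :
    dts G A = ∅ ∨ ∃ t' : Tree H, t'.leaves.Nodup ∧ t'.set = dts G A ∧
      ∀ s', IsSub s' t' → ∃ s, IsSub s t ∧ ∀ h, h ∈ s'.set ↔ h ∈ s.set ∧ h ∈ dts G A := by
  have hsub : ∀ h, h ∈ dts G A → h ∈ t.set := by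
    intro h hh
    rw [ht]
    rw [mem_dts23] at hh ⊢
    exact ⟨hh.1, hA hh.2⟩
  rcases restrict_tree23 (fun h => h ∈ dts G A) t with h0 | ⟨t', h1, h2⟩
  · left
    rw [Finset.eq_empty_iff_forall_notMem]
    intro h hh
    have h3 := List.filter_eq_nil_iff.1 h0 h (List.mem_toFinset.1 (hsub h hh))
    simp only [decide_eq_true_eq] at h3
    exact h3 hh
  · right
    refine ⟨t', ?_, ?_, ?_⟩
    · rw [h1]
      exact hn.filter _
    · ext h
      unfold Tree.set
      rw [List.mem_toFinset, h1, List.mem_filter]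
      constructor
      · rintro ⟨-, h3⟩
        simpa using h3
      · intro h3
        exact ⟨List.mem_toFinset.1 (hsub h h3), by simpa using h3⟩
    · intro s' hs'
      obtain ⟨s, h3, h4⟩ := h2 s' hs'
      refine ⟨s, h3, fun h => ?_⟩
      unfold Tree.set
      rw [List.mem_toFinset, List.mem_toFinset, h4, List.mem_filter]
      simp

/-- (V7) Restriction to a union of connected components. -/
theorem V7_23 : StRestr := by
  intro k V H G A t hA hc
  have hop : ∀ h ∈ dts G A, G.opp h ∈ dts G A := by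
    intro h hh
    rw [mem_dts23] at hh ⊢
    refine ⟨G.opp_mem h hh.1, ?_⟩
    by_contra hb
    have h1 : h ∈ bd G A := by
      rw [mem_bd]
      exact ⟨hh.1, hh.2, hb⟩
    have h2 : bd G A = ∅ := Finset.card_eq_zero.1 hc
    rw [h2] at h1
    exact Finset.notMem_empty _ h1
  have hnx : ∀ h ∈ dts G A, nx G h ∈ dts G A := by
    intro h hh
    rw [mem_dts23] at hh ⊢
    obtain ⟨h1, h2⟩ := nx_mem hh.1
    exact ⟨h1, by rw [h2]; exact hh.2⟩
  constructor
  · rintro ⟨hn, ht, hs⟩
    rcases restrict23 G A t hA hn ht with h0 | ⟨t', h1, h2, h3⟩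
    · exact Or.inl h0
    · refine Or.inr ⟨t', h1, h2, fun s' hs' => ?_⟩
      obtain ⟨s, h4, h5⟩ := h3 s' hs'
      obtain ⟨h6, h7⟩ := hs s h4
      refine ⟨le_trans (Finset.card_le_card ?_) h6, le_trans (Finset.card_le_card ?_) h7⟩
      · intro v hv
        unfold bv at hv ⊢
        rw [Finset.mem_image] at hv ⊢
        obtain ⟨h, hh, rfl⟩ := hv
        rw [Finset.mem_filter] at hh
        obtain ⟨hh1, g, hg1, hg2, hg3⟩ := hh
        refine ⟨h, ?_, rfl⟩
        rw [Finset.mem_filter]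
        refine ⟨((h5 h).1 hh1).1, g, hg1, hg2, fun hg4 => hg3 ((h5 g).2 ⟨hg4, ?_⟩)⟩
        have h8 := ((h5 h).1 hh1).2
        rw [mem_dts23] at h8 ⊢
        exact ⟨hg1, by rw [hg2]; exact h8.2⟩
      · intro h hh
        rw [Finset.mem_filter] at hh ⊢
        obtain ⟨hh1, hh2⟩ := hh
        refine ⟨((h5 h).1 hh1).1, fun h8 => hh2 ((h5 _).2 ⟨h8, hop h ((h5 h).1 hh1).2⟩)⟩
  · rintro ⟨hn, ht, hs⟩
    rcases restrict23 G A t hA hn ht with h0 | ⟨t', h1, h2, h3⟩
    · exact Or.inl h0
    · refine Or.inr ⟨t', h1, h2, fun s' hs' => ?_⟩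
      obtain ⟨s, h4, h5⟩ := h3 s' hs'
      obtain ⟨h6, h7, h8⟩ := hs s h4
      refine ⟨?_, le_trans (Finset.card_le_card ?_) h7, le_trans (Finset.card_le_card ?_) h8⟩
      · intro a ha b hb ha' hb' hab
        refine h6 a ((h5 a).1 ha).1 b ((h5 b).1 hb).1 (fun h9 => ha' ((h5 _).2 ⟨h9, ?_⟩))
          (fun h9 => hb' ((h5 _).2 ⟨h9, ?_⟩)) hab
        · exact hnx a ((h5 a).1 ha).2
        · exact hnx b ((h5 b).1 hb).2
      · intro h hh
        rw [Finset.mem_filter] at hh ⊢
        obtain ⟨hh1, hh2⟩ := hh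
        refine ⟨((h5 h).1 hh1).1, fun h8 => hh2 ((h5 _).2 ⟨h8, hnx h ((h5 h).1 hh1).2⟩)⟩
      · intro h hh
        rw [Finset.mem_filter] at hh ⊢
        obtain ⟨hh1, hh2⟩ := hh
        refine ⟨((h5 h).1 hh1).1, fun h8 => hh2 ((h5 _).2 ⟨h8, hop h ((h5 h).1 hh1).2⟩)⟩

end RotWqo.Pb
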